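import Pool.Agent.VCT.Targets

/-!
# Target `T_ASM`: the valuation argument
-/

set_option autoImplicit false

namespace Pool.Agent.VCT.ASM_

open Pool.Agent.VCC Pool.Agent.VCT

universe u

section Map

variable {R S : Type*} [CommRing R] [CommRing S] {m : ℕ} (φ : R →+* S)

theorem uu_map (u : Fin 2) (a : Fin 3) : (uu u a : S) = φ (uu u a) := by
  fin_cases u <;> fin_cases a <;> simp [uu]

theorem Q2_map (w : Frm R) (z : Mat R) (a b : Fin 3) :
    Q2 (fun c a b => φ (w c a b)) (fun b c => φ (z b c)) a b = φ (Q2 w z a b) := by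
  simp [Q2]

theorem L2_map (w : Frm R) (z : Mat R) (a e : Fin 3) :
    L2 (fun c a b => φ (w c a b)) (fun b c => φ (z b c)) a e = φ (L2 w z a e) := by
  simp [L2]

theorem L3_map (w1 w2 w3 : Frm R) (A B C : Mat R) (a b d : Fin 3) :
    L3 (fun c a b => φ (w1 c a b)) (fun c a b => φ (w2 c a b)) (fun c a b => φ (w3 c a b))
      (fun b c => φ (A b c)) (fun b c => φ (B b c)) (fun b c => φ (C b c)) a b d =
      φ (L3 w1 w2 w3 A B C a b d) := by
  simp [L3]

theorem rc_map (u : Fin 2) (b e : Fin 3) : (rc u b e : S) = φ (rc u b e) := by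
  unfold rc
  split_ifs <;> simp [← uu_map φ]

theorem sq_map (w : Frm R) (z : Mat R) (u : Fin 2) (e a : Fin 3) :
    sq (fun c a b => φ (w c a b)) (fun b c => φ (z b c)) u e a = φ (sq w z u e a) := by
  unfold sq
  rw [Q2_map, map_sub, uu_map φ]
  split_ifs <;> simp

theorem cr_map (p q p' q' k l : Fin m) (e b : Fin 3) :
    (cr p q p' q' k l e b : S) = φ (cr p q p' q' k l e b) := by
  unfold cr
  split_ifs <;> simp

theorem XX_map (w : Arr m R) (p q : Fin m) (X : Crs m R) (s : Fin m → Fin 3 → Fin m → Fin 3 → R)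
    (f : Fin m → Fin m → Fin 3 → Fin m → Fin 3 → R) (i : Fin m) (u : Fin 2)
    (k : Fin m) (e : Fin 3) (l : Fin m) (b : Fin 3) :
    XX (w.map φ) p q (X.map φ) (fun i a l b => φ (s i a l b))
      (fun i j c l b => φ (f i j c l b)) i u k e l b = φ (XX w p q X s f i u k e l b) := by
  unfold XX
  have h1 : ∀ a, sq (w.map φ q p) ((X.map φ).P u) u e a = φ (sq (w q p) (X.P u) u e a) :=
    fun a => sq_map φ _ _ _ _ _
  have h2 : ∀ a, sq (w.map φ p q) ((X.map φ).Q u) u e a = φ (sq (w p q) (X.Q u) u e a) :=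
    fun a => sq_map φ _ _ _ _ _
  simp only [h1, h2]
  split_ifs <;> simp [Crs.map]

theorem TA_map (w : Arr m R) (z : Zar m R) (S' : Fin m → Mat R) (g : Fin 3 → R) (i : Fin m)
    (u : Fin 2) (e b : Fin 3) :
    TA (w.map φ) (z.map φ) (fun j a b => φ (S' j a b)) (fun b => φ (g b)) i u e b =
      φ (TA w z S' g i u e b) := by
  have h : ∀ j c, Q2 (w.map φ i j) (z.map φ i j u) e c = φ (Q2 (w i j) (z i j u) e c) :=
    fun j c => Q2_map φ _ _ _ _
  unfold TA
  simp only [h, map_add, map_sub, map_sum, map_mul, apply_ite φ, map_zero, ← uu_map φ]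

theorem QQ_map (w : Arr m R) (z : Zar m R) (ε : R) (p q : Fin m) (X : Crs m R) (p' q' : Fin m)
    (X' : Crs m R) (s : Fin m → Fin 3 → Fin m → Fin 3 → R)
    (f : Fin m → Fin m → Fin 3 → Fin m → Fin 3 → R) (g : Fin m → Fin 3 → R)
    (i : Fin m) (u : Fin 2) (k : Fin m) (e : Fin 3) (l : Fin m) (b : Fin 3) :
    QQ (w.map φ) (z.map φ) (φ ε) p q (X.map φ) p' q' (X'.map φ) (fun i a l b => φ (s i a l b))
      (fun i j c l b => φ (f i j c l b)) (fun l b => φ (g l b)) i u k e l b =
      φ (QQ w z ε p q X p' q' X' s f g i u k e l b) := by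
  unfold QQ
  rw [XX_map, XX_map]
  simp only [map_sub, map_mul, map_add, apply_ite φ, map_neg, map_sum]
  congr 1
  split_ifs
  · exact TA_map φ w z (fun j a b => s j a l b) (g l) i u e b
  · simp [Zar.map]

/-- scaling -/
theorem QQ_smul (w : Arr m R) (z : Zar m R) (ε : R) (p q : Fin m) (X : Crs m R) (p' q' : Fin m)
    (X' : Crs m R) (s : Fin m → Fin 3 → Fin m → Fin 3 → R)
    (f : Fin m → Fin m → Fin 3 → Fin m → Fin 3 → R) (g : Fin m → Fin 3 → R) (c : R)
    (i : Fin m) (u : Fin 2) (k : Fin m) (e : Fin 3) (l : Fin m) (b : Fin 3) :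
    QQ w z ε p q X p' q' X' (fun i a l b => c * s i a l b)
      (fun i j d l b => c * f i j d l b) (fun l b => c * g l b) i u k e l b =
      c * QQ w z ε p q X p' q' X' s f g i u k e l b := by
  have hX : ∀ (p q : Fin m) (X : Crs m R), XX w p q X (fun i a l b => c * s i a l b)
      (fun i j d l b => c * f i j d l b) i u k e l b = c * XX w p q X s f i u k e l b := by
    intro p q X
    unfold XX
    simp only [mul_left_comm _ c, ← Finset.mul_sum]
    split_ifs <;> simp
  have hT : TA w z (fun j a b => c * s j a l b) (fun b => c * g l b) i u e b =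
      c * TA w z (fun j a b => s j a l b) (g l) i u e b := by
    unfold TA
    simp only [mul_add, mul_sub, Finset.mul_sum, mul_ite, mul_zero, mul_left_comm _ c]
  unfold QQ
  rw [hX, hX, hT]
  simp only [mul_left_comm _ c, ← Finset.mul_sum]
  split_ifs <;> ring

theorem EQ_smul (w : Arr m R) (z : Zar m R) (ε : R) (p q : Fin m) (X : Crs m R) (p' q' : Fin m)
    (X' : Crs m R) (s : Fin m → Fin 3 → Fin m → Fin 3 → R)
    (f : Fin m → Fin m → Fin 3 → Fin m → Fin 3 → R) (g : Fin m → Fin 3 → R) (c : R)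
    (h : EQ w z ε p q X p' q' X' s f g) :
    EQ w z ε p q X p' q' X' (fun i a l b => c * s i a l b)
      (fun i j d l b => c * f i j d l b) (fun l b => c * g l b) := by
  intro i u
  obtain ⟨μ, h1, h2⟩ := h i u
  refine ⟨c * μ, fun k l hkl => ?_, fun k e b heb => ?_⟩
  · obtain ⟨y, hy⟩ := h1 k l hkl
    refine ⟨fun d => c * y d, fun a b => ?_⟩
    simp only [QQ_smul, mul_assoc, ← Finset.mul_sum]
    rw [← hy]
    ring
  · simp only [QQ_smul]
    rw [← mul_add, h2 k e b heb]

/-- only the values `f i j`, `i ≠ j` matter -/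
theorem QQ_congr (w : Arr m R) (z : Zar m R) (ε : R) (p q : Fin m) (X : Crs m R) (p' q' : Fin m)
    (X' : Crs m R) (s : Fin m → Fin 3 → Fin m → Fin 3 → R)
    (f f' : Fin m → Fin m → Fin 3 → Fin m → Fin 3 → R) (g : Fin m → Fin 3 → R)
    (hpq : p ≠ q) (hpq' : p' ≠ q') (hf : ∀ i j, i ≠ j → f i j = f' i j)
    (i : Fin m) (u : Fin 2) (k : Fin m) (e : Fin 3) (l : Fin m) (b : Fin 3) :
    QQ w z ε p q X p' q' X' s f g i u k e l b = QQ w z ε p q X p' q' X' s f' g i u k e l b := by
  have hX : ∀ (p q : Fin m) (X : Crs m R), p ≠ q → XX w p q X s f i u k e l b =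
      XX w p q X s f' i u k e l b := by
    intro p q X hpq
    unfold XX
    by_cases h1 : i = p
    · simp only [h1, if_true, hf p q hpq]
    · by_cases h2 : i = q
      · simp only [h2, if_true, hf p q hpq]
      · simp only [h1, h2, if_false, hf p q hpq, hf i q h2, hf i p h1]
  unfold QQ
  rw [hX p q X hpq, hX p' q' X' hpq']
  by_cases h : k = i
  · simp only [h, if_true]
  · simp only [h, if_false, hf i k (Ne.symm h)]

theorem EQ_congr (w : Arr m R) (z : Zar m R) (ε : R) (p q : Fin m) (X : Crs m R) (p' q' : Fin m)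
    (X' : Crs m R) (s : Fin m → Fin 3 → Fin m → Fin 3 → R)
    (f f' : Fin m → Fin m → Fin 3 → Fin m → Fin 3 → R) (g : Fin m → Fin 3 → R)
    (hpq : p ≠ q) (hpq' : p' ≠ q') (hf : ∀ i j, i ≠ j → f i j = f' i j)
    (h : EQ w z ε p q X p' q' X' s f g) : EQ w z ε p q X p' q' X' s f' g := by
  intro i u
  obtain ⟨μ, h1, h2⟩ := h i u
  refine ⟨μ, fun k l hkl => ?_, fun k e b heb => ?_⟩
  · obtain ⟨y, hy⟩ := h1 k l hkl
    refine ⟨y, fun a b => ?_⟩
    rw [← hy]
    simp only [QQ_congr w z ε p q X p' q' X' s f f' g hpq hpq' hf]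
  · rw [← h2 k e b heb]
    simp only [QQ_congr w z ε p q X p' q' X' s f f' g hpq hpq' hf]

theorem EQ_swap (w : Arr m R) (z : Zar m R) (ε : R) (p q : Fin m) (X : Crs m R) (p' q' : Fin m)
    (X' : Crs m R) (s : Fin m → Fin 3 → Fin m → Fin 3 → R)
    (f : Fin m → Fin m → Fin 3 → Fin m → Fin 3 → R) (g : Fin m → Fin 3 → R)
    (h : EQ w z ε p q X p' q' X' s f g) : EQ w z ε p' q' X' p q X s f g := by
  have hQ : ∀ i u k e l b, QQ w z ε p' q' X' p q X s f g i u k e l b =
      QQ w z ε p q X p' q' X' s f g i u k e l b := by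
    intro i u k e l b
    unfold QQ
    rw [add_comm (XX w p' q' X' s f i u k e l b)]
  have hc : ∀ k l e b, (cr p' q' p q k l e b : R) = cr p q p' q' k l e b := by
    intro k l e b
    unfold cr
    congr 1
    apply propext
    tauto
  intro i u
  obtain ⟨μ, h1, h2⟩ := h i u
  refine ⟨μ, fun k l hkl => ?_, fun k e b heb => ?_⟩
  · obtain ⟨y, hy⟩ := h1 k l hkl
    refine ⟨y, fun a b => ?_⟩
    rw [← hy]
    simp only [hQ, hc]
  · rw [← h2 k e b heb]
    simp only [hQ]

end Map

theorem InSp_smul {R : Type*} [CommRing R] {w : Frm R} {M M' : Mat R} (c : R) (h : InSp w M)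
    (hM : ∀ a b, M' a b = c * M a b) : InSp w M' := by
  obtain ⟨y, hy⟩ := h
  refine ⟨fun d => c * y d, fun a b => ?_⟩
  rw [hM, hy, Finset.mul_sum]
  exact Finset.sum_congr rfl fun d _ => by ring

section Core

variable {K κ : Type u} [Field K] [Field κ] {P : Place K κ} {m : ℕ}

/-- the equations, over the valuation ring -/
structure EqB (w : Arr m P.B) (z : Zar m P.B) (ε : P.B) (p q : Fin m) (X : Crs m P.B)
    (p' q' : Fin m) (X' : Crs m P.B) (s : Fin m → Fin 3 → Fin m → Fin 3 → P.B)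
    (f : Fin m → Fin m → Fin 3 → Fin m → Fin 3 → P.B) (g : Fin m → Fin 3 → P.B)
    (μ : Fin m → Fin 2 → P.B) : Prop where
  one : ∀ i u k l, k ≠ l → InSp (fun c a b => (w k l c a b : K)) fun e b =>
    ((QQ w z ε p q X p' q' X' s f g i u k e l b + QQ w z ε p q X p' q' X' s f g i u l b k e -
      μ i u * (ε * cr p q p' q' k l e b) : P.B) : K)
  two : ∀ i u k e b, e ≠ b → QQ w z ε p q X p' q' X' s f g i u k e k b +
    QQ w z ε p q X p' q' X' s f g i u k b k e = μ i u

theorem eqB_of {w : Arr m P.B} {z : Zar m P.B} {ε : P.B} {p q : Fin m} {X : Crs m P.B}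
    {p' q' : Fin m} {X' : Crs m P.B} {s : Fin m → Fin 3 → Fin m → Fin 3 → P.B}
    {f : Fin m → Fin m → Fin 3 → Fin m → Fin 3 → P.B} {g : Fin m → Fin 3 → P.B}
    (h : EQ (w.map P.B.subtype) (z.map P.B.subtype) (P.B.subtype ε) p q (X.map P.B.subtype) p' q'
      (X'.map P.B.subtype) (fun i a l b => P.B.subtype (s i a l b))
      (fun i j c l b => P.B.subtype (f i j c l b)) (fun l b => P.B.subtype (g l b))) :
    ∃ μ, EqB w z ε p q X p' q' X' s f g μ := by
  have hinj : Function.Injective P.B.subtype := Subtype.val_injective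
  refine ⟨fun i u => QQ w z ε p q X p' q' X' s f g i u i 0 i 1 +
    QQ w z ε p q X p' q' X' s f g i u i 1 i 0, ?_, ?_⟩
  · intro i u k l hkl
    obtain ⟨μ, h1, h2⟩ := h i u
    have hμ := h2 i 0 1 (by decide)
    rw [QQ_map, QQ_map, ← map_add] at hμ
    obtain ⟨y, hy⟩ := h1 k l hkl
    refine ⟨y, fun a b => ?_⟩
    have := hy a b
    beta_reduce at this
    rw [QQ_map, QQ_map, ← hμ, cr_map P.B.subtype, ← map_mul, ← map_mul, ← map_add, ← map_sub]
      at this
    exact this
  · intro i u k e b heb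
    obtain ⟨μ, h1, h2⟩ := h i u
    have hμ := h2 i 0 1 (by decide)
    have hk := h2 k e b heb
    rw [← hμ, QQ_map, QQ_map, QQ_map, QQ_map, ← map_add, ← map_add] at hk
    exact hinj hk

/-- the part of the equations which has the factor `ε` -/
def RR (w : Arr m P.B) (p q : Fin m) (X : Crs m P.B)
    (p' q' : Fin m) (X' : Crs m P.B) (s : Fin m → Fin 3 → Fin m → Fin 3 → P.B)
    (f : Fin m → Fin m → Fin 3 → Fin m → Fin 3 → P.B)
    (μ : Fin m → Fin 2 → P.B) (i : Fin m) (u : Fin 2) (k : Fin m) (e : Fin 3) (l : Fin m)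
    (b : Fin 3) : P.B :=
  XX w p q X s f i u k e l b + XX w p' q' X' s f i u k e l b +
    (XX w p q X s f i u l b k e + XX w p' q' X' s f i u l b k e) +
    μ i u * cr p q p' q' k l e b

theorem tri (h2 : T_LIFT.{u}) {w : Arr m P.B} {z : Zar m P.B} {ε : P.B} {p q : Fin m}
    {X : Crs m P.B} {p' q' : Fin m} {X' : Crs m P.B} {s : Fin m → Fin 3 → Fin m → Fin 3 → P.B}
    {f : Fin m → Fin m → Fin 3 → Fin m → Fin 3 → P.B} {g : Fin m → Fin 3 → P.B}
    {μ : Fin m → Fin 2 → P.B} (h : EqB w z ε p q X p' q' X' s f g μ) (hε : ε ≠ 0)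
    (hD : ∀ i j, i ≠ j → D2 (w.map P.r i j)) {i k l : Fin m} (hik : i ≠ k) (hil : i ≠ l)
    (hkl : k ≠ l) (u : Fin 2) (t : P.B) (F G : Mat P.B)
    (hF : ∀ c b, ε * F c b = t * f i k c l b) (hG : ∀ c e, ε * G c e = t * f i l c k e) :
    InSp (w.map P.r k l) fun e b =>
      ∑ c, (z.map P.r i k u e c * P.r (F c b) + z.map P.r i l u b c * P.r (G c e)) +
        P.r t * P.r (RR w p q X p' q' X' s f μ i u k e l b) := by
  have h3 := (h2 K κ P).2.2 (w k l) (fun e b =>
    ∑ c, (z i k u e c * F c b + z i l u b c * G c e) + t * RR w p q X p' q' X' s f μ i u k e l b)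
    (hD k l hkl) ?_
  · refine (congrArg (InSp (w.map P.r k l)) (funext fun e => funext fun b => ?_)).mp h3
    simp only [map_add, map_sum, map_mul, Zar.map]
  · have hεK : (ε : K) ≠ 0 := by
      intro h0
      exact hε (Subtype.ext h0)
    refine InSp_smul (-((t : K) / ε)) (h.one i u k l hkl) fun e b => ?_
    have key : ε * (∑ c, (z i k u e c * F c b + z i l u b c * G c e) +
        t * RR w p q X p' q' X' s f μ i u k e l b) = -(t *
        (QQ w z ε p q X p' q' X' s f g i u k e l b + QQ w z ε p q X p' q' X' s f g i u l b k e -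
      μ i u * (ε * cr p q p' q' k l e b))) := by
      have e1 : ε * ∑ c, (z i k u e c * F c b + z i l u b c * G c e) =
          t * (∑ c, z i k u e c * f i k c l b) + t * (∑ c, z i l u b c * f i l c k e) := by
        rw [Finset.mul_sum, Finset.mul_sum, Finset.mul_sum, ← Finset.sum_add_distrib]
        refine Finset.sum_congr rfl fun c _ => ?_
        linear_combination z i k u e c * hF c b + z i l u b c * hG c e
      unfold QQ RR
      rw [if_neg hik.symm, if_neg hil.symm, mul_add, e1]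
      ring
    have key' : (_ : K) = _ := congrArg (fun x : P.B => (x : K)) key
    rw [neg_mul, div_mul_eq_mul_div, eq_comm, neg_eq_iff_eq_neg, div_eq_iff hεK]
    push_cast at key' ⊢
    linear_combination key'

/-- step 1 -/
theorem step1 (h1 : T_PRIM.{u}) (h2 : T_LIFT.{u}) {w : Arr m P.B} {z : Zar m P.B} {ε : P.B}
    {p q : Fin m}
    {X : Crs m P.B} {p' q' : Fin m} {X' : Crs m P.B} {s : Fin m → Fin 3 → Fin m → Fin 3 → P.B}
    {f : Fin m → Fin m → Fin 3 → Fin m → Fin 3 → P.B} {g : Fin m → Fin 3 → P.B}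
    {μ : Fin m → Fin 2 → P.B} (h : EqB w z ε p q X p' q' X' s f g μ) (hε : ε ≠ 0)
    (hD : ∀ i j, i ≠ j → D2 (w.map P.r i j)) (hz : ZOK (w.map P.r) (z.map P.r))
    (hG : GoodT (w.map P.r)) (hf : ∀ i j, f i j = f j i) {a b c : Fin m} (hab : a ≠ b)
    (hac : a ≠ c) (hbc : b ≠ c) (x e : Fin 3) : ∃ y : P.B, f a b x c e = ε * y := by
  have hεK : (ε : K) ≠ 0 := fun h0 => hε (Subtype.ext h0)
  let T : Fin 3 → Mat P.B :=
    ![fun x e => f a b x c e, fun x e => f a c x b e, fun x e => f b c x a e]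
  rcases (h1 K κ P (Fin 3 × Fin 3 × Fin 3) fun j => (T j.1 j.2.1 j.2.2 : K) / ε).2 with
    hB | ⟨c0, hc0, y, hy, j, hj⟩
  · refine ⟨⟨_, hB (0, x, e)⟩, Subtype.ext ?_⟩
    have : (f a b x c e : K) = ε * ((f a b x c e : K) / ε) := by field_simp
    exact this
  · exfalso
    have hy' : ∀ n x e, ε * y (n, x, e) = c0 * T n x e := by
      intro n x e
      apply Subtype.ext
      have := hy (n, x, e)
      simp only at this
      change (ε : K) * (y (n, x, e) : K) = (c0 : K) * (T n x e : K)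
      rw [← this]
      field_simp
    have hPT : PT (w.map P.r) (z.map P.r) a b c (fun x e => P.r (y (0, x, e)))
        (fun x e => P.r (y (1, x, e))) (fun x e => P.r (y (2, x, e))) := by
      refine ⟨fun u => ?_, fun u => ?_, fun u => ?_⟩
      · have := tri h2 h hε hD hab hac hbc u c0 (fun x e => y (0, x, e))
          (fun x e => y (1, x, e)) (fun x e => hy' 0 x e) (fun x e => hy' 1 x e)
        simpa only [hc0, zero_mul, add_zero] using this
      · have := tri h2 h hε hD hab.symm hbc hac u c0 (fun x e => y (0, x, e))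
          (fun x e => y (2, x, e)) (fun x e => by rw [hf b a]; exact hy' 0 x e)
          (fun x e => hy' 2 x e)
        simpa only [hc0, zero_mul, add_zero] using this
      · have := tri h2 h hε hD hac.symm hbc.symm hab u c0 (fun x e => y (1, x, e))
          (fun x e => y (2, x, e)) (fun x e => by rw [hf c a]; exact hy' 1 x e)
          (fun x e => by rw [hf c b]; exact hy' 2 x e)
        simpa only [hc0, zero_mul, add_zero] using this
    obtain ⟨g1, g2, g3⟩ := hG _ hz a b c hab hac hbc _ _ _ hPT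
    have hall : ∀ j, P.r (y j) = 0 := by
      rintro ⟨n, x, e⟩
      fin_cases n
      · exact congrFun (congrFun g1 x) e
      · exact congrFun (congrFun g2 x) e
      · exact congrFun (congrFun g3 x) e
    have := hall j
    rw [hj, map_one] at this
    exact one_ne_zero this

section XX

variable (w : Arr m P.B) {p q : Fin m} (X : Crs m P.B) (s : Fin m → Fin 3 → Fin m → Fin 3 → P.B)
  (f : Fin m → Fin m → Fin 3 → Fin m → Fin 3 → P.B) (u : Fin 2)
  (e : Fin 3) (l : Fin m) (b : Fin 3)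

theorem XX_B {i : Fin m} (hip : i ≠ p) (hiq : i ≠ q) :
    XX w p q X s f i u p e l b = ∑ c, X.B i u e c * f i q c l b := by
  simp [XX, hip, hiq, hip.symm]

theorem XX_C {i : Fin m} (hip : i ≠ p) (hiq : i ≠ q) (hpq : p ≠ q) :
    XX w p q X s f i u q e l b = ∑ c, X.C i u e c * f i p c l b := by
  simp [XX, hip, hiq, hiq.symm, hpq.symm]

theorem XX_0 {i k : Fin m} (hkp : k ≠ p) (hkq : k ≠ q) (hki : k ≠ i) :
    XX w p q X s f i u k e l b = 0 := by
  simp [XX, hkp, hkq, hki]

theorem XX_P (hpq : p ≠ q) :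
    XX w p q X s f p u q e l b = ∑ a, sq (w q p) (X.P u) u e a * s p a l b := by
  simp [XX, hpq.symm]

theorem XX_Q (hpq : p ≠ q) :
    XX w p q X s f q u p e l b = ∑ a, sq (w p q) (X.Q u) u e a * s q a l b := by
  simp [XX, hpq.symm, hpq]

theorem XX_r {i k : Fin m} (hip : i ≠ p) (hiq : i ≠ q) (hki : k ≠ i)
    (hp : ∀ c, P.r (f i p c l b) = 0) (hq : ∀ c, P.r (f i q c l b) = 0) :
    P.r (XX w p q X s f i u k e l b) = 0 := by
  unfold XX
  rw [if_neg hip, if_neg hiq, if_neg hki]
  split_ifs <;> simp [hp, hq]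

end XX

/-- step 2 -/
theorem step2 (h2 : T_LIFT.{u}) {w : Arr m P.B} {z : Zar m P.B} {ε : P.B}
    {p q : Fin m}
    {X : Crs m P.B} {p' q' : Fin m} {X' : Crs m P.B} {s : Fin m → Fin 3 → Fin m → Fin 3 → P.B}
    {f : Fin m → Fin m → Fin 3 → Fin m → Fin 3 → P.B} {g : Fin m → Fin 3 → P.B}
    {μ : Fin m → Fin 2 → P.B} (h : EqB w z ε p q X p' q' X' s f g μ) (hε : ε ≠ 0)
    (hε0 : P.r ε = 0) (hpq : p ≠ q) (hpp' : p ≠ p') (hpq' : p ≠ q') (hqp' : q ≠ p')
    (hqq' : q ≠ q') (hX : CrsOK w p q X)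
    (hD : ∀ i j, i ≠ j → D2 (w.map P.r i j)) (hz : ZOK (w.map P.r) (z.map P.r))
    (hG : GoodL (w.map P.r)) (hf : ∀ i j, f i j = f j i) (hs : ∀ l b, s l b l b = 0)
    (hy : ∀ a b c : Fin m, a ≠ b → a ≠ c → b ≠ c → ∀ x e, ∃ y : P.B, f a b x c e = ε * y)
    {l : Fin m} (hlp : l ≠ p) (hlq : l ≠ q) :
    (∀ j a b, P.r (s j a l b) = 0) ∧ (∀ i, i ≠ l → ∀ c e, P.r (f i l c i e) = 0) ∧
      ∀ b, P.r (g l b) = 0 := by
  have hr : ∀ a b c : Fin m, a ≠ b → a ≠ c → b ≠ c → ∀ x e, P.r (f a b x c e) = 0 := by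
    intro a b c hab hac hbc x e
    obtain ⟨y, hy⟩ := hy a b c hab hac hbc x e
    rw [hy, map_mul, hε0, zero_mul]
  choose F1 hF1 using hy l p q hlp hlq hpq
  choose F2 hF2 using hy l q p hlq hlp hpq.symm
  choose F3 hF3 using hy p q l hpq hlp.symm hlq.symm
  let D : PLd m κ := ⟨fun j a b => P.r (s j a l b), fun i c e => P.r (f i l c i e),
    fun b => P.r (g l b), fun u => P.r (μ l u), fun x e => P.r (F1 x e), fun x e => P.r (F2 x e),
    fun x e => P.r (F3 x e)⟩
  have hCr : CrsL (w.map P.r) l p q (X.map P.r) := by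
    refine ⟨fun u a b d => ?_, fun u b e => ?_, fun u b e => ?_⟩
    · have := congrArg P.r (hX.tri l hlp hlq u a b d)
      rw [apply_ite P.r, map_zero, ← uu_map P.r] at this
      rw [← this]
      exact L3_map P.r _ _ _ _ _ _ _ _ _
    · have := congrArg P.r (hX.cp u b e)
      rw [← rc_map P.r] at this
      rw [← this]
      exact L2_map P.r _ _ _ _
    · have := congrArg P.r (hX.cq u b e)
      rw [← rc_map P.r] at this
      rw [← this]
      exact L2_map P.r _ _ _ _
  have hPL : PL (w.map P.r) (z.map P.r) (X.map P.r) l p q D := by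
    refine ⟨?_, ?_, ?_, ?_, ?_, ?_, ?_⟩
    · intro i hil u
      have h3 := (h2 K κ P).2.2 (w i l) _ (hD i l hil) (h.one i u i l hil)
      refine (congrArg (InSp (w.map P.r i l)) (funext fun e => funext fun b => ?_)).mp h3
      unfold QQ
      rw [if_pos rfl, if_neg hil.symm]
      simp only [map_sub, map_add, map_mul, hε0, zero_mul, mul_zero, sub_zero, map_neg, map_sum]
      rw [← TA_map P.r w z (fun j a b => s j a l b) (g l) i u e b, ← sub_eq_add_neg]
      rfl
    · intro k hkl u e b heb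
      have h3 := congrArg P.r (h.two l u k e b heb)
      unfold QQ at h3
      rw [if_neg hkl, if_neg hkl] at h3
      simp only [map_sub, map_add, map_mul, hε0, zero_mul, sub_zero, map_neg, map_sum] at h3
      change ∑ c, (P.r (z l k u e c) * P.r (f k l c k b) + P.r (z l k u b c) * P.r (f k l c k e)) =
        - P.r (μ l u)
      rw [← h3, Finset.sum_add_distrib, hf k l]
      ring
    · intro u e b heb
      have h3 := congrArg P.r (h.two l u l e b heb)
      unfold QQ at h3
      rw [if_pos rfl, if_pos rfl] at h3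
      simp only [map_sub, map_add, map_mul, hε0, zero_mul, sub_zero] at h3
      rw [← TA_map P.r w z (fun j a b => s j a l b) (g l) l u e b,
        ← TA_map P.r w z (fun j a b => s j a l b) (g l) l u b e] at h3
      exact h3
    · intro u
      have h3 := tri h2 h hε hD hlp hlq hpq u 1 F1 F2 (fun c b => by rw [hF1, one_mul])
        (fun c e => by rw [hF2, one_mul])
      refine (congrArg (InSp (w.map P.r p q)) (funext fun e => funext fun b => ?_)).mp h3
      unfold RR
      rw [XX_B w X s f u e q b hlp hlq, XX_0 w X' s f u e q b hpp' hpq' hlp.symm,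
        XX_C w X s f u b p e hlp hlq hpq, XX_0 w X' s f u b p e hqp' hqq' hlq.symm]
      have hc : (cr p q p' q' p q e b : P.B) = if e = 0 ∧ b = 0 then 1 else 0 := by
        simp [cr]
      rw [hc]
      simp only [map_add, map_sum, map_mul, add_zero, map_one, one_mul, add_assoc,
        Finset.sum_add_distrib]
      congr 2
      rw [← add_assoc, ← add_assoc]
      refine congrArg₂ (· + ·) ?_ ?_
      · rw [hf l q, hf l p]
        rfl
      · split_ifs <;> simp [D]
    · intro u
      have h3 := tri h2 h hε hD hlp.symm hpq hlq u 1 F1 F3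
        (fun c b => by rw [hf p l, hF1, one_mul]) (fun c e => by rw [hF3, one_mul])
      refine (congrArg (InSp (w.map P.r l q)) (funext fun e => funext fun b => ?_)).mp h3
      unfold RR
      rw [XX_0 w X s f u e q b hlp hlq hlp, XX_P w X s f u b l e hpq,
        XX_0 w X' s f u b l e hqp' hqq' hpq.symm]
      have hc : (cr p q p' q' l q e b : P.B) = 0 := by
        simp only [cr]
        refine if_neg ?_
        rintro ⟨-, -, h | h | h | h⟩
        · exact hlp h.1
        · exact hlq h.1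
        · exact hqq' h.2
        · exact hqp' h.2
      have hx : P.r (XX w p' q' X' s f p u l e q b) = 0 :=
        XX_r w X' s f u e q b hpp' hpq' hlp (fun c => hr p p' q hpp' hpq hqp'.symm c b)
          (fun c => hr p q' q hpq' hpq hqq'.symm c b)
      rw [hc]
      simp only [map_add, map_sum, map_mul, add_zero, map_one, one_mul, hx, zero_add, mul_zero]
      congr 1
      refine Finset.sum_congr rfl fun a _ => ?_
      rw [← sq_map P.r]
      rfl
    · intro u
      have h3 := tri h2 h hε hD hlq.symm hpq.symm hlp u 1 F2 F3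
        (fun c b => by rw [hf q l, hF2, one_mul]) (fun c e => by rw [hf q p, hF3, one_mul])
      refine (congrArg (InSp (w.map P.r l p)) (funext fun e => funext fun b => ?_)).mp h3
      unfold RR
      rw [XX_0 w X s f u e p b hlp hlq hlq, XX_Q w X s f u b l e hpq,
        XX_0 w X' s f u b l e hpp' hpq' hpq]
      have hc : (cr p q p' q' l p e b : P.B) = 0 := by
        simp only [cr]
        refine if_neg ?_
        rintro ⟨-, -, h | h | h | h⟩
        · exact hlp h.1
        · exact hlq h.1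
        · exact hpq' h.2
        · exact hpp' h.2
      have hx : P.r (XX w p' q' X' s f q u l e p b) = 0 :=
        XX_r w X' s f u e p b hqp' hqq' hlq (fun c => hr q p' p hqp' hpq.symm hpp'.symm c b)
          (fun c => hr q q' p hqq' hpq.symm hpq'.symm c b)
      rw [hc]
      simp only [map_add, map_sum, map_mul, add_zero, map_one, one_mul, hx, zero_add, mul_zero]
      congr 1
      refine Finset.sum_congr rfl fun a _ => ?_
      rw [← sq_map P.r]
      rfl
    · intro b
      change P.r (s l b l b) = 0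
      rw [hs, map_zero]
  obtain ⟨d1, d2, d3, -⟩ := hG _ hz l p q hlp hlq hpq _ hCr D hPL
  refine ⟨fun j a b => ?_, fun i hi c e => ?_, fun b => ?_⟩
  · exact congrFun (congrFun (congrFun d1 j) a) b
  · exact congrFun (congrFun (d2 i hi) c) e
  · exact congrFun d3 b

end Core

end Pool.Agent.VCT.ASM_

namespace Pool.Agent.VCT

open ASM_

universe u

/-- the linear system has no normalised solution -/
theorem p_ASM (h1 : T_PRIM.{u}) (h2 : T_LIFT.{u}) : T_ASM.{u} := by
  intro m K κ _ _ _ P w z ε p q X p' q' X' hpq hpq' hpp' hpq'' hqp' hqq' _ hZ hX hX' hε hε0 hD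
    hGT hGL s f g hf hs hEQ
  classical
  let f0 : Fin m → Fin m → Fin 3 → Fin m → Fin 3 → K := fun i j => if i = j then 0 else f i j
  have hf0 : ∀ i j, f0 i j = f0 j i := by
    intro i j
    simp only [f0, eq_comm (a := j)]
    rw [hf i j]
  have hf0' : ∀ i j, i ≠ j → f i j = f0 i j := fun i j hij => (if_neg hij).symm
  have hEQ0 := EQ_congr _ _ _ _ _ _ _ _ _ _ f f0 _ hpq hpq' hf0' hEQ
  let J := (Fin m × Fin 3 × Fin m × Fin 3) ⊕ (Fin m × Fin m × Fin 3 × Fin m × Fin 3) ⊕
    (Fin m × Fin 3)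
  let xs : J → K := Sum.elim (fun t => s t.1 t.2.1 t.2.2.1 t.2.2.2)
    (Sum.elim (fun t => f0 t.1 t.2.1 t.2.2.1 t.2.2.2.1 t.2.2.2.2) (fun t => g t.1 t.2))
  by_cases hx : ∃ j, xs j ≠ 0
  swap
  · push Not at hx
    refine ⟨?_, ?_, ?_⟩
    · funext i a l b
      exact hx (Sum.inl (i, a, l, b))
    · intro i j hij
      rw [hf0' i j hij]
      funext c l b
      exact hx (Sum.inr (Sum.inl (i, j, c, l, b)))
    · funext l b
      exact hx (Sum.inr (Sum.inr (l, b)))
  exfalso
  obtain ⟨c, hc, y, hy, j, hj⟩ := (h1 K κ P J xs).1 hx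
  let sB : Fin m → Fin 3 → Fin m → Fin 3 → P.B := fun i a l b => y (Sum.inl (i, a, l, b))
  let fB : Fin m → Fin m → Fin 3 → Fin m → Fin 3 → P.B := fun i j c l b =>
    y (Sum.inr (Sum.inl (i, j, c, l, b)))
  let gB : Fin m → Fin 3 → P.B := fun l b => y (Sum.inr (Sum.inr (l, b)))
  have hsB : ∀ i a l b, c * s i a l b = sB i a l b := fun i a l b => hy (Sum.inl (i, a, l, b))
  have hfB : ∀ i j d l b, c * f0 i j d l b = fB i j d l b := fun i j d l b =>
    hy (Sum.inr (Sum.inl (i, j, d, l, b)))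
  have hgB : ∀ l b, c * g l b = gB l b := fun l b => hy (Sum.inr (Sum.inr (l, b)))
  have hE1 := EQ_smul _ _ _ _ _ _ _ _ _ _ _ _ c hEQ0
  simp only [hsB, hfB, hgB] at hE1
  have hE2 := EQ_swap _ _ _ _ _ _ _ _ _ _ _ _ hE1
  obtain ⟨μ, hB1⟩ := eqB_of (P := P) (w := w) (z := z) (ε := ε) (X := X) (X' := X') (s := sB)
    (f := fB) (g := gB) hE1
  obtain ⟨μ', hB2⟩ := eqB_of (P := P) (w := w) (z := z) (ε := ε) (X := X') (X' := X) (s := sB)
    (f := fB) (g := gB) hE2
  have hz : ZOK (w.map P.r) (z.map P.r) := by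
    intro i j hij u a e
    have := congrArg P.r (hZ i j hij u a e)
    rw [← uu_map P.r] at this
    rw [← this]
    exact L2_map P.r _ _ _ _
  have hfs : ∀ i j, fB i j = fB j i := by
    intro i j
    funext d l b
    apply Subtype.ext
    rw [← hfB, ← hfB, hf0 i j]
  have hfd : ∀ i d l b, fB i i d l b = 0 := by
    intro i d l b
    apply Subtype.ext
    rw [← hfB]
    simp [f0]
  have hsn : ∀ l b, sB l b l b = 0 := by
    intro l b
    apply Subtype.ext
    rw [← hsB, hs]
    simp
  have hst : ∀ a b c : Fin m, a ≠ b → a ≠ c → b ≠ c → ∀ x e, ∃ y : P.B, fB a b x c e = ε * y :=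
    fun a b c hab hac hbc x e => step1 h1 h2 hB1 hε hD hz hGT hfs hab hac hbc x e
  have hall : ∀ l : Fin m, (∀ j a b, P.r (sB j a l b) = 0) ∧
      (∀ i, i ≠ l → ∀ c e, P.r (fB i l c i e) = 0) ∧ ∀ b, P.r (gB l b) = 0 := by
    intro l
    by_cases hl : l ≠ p ∧ l ≠ q
    · exact step2 h2 hB1 hε hε0 hpq hpp' hpq'' hqp' hqq' hX hD hz hGL hfs hsn hst hl.1 hl.2
    · have hl' : l ≠ p' ∧ l ≠ q' := by
        by_cases h : l = p
        · rw [h]
          exact ⟨hpp', hpq''⟩
        · by_cases h' : l = q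
          · rw [h']
            exact ⟨hqp', hqq'⟩
          · exact absurd ⟨h, h'⟩ hl
      exact step2 h2 hB2 hε hε0 hpq' hpp'.symm hqp'.symm hpq''.symm hqq'.symm hX' hD hz hGL hfs hsn
        hst hl'.1 hl'.2
  have hzero : ∀ j, P.r (y j) = 0 := by
    rintro (⟨i, a, l, b⟩ | ⟨i, k, d, l, b⟩ | ⟨l, b⟩)
    · exact (hall l).1 i a b
    · change P.r (fB i k d l b) = 0
      by_cases hik : i = k
      · rw [hik, hfd, map_zero]
      · by_cases hil : l = i
        · subst hil
          exact (hall k).2.1 l hik d b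
        · by_cases hkl : l = k
          · subst hkl
            rw [hfs]
            exact (hall i).2.1 l (Ne.symm hik) d b
          · obtain ⟨y', hy'⟩ := hst i k l hik (Ne.symm hil) (Ne.symm hkl) d b
            rw [hy', map_mul, hε0, zero_mul]
    · exact (hall l).2.2 b
  have := hzero j
  rw [hj, map_one] at this
  exact one_ne_zero this

end Pool.Agent.VCT
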