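import Pool.Agent.VCT.Targets

/-!
# Target DIM: the dimension of the space of functionals
-/

set_option autoImplicit false

namespace Pool.Agent.VCT

open Pool.Agent.VCC

universe u

namespace DIM_

/-- pairs of blocks -/
abbrev QQ' (m : ℕ) := {x : Fin m × Fin m // x.1 < x.2}
/-- index type of the entries -/
abbrev PP (m : ℕ) := (QQ' m × Fin 3 × Fin 3) ⊕ (Fin m × Fin 3)

variable {K : Type*} [Field K] {m : ℕ}

/-- the symmetric array with given entries -/
def E (m : ℕ) (K : Type*) [Field K] :
    (PP m → K) →ₗ[K] (Fin m × Fin 3 → Fin m × Fin 3 → K) where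
  toFun g x y :=
    if h : x.1 < y.1 then g (Sum.inl (⟨(x.1, y.1), h⟩, x.2, y.2))
    else if h : y.1 < x.1 then g (Sum.inl (⟨(y.1, x.1), h⟩, y.2, x.2))
    else if x.2 = y.2 then 0 else g (Sum.inr (x.1, -(x.2 + y.2)))
  map_add' g g' := by
    funext x y
    simp only [Pi.add_apply]
    split_ifs <;> simp
  map_smul' c g := by
    funext x y
    simp only [Pi.smul_apply, smul_eq_mul, RingHom.id_apply]
    split_ifs <;> simp

theorem E_lt (g : PP m → K) (i j : Fin m) (h : i < j) (a b : Fin 3) :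
    E m K g (i, a) (j, b) = g (Sum.inl (⟨(i, j), h⟩, a, b)) := by
  show (if h : i < j then _ else _) = _
  rw [dif_pos h]

theorem E_gt (g : PP m → K) (i j : Fin m) (h : j < i) (a b : Fin 3) :
    E m K g (i, a) (j, b) = g (Sum.inl (⟨(j, i), h⟩, b, a)) := by
  show (if h : i < j then _ else if h : j < i then _ else _) = _
  rw [dif_neg (not_lt.2 h.le), dif_pos h]

theorem E_eq (g : PP m → K) (i : Fin m) (a b : Fin 3) :
    E m K g (i, a) (i, b) = if a = b then 0 else g (Sum.inr (i, -(a + b))) := by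
  show (if h : i < i then _ else if h : i < i then _ else _) = _
  rw [dif_neg (lt_irrefl i), dif_neg (lt_irrefl i)]

theorem E_symm (g : PP m → K) (x y : Fin m × Fin 3) : E m K g x y = E m K g y x := by
  obtain ⟨i, a⟩ := x
  obtain ⟨j, b⟩ := y
  rcases lt_trichotomy i j with h | h | h
  · rw [E_lt g i j h, E_gt g j i h]
  · subst h
    rw [E_eq, E_eq, add_comm a b]
    simp only [eq_comm]
  · rw [E_lt g j i h, E_gt g i j h]

theorem E_diag (g : PP m → K) (x : Fin m × Fin 3) : E m K g x x = 0 := by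
  obtain ⟨i, a⟩ := x
  rw [E_eq, if_pos rfl]

/-- restriction -/
def rs (F : Fin m × Fin 3 → Fin m × Fin 3 → K) : PP m → K
  | Sum.inl (x, a, b) => F (x.1.1, a) (x.1.2, b)
  | Sum.inr (i, e) => F (i, e + 1) (i, e + 2)

theorem rs_E (g : PP m → K) : rs (E m K g) = g := by
  funext x
  rcases x with ⟨⟨⟨i, j⟩, h⟩, a, b⟩ | ⟨i, e⟩
  · exact E_lt g i j h a b
  · show E m K g (i, e + 1) (i, e + 2) = _
    rw [E_eq]
    fin_cases e <;> rfl

theorem E_inj : Function.Injective (E m K) := by
  intro g g' h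
  rw [← rs_E g, h, rs_E]

theorem E_rs (F : Fin m × Fin 3 → Fin m × Fin 3 → K) (hs : ∀ x y, F x y = F y x)
    (hd : ∀ x, F x x = 0) : E m K (rs F) = F := by
  funext x y
  obtain ⟨i, a⟩ := x
  obtain ⟨j, b⟩ := y
  rcases lt_trichotomy i j with h | h | h
  · rw [E_lt _ i j h]
    rfl
  · subst h
    rw [E_eq]
    by_cases hab : a = b
    · subst hab
      rw [if_pos rfl, hd]
    · rw [if_neg hab]
      show F (i, -(a + b) + 1) (i, -(a + b) + 2) = F (i, a) (i, b)
      fin_cases a <;> fin_cases b <;>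
        first
          | exact absurd rfl hab
          | rfl
          | exact hs _ _
  · rw [E_gt _ i j h]
    exact hs _ _

/-- `hv` as a linear map -/
def hvL (ε : K) (p q p' q' : Fin m) : (Fin m × Fin 3 → Fin m × Fin 3 → K) →ₗ[K] K where
  toFun := hv ε p q p' q'
  map_add' F G := by
    simp only [hv, Pi.add_apply, Finset.sum_add_distrib]
    ring
  map_smul' c F := by
    simp only [hv, Pi.smul_apply, smul_eq_mul, mul_add, Finset.mul_sum, mul_left_comm _ c,
      RingHom.id_apply]

/-- the conditions -/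
def Ps (w : Arr m K) (ε : K) (p q p' q' : Fin m) :
    (PP m → K) →ₗ[K] ((QQ' m × Fin 3 → K) × K) :=
  LinearMap.prod
    { toFun := fun g x => ∑ a, ∑ b, w x.1.1.1 x.1.1.2 x.2 a b * g (Sum.inl (x.1, a, b))
      map_add' := fun g g' => by
        funext x
        simp only [Pi.add_apply, mul_add, Finset.sum_add_distrib]
      map_smul' := fun c g => by
        funext x
        simp only [Pi.smul_apply, smul_eq_mul, Finset.mul_sum, mul_left_comm _ c,
          RingHom.id_apply] }
    (hvL ε p q p' q' ∘ₗ E m K)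

theorem Fsp_eq (w : Arr m K) (ε : K) (p q p' q' : Fin m) (hw : WSym w) :
    Fsp w ε p q p' q' = (LinearMap.ker (Ps w ε p q p' q')).map (E m K) := by
  ext F
  rw [Submodule.mem_map]
  constructor
  · rintro ⟨h1, h2, h3, h4⟩
    refine ⟨rs F, ?_, E_rs F h1 h2⟩
    rw [LinearMap.mem_ker]
    refine Prod.ext ?_ ?_
    · funext x
      obtain ⟨⟨⟨i, j⟩, h⟩, c⟩ := x
      exact h3 i j h.ne c
    · show hv ε p q p' q' (E m K (rs F)) = 0
      rw [E_rs F h1 h2]
      exact h4
  · rintro ⟨g, hg, rfl⟩
    rw [LinearMap.mem_ker] at hg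
    have hg1 : ∀ (i j : Fin m) (h : i < j) (c : Fin 3),
        ∑ a, ∑ b, w i j c a b * g (Sum.inl (⟨(i, j), h⟩, a, b)) = 0 := by
      intro i j h c
      have h5 := congrFun (congrArg Prod.fst hg) (⟨(i, j), h⟩, c)
      exact h5
    have hg2 : hv ε p q p' q' (E m K g) = 0 := congrArg Prod.snd hg
    refine ⟨E_symm g, E_diag g, ?_, hg2⟩
    intro i j hij c
    rcases lt_or_gt_of_ne hij with h | h
    · rw [← hg1 i j h c]
      refine Finset.sum_congr rfl fun a _ => Finset.sum_congr rfl fun b _ => ?_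
      rw [E_lt g i j h]
    · rw [← hg1 j i h c, Finset.sum_comm]
      refine Finset.sum_congr rfl fun a _ => Finset.sum_congr rfl fun b _ => ?_
      rw [E_gt g i j h, hw.2 j i]
      rfl

/-- the three forms are linearly independent -/
theorem indep (w : Frm K) (h : D2 w) (y : Fin 3 → K) (hy : ∀ a b, ∑ c, y c * w c a b = 0) :
    y = 0 := by
  have h1 := h (fun b c => if b = 0 then y c else 0) (by
    intro a e
    unfold L2
    have h2 : ∀ x b : Fin 3, ∑ c, (if x = 0 then y c else 0) * w c a b = 0 := by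
      intro x b
      by_cases hx : x = 0
      · simp only [hx, if_true]
        exact hy a b
      · simp [hx]
    rw [Finset.sum_add_distrib, h2, h2, add_zero])
  funext c
  have h3 := congrFun (congrFun h1 0) c
  simpa using h3

theorem Ps_surj (w : Arr m K) (ε : K) (p q p' q' : Fin m) (hm : 0 < m) (hpq : p ≠ q)
    (hpq' : p' ≠ q') (hD : ∀ i j, i ≠ j → D2 (w i j)) :
    LinearMap.range (Ps w ε p q p' q') = ⊤ := by
  classical
  by_contra hne
  obtain ⟨f, hf0, hf⟩ := Submodule.exists_le_ker_of_lt_top _ (lt_top_iff_ne_top.2 hne)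
  have hf' : ∀ g, f (Ps w ε p q p' q' g) = 0 := fun g => by
    have h1 : Ps w ε p q p' q' g ∈ LinearMap.ker f := hf ⟨g, rfl⟩
    exact h1
  have hfs : ∀ (v : QQ' m × Fin 3 → K) (t : K),
      f (v, t) = (∑ x, v x * f (Pi.single x 1, 0)) + t * f (0, 1) := by
    intro v t
    have h1 : (v, t) = (∑ x, v x • ((Pi.single x 1 : QQ' m × Fin 3 → K), (0 : K))) +
        t • ((0 : QQ' m × Fin 3 → K), (1 : K)) := by
      refine Prod.ext ?_ ?_
      · funext y
        simp [Prod.fst_sum, Finset.sum_apply, Pi.single_apply]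
      · simp [Prod.snd_sum]
    rw [h1, map_add, map_sum, map_smul]
    simp only [map_smul, smul_eq_mul]
  -- the last coordinate
  have h0 : f (0, 1) = 0 := by
    have h1 := hf' (Pi.single (Sum.inr (⟨0, hm⟩, 0)) 1)
    have h2 : Ps w ε p q p' q' (Pi.single (Sum.inr (⟨0, hm⟩, 0)) 1) = (0, 1) := by
      refine Prod.ext ?_ ?_
      · funext x
        show ∑ a, ∑ b, w x.1.1.1 x.1.1.2 x.2 a b *
          (Pi.single (Sum.inr (⟨0, hm⟩, 0)) 1 : PP m → K) (Sum.inl (x.1, a, b)) = 0
        simp
      · show hv ε p q p' q' (E m K (Pi.single (Sum.inr (⟨0, hm⟩, 0)) 1)) = 1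
        have h3 : ∀ (i j : Fin m) (a b : Fin 3), i ≠ j →
            E m K (Pi.single (Sum.inr (⟨0, hm⟩, 0)) 1 : PP m → K) (i, a) (j, b) = 0 := by
          intro i j a b hij
          rcases lt_or_gt_of_ne hij with h | h
          · rw [E_lt _ i j h]
            simp
          · rw [E_gt _ i j h]
            simp
        have b1 : -((0 : Fin 3) + 1) = 2 := rfl
        have b2 : -((0 : Fin 3) + 2) = 1 := rfl
        have b3 : -((1 : Fin 3) + 2) = 0 := rfl
        unfold hv
        rw [h3 p q 0 0 hpq, h3 p' q' 0 0 hpq', Finset.sum_eq_single (⟨0, hm⟩ : Fin m)]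
        · simp only [E_eq, b1, b2, b3]
          simp
        · intro i _ hi
          simp only [E_eq, b1, b2, b3]
          simp [hi]
        · simp
    rw [h2] at h1
    exact h1
  -- the coordinates of the pairs
  have h1 : ∀ x : QQ' m × Fin 3, f (Pi.single x 1, 0) = 0 := by
    rintro ⟨x, c⟩
    have h2 : ∀ a b, ∑ c, f (Pi.single (x, c) 1, 0) * w x.1.1 x.1.2 c a b = 0 := by
      intro a b
      have h3 := hf' (Pi.single (Sum.inl (x, a, b)) 1)
      have h4 : (Ps w ε p q p' q' (Pi.single (Sum.inl (x, a, b)) 1)).1 =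
          fun y => if y.1 = x then w x.1.1 x.1.2 y.2 a b else 0 := by
        funext y
        show ∑ a', ∑ b', w y.1.1.1 y.1.1.2 y.2 a' b' *
          (Pi.single (Sum.inl (x, a, b)) 1 : PP m → K) (Sum.inl (y.1, a', b')) = _
        by_cases hy : y.1 = x
        · rw [if_pos hy, Finset.sum_eq_single a, Finset.sum_eq_single b]
          · simp [hy]
          · intro b' _ hb'
            simp [hb']
          · simp
          · intro a' _ ha'
            simp [ha']
          · simp
        · rw [if_neg hy]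
          simp [hy]
      have h5 : Ps w ε p q p' q' (Pi.single (Sum.inl (x, a, b)) 1) =
          ((fun y => if y.1 = x then w x.1.1 x.1.2 y.2 a b else 0),
            (Ps w ε p q p' q' (Pi.single (Sum.inl (x, a, b)) 1)).2) := by
        rw [← h4]
      rw [h5, hfs, h0, mul_zero, add_zero, Fintype.sum_prod_type,
        Finset.sum_eq_single x] at h3
      · refine Eq.trans ?_ h3
        refine Finset.sum_congr rfl fun c _ => ?_
        rw [if_pos rfl, mul_comm]
      · intro y _ hy
        simp [hy]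
      · simp
    have h6 := indep (w x.1.1 x.1.2) (hD _ _ x.2.ne) (fun c => f (Pi.single (x, c) 1, 0)) h2
    exact congrFun h6 c
  apply hf0
  refine LinearMap.ext fun v => ?_
  obtain ⟨v, t⟩ := v
  rw [hfs, h0]
  simp [h1]

/-- ordered pairs -/
def eqv (m : ℕ) : Fin m × Fin m ≃ (QQ' m ⊕ QQ' m) ⊕ Fin m where
  toFun x := if h : x.1 < x.2 then Sum.inl (Sum.inl ⟨x, h⟩)
    else if h : x.2 < x.1 then Sum.inl (Sum.inr ⟨(x.2, x.1), h⟩) else Sum.inr x.1
  invFun
    | Sum.inl (Sum.inl x) => x.1
    | Sum.inl (Sum.inr x) => (x.1.2, x.1.1)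
    | Sum.inr i => (i, i)
  left_inv := by
    rintro ⟨i, j⟩
    rcases lt_trichotomy i j with h | h | h
    · simp [h]
    · subst h
      simp
    · simp [h, not_lt.2 h.le]
  right_inv := by
    rintro ((⟨⟨i, j⟩, h⟩ | ⟨⟨i, j⟩, h⟩) | i)
    · have h' : i < j := h
      simp [h']
    · have h' : i < j := h
      simp [h', not_lt.2 h'.le]
    · simp

theorem card_Q (m : ℕ) : 2 * Fintype.card (QQ' m) + m = m ^ 2 := by
  have h := Fintype.card_congr (eqv m)
  simp only [Fintype.card_sum, Fintype.card_prod, Fintype.card_fin] at h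
  rw [pow_two, h]
  ring

end DIM_

open DIM_ in
theorem p_DIM : T_DIM.{u} := by
  intro m K _ w ε p q p' q' hm hpq hpq' hw hD
  rw [Fsp_eq w ε p q p' q' hw]
  have h1 := (Submodule.equivMapOfInjective (E m K) E_inj
    (LinearMap.ker (Ps w ε p q p' q'))).finrank_eq
  rw [← h1]
  have h2 := LinearMap.finrank_range_add_finrank_ker (Ps w ε p q p' q')
  rw [Ps_surj w ε p q p' q' hm hpq hpq' hD, finrank_top, Module.finrank_prod,
    Module.finrank_fintype_fun_eq_card, Module.finrank_fintype_fun_eq_card,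
    Module.finrank_self] at h2
  simp only [Fintype.card_sum, Fintype.card_prod, Fintype.card_fin] at h2
  have h3 := card_Q m
  have h4 : 3 * m ^ 2 = 6 * Fintype.card (QQ' m) + 3 * m := by omega
  omega

end Pool.Agent.VCT
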