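import Pool.Agent.VCT.Targets

/-!
# The existence over an extension field
-/

set_option autoImplicit false

namespace Pool.Agent.VCT

open Pool.Agent.VCC

universe u

namespace EXT_

section Map

variable {R S : Type*} [CommRing R] [CommRing S] {m : ℕ} (φ : R →+* S)

theorem uu_map (u : Fin 2) (a : Fin 3) : φ (uu u a) = uu u a := by
  fin_cases u <;> fin_cases a <;> simp [uu]

theorem rc_map (u : Fin 2) (b e : Fin 3) : φ (rc u b e) = rc u b e := by
  unfold rc
  split_ifs <;> simp [uu_map]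

theorem L2_map (w : Frm R) (z : Mat R) (a e : Fin 3) :
    L2 (fun c a b => φ (w c a b)) (fun b c => φ (z b c)) a e = φ (L2 w z a e) := by
  simp [L2, map_sum]

theorem L3_map (w1 w2 w3 : Frm R) (A B C : Mat R) (a b d : Fin 3) :
    L3 (fun c a b => φ (w1 c a b)) (fun c a b => φ (w2 c a b)) (fun c a b => φ (w3 c a b))
      (fun b c => φ (A b c)) (fun b c => φ (B b c)) (fun b c => φ (C b c)) a b d =
      φ (L3 w1 w2 w3 A B C a b d) := by
  simp [L3, map_sum]

theorem wsym_map {w : Arr m R} (h : WSym w) : WSym (w.map φ) := by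
  refine ⟨fun i => ?_, fun i j => ?_⟩
  · funext c a b
    simp [Arr.map, h.1 i]
  · funext c a b
    simp [Arr.map, h.2 i j, tr]

theorem zok_map {w : Arr m R} {z : Zar m R} (h : ZOK w z) : ZOK (w.map φ) (z.map φ) := by
  intro i j hij u a e
  rw [← uu_map φ, ← h i j hij u a e]
  exact L2_map φ (w i j) (z i j u) a e

theorem crs_map {w : Arr m R} {p q : Fin m} {X : Crs m R} (h : CrsOK w p q X) :
    CrsOK (w.map φ) p q (X.map φ) where
  tri i h1 h2 u a b d := by
    have h3 := congrArg φ (h.tri i h1 h2 u a b d)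
    rw [← L3_map, apply_ite φ, uu_map, map_zero] at h3
    exact h3
  cp u b e := by
    rw [← rc_map φ, ← h.cp u b e]
    exact L2_map φ (w q p) (X.P u) b e
  cq u b e := by
    rw [← rc_map φ, ← h.cq u b e]
    exact L2_map φ (w p q) (X.Q u) b e

end Map

theorem exists_z {m : ℕ} {κ : Type u} [Field κ] (h : T_SOLVE.{u}) (w : Arr m κ)
    (hw : ∀ i j, i ≠ j → D2 (w i j)) : ∃ z : Zar m κ, ZOK w z := by
  have h1 : ∀ (i j : Fin m) (u : Fin 2), ∃ z : Mat κ, i ≠ j → ∀ a e, L2 (w i j) z a e = uu u a := by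
    intro i j u
    by_cases hij : i = j
    · exact ⟨0, fun h => absurd hij h⟩
    · obtain ⟨z, hz⟩ := (h κ).1 (w i j) (fun a _ => uu u a) (hw i j hij)
      exact ⟨z, fun _ => hz⟩
  choose z hz using h1
  exact ⟨z, fun i j hij u => hz i j u hij⟩

theorem exists_crs {m : ℕ} {κ : Type u} [Field κ] (h : T_SOLVE.{u}) (w : Arr m κ)
    (hw : ∀ i j, i ≠ j → D2 (w i j))
    (hw3 : ∀ i j l, i ≠ j → i ≠ l → j ≠ l → D3 (w i j) (w i l) (w j l)) (p q : Fin m)
    (hpq : p ≠ q) : ∃ X : Crs m κ, CrsOK w p q X := by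
  have h1 : ∀ (i : Fin m) (u : Fin 2), ∃ A B C : Mat κ, i ≠ p → i ≠ q → ∀ a b d,
      L3 (w i p) (w i q) (w p q) A B C a b d = if b = 0 ∧ d = 0 then uu u a else 0 := by
    intro i u
    by_cases hi : i ≠ p ∧ i ≠ q
    · obtain ⟨A, B, C, hz⟩ := (h κ).2 (w i p) (w i q) (w p q)
        (fun a b d => if b = 0 ∧ d = 0 then uu u a else 0) (hw3 i p q hi.1 hi.2 hpq)
      exact ⟨A, B, C, fun _ _ => hz⟩
    · exact ⟨0, 0, 0, fun h1 h2 => absurd ⟨h1, h2⟩ hi⟩
  choose A B C hABC using h1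
  have h2 : ∀ u : Fin 2, ∃ z : Mat κ, ∀ b e, L2 (w q p) z b e = rc u b e := fun u =>
    (h κ).1 (w q p) (fun b e => rc u b e) (hw q p hpq.symm)
  have h3 : ∀ u : Fin 2, ∃ z : Mat κ, ∀ b e, L2 (w p q) z b e = rc u b e := fun u =>
    (h κ).1 (w p q) (fun b e => rc u b e) (hw p q hpq)
  choose P hP using h2
  choose Q hQ using h3
  exact ⟨⟨A, B, C, P, Q⟩, ⟨fun i h1 h2 u => hABC i u h1 h2, hP, hQ⟩⟩

/-- the generic forms over a field which contains the polynomial ring -/
noncomputable def gw {m : ℕ} {k κ : Type u} [Field k] [Field κ]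
    (ρ : MvPolynomial (Fin m × Fin m × Fin 3 × Fin 3 × Fin 3) k →+* κ) : Arr m κ :=
  fun i j c a b => if i < j then ρ (MvPolynomial.X (i, j, c, a, b))
    else if j < i then ρ (MvPolynomial.X (j, i, c, b, a)) else 0

theorem gw_map {m : ℕ} {k κ κ' : Type u} [Field k] [Field κ] [Field κ']
    (ρ : MvPolynomial (Fin m × Fin m × Fin 3 × Fin 3 × Fin 3) k →+* κ) (φ : κ →+* κ') :
    (gw ρ).map φ = gw (φ.comp ρ) := by
  funext i j c a b
  simp only [Arr.map, gw, apply_ite φ, RingHom.comp_apply, map_zero]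

end EXT_

open EXT_ in
theorem p_EXT (h1 : T_PLACE.{u}) (h2 : T_GENX.{u}) (h3 : T_SOLVE.{u}) (h4 : T_GEN.{u})
    (h5 : T_NOC.{u}) (h6 : T_DIM.{u}) (h7 : T_RED.{u}) (h8 : T_ASM.{u}) : T_EXT.{u} := by
  intro m k _ _ hm
  -- the field of the generic forms
  let A := MvPolynomial (Fin m × Fin m × Fin 3 × Fin 3 × Fin 3) k
  let F0 := FractionRing A
  let a0 : A →+* F0 := algebraMap A F0
  have ha0 : Function.Injective a0 := IsFractionRing.injective A F0
  -- the field with the parameter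
  let K := FractionRing (Polynomial F0)
  let ρ : Polynomial F0 →+* K := algebraMap (Polynomial F0) K
  have hρ : Function.Injective ρ := IsFractionRing.injective (Polynomial F0) K
  let ev : Polynomial F0 →+* F0 := Polynomial.evalRingHom 0
  have hev : Function.Surjective ev := fun x => ⟨Polynomial.C x, by simp [ev]⟩
  obtain ⟨κ, _, P, ι, hP⟩ := h1 (Polynomial F0) K F0 ρ ev hρ hev
  -- the embedding into the valuation ring
  let jj : Polynomial F0 →+* P.B :=
    ρ.codRestrict P.B.toSubring fun x => (hP x).1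
  have hjj : ∀ x, (jj x : K) = ρ x := fun x => rfl
  have hr : ∀ x, P.r (jj x) = ι (ev x) := fun x => (hP x).2
  let j : F0 →+* P.B := jj.comp Polynomial.C
  have hrj : P.r.comp j = ι := by
    ext x
    have := hr (Polynomial.C x)
    simpa [j, ev] using this
  let ε : P.B := jj Polynomial.X
  have hε : ε ≠ 0 := by
    intro h
    have h' : ρ Polynomial.X = ρ 0 := by
      rw [map_zero, ← hjj, show jj Polynomial.X = 0 from h]
      rfl
    exact Polynomial.X_ne_zero (hρ h')
  have hrε : P.r ε = 0 := by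
    rw [show P.r ε = ι (ev Polynomial.X) from hr _]
    simp [ev]
  -- the forms
  let w0 : Arr m F0 := gw a0
  have hg0 : Generic k F0 w0 := h2 m k F0 a0 ha0
  obtain ⟨hD2, hD3, -, -⟩ := h4 m k F0 w0 hg0
  obtain ⟨z0, hz0⟩ := exists_z h3 w0 hD2
  let p : Fin m := ⟨0, by omega⟩
  let q : Fin m := ⟨1, by omega⟩
  let p' : Fin m := ⟨2, by omega⟩
  let q' : Fin m := ⟨3, by omega⟩
  have hpq : p ≠ q := by simp [p, q]
  have hpq' : p' ≠ q' := by simp [p', q']
  have n1 : p ≠ p' := by simp [p, p']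
  have n2 : p ≠ q' := by simp [p, q']
  have n3 : q ≠ p' := by simp [q, p']
  have n4 : q ≠ q' := by simp [q, q']
  obtain ⟨X0, hX0⟩ := exists_crs h3 w0 hD2 hD3 p q hpq
  obtain ⟨X0', hX0'⟩ := exists_crs h3 w0 hD2 hD3 p' q' hpq'
  -- over the residue field
  have hwκ : (w0.map j).map P.r = gw (ι.comp a0) := by
    rw [← gw_map, ← hrj]
    rfl
  have hgκ : Generic k κ ((w0.map j).map P.r) := by
    rw [hwκ]
    exact h2 m k κ (ι.comp a0) (ι.injective.comp ha0)
  obtain ⟨hE2, -, hT, hL⟩ := h4 m k κ _ hgκ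
  have : CharZero κ :=
    charZero_of_injective_ringHom
      (f := (ι.comp a0).comp (MvPolynomial.C : k →+* A))
      ((ι.comp a0).comp (MvPolynomial.C : k →+* A)).injective
  -- over `K`
  let jK : F0 →+* K := P.B.subtype.comp j
  have hgK : Generic k K ((w0.map j).map P.B.subtype) := by
    have : (w0.map j).map P.B.subtype = gw (jK.comp a0) := by
      rw [← gw_map]
      rfl
    rw [this]
    exact h2 m k K (jK.comp a0) (jK.injective.comp ha0)
  obtain ⟨hK2, hK3, -, -⟩ := h4 m k K _ hgK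
  let c : k →+* K := (jK.comp a0).comp (MvPolynomial.C : k →+* A)
  have : CharZero K := charZero_of_injective_ringHom c.injective
  have hwB : WSym (w0.map j) := wsym_map j hg0.1
  have hzB : ZOK (w0.map j) (z0.map j) := zok_map j hz0
  have hXB : CrsOK (w0.map j) p q (X0.map j) := crs_map j hX0
  have hXB' : CrsOK (w0.map j) p' q' (X0'.map j) := crs_map j hX0'
  have hwK := wsym_map P.B.subtype hwB
  refine ⟨K, inferInstance, c.toAlgebra,
    Fsp ((w0.map j).map P.B.subtype) (ε : K) p q p' q', fun F hF => hF.1, ?_, ?_, ?_⟩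
  · exact h6 m K _ _ p q p' q' (by omega) hpq hpq' hwK hK2
  · exact h5 m K _ _ p q p' q' hpq hpq' hwK hK2 hK3
  · refine h7 m K _ ((z0.map j).map P.B.subtype) (ε : K) p q ((X0.map j).map P.B.subtype) p' q'
      ((X0'.map j).map P.B.subtype) hpq hpq' n1 n2 n3 n4 hwK (zok_map P.B.subtype hzB)
      (crs_map P.B.subtype hXB) (crs_map P.B.subtype hXB') hK2 ?_
    exact h8 m K κ P (w0.map j) (z0.map j) ε p q (X0.map j) p' q' (X0'.map j) hpq hpq'
      n1 n2 n3 n4 hwB hzB hXB hXB' hε hrε hE2 hT hL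

end Pool.Agent.VCT
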