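import Pool.Agent.VCT.Targets

set_option autoImplicit false

/-!
# Target `T_LIFT`

Solutions of linear systems which are injective at the place are integral.
-/

namespace Pool.Agent.VCT

universe u

namespace LIFT_

section ring

variable {R S : Type*} [CommRing R] [CommRing S]

lemma map_L2 (φ : R →+* S) (w : Frm R) (z : Mat R) (a e : Fin 3) :
    φ (L2 w z a e) = L2 (fun c a b => φ (w c a b)) (fun b c => φ (z b c)) a e := by
  simp only [L2, map_sum, map_add, map_mul]

lemma map_L3 (φ : R →+* S) (w1 w2 w3 : Frm R) (A B C : Mat R) (a b d : Fin 3) :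
    φ (L3 w1 w2 w3 A B C a b d) = L3 (fun c a b => φ (w1 c a b)) (fun c a b => φ (w2 c a b))
      (fun c a b => φ (w3 c a b)) (fun b c => φ (A b c)) (fun b c => φ (B b c))
      (fun b c => φ (C b c)) a b d := by
  simp only [L3, map_sum, map_add, map_mul]

lemma smul_L2 (w : Frm R) (t : R) (z : Mat R) (a e : Fin 3) :
    L2 w (fun b c => t * z b c) a e = t * L2 w z a e := by
  simp only [L2, Finset.mul_sum]
  exact Finset.sum_congr rfl fun c _ => by ring

lemma smul_L3 (w1 w2 w3 : Frm R) (t : R) (A B C : Mat R) (a b d : Fin 3) :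
    L3 w1 w2 w3 (fun b c => t * A b c) (fun b c => t * B b c) (fun b c => t * C b c) a b d =
      t * L3 w1 w2 w3 A B C a b d := by
  simp only [L3, Finset.mul_sum]
  exact Finset.sum_congr rfl fun c _ => by ring

end ring

variable {K κ : Type u} [Field K] [Field κ] (P : Place K κ)

lemma coe_L2 (w : Frm P.B) (z : Mat P.B) (a e : Fin 3) :
    ((L2 w z a e : P.B) : K) = L2 (fun c a b => (w c a b : K)) (fun b c => (z b c : K)) a e :=
  map_L2 P.B.subtype w z a e

lemma coe_L3 (w1 w2 w3 : Frm P.B) (A B C : Mat P.B) (a b d : Fin 3) :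
    ((L3 w1 w2 w3 A B C a b d : P.B) : K) = L3 (fun c a b => (w1 c a b : K))
      (fun c a b => (w2 c a b : K)) (fun c a b => (w3 c a b : K)) (fun b c => (A b c : K))
      (fun b c => (B b c : K)) (fun b c => (C b c : K)) a b d :=
  map_L3 P.B.subtype w1 w2 w3 A B C a b d

end LIFT_

open LIFT_ in
theorem p_LIFT (h : T_PRIM.{u}) : T_LIFT.{u} := by
  intro K κ _ _ P
  refine ⟨?_, ?_, ?_⟩
  · intro w ρ z hD hz
    rcases (h K κ P (Fin 3 × Fin 3) (fun x => z x.1 x.2)).2 with hint | ⟨c, hc, y, hy, j, hj⟩
    · refine ⟨fun b c => ⟨z b c, hint (b, c)⟩, fun b c => rfl, fun a e => ?_⟩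
      apply Subtype.ext
      rw [coe_L2]
      exact hz a e
    · exfalso
      have h1 : ∀ a e, L2 w (fun b c => y (b, c)) a e = c * ρ a e := by
        intro a e
        apply Subtype.ext
        rw [coe_L2]
        have h2 : (fun b c' => ((y (b, c') : P.B) : K)) = fun b c' => (c : K) * z b c' := by
          funext b c'
          exact (hy (b, c')).symm
        rw [h2, smul_L2, hz a e]
        rfl
      have h3 := hD (fun b c => P.r (y (b, c))) fun a e => by
        rw [← map_L2 P.r w (fun b c => y (b, c)) a e, h1, map_mul, hc, zero_mul]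
      have h4 := congrFun (congrFun h3 j.1) j.2
      change P.r (y (j.1, j.2)) = 0 at h4
      rw [Prod.mk.eta, hj, map_one] at h4
      exact one_ne_zero h4
  · intro w1 w2 w3 ρ A B C hD hz
    rcases (h K κ P (Fin 3 × Fin 3 × Fin 3)
      (fun x => (![A, B, C] : Fin 3 → Mat K) x.1 x.2.1 x.2.2)).2 with
      hint | ⟨c, hc, y, hy, j, hj⟩
    · refine ⟨fun b c => ⟨A b c, hint (0, b, c)⟩, fun b c => ⟨B b c, hint (1, b, c)⟩,
        fun b c => ⟨C b c, hint (2, b, c)⟩, fun b c => rfl, fun b c => rfl, fun b c => rfl,
        fun a b d => ?_⟩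
      apply Subtype.ext
      rw [coe_L3]
      exact hz a b d
    · exfalso
      have h1 : ∀ a b d, L3 w1 w2 w3 (fun b c => y (0, b, c)) (fun b c => y (1, b, c))
          (fun b c => y (2, b, c)) a b d = c * ρ a b d := by
        intro a b d
        apply Subtype.ext
        rw [coe_L3]
        have hA : (fun b c' => ((y (0, b, c') : P.B) : K)) = fun b c' => (c : K) * A b c' := by
          funext b c'
          exact (hy (0, b, c')).symm
        have hB : (fun b c' => ((y (1, b, c') : P.B) : K)) = fun b c' => (c : K) * B b c' := by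
          funext b c'
          exact (hy (1, b, c')).symm
        have hC : (fun b c' => ((y (2, b, c') : P.B) : K)) = fun b c' => (c : K) * C b c' := by
          funext b c'
          exact (hy (2, b, c')).symm
        rw [hA, hB, hC, smul_L3, hz a b d]
        rfl
      obtain ⟨hA, hB, hC⟩ := hD (fun b c => P.r (y (0, b, c))) (fun b c => P.r (y (1, b, c)))
        (fun b c => P.r (y (2, b, c))) fun a b d => by
          rw [← map_L3 P.r w1 w2 w3 (fun b c => y (0, b, c)) (fun b c => y (1, b, c))
            (fun b c => y (2, b, c)) a b d, h1, map_mul, hc, zero_mul]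
      have h4 : P.r (y j) = 0 := by
        obtain ⟨i, b, c'⟩ := j
        fin_cases i
        · exact congrFun (congrFun hA b) c'
        · exact congrFun (congrFun hB b) c'
        · exact congrFun (congrFun hC b) c'
      rw [hj, map_one] at h4
      exact one_ne_zero h4
  · rintro w M hD ⟨y, hy0⟩
    have hy : ∀ a b, (M a b : K) = ∑ c, y c * (w c a b : K) := hy0
    rcases (h K κ P (Fin 3) y).2 with hint | ⟨c, hc, y', hy', j, hj⟩
    · refine ⟨fun c => P.r ⟨y c, hint c⟩, fun a b => ?_⟩
      have h1 : M a b = ∑ c, (⟨y c, hint c⟩ : P.B) * w c a b := by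
        apply Subtype.ext
        change P.B.subtype (M a b) = P.B.subtype (∑ c, (⟨y c, hint c⟩ : P.B) * w c a b)
        rw [map_sum]
        simp only [map_mul]
        exact hy a b
      change P.r (M a b) = ∑ c, P.r ⟨y c, hint c⟩ * P.r (w c a b)
      rw [h1, map_sum]
      simp only [map_mul]
    · exfalso
      have h1 : ∀ a b, ∑ d, P.r (y' d) * P.r (w d a b) = 0 := by
        intro a b
        have h2 : ∑ d, y' d * w d a b = c * M a b := by
          apply Subtype.ext
          change P.B.subtype (∑ d, y' d * w d a b) = P.B.subtype (c * M a b)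
          rw [map_sum]
          simp only [map_mul]
          change ∑ d, (y' d : K) * (w d a b : K) = (c : K) * (M a b : K)
          rw [hy a b, Finset.mul_sum]
          refine Finset.sum_congr rfl fun d _ => ?_
          rw [← hy' d]
          ring
        have h3 := congrArg P.r h2
        rw [map_sum, map_mul, hc, zero_mul] at h3
        simpa only [map_mul] using h3
      have h3 := hD (fun _ d => P.r (y' d)) fun a e => by
        simp only [L2, Finset.sum_add_distrib]
        rw [h1, h1, add_zero]
      have h4 := congrFun (congrFun h3 0) j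
      change P.r (y' j) = 0 at h4
      rw [hj, map_one] at h4
      exact one_ne_zero h4

end Pool.Agent.VCT
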