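import Pool.Agent.VCT.ASM
import Pool.Agent.VCT.LIFT

/-!
# Target `T_GEN`: generic forms are good

Generic forms are specialised to the special family `wsp`; solutions of the linear systems are made
primitive and reduced.
-/

set_option autoImplicit false

namespace Pool.Agent.VCT

universe u

namespace GEN_

open ASM_

section Wsp

variable {R S : Type*} [CommRing R] [CommRing S] {m : ℕ}

theorem ord_ne (l p q : Fin m) {i j : Fin m} (h : i ≠ j) : ord l p q i ≠ ord l p q j := by
  unfold ord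
  split_ifs with h1 h2 h3 h4 h5 h6 h7 h8 h9 h10 h11 h12 h13 h14 h15
  all_goals
    intro h0
    omega

theorem wsp_sym (l p q : Fin m) : WSym (wsp R l p q) := by
  refine ⟨fun i => ?_, fun i j => ?_⟩
  · simp [wsp]
  · unfold wsp
    rcases lt_trichotomy (ord l p q i) (ord l p q j) with h | h | h
    · rw [if_pos h, if_neg (asymm h), if_pos h]
    · have h1 : ¬ ord l p q j < ord l p q i := h.le.not_gt
      have h2 : ¬ ord l p q i < ord l p q j := h.ge.not_gt
      simp only [if_neg h1, if_neg h2]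
      rfl
    · rw [if_pos h, if_neg (asymm h), if_pos h]
      rfl

theorem wpos_map (φ : R →+* S) (x y : ℕ) (c a b : Fin 3) :
    φ (wpos R x y c a b) = wpos S x y c a b := by
  unfold wpos
  split <;> fin_cases c <;> fin_cases a <;> fin_cases b <;> 
    simp [w01, w02, w12, wlo, map_ofNat φ 2]

theorem wsp_map (φ : R →+* S) (l p q : Fin m) (i j : Fin m) (c a b : Fin 3) :
    φ (wsp R l p q i j c a b) = wsp S l p q i j c a b := by
  unfold wsp
  split_ifs
  · exact wpos_map φ _ _ _ _ _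
  · exact wpos_map φ _ _ _ _ _
  · exact map_zero φ

theorem D2_wpos (h : T_SP2.{u}) {κ : Type u} [Field κ] [CharZero κ] (x y : ℕ) :
    D2 (wpos κ x y) ∧ D2 (tr (wpos κ x y)) := by
  obtain ⟨h1, h2, h3, h4, h5, h6, h7, h8⟩ := h κ
  unfold wpos
  split
  exacts [⟨h1, h2⟩, ⟨h3, h4⟩, ⟨h5, h6⟩, ⟨h7, h8⟩]

theorem D2_wsp (h : T_SP2.{u}) {κ : Type u} [Field κ] [CharZero κ] (l p q i j : Fin m)
    (hij : i ≠ j) : D2 (wsp κ l p q i j) := by
  unfold wsp
  have h0 := ord_ne l p q hij
  split_ifs with h1 h2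
  · exact (D2_wpos h _ _).1
  · exact (D2_wpos h _ _).2
  · omega

theorem D3_wsp (h : T_SP3.{u}) {κ : Type u} [Field κ] (l p q : Fin m)
    (hlp : l ≠ p) (hlq : l ≠ q) (hpq : p ≠ q) :
    D3 (wsp κ l p q l p) (wsp κ l p q l q) (wsp κ l p q p q) := by
  have hl : ord l p q l = 0 := by simp [ord]
  have hp : ord l p q p = 1 := by simp [ord, hlp.symm]
  have hq : ord l p q q = 2 := by simp [ord, hlq.symm, hpq.symm]
  have h1 : wsp κ l p q l p = w01 κ := by
    unfold wsp
    rw [hl, hp, if_pos (by norm_num)]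
    rfl
  have h2 : wsp κ l p q l q = w02 κ := by
    unfold wsp
    rw [hl, hq, if_pos (by norm_num)]
    rfl
  have h3 : wsp κ l p q p q = w12 κ := by
    unfold wsp
    rw [hp, hq, if_pos (by norm_num)]
    rfl
  rw [h1, h2, h3]
  exact h κ

end Wsp

/-- specialisation of generic forms -/
theorem spec {m : ℕ} {k κ : Type u} [Field k] [Field κ] [CharZero k] {w : Arr m κ}
    (hG : Generic k κ w) (l p q : Fin m) :
    ∃ (κ' : Type u) (_ : Field κ') (_ : CharZero κ') (P : Place κ κ') (w' : Arr m P.B),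
      w = w'.map P.B.subtype ∧ w'.map P.r = wsp κ' l p q := by
  obtain ⟨κ', hκ, P, ι, h⟩ := hG.2 (wsp k l p q) (wsp_sym l p q)
  choose h1 h2 using h
  refine ⟨κ', hκ, charZero_of_injective_ringHom ι.injective, P,
    fun i j c a b => ⟨w i j c a b, h1 i j c a b⟩, rfl, ?_⟩
  funext i j c a b
  change P.r _ = _
  rw [h2, wsp_map]

section Place

variable {K κ : Type u} [Field K] [Field κ] (P : Place K κ) {m : ℕ}

theorem coe_inj {x y : P.B} (h : P.B.subtype x = P.B.subtype y) : x = y := Subtype.ext h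

theorem D2_red (hP : T_PRIM.{u}) (w : Frm P.B) (hD : D2 (fun c a b => P.r (w c a b))) :
    D2 (fun c a b => P.B.subtype (w c a b)) := by
  intro z hz
  by_contra hne
  have hne' : ∃ j : Fin 3 × Fin 3, z j.1 j.2 ≠ 0 := by
    by_contra h0
    push Not at h0
    exact hne (funext fun a => funext fun b => h0 (a, b))
  obtain ⟨c, hc, y, hy, j, hj⟩ := (hP K κ P (Fin 3 × Fin 3) (fun j => z j.1 j.2)).1 hne'
  have h1 : ∀ a e, L2 w (fun b d => y (b, d)) a e = 0 := by
    intro a e
    apply coe_inj P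
    rw [← L2_map, map_zero]
    have h2 : (fun b d => P.B.subtype (y (b, d))) = fun b d => c * z b d := by
      funext b d
      exact (hy (b, d)).symm
    rw [h2, LIFT_.smul_L2, hz a e, mul_zero]
  have h3 := hD (fun b d => P.r (y (b, d))) fun a e => by rw [L2_map, h1, map_zero]
  have h4 : P.r (y j) = 0 := congrFun (congrFun h3 j.1) j.2
  rw [hj, map_one] at h4
  exact one_ne_zero h4

theorem D3_red (hP : T_PRIM.{u}) (w1 w2 w3 : Frm P.B)
    (hD : D3 (fun c a b => P.r (w1 c a b)) (fun c a b => P.r (w2 c a b))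
      (fun c a b => P.r (w3 c a b))) :
    D3 (fun c a b => P.B.subtype (w1 c a b)) (fun c a b => P.B.subtype (w2 c a b))
      (fun c a b => P.B.subtype (w3 c a b)) := by
  intro A B C hz
  by_contra hne
  have hne' : ∃ j : Fin 3 × Fin 3 × Fin 3, (![A, B, C] : Fin 3 → Mat K) j.1 j.2.1 j.2.2 ≠ 0 := by
    by_contra h0
    push Not at h0
    exact hne ⟨funext fun a => funext fun b => h0 (0, a, b),
      funext fun a => funext fun b => h0 (1, a, b), funext fun a => funext fun b => h0 (2, a, b)⟩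
  obtain ⟨c, hc, y, hy, j, hj⟩ := (hP K κ P (Fin 3 × Fin 3 × Fin 3)
    (fun j => (![A, B, C] : Fin 3 → Mat K) j.1 j.2.1 j.2.2)).1 hne'
  have hA : (fun b d => P.B.subtype (y (0, b, d))) = fun b d => c * A b d := by
    funext b d
    exact (hy (0, b, d)).symm
  have hB : (fun b d => P.B.subtype (y (1, b, d))) = fun b d => c * B b d := by
    funext b d
    exact (hy (1, b, d)).symm
  have hC : (fun b d => P.B.subtype (y (2, b, d))) = fun b d => c * C b d := by
    funext b d
    exact (hy (2, b, d)).symm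
  have h1 : ∀ a b d, L3 w1 w2 w3 (fun b d => y (0, b, d)) (fun b d => y (1, b, d))
      (fun b d => y (2, b, d)) a b d = 0 := by
    intro a b d
    apply coe_inj P
    rw [← L3_map, map_zero, hA, hB, hC, LIFT_.smul_L3, hz a b d, mul_zero]
  obtain ⟨h3, h4, h5⟩ := hD (fun b d => P.r (y (0, b, d))) (fun b d => P.r (y (1, b, d)))
    (fun b d => P.r (y (2, b, d))) fun a b d => by rw [L3_map, h1, map_zero]
  have h6 : P.r (y j) = 0 := by
    obtain ⟨i, b, d⟩ := j
    fin_cases i
    · exact congrFun (congrFun h3 b) d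
    · exact congrFun (congrFun h4 b) d
    · exact congrFun (congrFun h5 b) d
  rw [hj, map_one] at h6
  exact one_ne_zero h6

/-- integrality of the decompositions -/
theorem ZOK_lift (hL : T_LIFT.{u}) (w : Arr m P.B) (z : Zar m K)
    (hD : ∀ i j, i ≠ j → D2 (w.map P.r i j)) (hz : ZOK (w.map P.B.subtype) z) :
    ∃ z' : Zar m P.B, (∀ i j, i ≠ j → z i j = z'.map P.B.subtype i j) ∧ ZOK w z' := by
  have h : ∀ i j (u : Fin 2), ∃ z' : Mat P.B, i ≠ j →
      (∀ b c, z i j u b c = z' b c) ∧ ∀ a e, L2 (w i j) z' a e = uu u a := by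
    intro i j u
    by_cases hij : i = j
    · exact ⟨0, fun h => absurd hij h⟩
    · obtain ⟨z', h1, h2⟩ := (hL K κ P).1 (w i j) (fun a _ => uu u a) (z i j u) (hD i j hij)
        fun a e => by
          have h3 := hz i j hij u a e
          rw [uu_map P.B.subtype] at h3
          exact h3
      exact ⟨z', fun _ => ⟨h1, h2⟩⟩
  choose z' hz' using h
  refine ⟨z', fun i j hij => ?_, fun i j hij u a e => (hz' i j u hij).2 a e⟩
  funext u b c
  exact (hz' i j u hij).1 b c

theorem ZOK_map {R S : Type*} [CommRing R] [CommRing S] (φ : R →+* S) (w : Arr m R)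
    (z : Zar m R) (hz : ZOK w z) : ZOK (w.map φ) (z.map φ) := by
  intro i j hij u a e
  rw [uu_map φ, ← hz i j hij u a e, ← L2_map]
  rfl

theorem InSp_smul {R : Type*} [CommRing R] (w : Frm R) (t : R) (M M' : Mat R)
    (h : ∀ a b, M' a b = t * M a b) (hM : InSp w M) : InSp w M' := by
  obtain ⟨y, hy⟩ := hM
  refine ⟨fun c => t * y c, fun a b => ?_⟩
  rw [h, hy, Finset.mul_sum]
  exact Finset.sum_congr rfl fun c _ => by ring

/-- reduction of memberships -/
theorem InSp_red (hL : T_LIFT.{u}) (w : Frm P.B) (hD : D2 (fun c a b => P.r (w c a b)))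
    (N : Mat P.B) (M : Mat K) (M' : Mat κ) (h1 : ∀ a b, M a b = P.B.subtype (N a b))
    (h2 : ∀ a b, M' a b = P.r (N a b)) (h : InSp (fun c a b => P.B.subtype (w c a b)) M) :
    InSp (fun c a b => P.r (w c a b)) M' := by
  have h3 : M = fun a b => ((N a b : P.B) : K) := funext fun a => funext fun b => h1 a b
  have h4 : M' = fun a b => P.r (N a b) := funext fun a => funext fun b => h2 a b
  rw [h4]
  rw [h3] at h
  exact (hL K κ P).2.2 w N hD h

theorem PT_smul {R : Type*} [CommRing R] (w : Arr m R) (z z' : Zar m R) (a b c : Fin m) (t : R)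
    (F1 F2 F3 : Mat R) (hz : ∀ i j, i ≠ j → z i j = z' i j) (hab : a ≠ b) (hac : a ≠ c)
    (hbc : b ≠ c) (h : PT w z a b c F1 F2 F3) :
    PT w z' a b c (fun i j => t * F1 i j) (fun i j => t * F2 i j) (fun i j => t * F3 i j) := by
  refine ⟨fun u => ?_, fun u => ?_, fun u => ?_⟩
  · refine InSp_smul _ t _ _ (fun e e' => ?_) (h.x u)
    rw [Finset.mul_sum, hz a b hab, hz a c hac]
    exact Finset.sum_congr rfl fun x _ => by ring
  · refine InSp_smul _ t _ _ (fun e e' => ?_) (h.y u)
    rw [Finset.mul_sum, hz b a hab.symm, hz b c hbc]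
    exact Finset.sum_congr rfl fun x _ => by ring
  · refine InSp_smul _ t _ _ (fun e e' => ?_) (h.z u)
    rw [Finset.mul_sum, hz c a hac.symm, hz c b hbc.symm]
    exact Finset.sum_congr rfl fun x _ => by ring

theorem PT_red (hL : T_LIFT.{u}) (w : Arr m P.B) (z : Zar m P.B) (a b c : Fin m)
    (hab : a ≠ b) (hac : a ≠ c) (hbc : b ≠ c) (hD : ∀ i j, i ≠ j → D2 (w.map P.r i j))
    (F1 F2 F3 : Mat P.B)
    (h : PT (w.map P.B.subtype) (z.map P.B.subtype) a b c (fun i j => P.B.subtype (F1 i j))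
      (fun i j => P.B.subtype (F2 i j)) (fun i j => P.B.subtype (F3 i j))) :
    PT (w.map P.r) (z.map P.r) a b c (fun i j => P.r (F1 i j))
      (fun i j => P.r (F2 i j)) (fun i j => P.r (F3 i j)) := by
  refine ⟨fun u => ?_, fun u => ?_, fun u => ?_⟩
  · refine InSp_red P hL (w b c) (hD b c hbc)
      (fun e e' => ∑ x, (z a b u e x * F1 x e' + z a c u e' x * F2 x e)) _ _
      (fun e e' => ?_) (fun e e' => ?_) (h.x u)
    · simp only [map_sum, map_add, map_mul]
      rfl
    · simp only [map_sum, map_add, map_mul]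
      rfl
  · refine InSp_red P hL (w a c) (hD a c hac)
      (fun e e' => ∑ x, (z b a u e x * F1 x e' + z b c u e' x * F3 x e)) _ _
      (fun e e' => ?_) (fun e e' => ?_) (h.y u)
    · simp only [map_sum, map_add, map_mul]
      rfl
    · simp only [map_sum, map_add, map_mul]
      rfl
  · refine InSp_red P hL (w a b) (hD a b hab)
      (fun e e' => ∑ x, (z c a u e x * F2 x e' + z c b u e' x * F3 x e)) _ _
      (fun e e' => ?_) (fun e e' => ?_) (h.z u)
    · simp only [map_sum, map_add, map_mul]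
      rfl
    · simp only [map_sum, map_add, map_mul]
      rfl

theorem TA_smul {R : Type*} [CommRing R] (w : Arr m R) (z z' : Zar m R) (t : R)
    (S S' : Fin m → Mat R) (g g' : Fin 3 → R) (hz : ∀ i j, i ≠ j → z i j = z' i j)
    (hS : ∀ i a b, S' i a b = t * S i a b) (hg : ∀ b, g' b = t * g b)
    (i : Fin m) (u : Fin 2) (e b : Fin 3) : TA w z' S' g' i u e b = t * TA w z S g i u e b := by
  unfold TA
  have h1 : ∀ a, (if a = e then 0 else uu u a * S' i a b) =
      t * (if a = e then 0 else uu u a * S i a b) := by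
    intro a
    rw [hS]
    split_ifs <;> ring
  have h2 : ∀ j, (if j = i then 0 else ∑ c, Q2 (w i j) (z' i j u) e c * S' j c b) =
      t * (if j = i then 0 else ∑ c, Q2 (w i j) (z i j u) e c * S j c b) := by
    intro j
    split_ifs with hj
    · ring
    · rw [hz i j (Ne.symm hj), Finset.mul_sum]
      refine Finset.sum_congr rfl fun c _ => ?_
      rw [hS]
      ring
  rw [Finset.sum_congr rfl fun a _ => h1 a, Finset.sum_congr rfl fun j _ => h2 j,
    ← Finset.mul_sum, ← Finset.mul_sum, hg]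
  ring

theorem PL_smul {R : Type*} [CommRing R] (w : Arr m R) (z z' : Zar m R) (X X' : Crs m R)
    (l p q : Fin m) (hlp : l ≠ p) (hlq : l ≠ q) (hpq : p ≠ q) (t : R) (D D' : PLd m R)
    (hz : ∀ i j, i ≠ j → z i j = z' i j) (hXB : X.B l = X'.B l) (hXC : X.C l = X'.C l)
    (hXP : X.P = X'.P) (hXQ : X.Q = X'.Q)
    (hS : ∀ i a b, D'.S i a b = t * D.S i a b)
    (hP : ∀ i, i ≠ l → ∀ a b, D'.P i a b = t * D.P i a b)
    (hg : ∀ b, D'.g b = t * D.g b) (hμ : ∀ u, D'.μ u = t * D.μ u)
    (hF1 : ∀ a b, D'.F1 a b = t * D.F1 a b) (hF2 : ∀ a b, D'.F2 a b = t * D.F2 a b)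
    (hF3 : ∀ a b, D'.F3 a b = t * D.F3 a b) (h : PL w z X l p q D) :
    PL w z' X' l p q D' := by
  have hT := TA_smul w z z' t D.S D'.S D.g D'.g hz hS hg
  refine ⟨fun i hi u => ?_, fun k hk u e b heb => ?_, fun u e b heb => ?_, fun u => ?_,
    fun u => ?_, fun u => ?_, fun b => ?_⟩
  · refine InSp_smul _ t _ _ (fun e b => ?_) (h.a i hi u)
    rw [mul_sub, ← hT, Finset.mul_sum, hz i l hi]
    congr 1
    refine Finset.sum_congr rfl fun c _ => ?_
    rw [hP i hi]
    ring
  · rw [hμ, ← mul_neg, ← h.b k hk u e b heb, Finset.mul_sum, hz l k (Ne.symm hk)]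
    refine Finset.sum_congr rfl fun c _ => ?_
    rw [hP k hk, hP k hk]
    ring
  · rw [hT, hT, hμ, ← h.c u e b heb]
    ring
  · refine InSp_smul _ t _ _ (fun e b => ?_) (h.d u)
    rw [mul_add, mul_add, Finset.mul_sum, Finset.mul_sum, hz l p hlp, hz l q hlq, hXB, hXC, hμ,
      mul_ite, mul_zero]
    congr 1
    congr 1
    · refine Finset.sum_congr rfl fun c _ => ?_
      rw [hF1, hF2]
      ring
    · refine Finset.sum_congr rfl fun c _ => ?_
      rw [hP q (Ne.symm hlq), hP p (Ne.symm hlp)]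
      ring
  · refine InSp_smul _ t _ _ (fun e b => ?_) (h.e u)
    rw [mul_add, Finset.mul_sum, Finset.mul_sum, hz p l hlp.symm, hz p q hpq, hXP]
    congr 1
    · refine Finset.sum_congr rfl fun c _ => ?_
      rw [hF1, hF3]
      ring
    · refine Finset.sum_congr rfl fun c _ => ?_
      rw [hS]
      ring
  · refine InSp_smul _ t _ _ (fun e b => ?_) (h.f u)
    rw [mul_add, Finset.mul_sum, Finset.mul_sum, hz q l hlq.symm, hz q p hpq.symm, hXQ]
    congr 1
    · refine Finset.sum_congr rfl fun c _ => ?_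
      rw [hF2, hF3]
      ring
    · refine Finset.sum_congr rfl fun c _ => ?_
      rw [hS]
      ring
  · rw [hS, h.g, mul_zero]

/-- base change of the unknowns -/
def mapD {R S : Type*} [CommRing R] [CommRing S] (φ : R →+* S) (D : PLd m R) : PLd m S :=
  ⟨fun i a b => φ (D.S i a b), fun i a b => φ (D.P i a b), fun b => φ (D.g b),
    fun u => φ (D.μ u), fun a b => φ (D.F1 a b), fun a b => φ (D.F2 a b),
    fun a b => φ (D.F3 a b)⟩

theorem TA_mapD {R S : Type*} [CommRing R] [CommRing S] (φ : R →+* S) (w : Arr m R)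
    (z : Zar m R) (D : PLd m R) (i : Fin m) (u : Fin 2) (e b : Fin 3) :
    TA (w.map φ) (z.map φ) (mapD φ D).S (mapD φ D).g i u e b = φ (TA w z D.S D.g i u e b) :=
  TA_map φ w z D.S D.g i u e b

theorem PL_red (hL : T_LIFT.{u}) (w : Arr m P.B) (z : Zar m P.B) (X : Crs m P.B)
    (l p q : Fin m) (hlp : l ≠ p) (hlq : l ≠ q) (hpq : p ≠ q)
    (hD : ∀ i j, i ≠ j → D2 (w.map P.r i j)) (D : PLd m P.B)
    (h : PL (w.map P.B.subtype) (z.map P.B.subtype) (X.map P.B.subtype) l p q
      (mapD P.B.subtype D)) :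
    PL (w.map P.r) (z.map P.r) (X.map P.r) l p q (mapD P.r D) := by
  refine ⟨fun i hi u => ?_, fun k hk u e b heb => ?_, fun u e b heb => ?_, fun u => ?_,
    fun u => ?_, fun u => ?_, fun b => ?_⟩
  · refine InSp_red P hL (w i l) (hD i l hi)
      (fun e b => TA w z D.S D.g i u e b - ∑ c, z i l u b c * D.P i c e) _ _
      (fun e b => ?_) (fun e b => ?_) (h.a i hi u)
    · rw [TA_mapD, map_sub]
      simp only [map_sum, map_mul]
      rfl
    · rw [TA_mapD, map_sub]
      simp only [map_sum, map_mul]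
      rfl
  · have h1 : ∑ c, (z l k u e c * D.P k c b + z l k u b c * D.P k c e) = - D.μ u := by
      apply coe_inj P
      have h2 := h.b k hk u e b heb
      rw [map_neg]
      refine Eq.trans ?_ h2
      simp only [map_sum, map_add, map_mul]
      rfl
    have h2 := congrArg P.r h1
    rw [map_neg] at h2
    refine Eq.trans ?_ h2
    simp only [map_sum, map_add, map_mul]
    rfl
  · have h1 : TA w z D.S D.g l u e b + TA w z D.S D.g l u b e = D.μ u := by
      apply coe_inj P
      have h2 := h.c u e b heb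
      rw [TA_mapD, TA_mapD] at h2
      rw [map_add]
      exact h2
    have h2 := congrArg P.r h1
    rw [map_add] at h2
    rw [TA_mapD, TA_mapD]
    exact h2
  · refine InSp_red P hL (w p q) (hD p q hpq)
      (fun e b => ∑ c, (z l p u e c * D.F1 c b + z l q u b c * D.F2 c e) +
        ∑ c, (X.B l u e c * D.P q c b + X.C l u b c * D.P p c e) +
        (if e = 0 ∧ b = 0 then D.μ u else 0)) _ _
      (fun e b => ?_) (fun e b => ?_) (h.d u)
    · simp only [map_sum, map_add, map_mul, apply_ite P.B.subtype, map_zero]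
      rfl
    · simp only [map_sum, map_add, map_mul, apply_ite P.r, map_zero]
      rfl
  · refine InSp_red P hL (w l q) (hD l q hlq)
      (fun e b => ∑ c, (z p l u e c * D.F1 c b + z p q u b c * D.F3 c e) +
        ∑ a, sq (w q p) (X.P u) u b a * D.S p a e) _ _
      (fun e b => ?_) (fun e b => ?_) (h.e u)
    · simp only [map_sum, map_add, map_mul, ← sq_map P.B.subtype]
      rfl
    · simp only [map_sum, map_add, map_mul, ← sq_map P.r]
      rfl
  · refine InSp_red P hL (w l p) (hD l p hlp)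
      (fun e b => ∑ c, (z q l u e c * D.F2 c b + z q p u b c * D.F3 c e) +
        ∑ a, sq (w p q) (X.Q u) u b a * D.S q a e) _ _
      (fun e b => ?_) (fun e b => ?_) (h.f u)
    · simp only [map_sum, map_add, map_mul, ← sq_map P.B.subtype]
      rfl
    · simp only [map_sum, map_add, map_mul, ← sq_map P.r]
      rfl
  · have h1 : D.S l b b = 0 := by
      apply coe_inj P
      rw [map_zero]
      exact h.g b
    have h2 := congrArg P.r h1
    rw [map_zero] at h2
    exact h2

/-- integrality of the decompositions -/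
theorem Crs_lift (hL : T_LIFT.{u}) (w : Arr m P.B) (X : Crs m K) (l p q : Fin m) (hpq : p ≠ q)
    (hD : ∀ i j, i ≠ j → D2 (w.map P.r i j))
    (hD3 : D3 (w.map P.r l p) (w.map P.r l q) (w.map P.r p q))
    (hX : CrsL (w.map P.B.subtype) l p q X) :
    ∃ X' : Crs m P.B, X.B l = (X'.map P.B.subtype).B l ∧ X.C l = (X'.map P.B.subtype).C l ∧
      X.P = (X'.map P.B.subtype).P ∧ X.Q = (X'.map P.B.subtype).Q ∧ CrsL w l p q X' := by
  have h1 : ∀ u : Fin 2, ∃ A B C : Mat P.B, (∀ b c, X.A l u b c = A b c) ∧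
      (∀ b c, X.B l u b c = B b c) ∧ (∀ b c, X.C l u b c = C b c) ∧
      ∀ a b d, L3 (w l p) (w l q) (w p q) A B C a b d =
        if b = 0 ∧ d = 0 then uu u a else 0 := by
    intro u
    refine (hL K κ P).2.1 (w l p) (w l q) (w p q)
      (fun a b d => if b = 0 ∧ d = 0 then uu u a else 0) (X.A l u) (X.B l u) (X.C l u) hD3
      fun a b d => ?_
    have h2 := hX.tri u a b d
    rw [uu_map P.B.subtype] at h2
    refine Eq.trans h2 ?_
    split_ifs <;> rfl
  have h2 : ∀ u : Fin 2, ∃ z : Mat P.B, (∀ b c, X.P u b c = z b c) ∧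
      ∀ b e, L2 (w q p) z b e = rc u b e := by
    intro u
    refine (hL K κ P).1 (w q p) (fun b e => rc u b e) (X.P u) (hD q p hpq.symm) fun b e => ?_
    have h3 := hX.cp u b e
    rw [rc_map P.B.subtype] at h3
    exact h3
  have h3 : ∀ u : Fin 2, ∃ z : Mat P.B, (∀ b c, X.Q u b c = z b c) ∧
      ∀ b e, L2 (w p q) z b e = rc u b e := by
    intro u
    refine (hL K κ P).1 (w p q) (fun b e => rc u b e) (X.Q u) (hD p q hpq) fun b e => ?_
    have h3 := hX.cq u b e
    rw [rc_map P.B.subtype] at h3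
    exact h3
  choose A B C hA hB hC hABC using h1
  choose ZP hP hP' using h2
  choose ZQ hQ hQ' using h3
  refine ⟨⟨fun _ => A, fun _ => B, fun _ => C, ZP, ZQ⟩, ?_, ?_, ?_, ?_, ⟨?_, ?_, ?_⟩⟩
  · funext u b c
    exact hB u b c
  · funext u b c
    exact hC u b c
  · funext u b c
    exact hP u b c
  · funext u b c
    exact hQ u b c
  · exact hABC
  · exact hP'
  · exact hQ'

theorem Crs_map {R S : Type*} [CommRing R] [CommRing S] (φ : R →+* S) (w : Arr m R)
    (l p q : Fin m) (X : Crs m R) (hX : CrsL w l p q X) :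
    CrsL (w.map φ) l p q (X.map φ) := by
  refine ⟨fun u a b d => ?_, fun u b e => ?_, fun u b e => ?_⟩
  · have h1 := congrArg φ (hX.tri u a b d)
    rw [← L3_map, apply_ite φ, map_zero, ← uu_map φ] at h1
    exact h1
  · have h1 := congrArg φ (hX.cp u b e)
    rw [← L2_map, ← rc_map φ] at h1
    exact h1
  · have h1 := congrArg φ (hX.cq u b e)
    rw [← L2_map, ← rc_map φ] at h1
    exact h1

end Place

theorem goodT {m : ℕ} {k κ : Type u} [Field k] [Field κ] [CharZero k] {w : Arr m κ}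
    (h1 : T_PRIM.{u}) (h2 : T_LIFT.{u}) (h3 : T_SP2.{u}) (h5 : T_SPT.{u})
    (hG : Generic k κ w) : GoodT w := by
  intro z hz a b c hab hac hbc F1 F2 F3 hF
  obtain ⟨κ', _, _, P, w', hw, hr⟩ := spec hG a b c
  have hD : ∀ i j, i ≠ j → D2 (w'.map P.r i j) := by
    intro i j hij
    rw [hr]
    exact D2_wsp h3 a b c i j hij
  subst hw
  obtain ⟨z', hz', hZ⟩ := ZOK_lift P h2 w' z hD hz
  by_contra hne
  have hne' : ∃ j : Fin 3 × Fin 3 × Fin 3,
      (![F1, F2, F3] : Fin 3 → Mat κ) j.1 j.2.1 j.2.2 ≠ 0 := by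
    by_contra h0
    push Not at h0
    exact hne ⟨funext fun a => funext fun b => h0 (0, a, b),
      funext fun a => funext fun b => h0 (1, a, b), funext fun a => funext fun b => h0 (2, a, b)⟩
  obtain ⟨t, ht, y, hy, j, hj⟩ := (h1 κ κ' P (Fin 3 × Fin 3 × Fin 3)
    (fun j => (![F1, F2, F3] : Fin 3 → Mat κ) j.1 j.2.1 j.2.2)).1 hne'
  have hA : (fun b d => t * F1 b d) = fun b d => P.B.subtype (y (0, b, d)) := by
    funext b d
    exact hy (0, b, d)
  have hB : (fun b d => t * F2 b d) = fun b d => P.B.subtype (y (1, b, d)) := by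
    funext b d
    exact hy (1, b, d)
  have hC : (fun b d => t * F3 b d) = fun b d => P.B.subtype (y (2, b, d)) := by
    funext b d
    exact hy (2, b, d)
  have h6 := PT_smul _ z _ a b c t F1 F2 F3 hz' hab hac hbc hF
  rw [hA, hB, hC] at h6
  have h7 := PT_red P h2 w' z' a b c hab hac hbc hD _ _ _ h6
  have h8 := ZOK_map P.r w' z' hZ
  rw [hr] at h7 h8
  obtain ⟨g1, g2, g3⟩ := h5 m κ' a b c hab hac hbc _ h8 _ _ _ h7
  have h9 : P.r (y j) = 0 := by
    obtain ⟨i, b, d⟩ := j
    fin_cases i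
    · exact congrFun (congrFun g1 b) d
    · exact congrFun (congrFun g2 b) d
    · exact congrFun (congrFun g3 b) d
  rw [hj, map_one] at h9
  exact one_ne_zero h9

/-- the unknowns -/
abbrev Jx (m : ℕ) := (Fin m × Fin 3 × Fin 3) ⊕ (Fin m × Fin 3 × Fin 3) ⊕ Fin 3 ⊕ Fin 2 ⊕
  (Fin 3 × Fin 3 × Fin 3)

/-- the unknowns as a family -/
def toF {R : Type*} [CommRing R] {m : ℕ} (l : Fin m) (D : PLd m R) : Jx m → R
  | Sum.inl (i, a, b) => D.S i a b
  | Sum.inr (Sum.inl (i, a, b)) => if i = l then 0 else D.P i a b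
  | Sum.inr (Sum.inr (Sum.inl b)) => D.g b
  | Sum.inr (Sum.inr (Sum.inr (Sum.inl u))) => D.μ u
  | Sum.inr (Sum.inr (Sum.inr (Sum.inr (i, a, b)))) =>
    (![D.F1, D.F2, D.F3] : Fin 3 → Mat R) i a b

theorem goodL {m : ℕ} {k κ : Type u} [Field k] [Field κ] [CharZero k] {w : Arr m κ}
    (h1 : T_PRIM.{u}) (h2 : T_LIFT.{u}) (h3 : T_SP2.{u}) (h4 : T_SP3.{u}) (h6 : T_SPL.{u})
    (hG : Generic k κ w) : GoodL w := by
  intro z hz l p q hlp hlq hpq X hX D hF
  obtain ⟨κ', _, _, P, w', hw, hr⟩ := spec hG l p q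
  have hD : ∀ i j, i ≠ j → D2 (w'.map P.r i j) := by
    intro i j hij
    rw [hr]
    exact D2_wsp h3 l p q i j hij
  have hD3 : D3 (w'.map P.r l p) (w'.map P.r l q) (w'.map P.r p q) := by
    rw [hr]
    exact D3_wsp h4 l p q hlp hlq hpq
  subst hw
  obtain ⟨z', hz', hZ⟩ := ZOK_lift P h2 w' z hD hz
  obtain ⟨X', hXB, hXC, hXP, hXQ, hX'⟩ := Crs_lift P h2 w' X l p q hpq hD hD3 hX
  by_contra hne
  have hne' : ∃ j : Jx m, toF l D j ≠ 0 := by
    by_contra h0
    push Not at h0
    refine hne ⟨?_, fun i hi => ?_, ?_, ?_, ?_, ?_, ?_⟩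
    · exact funext fun i => funext fun a => funext fun b => h0 (Sum.inl (i, a, b))
    · refine funext fun a => funext fun b => ?_
      have h7 := h0 (Sum.inr (Sum.inl (i, a, b)))
      simp only [toF, if_neg hi] at h7
      exact h7
    · exact funext fun b => h0 (Sum.inr (Sum.inr (Sum.inl b)))
    · exact funext fun u => h0 (Sum.inr (Sum.inr (Sum.inr (Sum.inl u))))
    · exact funext fun a => funext fun b =>
        h0 (Sum.inr (Sum.inr (Sum.inr (Sum.inr (0, a, b)))))
    · exact funext fun a => funext fun b =>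
        h0 (Sum.inr (Sum.inr (Sum.inr (Sum.inr (1, a, b)))))
    · exact funext fun a => funext fun b =>
        h0 (Sum.inr (Sum.inr (Sum.inr (Sum.inr (2, a, b)))))
  obtain ⟨t, ht, y, hy, j, hj⟩ := (h1 κ κ' P (Jx m) (toF l D)).1 hne'
  have key := PL_smul _ z (z'.map P.B.subtype) X (X'.map P.B.subtype) l p q hlp hlq hpq t D
    (mapD P.B.subtype ⟨fun i a b => y (Sum.inl (i, a, b)),
      fun i a b => y (Sum.inr (Sum.inl (i, a, b))), fun b => y (Sum.inr (Sum.inr (Sum.inl b))),
      fun u => y (Sum.inr (Sum.inr (Sum.inr (Sum.inl u)))),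
      fun a b => y (Sum.inr (Sum.inr (Sum.inr (Sum.inr (0, a, b))))),
      fun a b => y (Sum.inr (Sum.inr (Sum.inr (Sum.inr (1, a, b))))),
      fun a b => y (Sum.inr (Sum.inr (Sum.inr (Sum.inr (2, a, b)))))⟩)
    hz' hXB hXC hXP hXQ (fun i a b => (hy (Sum.inl (i, a, b))).symm) (fun i hi a b => by
      have h7 := (hy (Sum.inr (Sum.inl (i, a, b)))).symm
      simp only [toF, if_neg hi] at h7
      exact h7)
    (fun b => (hy (Sum.inr (Sum.inr (Sum.inl b)))).symm)
    (fun u => (hy (Sum.inr (Sum.inr (Sum.inr (Sum.inl u))))).symm)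
    (fun a b => (hy (Sum.inr (Sum.inr (Sum.inr (Sum.inr (0, a, b)))))).symm)
    (fun a b => (hy (Sum.inr (Sum.inr (Sum.inr (Sum.inr (1, a, b)))))).symm)
    (fun a b => (hy (Sum.inr (Sum.inr (Sum.inr (Sum.inr (2, a, b)))))).symm) hF
  have h7 := PL_red P h2 w' z' X' l p q hlp hlq hpq hD _ key
  have h8 := ZOK_map P.r w' z' hZ
  have h9 := Crs_map P.r w' l p q X' hX'
  rw [hr] at h7 h8 h9
  obtain ⟨g1, g2, g3, g4, g5, g6, g7⟩ := h6 m κ' l p q hlp hlq hpq _ h8 _ h9 _ h7
  have h10 : P.r (y j) = 0 := by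
    rcases j with ⟨i, a, b⟩ | ⟨i, a, b⟩ | b | u | ⟨i, a, b⟩
    · exact congrFun (congrFun (congrFun g1 i) a) b
    · by_cases hi : i = l
      · have h11 := hy (Sum.inr (Sum.inl (i, a, b)))
        simp only [toF, if_pos hi, mul_zero] at h11
        have h12 : y (Sum.inr (Sum.inl (i, a, b))) = 0 := Subtype.ext h11.symm
        rw [h12, map_zero]
      · exact congrFun (congrFun (g2 i hi) a) b
    · exact congrFun g3 b
    · exact congrFun g4 u
    · fin_cases i
      · exact congrFun (congrFun g5 a) b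
      · exact congrFun (congrFun g6 a) b
      · exact congrFun (congrFun g7 a) b
  rw [hj, map_one] at h10
  exact one_ne_zero h10

end GEN_

open GEN_ in
theorem p_GEN (h1 : T_PRIM.{u}) (h2 : T_LIFT.{u}) (h3 : T_SP2.{u}) (h4 : T_SP3.{u})
    (h5 : T_SPT.{u}) (h6 : T_SPL.{u}) : T_GEN.{u} := by
  intro m k κ _ _ _ w hG
  refine ⟨fun i j hij => ?_, fun i j l hij hil hjl => ?_, goodT h1 h2 h3 h5 hG,
    goodL h1 h2 h3 h4 h6 hG⟩
  · obtain ⟨κ', _, _, P, w', hw, hr⟩ := spec hG i j j
    have hD : D2 (w'.map P.r i j) := by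
      rw [hr]
      exact D2_wsp h3 i j j i j hij
    subst hw
    exact D2_red P h1 (w' i j) hD
  · obtain ⟨κ', _, _, P, w', hw, hr⟩ := spec hG i j l
    have hD : D3 (w'.map P.r i j) (w'.map P.r i l) (w'.map P.r j l) := by
      rw [hr]
      exact D3_wsp h4 i j l hij hil hjl
    subst hw
    exact D3_red P h1 (w' i j) (w' i l) (w' j l) hD

end Pool.Agent.VCT
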