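import Pool.Agent.VCT.Targets

/-!
# Target NOC: `V W = S^3 V`
-/

set_option autoImplicit false

namespace Pool.Agent.VCT

open Pool.Agent.VCC

universe u

namespace NOC_

variable {K : Type*} [Field K] {m : ℕ}

/-- three different blocks, summed form -/
theorem sum3 (w : Arr m K) (T : Fin m × Fin 3 → Fin m × Fin 3 → Fin m × Fin 3 → K)
    (i j l : Fin m)
    (h1 : ∀ c a, ∑ b, ∑ d, w j l c b d * T (i, a) (j, b) (l, d) = 0)
    (h2 : ∀ c b, ∑ a, ∑ d, w i l c a d * T (i, a) (j, b) (l, d) = 0)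
    (h3 : ∀ c d, ∑ a, ∑ b, w i j c a b * T (i, a) (j, b) (l, d) = 0)
    (A B C : Mat K) :
    ∑ a, ∑ b, ∑ d, L3 (w i j) (w i l) (w j l) A B C a b d * T (i, a) (j, b) (l, d) = 0 := by
  have e1 : ∑ a, ∑ c, A a c * ∑ b, ∑ d, w j l c b d * T (i, a) (j, b) (l, d) = 0 := by
    simp [h1]
  have e2 : ∑ b, ∑ c, B b c * ∑ a, ∑ d, w i l c a d * T (i, a) (j, b) (l, d) = 0 := by
    simp [h2]
  have e3 : ∑ d, ∑ c, C d c * ∑ a, ∑ b, w i j c a b * T (i, a) (j, b) (l, d) = 0 := by
    simp [h3]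
  simp only [Fin.sum_univ_three, L3] at e1 e2 e3 ⊢
  linear_combination e1 + e2 + e3

/-- two blocks, summed form -/
theorem sum2 (w : Frm K) (U : Fin 3 → Fin 3 → Fin 3 → K)
    (h0 : ∀ a b, U a b b = 0) (hs : ∀ a b b', U a b b' = U a b' b)
    (h1 : ∀ c b', ∑ a, ∑ b, w c a b * U a b b' = 0) (z : Mat K) :
    ∑ a, ∑ e, L2 w z a e * U a (e + 1) (e + 2) = 0 := by
  have e1 : ∑ b', ∑ c, z b' c * ∑ a, ∑ b, w c a b * U a b b' = 0 := by
    simp [h1]
  have a1 : (0 : Fin 3) + 1 = 1 := rfl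
  have a2 : (0 : Fin 3) + 2 = 2 := rfl
  have a3 : (1 : Fin 3) + 1 = 2 := rfl
  have a4 : (1 : Fin 3) + 2 = 0 := rfl
  have a5 : (2 : Fin 3) + 1 = 0 := rfl
  have a6 : (2 : Fin 3) + 2 = 1 := rfl
  simp only [Fin.sum_univ_three, L2, a1, a2, a3, a4, a5, a6, h0, mul_zero, zero_add,
    add_zero] at e1 ⊢
  simp only [hs _ 1 0, hs _ 2 0, hs _ 2 1] at e1 ⊢
  linear_combination e1

end NOC_

open NOC_ in
theorem p_NOC (hS : T_SOLVE.{u}) : T_NOC.{u} := by
  intro m K _ w ε p q p' q' hpq hpq' hw hD2 hD3 T hT hF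
  obtain ⟨hT1, hT2⟩ := hT
  have hd : ∀ x y, T x y y = 0 := fun x y => (hF x).2.1 y
  have hd1 : ∀ x y, T y y x = 0 := fun x y => by rw [hT2, hT1, hd]
  have hd2 : ∀ x y, T y x y = 0 := fun x y => by rw [hT1, hd]
  have hW : ∀ x i j, i ≠ j → ∀ c, ∑ a, ∑ b, w i j c a b * T x (i, a) (j, b) = 0 :=
    fun x => (hF x).2.2.1
  have hh : ∀ x, hv ε p q p' q' (T x) = 0 := fun x => (hF x).2.2.2
  -- three different blocks
  have t3 : ∀ i j l, i ≠ j → i ≠ l → j ≠ l → ∀ a b d, T (i, a) (j, b) (l, d) = 0 := by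
    intro i j l hij hil hjl a0 b0 d0
    obtain ⟨A, B, C, h⟩ := (hS K).2 (w i j) (w i l) (w j l)
      (fun a b d => if a = a0 ∧ b = b0 ∧ d = d0 then 1 else 0) (hD3 i j l hij hil hjl)
    have h4 := sum3 w T i j l (fun c a => hW (i, a) j l hjl c)
      (fun c b => by
        have h5 := hW (j, b) i l hil c
        simpa only [hT1 (j, b)] using h5)
      (fun c d => by
        have h5 := hW (l, d) i j hij c
        rw [← h5]
        refine Finset.sum_congr rfl fun a _ => Finset.sum_congr rfl fun b _ => ?_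
        rw [hT1 (l, d), hT2 (i, a) (l, d)]) A B C
    simp only [h] at h4
    rw [Finset.sum_eq_single a0 (fun a _ ha => by simp [ha]) (by simp),
      Finset.sum_eq_single b0 (fun b _ hb => by simp [hb]) (by simp),
      Finset.sum_eq_single d0 (fun d _ hd => by simp [hd]) (by simp)] at h4
    simpa using h4
  -- two blocks
  have t2' : ∀ i j, i ≠ j → ∀ a e, T (i, a) (j, e + 1) (j, e + 2) = 0 := by
    intro i j hij a0 e0
    obtain ⟨z, h⟩ := (hS K).1 (w i j) (fun a e => if a = a0 ∧ e = e0 then 1 else 0)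
      (hD2 i j hij)
    have h4 := sum2 (w i j) (fun a b b' => T (i, a) (j, b) (j, b'))
      (fun a b => hd _ _) (fun a b b' => hT2 _ _ _)
      (fun c b' => by
        have h5 := hW (j, b') i j hij c
        rw [← h5]
        refine Finset.sum_congr rfl fun a _ => Finset.sum_congr rfl fun b _ => ?_
        rw [hT1 (j, b'), hT2 (i, a) (j, b')]) z
    simp only [h] at h4
    rw [Finset.sum_eq_single a0 (fun a _ ha => by simp [ha]) (by simp),
      Finset.sum_eq_single e0 (fun b _ hb => by simp [hb]) (by simp)] at h4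
    simpa using h4
  have t2 : ∀ i j, i ≠ j → ∀ a b b', T (i, a) (j, b) (j, b') = 0 := by
    intro i j hij a b b'
    have h0 := t2' i j hij a 0
    have h1 := t2' i j hij a 1
    have h2 := t2' i j hij a 2
    have a1 : (0 : Fin 3) + 1 = 1 := rfl
    have a2 : (0 : Fin 3) + 2 = 2 := rfl
    have a3 : (1 : Fin 3) + 1 = 2 := rfl
    have a4 : (1 : Fin 3) + 2 = 0 := rfl
    have a5 : (2 : Fin 3) + 1 = 0 := rfl
    have a6 : (2 : Fin 3) + 2 = 1 := rfl
    simp only [a1, a2, a3, a4, a5, a6] at h0 h1 h2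
    fin_cases b <;> fin_cases b' <;>
      first
        | exact hd _ _
        | exact h0
        | exact h1
        | exact h2
        | (rw [hT2]; exact h0)
        | (rw [hT2]; exact h1)
        | (rw [hT2]; exact h2)
  have t2a : ∀ i j, i ≠ j → ∀ a b b', T (j, b) (i, a) (j, b') = 0 := by
    intro i j hij a b b'
    rw [hT1]
    exact t2 i j hij a b b'
  have t2b : ∀ i j, i ≠ j → ∀ a b b', T (j, b) (j, b') (i, a) = 0 := by
    intro i j hij a b b'
    rw [hT2]
    exact t2a i j hij a b b'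
  -- one block
  have tpq : ∀ i p q, p ≠ q → T (i, 0) (p, 0) (q, 0) = 0 := by
    intro i p q hpq
    by_cases h1 : i = p
    · subst h1
      exact hd1 _ _
    · by_cases h2 : i = q
      · subst h2
        exact hd2 _ _
      · exact t3 i p q h1 h2 hpq 0 0 0
  have t1 : ∀ i, T (i, 0) (i, 1) (i, 2) = 0 := by
    intro i
    have h1 := hh (i, 0)
    unfold hv at h1
    rw [tpq i p q hpq, tpq i p' q' hpq', Finset.sum_eq_single i] at h1
    · rw [hd1, hd1] at h1
      simpa using h1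
    · intro l _ hl
      rw [t2 i l (Ne.symm hl), t2 i l (Ne.symm hl), t2 i l (Ne.symm hl)]
      simp
    · simp
  have t1' : ∀ i a b c, T (i, a) (i, b) (i, c) = 0 := by
    intro i a b c
    have h1 := t1 i
    have h2 : T (i, 0) (i, 2) (i, 1) = 0 := by rw [hT2]; exact h1
    have h3 : T (i, 1) (i, 0) (i, 2) = 0 := by rw [hT1]; exact h1
    have h4 : T (i, 2) (i, 0) (i, 1) = 0 := by rw [hT1]; exact h2
    have h5 : T (i, 1) (i, 2) (i, 0) = 0 := by rw [hT2]; exact h3
    have h6 : T (i, 2) (i, 1) (i, 0) = 0 := by rw [hT2]; exact h4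
    fin_cases a <;> fin_cases b <;> fin_cases c <;>
      first
        | exact hd _ _
        | exact hd1 _ _
        | exact hd2 _ _
        | exact h1
        | exact h2
        | exact h3
        | exact h4
        | exact h5
        | exact h6
  rintro ⟨i, a⟩ ⟨j, b⟩ ⟨l, d⟩
  by_cases h1 : i = j
  · subst h1
    by_cases h2 : i = l
    · subst h2
      exact t1' _ _ _ _
    · exact t2b l i (Ne.symm h2) _ _ _
  · by_cases h2 : i = l
    · subst h2
      exact t2a j i (Ne.symm h1) _ _ _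
    · by_cases h3 : j = l
      · subst h3
        exact t2 i j h1 _ _ _
      · exact t3 i j l h1 h2 h3 _ _ _

end Pool.Agent.VCT
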