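import Pool.Agent.VCT.Targets

/-!
# Existence of places
-/

set_option autoImplicit false

namespace Pool.Agent.VCT

universe u

theorem p_PLACE : T_PLACE.{u} := by
  intro R K F _ _ _ ρ e hρ he
  let A : Subring K := ρ.range
  let ρ' : R →+* A := ρ.rangeRestrict
  have hs : Function.Surjective ρ' := ρ.rangeRestrict_surjective
  let I : Ideal A := (RingHom.ker e).map ρ'
  have hI : I ≠ ⊤ := by
    intro h
    have h1 : (1 : A) ∈ I := by rw [h]; trivial
    rw [Ideal.mem_map_iff_of_surjective ρ' hs] at h1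
    obtain ⟨x, hx, hx1⟩ := h1
    have h2 : ρ x = ρ 1 := by
      rw [map_one]
      exact congrArg Subtype.val hx1
    have h3 : x = 1 := hρ h2
    rw [h3, RingHom.mem_ker, map_one] at hx
    exact one_ne_zero hx
  obtain ⟨B, hAB, hB⟩ := Ideal.image_subset_nonunits_valuationSubring I hI
  let r : B →+* IsLocalRing.ResidueField B := IsLocalRing.residue B
  let j : R →+* B := ρ.codRestrict B.toSubring fun x => hAB ⟨x, rfl⟩
  have hker : ∀ x ∈ RingHom.ker e, (r.comp j) x = 0 := by
    intro x hx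
    have h1 : (ρ' x : K) ∈ B.nonunits := hB ⟨ρ' x, Ideal.mem_map_of_mem _ hx, rfl⟩
    have h2 : j x ∈ IsLocalRing.maximalIdeal B := by
      rw [← SetLike.mem_coe, ← ValuationSubring.image_maximalIdeal] at h1
      obtain ⟨y, hy, hy1⟩ := h1
      have : y = j x := Subtype.ext hy1
      rw [← this]
      exact hy
    exact (IsLocalRing.residue_eq_zero_iff _).mpr h2
  let ι : F →+* IsLocalRing.ResidueField B :=
    (Ideal.Quotient.lift (RingHom.ker e) (r.comp j) hker).comp
      (RingHom.quotientKerEquivOfSurjective he).symm.toRingHom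
  refine ⟨IsLocalRing.ResidueField B, inferInstance, ⟨B, r, fun b hb => ?_⟩, ι, fun x => ?_⟩
  · exact (IsLocalRing.residue_eq_zero_iff _).mpr ((IsLocalRing.mem_maximalIdeal _).mpr hb)
  · refine ⟨hAB ⟨x, rfl⟩, ?_⟩
    have h1 : (RingHom.quotientKerEquivOfSurjective he).symm (e x) = Ideal.Quotient.mk _ x := by
      rw [RingEquiv.symm_apply_eq]
      rfl
    change r (j x) = Ideal.Quotient.lift (RingHom.ker e) (r.comp j) hker
      ((RingHom.quotientKerEquivOfSurjective he).symm (e x))
    rw [h1, Ideal.Quotient.lift_mk]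
    rfl

theorem p_GENX : T_GENX.{u} := by
  intro m k κ _ _ ρ hρ
  refine ⟨⟨fun i => by funext c a b; simp, fun i j => ?_⟩, fun v hv => ?_⟩
  · funext c a b
    simp only [tr]
    rcases lt_trichotomy i j with h | h | h
    · rw [if_neg (lt_asymm h), if_pos h, if_pos h]
    · subst h; simp
    · rw [if_pos h, if_neg (lt_asymm h), if_pos h]
  · let e : MvPolynomial (Fin m × Fin m × Fin 3 × Fin 3 × Fin 3) k →+* k :=
      MvPolynomial.eval fun x => v x.1 x.2.1 x.2.2.1 x.2.2.2.1 x.2.2.2.2
    have he : Function.Surjective e := fun x => ⟨MvPolynomial.C x, by simp [e]⟩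
    obtain ⟨κ', hκ, P, ι, hP⟩ := p_PLACE _ κ k ρ e hρ he
    refine ⟨κ', hκ, P, ι, fun i j c a b => ?_⟩
    rcases lt_trichotomy i j with h | h | h
    · obtain ⟨h1, h2⟩ := hP (MvPolynomial.X (i, j, c, a, b))
      simp only [if_pos h]
      refine ⟨h1, ?_⟩
      rw [h2]
      simp [e]
    · subst h
      simp only [lt_irrefl, if_false]
      refine ⟨P.B.zero_mem, ?_⟩
      have : v i i = 0 := hv.1 i
      rw [show (⟨0, P.B.zero_mem⟩ : P.B) = 0 from rfl, map_zero, this]
      simp
    · obtain ⟨h1, h2⟩ := hP (MvPolynomial.X (j, i, c, b, a))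
      simp only [if_neg (lt_asymm h), if_pos h]
      refine ⟨h1, ?_⟩
      rw [h2, hv.2 j i]
      simp [e, tr]

end Pool.Agent.VCT
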