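import Pool.Agent.VCT.Targets

set_option autoImplicit false

/-!
# Target `T_PRIM`

Primitive multiples of a finite family of elements of a field with a place.
-/

namespace Pool.Agent.VCT

universe u

namespace PRIM_

variable {K κ : Type u} [Field K] [Field κ] (P : Place K κ)

/-- a multiple of a nonzero family which is integral and contains the entry `1`; if the family is
not integral the factor is not a unit -/
lemma prim {J : Type} [Fintype J] (x : J → K) (hx : ∃ j, x j ≠ 0) :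
    ∃ j0, x j0 ≠ 0 ∧ (∀ j, (x j0)⁻¹ * x j ∈ P.B) ∧
      ((∃ j, x j ∉ P.B) → P.B.valuation (x j0)⁻¹ < 1) := by
  classical
  obtain ⟨j1, hj1⟩ := hx
  have : Nonempty J := ⟨j1⟩
  obtain ⟨j0, hj0⟩ := Finite.exists_max fun j => P.B.valuation (x j)
  have h0 : x j0 ≠ 0 := by
    intro h
    have h1 := hj0 j1
    rw [h, map_zero] at h1
    exact hj1 ((map_eq_zero P.B.valuation).1 (le_antisymm h1 zero_le))
  have hv : P.B.valuation (x j0) ≠ 0 := (map_ne_zero P.B.valuation).2 h0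
  refine ⟨j0, h0, fun j => ?_, ?_⟩
  · rw [← P.B.valuation_le_one_iff, map_mul, map_inv₀]
    calc (P.B.valuation (x j0))⁻¹ * P.B.valuation (x j)
        ≤ (P.B.valuation (x j0))⁻¹ * P.B.valuation (x j0) := mul_le_mul_right (hj0 j) _
      _ = 1 := inv_mul_cancel₀ hv
  · rintro ⟨j, hj⟩
    rw [← P.B.valuation_le_one_iff, not_le] at hj
    have h1 : 1 < P.B.valuation (x j0) := lt_of_lt_of_le hj (hj0 j)
    rw [map_inv₀]
    exact inv_lt_one_of_one_lt₀ h1

end PRIM_

theorem p_PRIM : T_PRIM.{u} := by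
  intro K κ _ _ P J _ x
  refine ⟨fun hx => ?_, ?_⟩
  · obtain ⟨j0, h0, h1, -⟩ := PRIM_.prim P x hx
    exact ⟨(x j0)⁻¹, inv_ne_zero h0, fun j => ⟨_, h1 j⟩, fun j => rfl, j0,
      Subtype.ext (inv_mul_cancel₀ h0)⟩
  · by_cases hx : ∀ j, x j ∈ P.B
    · exact Or.inl hx
    · right
      push Not at hx
      have hne : ∃ j, x j ≠ 0 := by
        obtain ⟨j, hj⟩ := hx
        exact ⟨j, fun h => hj (h ▸ P.B.zero_mem)⟩
      obtain ⟨j0, h0, h1, h2⟩ := PRIM_.prim P x hne
      have hlt := h2 hx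
      have hmem : (x j0)⁻¹ ∈ P.B := (P.B.valuation_le_one_iff _).1 hlt.le
      refine ⟨⟨_, hmem⟩, P.nu _ ?_, fun j => ⟨_, h1 j⟩, fun j => rfl, j0,
        Subtype.ext (inv_mul_cancel₀ h0)⟩
      intro hu
      exact hlt.ne ((P.B.valuation_eq_one_iff ⟨_, hmem⟩).1 hu)

end Pool.Agent.VCT
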