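import Pool.Agent.VCT.Targets

/-!
# `T_RED`: it suffices to show that the normalised solutions of the linear system vanish
-/

set_option autoImplicit false

namespace Pool.Agent.VCT

open Pool.Agent.VCC HilbPts

universe u

theorem RED_.transl_symm {ι k : Type*} [DecidableEq ι] [Field k] (v : ι → k) (t y z : ι) :
    transl v t y z = transl v t z y := by
  unfold transl; ring

theorem RED_.transl_diag {ι k : Type*} [DecidableEq ι] [Field k] (v : ι → k) (t : ι) :
    transl v t t t = 2 * v t := by
  unfold transl; simp; ring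

theorem RED_.sum_transl {ι k : Type*} [DecidableEq ι] [Fintype ι] [Field k] (v : ι → k)
    (F : ι → k) (y z : ι) : ∑ t, F t * transl v t y z = v y * F z + v z * F y := by
  unfold transl
  simp only [mul_add, Finset.sum_add_distrib, mul_ite, mul_one, mul_zero, Finset.sum_ite_eq,
    Finset.mem_univ, if_true]
  ring

theorem p_RED (h : T_SYS.{u}) : T_RED.{u} := by
  intro m K _ _ w z ε p q X p' q' X' hpq hpq' h1 h2 h3 h4 hw hz hX hX' hD H lam hlam hF
  set v : Fin m × Fin 3 → K := fun t => lam t t t / 2 with hv'
  set lam' : Fin m × Fin 3 → Fin m × Fin 3 → Fin m × Fin 3 → K :=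
    fun t y z => lam t y z - transl v t y z with hlam'
  have hsym : ∀ t y z, lam' t y z = lam' t z y := by
    intro t y z
    simp only [hlam']
    rw [hlam t y z, RED_.transl_symm v t y z]
  have hcond : ∀ F ∈ Fsp w ε p q p' q',
      ∃ G : Fin m × Fin 3 → Fin m × Fin 3 → Fin m × Fin 3 → K,
      (∀ x, G x ∈ Fsp w ε p q p' q') ∧
      TSym (fun x y z => (∑ t, F x t * lam' t y z) + G x y z) := by
    intro F hFF
    obtain ⟨G, hG, hT1, hT2⟩ := hF F hFF
    have hFs : ∀ x y, F x y = F y x := hFF.1
    refine ⟨fun x y z => G x y z - v x * F y z, fun x => ?_, ?_, ?_⟩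
    · have := (Fsp w ε p q p' q').sub_mem (hG x) ((Fsp w ε p q p' q').smul_mem (v x) hFF)
      exact this
    · intro x y z
      have e1 := hT1 x y z
      simp only [hlam', mul_sub, Finset.sum_sub_distrib, RED_.sum_transl] at e1 ⊢
      rw [hFs y x]
      linear_combination e1
    · intro x y z
      have e1 := hT2 x y z
      simp only [hlam', mul_sub, Finset.sum_sub_distrib, RED_.sum_transl] at e1 ⊢
      rw [hFs z y]
      linear_combination e1
  have hEQ := h m K w z ε p q X p' q' X' hpq hpq' h1 h2 h3 h4 hw hz hX hX' hD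
    lam' hsym hcond
  obtain ⟨hs, hf, hg⟩ := H (sOf lam') (fOf w lam') (gOf ε p q p' q' lam')
    (by
      intro i j
      funext c l b
      unfold fOf
      rw [Finset.sum_comm]
      refine Finset.sum_congr rfl fun a _ => Finset.sum_congr rfl fun a' _ => ?_
      rw [hw.2 i j, hsym (l, b) (i, a') (j, a)]
      rfl)
    (by
      intro l b
      simp only [sOf, hlam', RED_.transl_diag, hv']
      rw [mul_div_cancel₀ _ (two_ne_zero' K), sub_self])
    hEQ
  refine ⟨v, fun t => ?_⟩
  obtain ⟨l, b⟩ := t
  refine ⟨fun x y => hsym (l, b) x y, fun x => ?_, fun i j hij c => ?_, ?_⟩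
  · obtain ⟨i, a⟩ := x
    exact congrFun (congrFun (congrFun (congrFun hs i) a) l) b
  · exact congrFun (congrFun (congrFun (hf i j hij) c) l) b
  · exact congrFun (congrFun hg l) b

end Pool.Agent.VCT
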