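import Pool.Agent.VCT.Targets

set_option autoImplicit false

/-!
# Target `T_SOLVE`

Injective systems are solvable.
-/

namespace Pool.Agent.VCT

universe u

namespace SOLVE_

variable {κ : Type u} [Field κ]

/-- `L2 w` as a linear map -/
def M2 (w : Frm κ) : (Fin 3 → Fin 3 → κ) →ₗ[κ] (Fin 3 → Fin 3 → κ) where
  toFun z := L2 w z
  map_add' z z' := by
    funext a e
    simp only [L2, Pi.add_apply, ← Finset.sum_add_distrib]
    exact Finset.sum_congr rfl fun c _ => by ring
  map_smul' t z := by
    funext a e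
    simp only [L2, Pi.smul_apply, smul_eq_mul, RingHom.id_apply, Finset.mul_sum]
    exact Finset.sum_congr rfl fun c _ => by ring

/-- `L3 w1 w2 w3` as a linear map -/
def M3 (w1 w2 w3 : Frm κ) : (Fin 3 → Fin 3 → Fin 3 → κ) →ₗ[κ] (Fin 3 → Fin 3 → Fin 3 → κ) where
  toFun T := L3 w1 w2 w3 (T 0) (T 1) (T 2)
  map_add' T T' := by
    funext a b d
    simp only [L3, Pi.add_apply, ← Finset.sum_add_distrib]
    exact Finset.sum_congr rfl fun c _ => by ring
  map_smul' t T := by
    funext a b d
    simp only [L3, Pi.smul_apply, smul_eq_mul, RingHom.id_apply, Finset.mul_sum]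
    exact Finset.sum_congr rfl fun c _ => by ring

end SOLVE_

open SOLVE_ in
theorem p_SOLVE : T_SOLVE.{u} := by
  intro κ _
  refine ⟨fun w ρ hD => ?_, fun w1 w2 w3 ρ hD => ?_⟩
  · have hinj : Function.Injective (M2 w) := by
      rw [injective_iff_map_eq_zero]
      intro z hz
      exact hD z fun a e => congrFun (congrFun hz a) e
    obtain ⟨z, hz⟩ := (LinearMap.injective_iff_surjective.1 hinj) ρ
    exact ⟨z, fun a e => congrFun (congrFun hz a) e⟩
  · have hinj : Function.Injective (M3 w1 w2 w3) := by
      rw [injective_iff_map_eq_zero]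
      intro T hT
      obtain ⟨h0, h1, h2⟩ := hD (T 0) (T 1) (T 2) fun a b d =>
        congrFun (congrFun (congrFun hT a) b) d
      funext i
      fin_cases i
      · exact h0
      · exact h1
      · exact h2
    obtain ⟨T, hT⟩ := (LinearMap.injective_iff_surjective.1 hinj) ρ
    exact ⟨T 0, T 1, T 2, fun a b d => congrFun (congrFun (congrFun hT a) b) d⟩

end Pool.Agent.VCT
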