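import Pool.Agent.VCT.SPB

/-!
# The special forms: the class e_l, an outer block
-/

set_option autoImplicit false

namespace Pool.Agent.VCT

namespace SP_

section

variable {R : Type*} [CommRing R]

/-- table -/
def TOa (S P : Mat R) : Fin 2 → Mat R :=
  ![![![3 * P 0 0 + P 1 0 - 2 * P 2 0 + S 1 0,
        5 * P 0 0 - 2 * P 2 0 + S 1 1,
        -P 1 0 + S 1 2],
      ![3 * P 0 1 + P 1 1 - 2 * P 2 1 - S 0 0,
        5 * P 0 1 - 2 * P 2 1 - S 0 1,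
        -P 1 1 - S 0 2],
      ![3 * P 0 2 + P 1 2 - 2 * P 2 2 - S 0 0 + S 1 0,
        5 * P 0 2 - 2 * P 2 2 - S 0 1 + S 1 1,
        -P 1 2 - S 0 2 + S 1 2]],
    ![![-P 0 0 - S 1 0 + S 2 0,
        -2 * P 0 0 + P 1 0 + 2 * P 2 0 - S 1 1 + S 2 1,
        -P 0 0 - P 1 0 + 2 * P 2 0 - S 1 2 + S 2 2],
      ![-P 0 1 + S 2 0,
        -2 * P 0 1 + P 1 1 + 2 * P 2 1 + S 2 1,
        -P 0 1 - P 1 1 + 2 * P 2 1 + S 2 2],
      ![-P 0 2 - S 1 0,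
        -2 * P 0 2 + P 1 2 + 2 * P 2 2 - S 1 1,
        -P 0 2 - P 1 2 + 2 * P 2 2 - S 1 2]]]

theorem tab_Oa (S P : Mat R) (u : Fin 2) (e b : Fin 3) :
    - ∑ a, (if a = e then 0 else uu u a * S a b) - ∑ c, Zol R u b c * P c e = TOa S P u e b := by
  fin_cases u <;> fin_cases e <;> fin_cases b <;>
    simp [TOa, Zol, uu, Fin.sum_univ_three] <;> ring

/-- table -/
def TOb (P : Mat R) : Fin 2 → Mat R :=
  ![![![2 * P 0 0,
        P 0 0 + P 0 1 + P 1 0,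
        P 0 2],
      ![P 0 0 + P 0 1 + P 1 0,
        2 * P 0 1 + 2 * P 1 1,
        P 0 2 + P 1 2],
      ![P 0 2,
        P 0 2 + P 1 2,
        0]],
    ![![0,
        P 0 0 + P 1 0,
        P 1 0],
      ![P 0 0 + P 1 0,
        2 * P 0 1 + 2 * P 1 1,
        P 0 2 + P 1 1 + P 1 2],
      ![P 1 0,
        P 0 2 + P 1 1 + P 1 2,
        2 * P 1 2]]]

theorem tab_Ob (P : Mat R) (u : Fin 2) (e b : Fin 3) :
    ∑ c, (Zlo R u e c * P c b + Zlo R u b c * P c e) = TOb P u e b := by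
  fin_cases u <;> fin_cases e <;> fin_cases b <;>
    simp [TOb, Zlo, Fin.sum_univ_three] <;> ring

end

section

variable {κ : Type*} [Field κ] [CharZero κ]

theorem po_core (S P : Mat κ)
    (ha : ∀ u, InSp (tr (wlo κ)) fun e b =>
      - ∑ a, (if a = e then 0 else uu u a * S a b) - ∑ c, Zol κ u b c * P c e)
    (hb : ∀ u e b, e ≠ b → ∑ c, (Zlo κ u e c * P c b + Zlo κ u b c * P c e) = 0) :
    S = 0 ∧ P = 0 := by
  simp only [tab_Oa, tab_Ob] at ha hb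
  obtain ⟨q0, q1, q2, q3, q4, q5⟩ := insp_ol (ha 0)
  have e0 : (3 * P 0 0 + P 1 0 - 2 * P 2 0 + S 1 0) = 0 := q0
  have e1 : (5 * P 0 1 - 2 * P 2 1 - S 0 1) + (2) * (3 * P 0 1 + P 1 1 - 2 * P 2 1 - S 0 0) = 0
      := q1
  have e2 : (-P 1 1 - S 0 2) - (5 * P 0 0 - 2 * P 2 0 + S 1 1) - (-P 1 0 + S 1 2) - (3 * P 0 1 +
      P 1 1 -
      2 * P 2 1 - S 0 0) = 0 := q2
  have e3 : (3 * P 0 2 + P 1 2 - 2 * P 2 2 - S 0 0 + S 1 0) - (5 * P 0 0 - 2 * P 2 0 + S 1 1) -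
      (3 * P 0
      1 + P 1 1 - 2 * P 2 1 - S 0 0) = 0 := q3
  have e4 : (5 * P 0 2 - 2 * P 2 2 - S 0 1 + S 1 1) - (-P 1 0 + S 1 2) + (3 * P 0 1 + P 1 1 - 2 *
      P 2 1
      - S 0 0) = 0 := q4
  have e5 : (-P 1 2 - S 0 2 + S 1 2) = 0 := q5
  have e6 : P 0 0 + P 0 1 + P 1 0 = 0 := hb 0 0 1 (by decide)
  have e7 : P 0 2 = 0 := hb 0 0 2 (by decide)
  have e8 : P 0 2 + P 1 2 = 0 := hb 0 1 2 (by decide)
  obtain ⟨q9, q10, q11, q12, q13, q14⟩ := insp_ol (ha 1)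
  have e9 : (-P 0 0 - S 1 0 + S 2 0) = 0 := q9
  have e10 : (-2 * P 0 1 + P 1 1 + 2 * P 2 1 + S 2 1) + (2) * (-P 0 1 + S 2 0) = 0 := q10
  have e11 : (-P 0 1 - P 1 1 + 2 * P 2 1 + S 2 2) - (-2 * P 0 0 + P 1 0 + 2 * P 2 0 - S 1 1 + S 2
      1) -
      (-P 0 0 - P 1 0 + 2 * P 2 0 - S 1 2 + S 2 2) - (-P 0 1 + S 2 0) = 0 := q11
  have e12 : (-P 0 2 - S 1 0) - (-2 * P 0 0 + P 1 0 + 2 * P 2 0 - S 1 1 + S 2 1) - (-P 0 1 + S 2
      0) = 0 := q12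
  have e13 : (-2 * P 0 2 + P 1 2 + 2 * P 2 2 - S 1 1) - (-P 0 0 - P 1 0 + 2 * P 2 0 - S 1 2 + S 2
      2) +
      (-P 0 1 + S 2 0) = 0 := q13
  have e14 : (-P 0 2 - P 1 2 + 2 * P 2 2 - S 1 2) = 0 := q14
  have e15 : P 0 0 + P 1 0 = 0 := hb 1 0 1 (by decide)
  have e16 : P 1 0 = 0 := hb 1 0 2 (by decide)
  have e17 : P 0 2 + P 1 1 + P 1 2 = 0 := hb 1 1 2 (by decide)
  have f_P_2_1 : P 2 1 = 0 := by
    linear_combination -(1 / 4) * e0 + (1 / 8) * e1 + (1 / 8) * e2 + (1 / 8) * e3 - (1 / 8) * e4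
        - (1 / 8) * e5 +
      e6 + (3 / 4) * e7 - (1 / 4) * e8 - (3 / 8) * e9 + (3 / 8) * e10 + (1 / 8) * e11 + (1 / 4) *
      e12 - (1 / 4) * e15 - (1 / 4) * e16
  have f_P_2_0 : P 2 0 = 0 := by
    linear_combination -e0 + (1 / 2) * e3 + (7 / 2) * e6 - e7 - (1 / 2) * e8 - (1 / 2) * e9 + (1
        / 2) * e10 + (1 /
      2) * e11 + (1 / 2) * e14 - (5 / 2) * e16 + (1 / 2) * e17 - 3 * f_P_2_1
  have f_S_2_1 : S 2 1 = 0 := by
    linear_combination -2 * e0 + 4 * e6 + e8 - 2 * e9 + e10 - 2 * e16 - e17 - 2 * f_P_2_1 - 4 *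
        f_P_2_0
  have f_S_1_1 : S 1 1 = 0 := by
    linear_combination 2 * e0 - e6 + e7 + e9 + e12 - 6 * e15 + 6 * e16 + f_S_2_1 + 6 * f_P_2_0
  have f_S_1_2 : S 1 2 = 0 := by
    linear_combination e0 - e3 - 3 * e6 + 2 * e7 + e8 - e14 - 5 * e15 + 7 * e16 - e17 - f_S_1_1 +
        4 * f_P_2_0 + 2 *
      f_P_2_1
  have f_S_0_0 : S 0 0 = 0 := by
    linear_combination -e1 + e4 + 8 * e6 - 5 * e7 + e14 - 8 * e15 - e16 + e17 - f_S_1_1 + 2 *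
        f_S_1_2 - 4 * f_P_2_1
  have f_S_1_0 : S 1 0 = 0 := by
    linear_combination e0 - 3 * e15 + 2 * e16 + 2 * f_P_2_0
  have f_S_2_0 : S 2 0 = 0 := by
    linear_combination e9 + e15 - e16 + f_S_1_0
  have f_S_0_1 : S 0 1 = 0 := by
    linear_combination -e1 + 11 * e6 - 2 * e8 - 11 * e15 + 2 * e17 - 6 * f_P_2_1 - 2 * f_S_0_0
  have f_P_2_2 : P 2 2 = 0 := by
    linear_combination (1 / 2) * e8 + (1 / 2) * e14 + (1 / 2) * f_S_1_2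
  have f_S_0_2 : S 0 2 = 0 := by
    linear_combination -e5 + e7 - e8 + f_S_1_2
  have f_S_2_2 : S 2 2 = 0 := by
    linear_combination -e6 - 3 * e7 + e8 - e13 + 2 * e15 - f_S_1_1 + 2 * f_P_2_2 + f_S_1_2 - 2 *
        f_P_2_0 + f_S_2_0
  have f_P_1_1 : P 1 1 = 0 := by
    linear_combination -e8 + e17
  have f_P_0_1 : P 0 1 = 0 := by
    linear_combination e6 - e15
  have f_P_0_0 : P 0 0 = 0 := by
    linear_combination e15 - e16
  have f_P_1_2 : P 1 2 = 0 := by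
    linear_combination -e7 + e8
  have f_P_1_0 : P 1 0 = 0 := by
    linear_combination e16
  have f_P_0_2 : P 0 2 = 0 := by
    linear_combination e7
  refine ⟨?_, ?_⟩ <;> funext b c <;> fin_cases b <;> fin_cases c
  all_goals first
    | exact f_S_0_0
    | exact f_S_0_1
    | exact f_S_0_2
    | exact f_S_1_0
    | exact f_S_1_1
    | exact f_S_1_2
    | exact f_S_2_0
    | exact f_S_2_1
    | exact f_S_2_2
    | exact f_P_0_0
    | exact f_P_0_1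
    | exact f_P_0_2
    | exact f_P_1_0
    | exact f_P_1_1
    | exact f_P_1_2
    | exact f_P_2_0
    | exact f_P_2_1
    | exact f_P_2_2

end

end SP_

end Pool.Agent.VCT
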