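import Pool.Agent.VCT.SPC
import Pool.Agent.VCT.SPD

/-!
# The special family of forms: the targets SP2, SP3, SPT, SPL
-/

set_option autoImplicit false

namespace Pool.Agent.VCT

namespace SP_

section Pos

variable {m : ℕ} {l p q : Fin m}

theorem ord_l : ord l p q l = 0 := by simp [ord]

theorem ord_p (h : l ≠ p) : ord l p q p = 1 := by simp [ord, h.symm]

theorem ord_q (h1 : l ≠ q) (h2 : p ≠ q) : ord l p q q = 2 := by simp [ord, h1.symm, h2.symm]

theorem ord_o {i : Fin m} (h1 : i ≠ l) (h2 : i ≠ p) (h3 : i ≠ q) : ord l p q i = 3 + i := by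
  simp [ord, h1, h2, h3]

theorem wpos_lo (R : Type*) [CommRing R] (a b : ℕ) (h : 3 ≤ b) : wpos R a b = wlo R := by
  obtain ⟨c, rfl⟩ : ∃ c, b = c + 3 := ⟨b - 3, by omega⟩
  match a with
  | 0 => rfl
  | 1 => rfl
  | n + 2 => rfl

variable (R : Type*) [CommRing R]

theorem wsp_lt {i j : Fin m} (h : ord l p q i < ord l p q j) :
    wsp R l p q i j = wpos R (ord l p q i) (ord l p q j) ∧
    wsp R l p q j i = tr (wpos R (ord l p q i) (ord l p q j)) := by
  constructor
  · simp [wsp, h]
  · simp [wsp, h, not_lt_of_gt h]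

theorem wsp_lp (h : l ≠ p) : wsp R l p q l p = w01 R ∧ wsp R l p q p l = tr (w01 R) := by
  have h1 := wsp_lt (q := q) R (show ord l p q l < ord l p q p by rw [ord_l, ord_p h]; omega)
  rw [ord_l, ord_p h] at h1
  exact h1

theorem wsp_lq (h1 : l ≠ q) (h2 : p ≠ q) :
    wsp R l p q l q = w02 R ∧ wsp R l p q q l = tr (w02 R) := by
  have h1 := wsp_lt R (show ord l p q l < ord l p q q by rw [ord_l, ord_q h1 h2]; omega)
  rw [ord_l, ord_q ‹_› h2] at h1
  exact h1

theorem wsp_pq (h : l ≠ p) (h1 : l ≠ q) (h2 : p ≠ q) :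
    wsp R l p q p q = w12 R ∧ wsp R l p q q p = tr (w12 R) := by
  have h1 := wsp_lt R (show ord l p q p < ord l p q q by rw [ord_p h, ord_q h1 h2]; omega)
  rw [ord_p h, ord_q ‹_› h2] at h1
  exact h1

theorem wsp_out {i j : Fin m} (h : ord l p q i < ord l p q j) (hj : 3 ≤ ord l p q j) :
    wsp R l p q i j = wlo R ∧ wsp R l p q j i = tr (wlo R) := by
  have h1 := wsp_lt R h
  rw [wpos_lo R _ _ hj] at h1
  exact h1

end Pos

section Main

variable {κ : Type*} [Field κ] {m : ℕ}

theorem zuniq {w : Frm κ} (h : D2 w) {z Z : Fin 2 → Mat κ} {ρ : Fin 2 → Mat κ}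
    (hz : ∀ u a e, L2 w (z u) a e = ρ u a e) (hZ : ∀ u a e, L2 w (Z u) a e = ρ u a e) : z = Z :=
  funext fun u => uniq2 h fun a e => (hz u a e).trans (hZ u a e).symm

theorem ta_core (w : Arr m κ) (z : Zar m κ) (S : Fin m → Mat κ) (g : Fin 3 → κ)
    (i j1 j2 : Fin m) (u : Fin 2) (h1 : i ≠ j1) (h2 : i ≠ j2) (h3 : j1 ≠ j2)
    (h : ∀ j, j ≠ i → j ≠ j1 → j ≠ j2 → ∀ a b, Q2 (w i j) (z i j u) a b = 0) (e b : Fin 3) :
    TA w z S g i u e b =
      TG (w i j1) (w i j2) (z i j1 u) (z i j2 u) (S i) (S j1) (S j2) g u e b := by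
  have hs : ∑ j, (if j = i then 0 else ∑ c, Q2 (w i j) (z i j u) e c * S j c b) =
      (∑ c, Q2 (w i j1) (z i j1 u) e c * S j1 c b) +
      ∑ c, Q2 (w i j2) (z i j2 u) e c * S j2 c b := by
    rw [Finset.sum_eq_add (s := Finset.univ) j1 j2 h3]
    · rw [if_neg h1.symm, if_neg h2.symm]
    · rintro j - ⟨hj1, hj2⟩
      by_cases hji : j = i
      · rw [if_pos hji]
      · rw [if_neg hji]
        exact Finset.sum_eq_zero fun c _ => by rw [h j hji hj1 hj2, zero_mul]
    · intro hh; exact absurd (Finset.mem_univ _) hh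
    · intro hh; exact absurd (Finset.mem_univ _) hh
  simp only [TA, TG, hs]

end Main

end SP_

open SP_

universe u

theorem p_SP2 : T_SP2.{u} := fun _ _ _ =>
  ⟨d2_01, d2_10, d2_02, d2_20, d2_12, d2_21, d2_lo, d2_ol⟩

theorem p_SP3 : T_SP3.{u} := fun _ _ => d3

theorem p_SPT : T_SPT.{u} := by
  intro m κ _ _ l p q hlp hlq hpq z hz F1 F2 F3 h
  obtain ⟨w1, w2⟩ := wsp_lp (q := q) κ hlp
  obtain ⟨w3, w4⟩ := wsp_lq (l := l) κ hlq hpq
  obtain ⟨w5, w6⟩ := wsp_pq κ hlp hlq hpq
  have z1 : z l p = Z01 κ := zuniq d2_01 (fun u a e => by rw [← w1]; exact hz l p hlp u a e) ez_01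
  have z2 : z p l = Z10 κ :=
    zuniq d2_10 (fun u a e => by rw [← w2]; exact hz p l hlp.symm u a e) ez_10
  have z3 : z l q = Z02 κ := zuniq d2_02 (fun u a e => by rw [← w3]; exact hz l q hlq u a e) ez_02
  have z4 : z q l = Z20 κ :=
    zuniq d2_20 (fun u a e => by rw [← w4]; exact hz q l hlq.symm u a e) ez_20
  have z5 : z p q = Z12 κ := zuniq d2_12 (fun u a e => by rw [← w5]; exact hz p q hpq u a e) ez_12
  have z6 : z q p = Z21 κ :=
    zuniq d2_21 (fun u a e => by rw [← w6]; exact hz q p hpq.symm u a e) ez_21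
  have hx := h.x
  have hy := h.y
  have hzz := h.z
  rw [w5, z1, z3] at hx
  rw [w3, z2, z5] at hy
  rw [w1, z4, z6] at hzz
  exact pt_core F1 F2 F3 hx hy hzz

theorem p_SPL : T_SPL.{u} := by
  intro m κ _ _ l p q hlp hlq hpq z hz X hX D h
  obtain ⟨w1, w2⟩ := wsp_lp (q := q) κ hlp
  obtain ⟨w3, w4⟩ := wsp_lq (l := l) κ hlq hpq
  obtain ⟨w5, w6⟩ := wsp_pq κ hlp hlq hpq
  have z1 : z l p = Z01 κ := zuniq d2_01 (fun u a e => by rw [← w1]; exact hz l p hlp u a e) ez_01
  have z2 : z p l = Z10 κ :=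
    zuniq d2_10 (fun u a e => by rw [← w2]; exact hz p l hlp.symm u a e) ez_10
  have z3 : z l q = Z02 κ := zuniq d2_02 (fun u a e => by rw [← w3]; exact hz l q hlq u a e) ez_02
  have z4 : z q l = Z20 κ :=
    zuniq d2_20 (fun u a e => by rw [← w4]; exact hz q l hlq.symm u a e) ez_20
  have z5 : z p q = Z12 κ := zuniq d2_12 (fun u a e => by rw [← w5]; exact hz p q hpq u a e) ez_12
  have z6 : z q p = Z21 κ :=
    zuniq d2_21 (fun u a e => by rw [← w6]; exact hz q p hpq.symm u a e) ez_21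
  have xP : X.P = ZP κ := zuniq d2_21 (fun u a e => by rw [← w6]; exact hX.cp u a e) ez_P
  have xQ : X.Q = ZQ κ := zuniq d2_12 (fun u a e => by rw [← w5]; exact hX.cq u a e) ez_Q
  have xABC : ∀ u, X.A l u = ZA κ u ∧ X.B l u = ZB κ u ∧ X.C l u = ZC κ u := fun u =>
    uniq3 d3 fun a b d => by
      have := hX.tri u a b d
      rw [w1, w3, w5] at this
      rw [this, ez_3]
  have xB : X.B l = ZB κ := funext fun u => (xABC u).2.1
  have xC : X.C l = ZC κ := funext fun u => (xABC u).2.2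
  -- outer pairs
  have zlo : ∀ i j, ord l p q i < ord l p q j → 3 ≤ ord l p q j → z i j = Zlo κ := by
    intro i j hij hj
    have hne : i ≠ j := by rintro rfl; exact lt_irrefl _ hij
    have e1 := (wsp_out κ hij hj).1
    exact zuniq d2_lo (fun u a e => by rw [← e1]; exact hz i j hne u a e) ez_lo
  have zol : ∀ i j, ord l p q i < ord l p q j → 3 ≤ ord l p q j → z j i = Zol κ := by
    intro i j hij hj
    have hne : j ≠ i := by rintro rfl; exact lt_irrefl _ hij
    have e1 := (wsp_out κ hij hj).2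
    exact zuniq d2_ol (fun u a e => by rw [← e1]; exact hz j i hne u a e) ez_ol
  have q0 : ∀ i j u a b, ord l p q i < ord l p q j → 3 ≤ ord l p q j →
      Q2 (wsp κ l p q i j) (z i j u) a b = 0 := by
    intro i j u a b hij hj
    rw [(wsp_out κ hij hj).1, zlo i j hij hj, q2_lo]
  have o1 : ord l p q l = 0 := ord_l
  have o2 : ord l p q p = 1 := ord_p hlp
  have o3 : ord l p q q = 2 := ord_q hlq hpq
  have o4 : ∀ i, i ≠ l → i ≠ p → i ≠ q → ord l p q i = 3 + i := fun i h1 h2 h3 => ord_o h1 h2 h3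
  -- the core
  have tl : ∀ u e b, TA (wsp κ l p q) z D.S D.g l u e b =
      TG (w01 κ) (w02 κ) (Z01 κ u) (Z02 κ u) (D.S l) (D.S p) (D.S q) D.g u e b := by
    intro u e b
    rw [ta_core _ _ _ _ l p q u hlp hlq hpq (fun j h1 h2 h3 a b => q0 l j u a b
      (by rw [o1, o4 j h1 h2 h3]; omega) (by rw [o4 j h1 h2 h3]; omega)), w1, w3, z1, z3]
  have tp : ∀ u e b, TA (wsp κ l p q) z D.S D.g p u e b =
      TG (tr (w01 κ)) (w12 κ) (Z10 κ u) (Z12 κ u) (D.S p) (D.S l) (D.S q) D.g u e b := by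
    intro u e b
    rw [ta_core _ _ _ _ p l q u hlp.symm hpq hlq (fun j h1 h2 h3 a b => q0 p j u a b
      (by rw [o2, o4 j h2 h1 h3]; omega) (by rw [o4 j h2 h1 h3]; omega)), w2, w5, z2, z5]
  have tq : ∀ u e b, TA (wsp κ l p q) z D.S D.g q u e b =
      TG (tr (w02 κ)) (tr (w12 κ)) (Z20 κ u) (Z21 κ u) (D.S q) (D.S l) (D.S p) D.g u e b := by
    intro u e b
    rw [ta_core _ _ _ _ q l p u hlq.symm hpq.symm hlp (fun j h1 h2 h3 a b => q0 q j u a b
      (by rw [o3, o4 j h2 h3 h1]; omega) (by rw [o4 j h2 h3 h1]; omega)), w4, w6, z4, z6]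
  have ha := h.a
  have hap := ha p hlp.symm
  have haq := ha q hlq.symm
  have hbp := h.b p hlp.symm
  have hbq := h.b q hlq.symm
  have hc := h.c
  have hd := h.d
  have he := h.e
  have hf := h.f
  simp only [tp, w2, z2] at hap
  simp only [tq, w4, z4] at haq
  simp only [z1] at hbp
  simp only [z3] at hbq
  simp only [tl] at hc
  simp only [w5, z1, z3, xB, xC] at hd
  simp only [w3, w6, z2, z5, xP] at he
  simp only [w1, w5, z4, z6, xQ] at hf
  obtain ⟨s1, s2, s3, p2, p3, hg, hμ⟩ := pl_core (D.S l) (D.S p) (D.S q) (D.P p) (D.P q) D.g D.μ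
    D.F1 D.F2 D.F3 hap haq hbp hbq hc hd he hf h.g
  -- the triple
  have hF : D.F1 = 0 ∧ D.F2 = 0 ∧ D.F3 = 0 := by
    apply pt_core D.F1 D.F2 D.F3
    · intro u
      have := hd u
      simpa [p2, p3, hμ] using this
    · intro u
      have := he u
      simpa [s2] using this
    · intro u
      have := hf u
      simpa [s3] using this
  -- the other blocks
  have hout : ∀ n : ℕ, ∀ i : Fin m, (i : ℕ) = n → i ≠ l → i ≠ p → i ≠ q →
      D.S i = 0 ∧ D.P i = 0 := by
    intro n
    induction n using Nat.strong_induction_on with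
    | _ n ih =>
      intro i hi h1 h2 h3
      have oi := o4 i h1 h2 h3
      have hli : ord l p q l < ord l p q i := by rw [o1, oi]; omega
      have h3i : 3 ≤ ord l p q i := by rw [oi]; omega
      have hT : ∀ u e b, TA (wsp κ l p q) z D.S D.g i u e b =
          - ∑ a, (if a = e then 0 else uu u a * D.S i a b) := by
        intro u e b
        have hs : ∑ j, (if j = i then 0 else
            ∑ c, Q2 (wsp κ l p q i j) (z i j u) e c * D.S j c b) = 0 := by
          apply Finset.sum_eq_zero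
          intro j _
          by_cases hji : j = i
          · rw [if_pos hji]
          rw [if_neg hji]
          apply Finset.sum_eq_zero
          intro c _
          by_cases j1 : j = l
          · rw [j1, s1]; simp
          by_cases j2 : j = p
          · rw [j2, s2]; simp
          by_cases j3 : j = q
          · rw [j3, s3]; simp
          have oj := o4 j j1 j2 j3
          rcases lt_or_gt_of_ne (fun hh : (j : ℕ) = i => hji (Fin.ext hh)) with hlt | hgt
          · rw [(ih j (by omega) j rfl j1 j2 j3).1]; simp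
          · rw [q0 i j u e c (by rw [oi, oj]; omega) (by rw [oj]; omega), zero_mul]
        rw [TA, hs, hg]
        simp
      have e1 := (wsp_out κ hli h3i).2
      have e2 := zlo l i hli h3i
      have e3 := zol l i hli h3i
      apply po_core (D.S i) (D.P i)
      · intro u
        have := ha i h1 u
        simp only [hT, e1, e3] at this
        exact this
      · intro u e b heb
        have := h.b i h1 u e b heb
        simp only [e2, hμ] at this
        simpa using this
  refine ⟨?_, ?_, hg, hμ, hF.1, hF.2.1, hF.2.2⟩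
  · funext i
    by_cases i1 : i = l
    · rw [i1, s1]; rfl
    by_cases i2 : i = p
    · rw [i2, s2]; rfl
    by_cases i3 : i = q
    · rw [i3, s3]; rfl
    exact (hout i i rfl i1 i2 i3).1
  · intro i i1
    by_cases i2 : i = p
    · rw [i2, p2]
    by_cases i3 : i = q
    · rw [i3, p3]
    exact (hout i i rfl i1 i2 i3).2

end Pool.Agent.VCT
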