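import Pool.Agent.VCT.DANN

/-!
# From the linear condition to the linear system
-/

set_option autoImplicit false

namespace Pool.Agent.VCT

open Pool.Agent.VCC HilbPts

universe u

section

variable {K : Type*} [Field K] {m : ℕ}

/-- the pair identity -/
theorem SYS_.pair (w : Frm K) (z r : Mat K) (t : Fin 3 → Fin 3 → Fin 3 → K)
    (ht : ∀ a b b', t a b b' = t a b' b) (h : ∀ a e, L2 w z a e = r a e) :
    ∑ a, ∑ e, r a e * t a (e + 1) (e + 2) =
      ∑ e, ∑ c, z e c * (∑ a, ∑ b, w c a b * t a e b) - ∑ a, ∑ b, Q2 w z a b * t a b b := by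
  have e1 : ∀ a, t a 1 0 = t a 0 1 := fun a => ht a 1 0
  have e2 : ∀ a, t a 2 0 = t a 0 2 := fun a => ht a 2 0
  have e3 : ∀ a, t a 2 1 = t a 1 2 := fun a => ht a 2 1
  have f1 : (1 : Fin 3) + 1 = 2 := rfl
  have f2 : (1 : Fin 3) + 2 = 0 := rfl
  have f3 : (2 : Fin 3) + 1 = 0 := rfl
  have f4 : (2 : Fin 3) + 2 = 1 := rfl
  simp only [← h, L2, Q2, Fin.sum_univ_three, zero_add, f1, f2, f3, f4, e1, e2, e3]
  ring

/-- the main part, the same block -/
theorem SYS_.self (u : Fin 2) (t : Fin 3 → Fin 3 → Fin 3 → K)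
    (h1 : ∀ a b c, t a b c = t b a c) (h2 : ∀ a b c, t a b c = t a c b) :
    ∑ e, uu u e * (t e 0 1 + t e 0 2 + t e 1 2) =
      ∑ e, ∑ a, (if a = e then 0 else uu u a * t e a a) := by
  have e1 : t 1 0 1 = t 0 1 1 := h1 _ _ _
  have e2 : t 1 0 2 = t 0 1 2 := h1 _ _ _
  have e3 : t 2 0 1 = t 0 1 2 := by rw [h1, h2]
  have e4 : t 2 0 2 = t 0 2 2 := h1 _ _ _
  have e5 : t 2 1 2 = t 1 2 2 := h1 _ _ _
  have e6 : t 0 0 1 = t 1 0 0 := by rw [h2, h1]
  have e7 : t 0 0 2 = t 2 0 0 := by rw [h2, h1]
  have e8 : t 1 1 2 = t 2 1 1 := by rw [h2, h1]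
  fin_cases u <;> simp [uu, Fin.sum_univ_three, e1, e2, e3, e4, e5, e6, e7, e8] <;> ring

theorem SYS_.ite2 (p q : Fin m) (hpq : p ≠ q) (A B : Fin m → K) :
    ∑ k, (if k = p then A k else if k = q then B k else 0) = A p + B q := by
  have : ∀ k, (if k = p then A k else if k = q then B k else 0) =
      (if k = p then A k else 0) + (if k = q then B k else 0) := by
    intro k
    by_cases h : k = p
    · have h' : k ≠ q := fun h2 => hpq (h.symm.trans h2)
      simp [h, hpq]
    · simp [h]
  simp [this, Finset.sum_add_distrib]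

theorem SYS_.ite3 (i p q : Fin m) (hip : i ≠ p) (hiq : i ≠ q) (hpq : p ≠ q)
    (A B C : Fin m → K) :
    ∑ k, (if k = i then A k else if k = p then B k else if k = q then C k else 0) =
      A i + B p + C q := by
  have : ∀ k, (if k = i then A k else if k = p then B k else if k = q then C k else 0) =
      (if k = i then A k else 0) + (if k = p then B k else if k = q then C k else 0) := by
    intro k
    by_cases h : k = i
    · simp [h, hip, hiq]
    · simp [h]
  simp only [this, Finset.sum_add_distrib, SYS_.ite2 p q hpq]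
  simp
  ring

/-- the cross part, generic block -/
theorem SYS_.tri (w1 w2 w3 : Frm K) (A B C : Mat K) (u : Fin 2)
    (h : ∀ a b d, L3 w1 w2 w3 A B C a b d = if b = 0 ∧ d = 0 then uu u a else 0)
    (t : Fin 3 → Fin 3 → Fin 3 → K) :
    ∑ a, uu u a * t a 0 0 =
      ∑ a, ∑ c, A a c * (∑ b, ∑ d, w3 c b d * t a b d) +
      ∑ b, ∑ c, B b c * (∑ a, ∑ d, w2 c a d * t a b d) +
      ∑ d, ∑ c, C d c * (∑ a, ∑ b, w1 c a b * t a b d) := by
  have h' : ∑ a, uu u a * t a 0 0 = ∑ a, ∑ b, ∑ d, L3 w1 w2 w3 A B C a b d * t a b d := by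
    simp only [h, Fin.sum_univ_three]
    simp
  rw [h']
  simp only [L3, Fin.sum_univ_three]
  ring

/-- the cross part, block of the cross term -/
theorem SYS_.crs (w : Frm K) (P : Mat K) (u : Fin 2) (h : ∀ b e, L2 w P b e = rc u b e)
    (t : Fin 3 → Fin 3 → Fin 3 → K) (ht : ∀ a b b', t a b b' = t a b' b) :
    ∑ e, uu u e * t 0 e 0 =
      ∑ e, ∑ c, P e c * (∑ a, ∑ b, w c a b * t a e b) + ∑ e, ∑ a, sq w P u e a * t e a a := by
  have h' := SYS_.pair w P (rc u) t ht h
  have h2 : ∑ e, uu u e * t 0 e 0 = uu u 0 * t 0 0 0 +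
      ∑ a, ∑ e, rc u a e * t a (e + 1) (e + 2) := by
    have f1 : (1 : Fin 3) + 1 = 2 := rfl
    have f2 : (1 : Fin 3) + 2 = 0 := rfl
    have f3 : (2 : Fin 3) + 1 = 0 := rfl
    have f4 : (2 : Fin 3) + 2 = 1 := rfl
    have g1 : (2 : Fin 3) ≠ 0 := by decide
    have g2 : (1 : Fin 3) ≠ 0 := by decide
    have e1 : t 0 1 0 = t 0 0 1 := ht 0 1 0
    simp only [rc, Fin.sum_univ_three, zero_add, f1, f2, f3, f4, e1, g1, g2, if_true, if_false]
    ring
  have h3 : ∑ e, ∑ a, sq w P u e a * t e a a = uu u 0 * t 0 0 0 -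
      ∑ a, ∑ b, Q2 w P a b * t a b b := by
    have g1 : (2 : Fin 3) ≠ 0 := by decide
    have g2 : (1 : Fin 3) ≠ 0 := by decide
    simp only [sq, Fin.sum_univ_three, g1, g2, and_true, and_false, false_and, if_true, if_false]
    ring
  rw [h2, h', h3]
  ring

theorem SYS_.cross (w : Arr m K) (hw : WSym w) (p q : Fin m) (hpq : p ≠ q) (X : Crs m K)
    (hX : CrsOK w p q X) (T : Fin m × Fin 3 → Fin m × Fin 3 → Fin m × Fin 3 → K) (hT : TSym T)
    (i : Fin m) (u : Fin 2) :
    ∑ k, ∑ e, XX w p q X (sOf T) (fOf w T) i u k e k e =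
      ∑ e, uu u e * T (i, e) (p, 0) (q, 0) := by
  have hs : ∀ c a b, w q p c a b = w p q c b a := fun c a b => by rw [hw.2 p q]; rfl
  have h12 := hT.1
  have h23 := hT.2
  have h13 : ∀ x y z, T x y z = T z y x := fun x y z => by rw [h12, h23, h12]
  by_cases hip : i = p
  · subst hip
    have e1 : ∀ k, ∑ e, XX w i q X (sOf T) (fOf w T) i u k e k e =
        if k = i then ∑ e, ∑ c, X.P u e c * fOf w T i q c k e else
          if k = q then ∑ e, ∑ a, sq (w q i) (X.P u) u e a * sOf T i a k e else 0 := by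
      intro k
      unfold XX
      by_cases hk : k = i
      · simp [hk]
      · by_cases hk' : k = q
        · simp [hk, hk', hpq.symm]
        · simp [hk, hk']
    simp only [e1]
    rw [SYS_.ite2 i q hpq]
    have := SYS_.crs (w q i) (X.P u) u (hX.cp u) (fun b a a' => T (q, b) (i, a) (i, a'))
      (fun a b b' => h23 _ _ _)
    rw [show (∑ e, uu u e * T (i, e) (i, 0) (q, 0)) =
      ∑ e, uu u e * T (q, 0) (i, e) (i, 0) from
      Finset.sum_congr rfl fun e _ => by rw [h13, h23], this]
    refine congrArg₂ (· + ·) ?_ ?_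
    · refine Finset.sum_congr rfl fun e _ => Finset.sum_congr rfl fun c _ => ?_
      congr 1
      unfold fOf
      rw [Finset.sum_comm]
      refine Finset.sum_congr rfl fun a _ => Finset.sum_congr rfl fun b _ => ?_
      rw [hs]
      congr 1
      exact (h13 _ _ _).trans (h23 _ _ _)
    · rfl
  · by_cases hiq : i = q
    · subst hiq
      have e1 : ∀ k, ∑ e, XX w p i X (sOf T) (fOf w T) i u k e k e =
          if k = i then ∑ e, ∑ c, X.Q u e c * fOf w T p i c k e else
            if k = p then ∑ e, ∑ a, sq (w p i) (X.Q u) u e a * sOf T i a k e else 0 := by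
        intro k
        unfold XX
        by_cases hk : k = i
        · simp [hk, hip]
        · by_cases hk' : k = p
          · simp [hk', hip, hpq]
          · simp [hk, hk', hip]
      simp only [e1]
      rw [SYS_.ite2 i p hip]
      have := SYS_.crs (w p i) (X.Q u) u (hX.cq u) (fun b a a' => T (p, b) (i, a) (i, a'))
        (fun a b b' => h23 _ _ _)
      rw [show (∑ e, uu u e * T (i, e) (p, 0) (i, 0)) =
        ∑ e, uu u e * T (p, 0) (i, e) (i, 0) from
        Finset.sum_congr rfl fun e _ => by rw [h12], this]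
      refine congrArg₂ (· + ·) ?_ ?_
      · refine Finset.sum_congr rfl fun e _ => Finset.sum_congr rfl fun c _ => ?_
        congr 1
        unfold fOf
        refine Finset.sum_congr rfl fun a _ => Finset.sum_congr rfl fun b _ => ?_
        rw [h12]
      · rfl
    · have e1 : ∀ k, ∑ e, XX w p q X (sOf T) (fOf w T) i u k e k e =
          if k = i then ∑ e, ∑ c, X.A i u e c * fOf w T p q c k e else
            if k = p then ∑ e, ∑ c, X.B i u e c * fOf w T i q c k e else
              if k = q then ∑ e, ∑ c, X.C i u e c * fOf w T i p c k e else 0 := by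
        intro k
        unfold XX
        by_cases hk : k = i
        · simp [hk, hip, hiq]
        · by_cases hk' : k = p
          · simp [hk, hk', hip, hiq]
          · by_cases hk'' : k = q
            · simp [hk, hk', hk'', hip, hiq]
            · simp [hk, hk', hk'', hip, hiq]
      simp only [e1]
      rw [SYS_.ite3 i p q hip hiq hpq]
      rw [SYS_.tri (w i p) (w i q) (w p q) (X.A i u) (X.B i u) (X.C i u) u (hX.tri i hip hiq u)
        (fun a b d => T (i, a) (p, b) (q, d))]
      refine congrArg₂ (· + ·) (congrArg₂ (· + ·) ?_ ?_) ?_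
      · rfl
      · refine Finset.sum_congr rfl fun e _ => Finset.sum_congr rfl fun c _ => ?_
        congr 1
        unfold fOf
        refine Finset.sum_congr rfl fun a _ => Finset.sum_congr rfl fun b _ => ?_
        rw [h12]
      · refine Finset.sum_congr rfl fun e _ => Finset.sum_congr rfl fun c _ => ?_
        congr 1
        unfold fOf
        refine Finset.sum_congr rfl fun a _ => Finset.sum_congr rfl fun b _ => ?_
        rw [h12, h23]

/-- the main part -/
theorem SYS_.main (w : Arr m K) (z : Zar m K) (hz : ZOK w z) (ε : K) (p q p' q' : Fin m)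
    (T : Fin m × Fin 3 → Fin m × Fin 3 → Fin m × Fin 3 → K) (hT : TSym T)
    (i : Fin m) (u : Fin 2) :
    ∑ k, ∑ e, (if k = i then TA w z (fun j a b => sOf T j a k b) (gOf ε p q p' q' T k) i u e e
      else - ∑ c, z i k u e c * fOf w T i k c k e) =
    ε * (∑ e, uu u e * T (i, e) (p, 0) (q, 0) + ∑ e, uu u e * T (i, e) (p', 0) (q', 0)) := by
  have h12 := hT.1
  have h23 := hT.2
  have e1 : ∀ k, ∑ e, (if k = i then
      TA w z (fun j a b => sOf T j a k b) (gOf ε p q p' q' T k) i u e e
      else - ∑ c, z i k u e c * fOf w T i k c k e) =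
      (if k = i then (∑ e, TA w z (fun j a b => sOf T j a i b) (gOf ε p q p' q' T i) i u e e)
        else 0) +
      (if k = i then 0 else - ∑ e, ∑ c, z i k u e c * fOf w T i k c k e) := by
    intro k
    by_cases hk : k = i
    · simp [hk]
    · simp [hk]
  have e2 : ∀ k, (if k = i then (0 : K) else - ∑ e, ∑ c, z i k u e c * fOf w T i k c k e) =
      (if k = i then 0 else
        - ∑ a, ∑ b, Q2 (w i k) (z i k u) a b * T (i, a) (k, b) (k, b)) -
      (if k = i then 0 else ∑ e, uu u e * (T (i, e) (k, 0) (k, 1) + T (i, e) (k, 0) (k, 2) +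
        T (i, e) (k, 1) (k, 2))) := by
    intro k
    by_cases hk : k = i
    · simp [hk]
    · have hp := SYS_.pair (w i k) (z i k u) (fun a _ => uu u a)
        (fun a b b' => T (i, a) (k, b) (k, b')) (fun a b b' => h23 _ _ _)
        (fun a e => hz i k (Ne.symm hk) u a e)
      have hq : ∑ a, ∑ e, uu u a * T (i, a) (k, e + 1) (k, e + 2) =
          ∑ e, uu u e * (T (i, e) (k, 0) (k, 1) + T (i, e) (k, 0) (k, 2) +
            T (i, e) (k, 1) (k, 2)) := by
        refine Finset.sum_congr rfl fun a _ => ?_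
        have f1 : (1 : Fin 3) + 1 = 2 := rfl
        have f2 : (1 : Fin 3) + 2 = 0 := rfl
        have f3 : (2 : Fin 3) + 1 = 0 := rfl
        have f4 : (2 : Fin 3) + 2 = 1 := rfl
        rw [Fin.sum_univ_three]
        simp only [zero_add, f1, f2, f3, f4, h23 (i, a) (k, 2) (k, 0)]
        ring
      have hr : ∑ e, ∑ c, z i k u e c * fOf w T i k c k e =
          ∑ e, ∑ c, z i k u e c * (∑ a, ∑ b, w i k c a b * T (i, a) (k, e) (k, b)) := by
        refine Finset.sum_congr rfl fun e _ => Finset.sum_congr rfl fun c _ => ?_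
        congr 1
        unfold fOf
        refine Finset.sum_congr rfl fun a _ => Finset.sum_congr rfl fun b _ => ?_
        rw [h12]
      rw [if_neg hk, if_neg hk, if_neg hk, ← hq, hr]
      beta_reduce at hp
      rw [hp]
      ring
  have e3 : ∑ e, TA w z (fun j a b => sOf T j a i b) (gOf ε p q p' q' T i) i u e e =
      ∑ e, uu u e * hv ε p q p' q' (T (i, e)) -
        ∑ e, ∑ a, (if a = e then 0 else uu u a * T (i, e) (i, a) (i, a)) +
      ∑ j, (if j = i then 0 else
        ∑ a, ∑ b, Q2 (w i j) (z i j u) a b * T (i, a) (j, b) (j, b)) := by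
    unfold TA
    rw [Finset.sum_add_distrib, Finset.sum_sub_distrib]
    congr 1
    rw [Finset.sum_comm]
    refine Finset.sum_congr rfl fun j _ => ?_
    by_cases hj : j = i
    · simp [hj]
    · simp [hj, sOf]
  have e4 : ∑ e, uu u e * hv ε p q p' q' (T (i, e)) =
      ∑ j, ∑ e, uu u e * (T (i, e) (j, 0) (j, 1) + T (i, e) (j, 0) (j, 2) +
        T (i, e) (j, 1) (j, 2)) +
      ε * (∑ e, uu u e * T (i, e) (p, 0) (q, 0) + ∑ e, uu u e * T (i, e) (p', 0) (q', 0)) := by
    unfold hv
    rw [Finset.sum_comm, ← Finset.sum_add_distrib, Finset.mul_sum, ← Finset.sum_add_distrib]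
    refine Finset.sum_congr rfl fun e _ => ?_
    rw [mul_add, Finset.mul_sum]
    ring
  have e5 : ∑ j, ∑ e, uu u e * (T (i, e) (j, 0) (j, 1) + T (i, e) (j, 0) (j, 2) +
        T (i, e) (j, 1) (j, 2)) =
      ∑ e, ∑ a, (if a = e then 0 else uu u a * T (i, e) (i, a) (i, a)) +
      ∑ j, (if j = i then 0 else ∑ e, uu u e * (T (i, e) (j, 0) (j, 1) +
        T (i, e) (j, 0) (j, 2) + T (i, e) (j, 1) (j, 2))) := by
    rw [← SYS_.self u (fun a b c => T (i, a) (i, b) (i, c)) (fun a b c => h12 _ _ _)
      (fun a b c => h23 _ _ _)]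
    have : ∀ j, ∑ e, uu u e * (T (i, e) (j, 0) (j, 1) + T (i, e) (j, 0) (j, 2) +
        T (i, e) (j, 1) (j, 2)) = (if j = i then ∑ e, uu u e * (T (i, e) (i, 0) (i, 1) +
          T (i, e) (i, 0) (i, 2) + T (i, e) (i, 1) (i, 2)) else 0) +
        (if j = i then 0 else ∑ e, uu u e * (T (i, e) (j, 0) (j, 1) +
        T (i, e) (j, 0) (j, 2) + T (i, e) (j, 1) (j, 2))) := by
      intro j
      by_cases hj : j = i
      · simp [hj]
      · simp [hj]
    rw [Finset.sum_congr rfl fun j _ => this j, Finset.sum_add_distrib]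
    simp
  have e6 : ∑ k, (if k = i then (0 : K) else
        - ∑ a, ∑ b, Q2 (w i k) (z i k u) a b * T (i, a) (k, b) (k, b)) =
      - ∑ k, (if k = i then (0 : K) else
        ∑ a, ∑ b, Q2 (w i k) (z i k u) a b * T (i, a) (k, b) (k, b)) := by
    rw [← Finset.sum_neg_distrib]
    refine Finset.sum_congr rfl fun k _ => ?_
    by_cases hk : k = i
    · simp [hk]
    · simp [hk]
  rw [Finset.sum_congr rfl fun k _ => e1 k, Finset.sum_add_distrib,
    Finset.sum_congr rfl fun k _ => e2 k, Finset.sum_sub_distrib, e6]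
  simp only [Finset.sum_ite_eq', Finset.mem_univ, if_true]
  rw [e3, e4, e5]
  ring

theorem SYS_.sumE (E : (Fin m → Fin 3 → K) →ₗ[K] K) (α : Fin 3 → K)
    (φ : Fin 3 → Fin m → Fin 3 → K) :
    E (fun l b => ∑ c, α c * φ c l b) = ∑ c, α c * E (φ c) := by
  have : (fun l b => ∑ c, α c * φ c l b) = ∑ c, α c • φ c := by
    ext l b
    simp [Finset.sum_apply]
  rw [this, map_sum]
  simp

theorem SYS_.XX_lin (E : (Fin m → Fin 3 → K) →ₗ[K] K) (w : Arr m K) (p q : Fin m) (X : Crs m K)
    (s : Fin m → Fin 3 → Fin m → Fin 3 → K) (f : Fin m → Fin m → Fin 3 → Fin m → Fin 3 → K)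
    (i : Fin m) (u : Fin 2) (k : Fin m) (e : Fin 3) (l0 : Fin m) (b0 : Fin 3) :
    E (fun l b => XX w p q X s f i u k e l b) =
      XX w p q X (fun i a _ _ => E (s i a)) (fun i j c _ _ => E (f i j c)) i u k e l0 b0 := by
  have h0 : E (fun _ _ => 0) = 0 := E.map_zero
  unfold XX
  by_cases h1 : i = p
  · by_cases h2 : k = p
    · simp only [h1, h2, if_true, SYS_.sumE]
    · by_cases h3 : k = q
      · simp only [h1, h2, if_true, if_false]
        simp only [h3, if_true, SYS_.sumE]
      · simp only [h1, h2, h3, if_true, if_false, h0]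
  · by_cases h1' : i = q
    · by_cases h2 : k = q
      · have hqp : ¬ q = p := fun h => h1 (h1'.trans h)
        simp only [h1', h2, hqp, if_true, if_false, SYS_.sumE]
      · by_cases h3 : k = p
        · simp only [h1, if_false]
          simp only [h1', h2, if_true, if_false]
          simp only [h3, if_true, SYS_.sumE]
        · simp only [h1, if_false]
          simp only [h1', h2, h3, if_true, if_false, h0]
    · simp only [h1, h1', if_false]
      by_cases h2 : k = i
      · simp only [h2, if_true, SYS_.sumE]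
      · simp only [h2, if_false]
        by_cases h3 : k = p
        · simp only [h3, if_true, SYS_.sumE]
        · simp only [h3, if_false]
          by_cases h4 : k = q
          · simp only [h4, if_true, SYS_.sumE]
          · simp only [h4, if_false, h0]

theorem SYS_.TA_lin (E : (Fin m → Fin 3 → K) →ₗ[K] K) (w : Arr m K) (z : Zar m K)
    (s : Fin m → Fin 3 → Fin m → Fin 3 → K) (g : Fin m → Fin 3 → K) (i : Fin m) (u : Fin 2)
    (e b0 : Fin 3) :
    E (fun l b => TA w z (fun j a b => s j a l b) (g l) i u e b) =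
      TA w z (fun j a _ => E (s j a)) (fun _ => E g) i u e b0 := by
  have h : (fun l b => TA w z (fun j a b => s j a l b) (g l) i u e b) =
      (uu u e : K) • g - (fun l b => ∑ a, (if a = e then 0 else uu u a) * s i a l b) +
        ∑ j, (fun l b => ∑ c, (if j = i then 0 else Q2 (w i j) (z i j u) e c) * s j c l b) := by
    ext l b
    simp only [TA, Pi.add_apply, Pi.sub_apply, Pi.smul_apply, smul_eq_mul, Finset.sum_apply]
    congr 1
    · congr 1
      refine Finset.sum_congr rfl fun a _ => ?_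
      by_cases ha : a = e <;> simp [ha]
    · refine Finset.sum_congr rfl fun j _ => ?_
      by_cases hj : j = i <;> simp [hj]
  rw [h, map_add, map_sub, map_smul, map_sum, SYS_.sumE]
  simp only [SYS_.sumE, TA, smul_eq_mul]
  congr 1
  · congr 1
    refine Finset.sum_congr rfl fun a _ => ?_
    by_cases ha : a = e <;> simp [ha]
  · refine Finset.sum_congr rfl fun j _ => ?_
    by_cases hj : j = i <;> simp [hj]

theorem SYS_.QQ_lin (E : (Fin m → Fin 3 → K) →ₗ[K] K) (w : Arr m K) (z : Zar m K) (ε : K)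
    (p q : Fin m) (X : Crs m K) (p' q' : Fin m) (X' : Crs m K)
    (s : Fin m → Fin 3 → Fin m → Fin 3 → K) (f : Fin m → Fin m → Fin 3 → Fin m → Fin 3 → K)
    (g : Fin m → Fin 3 → K) (i : Fin m) (u : Fin 2) (k : Fin m) (e : Fin 3) (l0 : Fin m)
    (b0 : Fin 3) :
    E (fun l b => QQ w z ε p q X p' q' X' s f g i u k e l b) =
      QQ w z ε p q X p' q' X' (fun i a _ _ => E (s i a)) (fun i j c _ _ => E (f i j c))
        (fun _ _ => E g) i u k e l0 b0 := by
  have h : (fun l b => QQ w z ε p q X p' q' X' s f g i u k e l b) =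
      (fun l b => (if k = i then TA w z (fun j a b => s j a l b) (g l) i u e b
        else - ∑ c, z i k u e c * f i k c l b)) -
      ε • ((fun l b => XX w p q X s f i u k e l b) +
        (fun l b => XX w p' q' X' s f i u k e l b)) := by
    ext l b
    simp only [QQ, Pi.add_apply, Pi.sub_apply, Pi.smul_apply, smul_eq_mul]
  rw [h, map_sub, map_smul, map_add, SYS_.XX_lin E w p q X s f i u k e l0 b0,
    SYS_.XX_lin E w p' q' X' s f i u k e l0 b0]
  unfold QQ
  rw [smul_eq_mul]
  congr 1
  by_cases hk : k = i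
  · simp only [hk, if_true]
    exact SYS_.TA_lin E w z s g i u e b0
  · simp only [hk, if_false]
    rw [← SYS_.sumE, ← map_neg]
    rfl

theorem SYS_.XX_congr (w : Arr m K) (p q : Fin m) (hpq : p ≠ q) (X : Crs m K)
    (s s' : Fin m → Fin 3 → Fin m → Fin 3 → K)
    (f f' : Fin m → Fin m → Fin 3 → Fin m → Fin 3 → K)
    (i : Fin m) (u : Fin 2) (k : Fin m) (e : Fin 3) (l l' : Fin m) (b b' : Fin 3)
    (hs : ∀ j a, s j a l b = s' j a l' b')
    (hf : ∀ j j' c, j ≠ j' → f j j' c l b = f' j j' c l' b') :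
    XX w p q X s f i u k e l b = XX w p q X s' f' i u k e l' b' := by
  unfold XX
  simp only [hs, hf p q _ hpq]
  by_cases h1 : i = p
  · simp only [h1, if_true]
  · by_cases h2 : i = q
    · simp only [h2, if_true]
    · simp only [h1, h2, if_false, hf i p _ h1, hf i q _ h2]

theorem SYS_.QQ_congr (w : Arr m K) (z : Zar m K) (ε : K)
    (p q : Fin m) (hpq : p ≠ q) (X : Crs m K) (p' q' : Fin m) (hpq' : p' ≠ q') (X' : Crs m K)
    (s s' : Fin m → Fin 3 → Fin m → Fin 3 → K)
    (f f' : Fin m → Fin m → Fin 3 → Fin m → Fin 3 → K)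
    (g g' : Fin m → Fin 3 → K) (i : Fin m) (u : Fin 2) (k : Fin m) (e : Fin 3) (l l' : Fin m)
    (b b' : Fin 3)
    (hs : ∀ j a, s j a l b = s' j a l' b')
    (hf : ∀ j j' c, j ≠ j' → f j j' c l b = f' j j' c l' b') (hg : g l b = g' l' b') :
    QQ w z ε p q X p' q' X' s f g i u k e l b =
      QQ w z ε p q X p' q' X' s' f' g' i u k e l' b' := by
  unfold QQ
  rw [SYS_.XX_congr w p q hpq X s s' f f' i u k e l l' b b' hs hf,
    SYS_.XX_congr w p' q' hpq' X' s s' f f' i u k e l l' b b' hs hf]
  congr 1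
  by_cases hk : k = i
  · simp only [hk, if_true, TA, hs, hg]
  · have hk' : i ≠ k := fun h => hk h.symm
    simp only [hk, if_false, hf i k _ hk']

/-- pairing with a row of `F` -/
def SYS_.Ev (Fx : Fin m × Fin 3 → K) : (Fin m → Fin 3 → K) →ₗ[K] K where
  toFun h := ∑ t, Fx t * h t.1 t.2
  map_add' g h := by simp only [Pi.add_apply, mul_add, Finset.sum_add_distrib]
  map_smul' c h := by
    simp only [Pi.smul_apply, smul_eq_mul, RingHom.id_apply, Finset.mul_sum]
    exact Finset.sum_congr rfl fun t _ => by ring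

end

theorem p_SYS : T_SYS.{u} := by
  intro m K _ _ w z ε p q X p' q' X' hpq hpq' h1 h2 h3 h4 hw hz hX hX' _ lam _ H i u
  refine DANN_.double w ε p q p' q' hpq hpq' h1 h2 h3 h4 hw
    (fun x t => QQ w z ε p q X p' q' X' (sOf lam) (fOf w lam) (gOf ε p q p' q' lam) i u
      x.1 x.2 t.1 t.2) ?_
  intro F hF
  obtain ⟨G, hG, hT⟩ := H F hF
  set T : Fin m × Fin 3 → Fin m × Fin 3 → Fin m × Fin 3 → K :=
    fun x y z => (∑ t, F x t * lam t y z) + G x y z with hTd
  have key : ∀ k e, ∑ t : Fin m × Fin 3, F (k, e) t *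
      QQ w z ε p q X p' q' X' (sOf lam) (fOf w lam) (gOf ε p q p' q' lam) i u k e t.1 t.2 =
      QQ w z ε p q X p' q' X' (sOf T) (fOf w T) (gOf ε p q p' q' T) i u k e k e := by
    intro k e
    have hL := SYS_.QQ_lin (SYS_.Ev (F (k, e))) w z ε p q X p' q' X' (sOf lam) (fOf w lam)
      (gOf ε p q p' q' lam) i u k e k e
    refine Eq.trans hL ?_
    refine SYS_.QQ_congr w z ε p q hpq X p' q' hpq' X' _ _ _ _ _ _ i u k e k k e e ?_ ?_ ?_
    · intro j a
      show ∑ t : Fin m × Fin 3, F (k, e) t * lam (t.1, t.2) (j, a) (j, a) = T (k, e) (j, a) (j, a)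
      rw [hTd]
      have := (hG (k, e)).2.1 (j, a)
      beta_reduce
      rw [this, add_zero]
    · intro j j' c hjj
      show ∑ t : Fin m × Fin 3, F (k, e) t *
        (∑ a, ∑ a', w j j' c a a' * lam (t.1, t.2) (j, a) (j', a')) =
        ∑ a, ∑ a', w j j' c a a' * T (k, e) (j, a) (j', a')
      rw [hTd]
      have := (hG (k, e)).2.2.1 j j' hjj c
      beta_reduce
      simp only [mul_add, Finset.sum_add_distrib, this, add_zero]
      simp only [Finset.mul_sum]
      rw [Finset.sum_comm]
      refine Finset.sum_congr rfl fun a _ => ?_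
      rw [Finset.sum_comm]
      exact Finset.sum_congr rfl fun a' _ => Finset.sum_congr rfl fun t _ => by ring
    · show ∑ t : Fin m × Fin 3, F (k, e) t * hv ε p q p' q' (lam (t.1, t.2)) =
        hv ε p q p' q' (T (k, e))
      have hadd : ∀ A B : Fin m × Fin 3 → Fin m × Fin 3 → K,
          hv ε p q p' q' (A + B) = hv ε p q p' q' A + hv ε p q p' q' B := by
        intro A B
        simp only [hv, Pi.add_apply, Finset.sum_add_distrib]
        ring
      have hsmul : ∀ (c : K) (A : Fin m × Fin 3 → Fin m × Fin 3 → K),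
          hv ε p q p' q' (c • A) = c * hv ε p q p' q' A := by
        intro c A
        simp only [hv, Pi.smul_apply, smul_eq_mul, mul_add, Finset.mul_sum, mul_left_comm _ c]
      have hsum : hv ε p q p' q' (∑ t, F (k, e) t • lam t) =
          ∑ t, F (k, e) t * hv ε p q p' q' (lam t) := by
        let Lh : (Fin m × Fin 3 → Fin m × Fin 3 → K) →ₗ[K] K :=
          { toFun := hv ε p q p' q', map_add' := hadd, map_smul' := hsmul }
        show Lh (∑ t, F (k, e) t • lam t) = _
        rw [map_sum]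
        exact Finset.sum_congr rfl fun t _ => by rw [map_smul]; rfl
      have hTe : T (k, e) = (∑ t, F (k, e) t • lam t) + G (k, e) := by
        ext y z'
        simp [hTd, Finset.sum_apply]
      rw [hTe, hadd, (hG (k, e)).2.2.2, add_zero, hsum]
  rw [Fintype.sum_prod_type]
  rw [Finset.sum_congr rfl fun k _ => Finset.sum_congr rfl fun e _ => key k e]
  have hM := SYS_.main w z hz ε p q p' q' T hT i u
  have hC := SYS_.cross w hw p q hpq X hX T hT i u
  have hC' := SYS_.cross w hw p' q' hpq' X' hX' T hT i u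
  unfold QQ
  simp only [Finset.sum_sub_distrib, ← Finset.mul_sum, Finset.sum_add_distrib]
  rw [hC, hC']
  have hM' : ∑ k, ∑ e, (if k = i then
      TA w z (fun j a b => sOf T j a k b) (gOf ε p q p' q' T k) i u e e
      else - ∑ c, z i k u e c * fOf w T i k c k e) =
    ε * (∑ e, uu u e * T (i, e) (p, 0) (q, 0) + ∑ e, uu u e * T (i, e) (p', 0) (q', 0)) := hM
  rw [hM', sub_self]

end Pool.Agent.VCT
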