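import Pool.Agent.VCT.Targets
import Pool.Agent.VCC.All

/-!
# The result
-/

set_option autoImplicit false

namespace Pool.Agent.VCT

open Pool.Agent.VCC HilbPts

universe u

theorem p_TOP (h1 : T_EXT.{u}) (h2 : T_TRF.{u}) : T_TOP.{u} := by
  intro n r hn hn3 hr k _ _ _
  obtain ⟨m, rfl⟩ : ∃ m, n = 3 * m := ⟨n / 3, by omega⟩
  have hm : 4 ≤ m := by omega
  have hr' : r = 3 * m ^ 2 - 1 := by
    have : (3 * m) ^ 2 = 3 * (3 * m ^ 2) := by ring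
    omega
  obtain ⟨K, _, _, 𝓕, hs, hf, hc, ht⟩ := h1 m k hm
  have : CharZero K := charZero_of_injective_algebraMap (algebraMap k K).injective
  have e : Fin m × Fin 3 ≃ Fin (3 * m) :=
    Fintype.equivFinOfCardEq (by simp [Nat.mul_comm])
  obtain ⟨𝓖, gs, gf, gc, gt⟩ := p_TRANSP K (Fin m × Fin 3) (3 * m) e 𝓕 hs hc ht
  obtain ⟨b, μ, hμ, hb, hg⟩ := p_STRUCT K (3 * m) r 𝓖 gs (by rw [gf, hf, hr']) gc gt
  obtain ⟨ν, hν, hbν, hgν⟩ := h2 (3 * m) r k K b μ hμ hb hg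
  have hch : r + 2 ≤ (3 * m + 1).choose 2 := by
    have h3 : (3 * m + 1).choose 2 = (3 * m + 1) * (3 * m) / 2 := by
      rw [Nat.choose_two_right, Nat.add_sub_cancel]
    rw [h3, Nat.le_div_iff_mul_le (by norm_num)]
    have h4 : (3 * m + 1) * (3 * m) = 9 * m ^ 2 + 3 * m := by ring
    rw [h4]
    have : 1 ≤ m ^ 2 := Nat.one_le_pow _ _ (by omega)
    omega
  obtain ⟨U, hU1, hU2, hU3⟩ := (p_OPEN k (p_CHART k) (p_VALS k) (p_POLY k) (p_FIB1 k) (p_FIB2 k)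
    (p_FIB3 k (p_GNC k))) (3 * m) r (by omega) hch b ν hν hbν hgν
  exact L1_.closure_mem_comp (p_IRR k (3 * m) r (by omega)) hU1 hU2 hU3

end Pool.Agent.VCT
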