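import Pool.Agent.VCT.Targets
import Pool.Agent.VCC.POLY

/-!
# Spaces over an extension field suffice
-/

set_option autoImplicit false

open MvPolynomial

namespace Pool.Agent.VCT

open Pool.Agent.VCC HilbPts

universe u

namespace TRF_

/-- Goodness over an extension field implies goodness. -/
theorem good_of_map {n r : ℕ} {k K : Type u} [Field k] [Field K] [Algebra k K]
    (ν : Fin n → Fin n → Fin r → k) (h : Good fun i j s => algebraMap k K (ν i j s)) : Good ν := by
  intro lam N hS
  obtain ⟨ρ, hρ⟩ := LinearMap.exists_leftInverse_of_injective (Algebra.linearMap k K)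
    (LinearMap.ker_eq_bot.2 (algebraMap k K).injective)
  have h1 : ∀ a : k, ρ (algebraMap k K a) = a := fun a => LinearMap.congr_fun hρ a
  have h2 : ∀ (x : K) (a : k), ρ (x * algebraMap k K a) = ρ x * a := by
    intro x a
    rw [mul_comm, ← Algebra.smul_def, map_smul, smul_eq_mul, mul_comm]
  have h3 : ∀ (x : K) (p : Prop) [Decidable p],
      ρ (x * (if p then 1 else 0)) = ρ x * (if p then 1 else 0) := by
    intro x p _
    split_ifs <;> simp
  obtain ⟨v, θ, hT1, hT2⟩ := h (fun j l t => algebraMap k K (lam j l t))
    (fun i s s' => algebraMap k K (N i s s')) ⟨fun j l t => congrArg _ (hS.1 j l t), by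
      intro i j l s
      have := congrArg (algebraMap k K) (hS.2 i j l s)
      simpa only [map_add, map_sum, map_mul] using this⟩
  refine ⟨fun j => ρ (v j), fun s t => ρ (θ s t), ?_, ?_⟩
  · intro j l t
    have := congrArg ρ (hT1 j l t)
    simpa only [map_add, map_sum, h1, h2, h3] using this
  · intro i s s'
    have := congrArg ρ (hT2 i s s')
    simpa only [map_sub, map_sum, h1, h2, h3] using this

end TRF_

open TRF_ in
theorem p_TRF : T_TRF.{u} := by
  classical
  intro n r k K _ _ _ _ b μ hs hb hg
  have : CharZero K := charZero_of_injective_algebraMap (algebraMap k K).injective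
  obtain ⟨H, d, -, hH, hHG⟩ := p_POLY K n r b μ hs hb hg
  -- basic pairs
  let bas : Fin n → Fin n → Prop := fun i j => ∃ t, b t = (i, j) ∨ b t = (j, i)
  have hbas : ∀ i j, bas i j ↔ bas j i := fun i j =>
    ⟨fun ⟨t, ht⟩ => ⟨t, ht.symm⟩, fun ⟨t, ht⟩ => ⟨t, ht.symm⟩⟩
  have h01 : ∀ i j s, bas i j → μ i j s = 0 ∨ μ i j s = 1 := by
    rintro i j s ⟨t, ht | ht⟩
    · have := hb t s
      rw [ht] at this
      simp only at this
      rw [this]; split_ifs <;> simp
    · have := hb t s
      rw [ht] at this
      simp only at this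
      rw [hs i j s, this]; split_ifs <;> simp
  -- the substitution
  let P : Fin n × Fin n × Fin r → MvPolynomial (Fin n × Fin n × Fin r) K := fun x =>
    if bas x.1 x.2.1 then C (μ x.1 x.2.1 x.2.2) else
      if x.1 ≤ x.2.1 then X (x.1, x.2.1, x.2.2) else X (x.2.1, x.1, x.2.2)
  have hPμ : ∀ x, eval (fun x : Fin n × Fin n × Fin r => μ x.1 x.2.1 x.2.2) (P x) =
      μ x.1 x.2.1 x.2.2 := by
    intro x
    simp only [P]
    split_ifs
    · simp
    · simp
    · simp [hs x.2.1 x.1]
  have hev : ∀ v : Fin n × Fin n × Fin r → K,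
      eval v (bind₁ P H) = eval (fun x => eval v (P x)) H := by
    intro v
    rw [eval, eval₂Hom_bind₁]
    rfl
  have hne : bind₁ P H ≠ 0 := by
    intro h0
    have := hev (fun x => μ x.1 x.2.1 x.2.2)
    rw [h0, map_zero] at this
    simp only [hPμ] at this
    exact hH this.symm
  -- a point over `k`
  obtain ⟨v, hv⟩ : ∃ v : Fin n × Fin n × Fin r → k,
      eval (fun x => algebraMap k K (v x)) (bind₁ P H) ≠ 0 := by
    by_contra hcon
    push Not at hcon
    apply hne
    refine MvPolynomial.funext_set (fun _ => Set.range (algebraMap k K)) ?_ ?_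
    · intro _
      exact Set.infinite_range_of_injective (algebraMap k K).injective
    · intro x hx
      have hx' : ∀ i, ∃ y, algebraMap k K y = x i := fun i => hx i (Set.mem_univ i)
      choose y hy using hx'
      have : x = fun i => algebraMap k K (y i) := by funext i; exact (hy i).symm
      simp only [map_zero]
      rw [this]
      exact hcon y
  let ν : Fin n → Fin n → Fin r → k := fun i j s =>
    if bas i j then (if μ i j s = 1 then 1 else 0) else
      if i ≤ j then v (i, j, s) else v (j, i, s)
  have hνP : ∀ x : Fin n × Fin n × Fin r,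
      algebraMap k K (ν x.1 x.2.1 x.2.2) = eval (fun x => algebraMap k K (v x)) (P x) := by
    intro x
    simp only [P, ν]
    split_ifs with h1 h2 h3
    · simp [h2]
    · rcases h01 _ _ x.2.2 h1 with h | h
      · simp [h]
      · exact absurd h h2
    · simp
    · simp
  have hνs : Sym2' ν := by
    intro i j s
    simp only [ν]
    by_cases h : bas i j
    · rw [if_pos h, if_pos ((hbas i j).1 h), hs i j s]
    · rw [if_neg h, if_neg (fun h' => h ((hbas i j).2 h'))]
      rcases lt_trichotomy i j with hij | hij | hij
      · rw [if_pos hij.le, if_neg (not_le.2 hij)]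
      · subst hij; rfl
      · rw [if_neg (not_le.2 hij), if_pos hij.le]
  have hνN : Nrm b ν := by
    intro s s'
    have h : bas (b s).1 (b s).2 := ⟨s, Or.inl rfl⟩
    simp only [ν]
    rw [if_pos h, hb s s']
    split_ifs <;> simp_all
  refine ⟨ν, hνs, hνN, good_of_map (K := K) ν (hHG _ ?_ ?_ ?_)⟩
  · intro i j s
    simp only [hνs i j s]
  · intro s s'
    simp only [hνN s s']
    split_ifs <;> simp
  · rw [hev] at hv
    simpa only [hνP] using hv

end Pool.Agent.VCT
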