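import Pool.Agent.VCT.ASM
import Pool.Agent.VCT.DIM
import Pool.Agent.VCT.EXT
import Pool.Agent.VCT.GEN
import Pool.Agent.VCT.LIFT
import Pool.Agent.VCT.NOC
import Pool.Agent.VCT.PLACE
import Pool.Agent.VCT.PRIM
import Pool.Agent.VCT.RED
import Pool.Agent.VCT.SOLVE
import Pool.Agent.VCT.SPE
import Pool.Agent.VCT.SYS
import Pool.Agent.VCT.TOP
import Pool.Agent.VCT.TRF

/-!
# The result: `n = 3 m ≥ 12`, `r = n ^ 2 / 3 - 1`
-/

set_option autoImplicit false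

namespace Pool.Agent.VCT

open HilbPts

universe u

theorem allGen : T_GEN.{u} :=
  p_GEN p_PRIM (p_LIFT p_PRIM) p_SP2 p_SP3 p_SPT p_SPL

theorem allExt : T_EXT.{u} :=
  p_EXT p_PLACE p_GENX p_SOLVE allGen (p_NOC p_SOLVE) p_DIM (p_RED p_SYS)
    (p_ASM p_PRIM (p_LIFT p_PRIM))

/-- The closure of `VC_{n,d}`, `n = 3 m ≥ 12`, `d = 1 + n + r`, `r = n ^ 2 / 3 - 1`, is an
irreducible component. -/
theorem main (n r : ℕ) (hn : 12 ≤ n) (h3 : n % 3 = 0) (hr : 3 * r + 3 = n ^ 2)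
    (k : Type u) [Field k] [IsAlgClosed k] [CharZero k] :
    closure (VC n (1 + n + r) k) ∈ irreducibleComponents (Hilb n (1 + n + r) k) :=
  p_TOP allExt p_TRF n r hn h3 hr k

end Pool.Agent.VCT
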