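import Pool.Agent.VCT.Targets

/-!
# The double annihilator of `Fsp` (last step of `T_SYS`)
-/

set_option autoImplicit false

namespace Pool.Agent.VCT

open Pool.Agent.VCC HilbPts

/-- the functional `F ↦ ∑ F x t * A x t` -/
def DANN_.pair {ι K : Type*} [Fintype ι] [Field K] (A : ι → ι → K) : (ι → ι → K) →ₗ[K] K where
  toFun F := ∑ x, ∑ t, F x t * A x t
  map_add' F G := by
    simp only [Pi.add_apply, add_mul, Finset.sum_add_distrib]
  map_smul' c F := by
    simp only [Pi.smul_apply, smul_eq_mul, mul_assoc, ← Finset.mul_sum, RingHom.id_apply]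

/-- elementary matrices -/
def DANN_.E {ι K : Type*} [DecidableEq ι] [Field K] (x t : ι) : ι → ι → K :=
  fun y z => if y = x then (if z = t then 1 else 0) else 0

theorem DANN_.pair_E {ι K : Type*} [Fintype ι] [DecidableEq ι] [Field K] (A : ι → ι → K)
    (x t : ι) : DANN_.pair A (DANN_.E x t) = A x t := by
  show ∑ y, ∑ z, (if y = x then (if z = t then (1 : K) else 0) else 0) * A y z = A x t
  simp [ite_mul]

/-- the index set of the conditions -/
abbrev DANN_.Idx (m : ℕ) :=
  ((Fin m × Fin 3) × (Fin m × Fin 3)) ⊕ ((Fin m × Fin 3) ⊕ ((Fin m × Fin m × Fin 3) ⊕ Unit))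

/-- the conditions which define `Fsp` -/
def DANN_.L {m : ℕ} {K : Type*} [Field K] (w : Arr m K) (ε : K) (p q p' q' : Fin m) :
    DANN_.Idx m → ((Fin m × Fin 3 → Fin m × Fin 3 → K) →ₗ[K] K)
  | Sum.inl (x, t) =>
    { toFun := fun F => F x t - F t x
      map_add' := fun F G => by simp only [Pi.add_apply]; ring
      map_smul' := fun c F => by simp only [Pi.smul_apply, smul_eq_mul, RingHom.id_apply]; ring }
  | Sum.inr (Sum.inl x) =>
    { toFun := fun F => F x x
      map_add' := fun F G => by simp only [Pi.add_apply]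
      map_smul' := fun c F => by simp only [Pi.smul_apply, smul_eq_mul, RingHom.id_apply] }
  | Sum.inr (Sum.inr (Sum.inl (i, j, c))) =>
    { toFun := fun F => ∑ a, ∑ b, w i j c a b * F (i, a) (j, b)
      map_add' := fun F G => by simp only [Pi.add_apply, mul_add, Finset.sum_add_distrib]
      map_smul' := fun c F => by
        simp only [Pi.smul_apply, smul_eq_mul, RingHom.id_apply, Finset.mul_sum,
          mul_left_comm _ c] }
  | Sum.inr (Sum.inr (Sum.inr _)) =>
    { toFun := fun F => hv ε p q p' q' F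
      map_add' := fun F G => by
        simp only [hv, Pi.add_apply, Finset.sum_add_distrib]
        ring
      map_smul' := fun c F => by
        simp only [hv, Pi.smul_apply, smul_eq_mul, RingHom.id_apply, mul_add, Finset.mul_sum,
          mul_left_comm _ c] }

theorem DANN_.mem {m : ℕ} {K : Type*} [Field K] (w : Arr m K) (ε : K) (p q p' q' : Fin m)
    (F : Fin m × Fin 3 → Fin m × Fin 3 → K)
    (h : ∀ j, DANN_.L w ε p q p' q' j F = 0) : F ∈ Fsp w ε p q p' q' :=
  ⟨fun x t => sub_eq_zero.1 (h (Sum.inl (x, t))), fun x => h (Sum.inr (Sum.inl x)),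
    fun i j _ c => h (Sum.inr (Sum.inr (Sum.inl (i, j, c)))),
    h (Sum.inr (Sum.inr (Sum.inr ())))⟩

theorem DANN_.L_form {m : ℕ} {K : Type*} [Field K] (w : Arr m K) (i j : Fin m) (c : Fin 3)
    (k : Fin m) (e : Fin 3) (l : Fin m) (b : Fin 3) :
    (∑ a, ∑ a', w i j c a a' * DANN_.E (K := K) (k, e) (l, b) (i, a) (j, a')) =
      if i = k then (if j = l then w i j c e b else 0) else 0 := by
  simp only [DANN_.E, Prod.mk.injEq, ite_and, mul_ite, mul_one, mul_zero]
  by_cases h : i = k
  · by_cases h' : j = l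
    · simp [h, h']
    · simp [h, h']
  · simp [h]

theorem DANN_.hv_E {m : ℕ} {K : Type*} [Field K] (ε : K) (p q p' q' : Fin m)
    (k : Fin m) (e : Fin 3) (l : Fin m) (b : Fin 3) :
    hv ε p q p' q' (DANN_.E (k, e) (l, b)) = (if k = l ∧ e < b then 1 else 0) +
      ε * ((if p = k ∧ 0 = e ∧ q = l ∧ 0 = b then 1 else 0) +
        (if p' = k ∧ 0 = e ∧ q' = l ∧ 0 = b then 1 else 0)) := by
  have h1 : ∀ a a' : Fin 3, ∑ i : Fin m, DANN_.E (K := K) (k, e) (l, b) (i, a) (i, a') =
      if k = l ∧ a = e ∧ a' = b then 1 else 0 := by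
    intro a a'
    simp only [DANN_.E, Prod.mk.injEq, ite_and]
    by_cases ha : a = e
    · by_cases ha' : a' = b
      · by_cases hkl : k = l
        · simp [ha, ha', hkl]
        · simp only [ha, ha', hkl, if_true, if_false]
          refine Finset.sum_eq_zero fun i _ => ?_
          by_cases hi : i = k
          · have : i ≠ l := fun h => hkl (hi ▸ h)
            simp [hi, hkl]
          · simp [hi]
      · simp [ha']
    · simp [ha]
  unfold hv
  rw [Finset.sum_add_distrib, Finset.sum_add_distrib, h1, h1, h1]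
  congr 1
  · by_cases hkl : k = l
    · fin_cases e <;> fin_cases b <;> simp [hkl]
    · simp [hkl]
  · congr 1
    simp only [DANN_.E, Prod.mk.injEq, ite_and]

theorem DANN_.double {m : ℕ} {K : Type*} [Field K] (w : Arr m K) (ε : K) (p q p' q' : Fin m)
    (hpq : p ≠ q) (hpq' : p' ≠ q') (h1 : p ≠ p') (h2 : p ≠ q') (h3 : q ≠ p') (h4 : q ≠ q')
    (hw : WSym w) (QQ : Fin m × Fin 3 → Fin m × Fin 3 → K)
    (H : ∀ F ∈ Fsp w ε p q p' q', ∑ x, ∑ t, F x t * QQ x t = 0) :
    ∃ μ : K, (∀ k l, k ≠ l → InSp (w k l) fun e b =>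
        QQ (k, e) (l, b) + QQ (l, b) (k, e) - μ * (ε * cr p q p' q' k l e b)) ∧
      ∀ k e b, e ≠ b → QQ (k, e) (k, b) + QQ (k, b) (k, e) = μ := by
  have key : DANN_.pair QQ ∈ Submodule.span K (Set.range (DANN_.L w ε p q p' q')) := by
    refine mem_span_of_iInf_ker_le_ker fun F hF => ?_
    rw [LinearMap.mem_ker]
    refine H F (DANN_.mem w ε p q p' q' F fun j => ?_)
    exact (Submodule.mem_iInf _).1 hF j
  obtain ⟨c, hc⟩ := (Submodule.mem_span_range_iff_exists_fun K).1 key
  have hE : ∀ k e l b, QQ (k, e) (l, b) =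
      c (Sum.inl ((k, e), (l, b))) - c (Sum.inl ((l, b), (k, e))) +
      ((if (k, e) = (l, b) then c (Sum.inr (Sum.inl (k, e))) else 0) +
      ((∑ c', c (Sum.inr (Sum.inr (Sum.inl (k, l, c')))) * w k l c' e b) +
        c (Sum.inr (Sum.inr (Sum.inr ()))) * hv ε p q p' q' (DANN_.E (k, e) (l, b)))) := by
    intro k e l b
    rw [← DANN_.pair_E QQ (k, e) (l, b), ← hc]
    simp only [Fintype.sum_sum_type, LinearMap.add_apply, LinearMap.sum_apply,
      LinearMap.smul_apply, smul_eq_mul]
    refine congrArg₂ (· + ·) ?_ (congrArg₂ (· + ·) ?_ (congrArg₂ (· + ·) ?_ ?_))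
    · have : ∀ a : (Fin m × Fin 3) × (Fin m × Fin 3),
          c (Sum.inl a) * DANN_.L w ε p q p' q' (Sum.inl a) (DANN_.E (k, e) (l, b)) =
          (if a.1 = (k, e) then (if a.2 = (l, b) then c (Sum.inl a) else 0) else 0) -
          (if a.2 = (k, e) then (if a.1 = (l, b) then c (Sum.inl a) else 0) else 0) := by
        intro a
        show c (Sum.inl a) * (DANN_.E (k, e) (l, b) a.1 a.2 - DANN_.E (k, e) (l, b) a.2 a.1) = _
        simp only [DANN_.E, mul_sub, mul_ite, mul_one, mul_zero]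
      simp only [this, Finset.sum_sub_distrib]
      congr 1
      · rw [Fintype.sum_prod_type]
        simp
      · rw [Fintype.sum_prod_type_right]
        simp
    · show (∑ x, c (Sum.inr (Sum.inl x)) * DANN_.E (k, e) (l, b) x x) = _
      simp only [DANN_.E, mul_ite, mul_one, mul_zero, Finset.sum_ite_eq', Finset.mem_univ, if_true]
    · show (∑ x : Fin m × Fin m × Fin 3, c (Sum.inr (Sum.inr (Sum.inl x))) *
        (∑ a, ∑ a', w x.1 x.2.1 x.2.2 a a' *
          DANN_.E (K := K) (k, e) (l, b) (x.1, a) (x.2.1, a'))) = _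
      simp only [DANN_.L_form, Fintype.sum_prod_type, mul_ite, mul_zero]
      simp
    · simp [DANN_.L]
  have hμ : ∀ k l e b, (k, e) ≠ (l, b) → QQ (k, e) (l, b) + QQ (l, b) (k, e) =
      (∑ c', (c (Sum.inr (Sum.inr (Sum.inl (k, l, c')))) +
        c (Sum.inr (Sum.inr (Sum.inl (l, k, c'))))) * w k l c' e b) +
      c (Sum.inr (Sum.inr (Sum.inr ()))) * (hv ε p q p' q' (DANN_.E (k, e) (l, b)) +
        hv ε p q p' q' (DANN_.E (l, b) (k, e))) := by
    intro k l e b hne
    have hs : ∀ c', w l k c' b e = w k l c' e b := fun c' => by rw [hw.2 k l]; rfl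
    rw [hE k e l b, hE l b k e, if_neg hne, if_neg (Ne.symm hne)]
    simp only [hs, add_mul, Finset.sum_add_distrib]
    ring
  refine ⟨c (Sum.inr (Sum.inr (Sum.inr ()))), fun k l hkl => ?_, fun k e b heb => ?_⟩
  · refine ⟨fun c' => c (Sum.inr (Sum.inr (Sum.inl (k, l, c')))) +
        c (Sum.inr (Sum.inr (Sum.inl (l, k, c')))), fun e b => ?_⟩
    have hne : (k, e) ≠ (l, b) := fun h => hkl (congrArg Prod.fst h)
    beta_reduce
    rw [hμ k l e b hne, DANN_.hv_E, DANN_.hv_E]
    have hcr : ((if p = k ∧ 0 = e ∧ q = l ∧ 0 = b then (1 : K) else 0) +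
        (if p' = k ∧ 0 = e ∧ q' = l ∧ 0 = b then 1 else 0)) +
        ((if p = l ∧ 0 = b ∧ q = k ∧ 0 = e then (1 : K) else 0) +
        (if p' = l ∧ 0 = b ∧ q' = k ∧ 0 = e then 1 else 0)) = cr p q p' q' k l e b := by
      unfold cr
      by_cases he : e = 0
      · by_cases hb : b = 0
        · subst he hb
          simp only [true_and, and_true]
          by_cases A : k = p ∧ l = q
          · obtain ⟨rfl, rfl⟩ := A
            simp [hpq, hpq.symm, h1.symm, h3.symm]
          by_cases B : k = q ∧ l = p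
          · obtain ⟨rfl, rfl⟩ := B
            simp [hpq, hpq.symm, h1.symm, h3.symm]
          by_cases C : k = p' ∧ l = q'
          · obtain ⟨rfl, rfl⟩ := C
            simp [hpq'.symm, hpq', h1, h2]
          by_cases D : k = q' ∧ l = p'
          · obtain ⟨rfl, rfl⟩ := D
            simp [hpq'.symm, hpq', h1, h2]
          rw [if_neg (fun h => A ⟨h.1.symm, h.2.symm⟩), if_neg (fun h => C ⟨h.1.symm, h.2.symm⟩),
            if_neg (fun h => B ⟨h.2.symm, h.1.symm⟩), if_neg (fun h => D ⟨h.2.symm, h.1.symm⟩),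
            if_neg (by rintro (h | h | h | h) <;> [exact A h; exact B h; exact C h; exact D h])]
          ring
        · have hb' : ¬ (0 = b) := fun h => hb h.symm
          simp [hb, hb']
      · have he' : ¬ (0 = e) := fun h => he h.symm
        simp [he, he']
    have hkl' : ¬ (l = k) := fun h => hkl h.symm
    simp only [hkl, hkl', false_and, if_false]
    rw [← hcr]
    ring
  · have hne : (k, e) ≠ (k, b) := fun h => heb (congrArg Prod.snd h)
    rw [hμ k k e b hne, DANN_.hv_E, DANN_.hv_E]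
    have hz : ∀ c', w k k c' e b = 0 := fun c' => by rw [hw.1 k]; rfl
    simp only [hz, mul_zero, Finset.sum_const_zero, zero_add, true_and]
    have a1 : ¬ (p = k ∧ 0 = e ∧ q = k ∧ 0 = b) := fun h => hpq (h.1.trans h.2.2.1.symm)
    have a2 : ¬ (p' = k ∧ 0 = e ∧ q' = k ∧ 0 = b) := fun h => hpq' (h.1.trans h.2.2.1.symm)
    have a3 : ¬ (p = k ∧ 0 = b ∧ q = k ∧ 0 = e) := fun h => hpq (h.1.trans h.2.2.1.symm)
    have a4 : ¬ (p' = k ∧ 0 = b ∧ q' = k ∧ 0 = e) := fun h => hpq' (h.1.trans h.2.2.1.symm)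
    rw [if_neg a1, if_neg a2, if_neg a3, if_neg a4]
    rcases lt_or_gt_of_ne heb with h | h
    · rw [if_pos h, if_neg (not_lt.2 h.le)]; ring
    · rw [if_neg (not_lt.2 h.le), if_pos h]; ring

end Pool.Agent.VCT
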