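import Pool.Agent.VCC.Targets
import Mathlib.RingTheory.Valuation.LocalSubring

/-!
# Very compressed algebras, the last value `r = n ^ 2 / 3 - 1`, `n = 3 m`: definitions

`m` blocks of three variables; `W` is spanned by the squares, three bilinear forms for every pair of
blocks and one quadric `h = ∑ (x_0 x_1 + x_0 x_2 + x_1 x_2) + ε (x_p0 x_q0 + x_p'0 x_q'0)`.
-/

set_option autoImplicit false

namespace Pool.Agent.VCT

open Pool.Agent.VCC

/-- three bilinear forms: `w c a b` is the coefficient of `x_a y_b` in the form number `c` -/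
abbrev Frm (R : Type*) := Fin 3 → Fin 3 → Fin 3 → R
/-- matrices -/
abbrev Mat (R : Type*) := Fin 3 → Fin 3 → R
/-- the forms of all the pairs of blocks -/
abbrev Arr (m : ℕ) (R : Type*) := Fin m → Fin m → Frm R
/-- `z i j u b c`: coefficient of `x_jb w_ij^c` in the decomposition of `u h_j`, `u ∈ K_i` -/
abbrev Zar (m : ℕ) (R : Type*) := Fin m → Fin m → Fin 2 → Mat R

section Ring

variable {R S : Type*} [CommRing R] [CommRing S] {m : ℕ}

/-- transposed forms -/
def tr (w : Frm R) : Frm R := fun c a b => w c b a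

/-- the forms for `(j, i)` are the transposed ones; no forms for equal blocks -/
def WSym (w : Arr m R) : Prop := (∀ i, w i i = 0) ∧ ∀ i j, w j i = tr (w i j)

/-- the two vectors of `K = {u | ∑ u_a = 0}` -/
def uu (u : Fin 2) (a : Fin 3) : R := (![![1, -1, 0], ![0, 1, -1]] : Fin 2 → Fin 3 → R) u a

/-- coefficient of `x_a y_{e+1} y_{e+2}` in `∑ z b c y_b w^c` -/
def L2 (w : Frm R) (z : Mat R) (a e : Fin 3) : R :=
  ∑ c, (z (e + 1) c * w c a (e + 2) + z (e + 2) c * w c a (e + 1))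

/-- coefficient of `x_a y_b ^ 2` in `∑ z b c y_b w^c` -/
def Q2 (w : Frm R) (z : Mat R) (a b : Fin 3) : R := ∑ c, z b c * w c a b

/-- coefficient of `x_a y_b t_d` in `∑ A a c x_a w3^c + ∑ B b c y_b w2^c + ∑ C d c t_d w1^c`,
`w1` for `(x, y)`, `w2` for `(x, t)`, `w3` for `(y, t)` -/
def L3 (w1 w2 w3 : Frm R) (A B C : Mat R) (a b d : Fin 3) : R :=
  ∑ c, (A a c * w3 c b d + B b c * w2 c a d + C d c * w1 c a b)

/-- `M` is a combination of the three forms -/
def InSp (w : Frm R) (M : Mat R) : Prop := ∃ y : Fin 3 → R, ∀ a b, M a b = ∑ c, y c * w c a b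

/-- injectivity for a pair of blocks -/
def D2 (w : Frm R) : Prop := ∀ z : Mat R, (∀ a e, L2 w z a e = 0) → z = 0

/-- injectivity for a triple of blocks -/
def D3 (w1 w2 w3 : Frm R) : Prop := ∀ A B C : Mat R,
  (∀ a b d, L3 w1 w2 w3 A B C a b d = 0) → A = 0 ∧ B = 0 ∧ C = 0

/-- the decompositions of `u h_j`, `u ∈ K_i` -/
def ZOK (w : Arr m R) (z : Zar m R) : Prop :=
  ∀ i j, i ≠ j → ∀ u a e, L2 (w i j) (z i j u) a e = uu u a

/-- coefficient of `x_qb x_{p,e+1} x_{p,e+2}` in `(u x_p0) x_q0`, `u ∈ K_p` -/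
def rc (u : Fin 2) (b e : Fin 3) : R :=
  if b = 0 then (if e + 2 = 0 then uu u (e + 1) else if e + 1 = 0 then uu u (e + 2) else 0) else 0

/-- data of the decompositions of `u x_p0 x_q0`, `u ∈ K_i`.  For `i ≠ p, q`: `A` are the
coefficients of `x_i w_pq`, `B` those of `x_p w_iq`, `C` those of `x_q w_ip`.
For `i = p`: `P` are the coefficients of `x_p w_pq`.  For `i = q`: `Q`, those of `x_q w_pq`. -/
structure Crs (m : ℕ) (R : Type*) where
  A : Fin m → Fin 2 → Mat R
  B : Fin m → Fin 2 → Mat R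
  C : Fin m → Fin 2 → Mat R
  P : Fin 2 → Mat R
  Q : Fin 2 → Mat R

/-- the identities of these decompositions -/
structure CrsOK (w : Arr m R) (p q : Fin m) (X : Crs m R) : Prop where
  tri : ∀ i, i ≠ p → i ≠ q → ∀ u a b d,
    L3 (w i p) (w i q) (w p q) (X.A i u) (X.B i u) (X.C i u) a b d =
      if b = 0 ∧ d = 0 then uu u a else 0
  cp : ∀ u b e, L2 (w q p) (X.P u) b e = rc u b e
  cq : ∀ u b e, L2 (w p q) (X.Q u) b e = rc u b e

/-- the identities which are used for the block `l` -/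
structure CrsL (w : Arr m R) (l p q : Fin m) (X : Crs m R) : Prop where
  tri : ∀ u a b d, L3 (w l p) (w l q) (w p q) (X.A l u) (X.B l u) (X.C l u) a b d =
    if b = 0 ∧ d = 0 then uu u a else 0
  cp : ∀ u b e, L2 (w q p) (X.P u) b e = rc u b e
  cq : ∀ u b e, L2 (w p q) (X.Q u) b e = rc u b e

/-- coefficient of `x_qe x_pa ^ 2` (for `w = w_qp`, `z = X.P u`) -/
def sq (w : Frm R) (z : Mat R) (u : Fin 2) (e a : Fin 3) : R :=
  (if e = 0 ∧ a = 0 then uu u 0 else 0) - Q2 w z e a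

/-! ### The linear system

Unknown linear map `φ : W → V`: `s i a l b` is the `x_lb` component of `φ (x_ia ^ 2)`,
`f i j c l b` that of `φ (w_ij^c)`, `g l b` that of `φ (h)`. -/

/-- coefficient of `x_ke ⊗ x_lb` in the contribution of the decomposition of `u x_p0 x_q0` -/
def XX (w : Arr m R) (p q : Fin m) (X : Crs m R) (s : Fin m → Fin 3 → Fin m → Fin 3 → R)
    (f : Fin m → Fin m → Fin 3 → Fin m → Fin 3 → R) (i : Fin m) (u : Fin 2)
    (k : Fin m) (e : Fin 3) (l : Fin m) (b : Fin 3) : R :=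
  if i = p then
    (if k = p then ∑ c, X.P u e c * f p q c l b else
      if k = q then ∑ a, sq (w q p) (X.P u) u e a * s p a l b else 0)
  else if i = q then
    (if k = q then ∑ c, X.Q u e c * f p q c l b else
      if k = p then ∑ a, sq (w p q) (X.Q u) u e a * s q a l b else 0)
  else
    (if k = i then ∑ c, X.A i u e c * f p q c l b else
      if k = p then ∑ c, X.B i u e c * f i q c l b else
      if k = q then ∑ c, X.C i u e c * f i p c l b else 0)

/-- main part for `k = i` -/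
def TA (w : Arr m R) (z : Zar m R) (S : Fin m → Mat R) (g : Fin 3 → R) (i : Fin m) (u : Fin 2)
    (e b : Fin 3) : R :=
  uu u e * g b - ∑ a, (if a = e then 0 else uu u a * S i a b) +
    ∑ j, (if j = i then 0 else ∑ c, Q2 (w i j) (z i j u) e c * S j c b)

/-- coefficient of `x_ke ⊗ x_lb` in the image of the syzygy `E_i(u)` -/
def QQ (w : Arr m R) (z : Zar m R) (ε : R) (p q : Fin m) (X : Crs m R) (p' q' : Fin m)
    (X' : Crs m R) (s : Fin m → Fin 3 → Fin m → Fin 3 → R)
    (f : Fin m → Fin m → Fin 3 → Fin m → Fin 3 → R) (g : Fin m → Fin 3 → R)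
    (i : Fin m) (u : Fin 2) (k : Fin m) (e : Fin 3) (l : Fin m) (b : Fin 3) : R :=
  (if k = i then TA w z (fun j a b => s j a l b) (g l) i u e b
    else - ∑ c, z i k u e c * f i k c l b) -
  ε * (XX w p q X s f i u k e l b + XX w p' q' X' s f i u k e l b)

/-- the coefficients of the mixed part of `h` -/
def cr (p q p' q' k l : Fin m) (e b : Fin 3) : R :=
  if e = 0 ∧ b = 0 ∧ ((k = p ∧ l = q) ∨ (k = q ∧ l = p) ∨ (k = p' ∧ l = q') ∨ (k = q' ∧ l = p'))
    then 1 else 0

/-- the linear system for `φ` -/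
def EQ (w : Arr m R) (z : Zar m R) (ε : R) (p q : Fin m) (X : Crs m R) (p' q' : Fin m)
    (X' : Crs m R) (s : Fin m → Fin 3 → Fin m → Fin 3 → R)
    (f : Fin m → Fin m → Fin 3 → Fin m → Fin 3 → R) (g : Fin m → Fin 3 → R) : Prop :=
  ∀ i u, ∃ μ : R,
    (∀ k l, k ≠ l → InSp (w k l) fun e b =>
      QQ w z ε p q X p' q' X' s f g i u k e l b + QQ w z ε p q X p' q' X' s f g i u l b k e -
        μ * (ε * cr p q p' q' k l e b)) ∧
    ∀ k e b, e ≠ b →
      QQ w z ε p q X p' q' X' s f g i u k e k b + QQ w z ε p q X p' q' X' s f g i u k b k e = μ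

/-! ### The residual systems -/

/-- the system of the class `e_a + e_b + e_c`; `F1 = f a b · c ·`, `F2 = f a c · b ·`,
`F3 = f b c · a ·` -/
structure PT (w : Arr m R) (z : Zar m R) (a b c : Fin m) (F1 F2 F3 : Mat R) : Prop where
  x : ∀ u, InSp (w b c) fun e e' => ∑ x, (z a b u e x * F1 x e' + z a c u e' x * F2 x e)
  y : ∀ u, InSp (w a c) fun e e' => ∑ x, (z b a u e x * F1 x e' + z b c u e' x * F3 x e)
  z : ∀ u, InSp (w a b) fun e e' => ∑ x, (z c a u e x * F2 x e' + z c b u e' x * F3 x e)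

/-- the unknowns of the class `e_l` together with the first order part of `e_l + e_p + e_q` -/
structure PLd (m : ℕ) (R : Type*) where
  S : Fin m → Mat R
  P : Fin m → Mat R
  g : Fin 3 → R
  μ : Fin 2 → R
  F1 : Mat R
  F2 : Mat R
  F3 : Mat R

/-- the system of the class `e_l` and, to first order, of the class `e_l + e_p + e_q` -/
structure PL (w : Arr m R) (z : Zar m R) (X : Crs m R) (l p q : Fin m) (D : PLd m R) : Prop where
  a : ∀ i, i ≠ l → ∀ u, InSp (w i l) fun e b =>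
    TA w z D.S D.g i u e b - ∑ c, z i l u b c * D.P i c e
  b : ∀ k, k ≠ l → ∀ u e b, e ≠ b →
    ∑ c, (z l k u e c * D.P k c b + z l k u b c * D.P k c e) = - D.μ u
  c : ∀ u e b, e ≠ b → TA w z D.S D.g l u e b + TA w z D.S D.g l u b e = D.μ u
  d : ∀ u, InSp (w p q) fun e b =>
    ∑ c, (z l p u e c * D.F1 c b + z l q u b c * D.F2 c e) +
    ∑ c, (X.B l u e c * D.P q c b + X.C l u b c * D.P p c e) +
    (if e = 0 ∧ b = 0 then D.μ u else 0)
  e : ∀ u, InSp (w l q) fun e b =>
    ∑ c, (z p l u e c * D.F1 c b + z p q u b c * D.F3 c e) +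
    ∑ a, sq (w q p) (X.P u) u b a * D.S p a e
  f : ∀ u, InSp (w l p) fun e b =>
    ∑ c, (z q l u e c * D.F2 c b + z q p u b c * D.F3 c e) +
    ∑ a, sq (w p q) (X.Q u) u b a * D.S q a e
  g : ∀ b, D.S l b b = 0

/-- the class `e_a + e_b + e_c` has no solution -/
def GoodT (w : Arr m R) : Prop := ∀ z, ZOK w z → ∀ a b c : Fin m, a ≠ b → a ≠ c → b ≠ c →
  ∀ F1 F2 F3, PT w z a b c F1 F2 F3 → F1 = 0 ∧ F2 = 0 ∧ F3 = 0

/-- the class `e_l` has no normalised solution which can be continued to first order -/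
def GoodL (w : Arr m R) : Prop := ∀ z, ZOK w z → ∀ l p q : Fin m, l ≠ p → l ≠ q → p ≠ q →
  ∀ X, CrsL w l p q X → ∀ D, PL w z X l p q D →
    D.S = 0 ∧ (∀ i, i ≠ l → D.P i = 0) ∧ D.g = 0 ∧ D.μ = 0 ∧ D.F1 = 0 ∧ D.F2 = 0 ∧ D.F3 = 0

/-! ### Base change -/

/-- base change of arrays -/
def Arr.map (φ : R →+* S) (w : Arr m R) : Arr m S := fun i j c a b => φ (w i j c a b)
/-- base change -/
def Zar.map (φ : R →+* S) (z : Zar m R) : Zar m S := fun i j u b c => φ (z i j u b c)
/-- base change -/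
def Crs.map (φ : R →+* S) (X : Crs m R) : Crs m S :=
  ⟨fun i u a c => φ (X.A i u a c), fun i u a c => φ (X.B i u a c), fun i u a c => φ (X.C i u a c),
    fun u a c => φ (X.P u a c), fun u a c => φ (X.Q u a c)⟩

end Ring

/-! ### The spaces of functionals -/

section Space

variable {K : Type*} [Field K] {m : ℕ}

/-- value of `h` -/
def hv (ε : K) (p q p' q' : Fin m) (F : Fin m × Fin 3 → Fin m × Fin 3 → K) : K :=
  ∑ i, (F (i, 0) (i, 1) + F (i, 0) (i, 2) + F (i, 1) (i, 2)) +
    ε * (F (p, 0) (q, 0) + F (p', 0) (q', 0))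

/-- the annihilator of `W` -/
def Fsp (w : Arr m K) (ε : K) (p q p' q' : Fin m) :
    Submodule K (Fin m × Fin 3 → Fin m × Fin 3 → K) where
  carrier := {F | (∀ x y, F x y = F y x) ∧ (∀ x, F x x = 0) ∧
    (∀ i j, i ≠ j → ∀ c, ∑ a, ∑ b, w i j c a b * F (i, a) (j, b) = 0) ∧ hv ε p q p' q' F = 0}
  add_mem' := by
    rintro F G ⟨h1, h2, h3, h4⟩ ⟨g1, g2, g3, g4⟩
    refine ⟨fun x y => by simp [h1 x y, g1 x y], fun x => by simp [h2, g2], fun i j hij c => ?_, ?_⟩
    · simp only [Pi.add_apply, mul_add, Finset.sum_add_distrib, h3 i j hij c, g3 i j hij c,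
        add_zero]
    · have : hv ε p q p' q' (F + G) = hv ε p q p' q' F + hv ε p q p' q' G := by
        simp only [hv, Pi.add_apply, Finset.sum_add_distrib]
        ring
      rw [this, h4, g4, add_zero]
  zero_mem' := by
    refine ⟨fun x y => rfl, fun x => rfl, fun i j hij c => by simp, by simp [hv]⟩
  smul_mem' := by
    rintro c F ⟨h1, h2, h3, h4⟩
    refine ⟨fun x y => by simp [h1 x y], fun x => by simp [h2], fun i j hij d => ?_, ?_⟩
    · simp only [Pi.smul_apply, smul_eq_mul, mul_left_comm _ c, ← Finset.mul_sum, h3 i j hij d,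
        mul_zero]
    · have : hv ε p q p' q' (c • F) = c * hv ε p q p' q' F := by
        simp only [hv, Pi.smul_apply, smul_eq_mul, mul_add, Finset.mul_sum, mul_left_comm _ c]
      rw [this, h4, mul_zero]

/-- values on the squares -/
def sOf (lam : Fin m × Fin 3 → Fin m × Fin 3 → Fin m × Fin 3 → K) (i : Fin m) (a : Fin 3)
    (l : Fin m) (b : Fin 3) : K := lam (l, b) (i, a) (i, a)
/-- values on the forms -/
def fOf (w : Arr m K) (lam : Fin m × Fin 3 → Fin m × Fin 3 → Fin m × Fin 3 → K) (i j : Fin m)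
    (c : Fin 3) (l : Fin m) (b : Fin 3) : K := ∑ a, ∑ a', w i j c a a' * lam (l, b) (i, a) (j, a')
/-- value on `h` -/
def gOf (ε : K) (p q p' q' : Fin m) (lam : Fin m × Fin 3 → Fin m × Fin 3 → Fin m × Fin 3 → K)
    (l : Fin m) (b : Fin 3) : K := hv ε p q p' q' (lam (l, b))

end Space

/-! ### Places -/

/-- a place of `K` -/
structure Place (K κ : Type*) [Field K] [Field κ] where
  B : ValuationSubring K
  r : B →+* κ
  nu : ∀ b : B, ¬ IsUnit b → r b = 0

universe u

/-- the forms `w` specialise to all the families of forms over `k` -/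
def Generic {m : ℕ} (k κ : Type u) [Field k] [Field κ] (w : Arr m κ) : Prop :=
  WSym w ∧ ∀ v : Arr m k, WSym v →
    ∃ (κ' : Type u) (_ : Field κ') (P : Place κ κ') (ι : k →+* κ'),
      ∀ i j c a b, ∃ h : w i j c a b ∈ P.B, P.r ⟨_, h⟩ = ι (v i j c a b)

end Pool.Agent.VCT
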