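import Pool.Agent.VCT.Targets

/-!
# The special forms: pairs and triples of blocks
-/

set_option autoImplicit false

namespace Pool.Agent.VCT

namespace SP_

section

variable {R : Type*} [CommRing R]

/-- decomposition coefficients -/
def Z01 (R : Type*) [CommRing R] : Fin 2 → Mat R :=
  ![![![1, 0, 1], ![0, 0, 0], ![0, 1, 1]],
    ![![-1, 2, -1], ![-1, 1, -1], ![0, 0, 0]]]

/-- decomposition coefficients -/
def Z10 (R : Type*) [CommRing R] : Fin 2 → Mat R :=
  ![![![0, 0, 0], ![0, -1, 1], ![1, -2, 1]],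
    ![![1, -1, -1], ![0, 0, 0], ![1, 0, -1]]]

/-- decomposition coefficients -/
def Z02 (R : Type*) [CommRing R] : Fin 2 → Mat R :=
  ![![![0, -1, 1], ![0, 0, 0], ![-1, -1, 1]],
    ![![0, 3, 0], ![-1, 1, 2], ![2, 1, -1]]]

/-- decomposition coefficients -/
def Z20 (R : Type*) [CommRing R] : Fin 2 → Mat R :=
  ![![![1, -1, -1], ![0, 0, 0], ![0, -1, -1]],
    ![![0, 3, 0], ![1, 1, -2], ![1, 1, 1]]]

/-- decomposition coefficients -/
def Z12 (R : Type*) [CommRing R] : Fin 2 → Mat R :=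
  ![![![1, -1, 1], ![0, 0, 0], ![2, -1, 1]],
    ![![0, 1, 0], ![1, 1, 0], ![-1, 1, -1]]]

/-- decomposition coefficients -/
def Z21 (R : Type*) [CommRing R] : Fin 2 → Mat R :=
  ![![![-2, -1, -1], ![0, 0, 0], ![-1, -1, -1]],
    ![![0, 1, 0], ![-1, 1, 0], ![0, 1, 1]]]

/-- decomposition coefficients -/
def Zlo (R : Type*) [CommRing R] : Fin 2 → Mat R :=
  ![![![1, 0, 0], ![1, 1, 0], ![0, 0, 0]],
    ![![0, 0, 0], ![1, 1, 0], ![0, 1, 0]]]

/-- decomposition coefficients -/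
def Zol (R : Type*) [CommRing R] : Fin 2 → Mat R :=
  ![![![-3, -1, 2], ![-5, 0, 2], ![0, 1, 0]],
    ![![1, 0, 0], ![2, -1, -2], ![1, 1, -2]]]

/-- coefficients `X.P` -/
def ZP (R : Type*) [CommRing R] : Fin 2 → Mat R :=
  ![![![1, 0, 1], ![0, 0, 0], ![0, 0, 0]],
    ![![0, 0, -1], ![0, 0, 0], ![0, 0, 0]]]

/-- coefficients `X.Q` -/
def ZQ (R : Type*) [CommRing R] : Fin 2 → Mat R :=
  ![![![0, 0, -1], ![0, 0, 0], ![0, 0, 0]],
    ![![-1, 0, 1], ![0, 0, 0], ![0, 0, 0]]]

/-- coefficients `X.A` -/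
def ZA (R : Type*) [CommRing R] : Fin 2 → Mat R :=
  ![![![-1, 0, -1], ![0, 0, -1], ![1, 0, 0]],
    ![![1, 0, 1], ![0, 0, 0], ![0, 0, 0]]]

/-- coefficients `X.B` -/
def ZB (R : Type*) [CommRing R] : Fin 2 → Mat R :=
  ![![![0, 1, 1], ![0, 0, 0], ![0, 0, 0]],
    ![![0, 0, -1], ![0, 0, 0], ![0, 0, 0]]]

/-- coefficients `X.C` -/
def ZC (R : Type*) [CommRing R] : Fin 2 → Mat R :=
  ![![![-1, 0, 1], ![0, 0, 0], ![0, 0, 0]],
    ![![0, 1, 0], ![0, 0, 0], ![0, 0, 0]]]

theorem L2_01 (z : Mat R) (a e : Fin 3) : L2 (w01 R) z a e =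
    (![![z 2 0 + z 2 1, z 2 2, z 0 0 + z 0 1 + z 1 2],
      ![-z 1 0 - z 2 2, -z 0 0, -z 0 2],
      ![z 1 2, z 0 2 - z 2 1, -z 1 1]] : Mat R) a e := by
  fin_cases a <;> fin_cases e <;> simp [L2, w01, Fin.sum_univ_three] <;> ring

theorem L2_10 (z : Mat R) (a e : Fin 3) : L2 (tr (w01 R)) z a e =
    (![![-z 1 1, -z 0 1 + z 2 2, z 1 2],
      ![-z 2 2, z 2 0 + z 2 1, -z 0 2 + z 1 0 + z 1 1],
      ![z 1 2 - z 2 0, z 0 2, -z 0 0]] : Mat R) a e := by
  fin_cases a <;> fin_cases e <;> simp [L2, tr, w01, Fin.sum_univ_three] <;> ring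

theorem L2_02 (z : Mat R) (a e : Fin 3) : L2 (w02 R) z a e =
    (![![z 1 0 + z 1 2 + z 2 2, z 0 0 + z 0 2, z 0 2],
      ![z 2 1, -z 2 2, z 0 1 - z 1 2],
      ![-z 1 1, -z 0 1 + z 2 0, z 1 0]] : Mat R) a e := by
  fin_cases a <;> fin_cases e <;> simp [L2, w02, Fin.sum_univ_three] <;> ring

theorem L2_20 (z : Mat R) (a e : Fin 3) : L2 (tr (w02 R)) z a e =
    (![![z 1 0 - z 2 2, z 0 0, -z 0 2],
      ![z 2 1, z 2 2, z 0 1 + z 1 2],
      ![-z 1 1, -z 0 1 + z 2 0 + z 2 2, z 1 0 + z 1 2]] : Mat R) a e := by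
  fin_cases a <;> fin_cases e <;> simp [L2, tr, w02, Fin.sum_univ_three] <;> ring

theorem L2_12 (z : Mat R) (a e : Fin 3) : L2 (w12 R) z a e =
    (![![z 1 0 + z 2 2, z 0 0, z 0 2],
      ![z 2 1, -z 2 2, z 0 1 - z 1 2],
      ![-z 1 1, -z 0 1 - z 2 0 + z 2 2, -z 1 0 + z 1 2]] : Mat R) a e := by
  fin_cases a <;> fin_cases e <;> simp [L2, w12, Fin.sum_univ_three] <;> ring

theorem L2_21 (z : Mat R) (a e : Fin 3) : L2 (tr (w12 R)) z a e =
    (![![-z 1 0 + z 1 2 - z 2 2, -z 0 0 + z 0 2, -z 0 2],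
      ![z 2 1, z 2 2, z 0 1 + z 1 2],
      ![-z 1 1, -z 0 1 + z 2 0, z 1 0]] : Mat R) a e := by
  fin_cases a <;> fin_cases e <;> simp [L2, tr, w12, Fin.sum_univ_three] <;> ring

theorem L2_lo (z : Mat R) (a e : Fin 3) : L2 (wlo R) z a e =
    (![![z 1 0 + z 1 2 + z 2 0 - z 2 1, z 0 0 + z 0 2, z 0 0 - z 0 1],
      ![-z 1 0 - 2 * z 2 0 + 2 * z 2 1, -z 0 0 + z 2 1 + z 2 2, -2 * z 0 0 + 2 * z 0 1 + z 1 1 +
          z 1 2],
      ![z 2 0 - z 2 1 + z 2 2, -z 2 1, z 0 0 - z 0 1 + z 0 2 - z 1 1]] : Mat R) a e := by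
  fin_cases a <;> fin_cases e <;> simp [L2, wlo, Fin.sum_univ_three] <;> ring

theorem L2_ol (z : Mat R) (a e : Fin 3) : L2 (tr (wlo R)) z a e =
    (![![-z 1 1 + z 2 1 + z 2 2, -z 0 1, z 0 1 + z 0 2],
      ![z 1 0 - z 1 1 + z 1 2 - 2 * z 2 0 + 2 * z 2 1, z 0 0 - z 0 1 + z 0 2 + z 2 0 - z 2 1, -2
          * z 0 0 + 2 * z 0 1 + z 1 0 - z 1 1],
      ![-z 2 0, z 2 0 + z 2 2, -z 0 0 + z 1 0 + z 1 2]] : Mat R) a e := by
  fin_cases a <;> fin_cases e <;> simp [L2, tr, wlo, Fin.sum_univ_three] <;> ring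

theorem L3_e (A B C : Mat R) (a b d : Fin 3) : L3 (w01 R) (w02 R) (w12 R) A B C a b d =
    (![![![C 0 2,
        A 0 2 + B 0 2 + C 1 2,
        A 0 0 + B 0 0 + B 0 2 + C 2 2],
      ![-A 0 2 + C 0 0 + C 0 1,
        A 0 1 + B 1 2 + C 1 0 + C 1 1,
        B 1 0 + B 1 2 + C 2 0 + C 2 1],
      ![-A 0 0 + A 0 2,
        B 2 2,
        -A 0 1 + B 2 0 + B 2 2]],
      ![![-B 0 2,
        A 1 2 + B 0 1,
        A 1 0],
      ![-A 1 2 - B 1 2 - C 0 2,
        A 1 1 + B 1 1 - C 1 2,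
        -C 2 2],
      ![-A 1 0 + A 1 2 - B 2 2 - C 0 0,
        B 2 1 - C 1 0,
        -A 1 1 - C 2 0]],
      ![![B 0 0 - C 0 1,
        A 2 2 - C 1 1,
        A 2 0 - B 0 1 - C 2 1],
      ![-A 2 2 + B 1 0,
        A 2 1,
        -B 1 1],
      ![-A 2 0 + A 2 2 + B 2 0 + C 0 2,
        C 1 2,
        -A 2 1 - B 2 1 + C 2 2]]] : Fin 3 → Mat R) a b d := by
  fin_cases a <;> fin_cases b <;> fin_cases d <;>
    simp [L3, w01, w02, w12, Fin.sum_univ_three] <;> ring

end

section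

variable {κ : Type*} [Field κ]

theorem d2_01 : D2 (w01 κ) := by
  intro z h
  have h00 : z 2 0 + z 2 1 = 0 := (L2_01 z 0 0).symm.trans (h 0 0)
  have h01 : z 2 2 = 0 := (L2_01 z 0 1).symm.trans (h 0 1)
  have h02 : z 0 0 + z 0 1 + z 1 2 = 0 := (L2_01 z 0 2).symm.trans (h 0 2)
  have h10 : -z 1 0 - z 2 2 = 0 := (L2_01 z 1 0).symm.trans (h 1 0)
  have h11 : -z 0 0 = 0 := (L2_01 z 1 1).symm.trans (h 1 1)
  have h12 : -z 0 2 = 0 := (L2_01 z 1 2).symm.trans (h 1 2)
  have h20 : z 1 2 = 0 := (L2_01 z 2 0).symm.trans (h 2 0)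
  have h21 : z 0 2 - z 2 1 = 0 := (L2_01 z 2 1).symm.trans (h 2 1)
  have h22 : -z 1 1 = 0 := (L2_01 z 2 2).symm.trans (h 2 2)
  have z00 : z 0 0 = 0 := by
    linear_combination -h11
  have z01 : z 0 1 = 0 := by
    linear_combination h02 + h11 - h20
  have z02 : z 0 2 = 0 := by
    linear_combination -h12
  have z10 : z 1 0 = 0 := by
    linear_combination -h01 - h10
  have z11 : z 1 1 = 0 := by
    linear_combination -h22
  have z12 : z 1 2 = 0 := by
    linear_combination h20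
  have z20 : z 2 0 = 0 := by
    linear_combination h00 + h12 + h21
  have z21 : z 2 1 = 0 := by
    linear_combination -h12 - h21
  have z22 : z 2 2 = 0 := by
    linear_combination h01
  funext b c
  fin_cases b <;> fin_cases c
  all_goals first
    | exact z00
    | exact z01
    | exact z02
    | exact z10
    | exact z11
    | exact z12
    | exact z20
    | exact z21
    | exact z22

theorem d2_10 : D2 (tr (w01 κ)) := by
  intro z h
  have h00 : -z 1 1 = 0 := (L2_10 z 0 0).symm.trans (h 0 0)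
  have h01 : -z 0 1 + z 2 2 = 0 := (L2_10 z 0 1).symm.trans (h 0 1)
  have h02 : z 1 2 = 0 := (L2_10 z 0 2).symm.trans (h 0 2)
  have h10 : -z 2 2 = 0 := (L2_10 z 1 0).symm.trans (h 1 0)
  have h11 : z 2 0 + z 2 1 = 0 := (L2_10 z 1 1).symm.trans (h 1 1)
  have h12 : -z 0 2 + z 1 0 + z 1 1 = 0 := (L2_10 z 1 2).symm.trans (h 1 2)
  have h20 : z 1 2 - z 2 0 = 0 := (L2_10 z 2 0).symm.trans (h 2 0)
  have h21 : z 0 2 = 0 := (L2_10 z 2 1).symm.trans (h 2 1)
  have h22 : -z 0 0 = 0 := (L2_10 z 2 2).symm.trans (h 2 2)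
  have z00 : z 0 0 = 0 := by
    linear_combination -h22
  have z01 : z 0 1 = 0 := by
    linear_combination -h01 - h10
  have z02 : z 0 2 = 0 := by
    linear_combination h21
  have z10 : z 1 0 = 0 := by
    linear_combination h00 + h12 + h21
  have z11 : z 1 1 = 0 := by
    linear_combination -h00
  have z12 : z 1 2 = 0 := by
    linear_combination h02
  have z20 : z 2 0 = 0 := by
    linear_combination h02 - h20
  have z21 : z 2 1 = 0 := by
    linear_combination -h02 + h11 + h20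
  have z22 : z 2 2 = 0 := by
    linear_combination -h10
  funext b c
  fin_cases b <;> fin_cases c
  all_goals first
    | exact z00
    | exact z01
    | exact z02
    | exact z10
    | exact z11
    | exact z12
    | exact z20
    | exact z21
    | exact z22

theorem d2_02 : D2 (w02 κ) := by
  intro z h
  have h00 : z 1 0 + z 1 2 + z 2 2 = 0 := (L2_02 z 0 0).symm.trans (h 0 0)
  have h01 : z 0 0 + z 0 2 = 0 := (L2_02 z 0 1).symm.trans (h 0 1)
  have h02 : z 0 2 = 0 := (L2_02 z 0 2).symm.trans (h 0 2)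
  have h10 : z 2 1 = 0 := (L2_02 z 1 0).symm.trans (h 1 0)
  have h11 : -z 2 2 = 0 := (L2_02 z 1 1).symm.trans (h 1 1)
  have h12 : z 0 1 - z 1 2 = 0 := (L2_02 z 1 2).symm.trans (h 1 2)
  have h20 : -z 1 1 = 0 := (L2_02 z 2 0).symm.trans (h 2 0)
  have h21 : -z 0 1 + z 2 0 = 0 := (L2_02 z 2 1).symm.trans (h 2 1)
  have h22 : z 1 0 = 0 := (L2_02 z 2 2).symm.trans (h 2 2)
  have z00 : z 0 0 = 0 := by
    linear_combination h01 - h02
  have z01 : z 0 1 = 0 := by
    linear_combination h00 + h11 + h12 - h22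
  have z02 : z 0 2 = 0 := by
    linear_combination h02
  have z10 : z 1 0 = 0 := by
    linear_combination h22
  have z11 : z 1 1 = 0 := by
    linear_combination -h20
  have z12 : z 1 2 = 0 := by
    linear_combination h00 + h11 - h22
  have z20 : z 2 0 = 0 := by
    linear_combination h00 + h11 + h12 + h21 - h22
  have z21 : z 2 1 = 0 := by
    linear_combination h10
  have z22 : z 2 2 = 0 := by
    linear_combination -h11
  funext b c
  fin_cases b <;> fin_cases c
  all_goals first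
    | exact z00
    | exact z01
    | exact z02
    | exact z10
    | exact z11
    | exact z12
    | exact z20
    | exact z21
    | exact z22

theorem d2_20 : D2 (tr (w02 κ)) := by
  intro z h
  have h00 : z 1 0 - z 2 2 = 0 := (L2_20 z 0 0).symm.trans (h 0 0)
  have h01 : z 0 0 = 0 := (L2_20 z 0 1).symm.trans (h 0 1)
  have h02 : -z 0 2 = 0 := (L2_20 z 0 2).symm.trans (h 0 2)
  have h10 : z 2 1 = 0 := (L2_20 z 1 0).symm.trans (h 1 0)
  have h11 : z 2 2 = 0 := (L2_20 z 1 1).symm.trans (h 1 1)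
  have h12 : z 0 1 + z 1 2 = 0 := (L2_20 z 1 2).symm.trans (h 1 2)
  have h20 : -z 1 1 = 0 := (L2_20 z 2 0).symm.trans (h 2 0)
  have h21 : -z 0 1 + z 2 0 + z 2 2 = 0 := (L2_20 z 2 1).symm.trans (h 2 1)
  have h22 : z 1 0 + z 1 2 = 0 := (L2_20 z 2 2).symm.trans (h 2 2)
  have z00 : z 0 0 = 0 := by
    linear_combination h01
  have z01 : z 0 1 = 0 := by
    linear_combination h00 + h11 + h12 - h22
  have z02 : z 0 2 = 0 := by
    linear_combination -h02
  have z10 : z 1 0 = 0 := by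
    linear_combination h00 + h11
  have z11 : z 1 1 = 0 := by
    linear_combination -h20
  have z12 : z 1 2 = 0 := by
    linear_combination -h00 - h11 + h22
  have z20 : z 2 0 = 0 := by
    linear_combination h00 + h12 + h21 - h22
  have z21 : z 2 1 = 0 := by
    linear_combination h10
  have z22 : z 2 2 = 0 := by
    linear_combination h11
  funext b c
  fin_cases b <;> fin_cases c
  all_goals first
    | exact z00
    | exact z01
    | exact z02
    | exact z10
    | exact z11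
    | exact z12
    | exact z20
    | exact z21
    | exact z22

theorem d2_12 : D2 (w12 κ) := by
  intro z h
  have h00 : z 1 0 + z 2 2 = 0 := (L2_12 z 0 0).symm.trans (h 0 0)
  have h01 : z 0 0 = 0 := (L2_12 z 0 1).symm.trans (h 0 1)
  have h02 : z 0 2 = 0 := (L2_12 z 0 2).symm.trans (h 0 2)
  have h10 : z 2 1 = 0 := (L2_12 z 1 0).symm.trans (h 1 0)
  have h11 : -z 2 2 = 0 := (L2_12 z 1 1).symm.trans (h 1 1)
  have h12 : z 0 1 - z 1 2 = 0 := (L2_12 z 1 2).symm.trans (h 1 2)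
  have h20 : -z 1 1 = 0 := (L2_12 z 2 0).symm.trans (h 2 0)
  have h21 : -z 0 1 - z 2 0 + z 2 2 = 0 := (L2_12 z 2 1).symm.trans (h 2 1)
  have h22 : -z 1 0 + z 1 2 = 0 := (L2_12 z 2 2).symm.trans (h 2 2)
  have z00 : z 0 0 = 0 := by
    linear_combination h01
  have z01 : z 0 1 = 0 := by
    linear_combination h00 + h11 + h12 + h22
  have z02 : z 0 2 = 0 := by
    linear_combination h02
  have z10 : z 1 0 = 0 := by
    linear_combination h00 + h11
  have z11 : z 1 1 = 0 := by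
    linear_combination -h20
  have z12 : z 1 2 = 0 := by
    linear_combination h00 + h11 + h22
  have z20 : z 2 0 = 0 := by
    linear_combination -h00 - 2 * h11 - h12 - h21 - h22
  have z21 : z 2 1 = 0 := by
    linear_combination h10
  have z22 : z 2 2 = 0 := by
    linear_combination -h11
  funext b c
  fin_cases b <;> fin_cases c
  all_goals first
    | exact z00
    | exact z01
    | exact z02
    | exact z10
    | exact z11
    | exact z12
    | exact z20
    | exact z21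
    | exact z22

theorem d2_21 : D2 (tr (w12 κ)) := by
  intro z h
  have h00 : -z 1 0 + z 1 2 - z 2 2 = 0 := (L2_21 z 0 0).symm.trans (h 0 0)
  have h01 : -z 0 0 + z 0 2 = 0 := (L2_21 z 0 1).symm.trans (h 0 1)
  have h02 : -z 0 2 = 0 := (L2_21 z 0 2).symm.trans (h 0 2)
  have h10 : z 2 1 = 0 := (L2_21 z 1 0).symm.trans (h 1 0)
  have h11 : z 2 2 = 0 := (L2_21 z 1 1).symm.trans (h 1 1)
  have h12 : z 0 1 + z 1 2 = 0 := (L2_21 z 1 2).symm.trans (h 1 2)
  have h20 : -z 1 1 = 0 := (L2_21 z 2 0).symm.trans (h 2 0)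
  have h21 : -z 0 1 + z 2 0 = 0 := (L2_21 z 2 1).symm.trans (h 2 1)
  have h22 : z 1 0 = 0 := (L2_21 z 2 2).symm.trans (h 2 2)
  have z00 : z 0 0 = 0 := by
    linear_combination -h01 - h02
  have z01 : z 0 1 = 0 := by
    linear_combination -h00 - h11 + h12 - h22
  have z02 : z 0 2 = 0 := by
    linear_combination -h02
  have z10 : z 1 0 = 0 := by
    linear_combination h22
  have z11 : z 1 1 = 0 := by
    linear_combination -h20
  have z12 : z 1 2 = 0 := by
    linear_combination h00 + h11 + h22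
  have z20 : z 2 0 = 0 := by
    linear_combination -h00 - h11 + h12 + h21 - h22
  have z21 : z 2 1 = 0 := by
    linear_combination h10
  have z22 : z 2 2 = 0 := by
    linear_combination h11
  funext b c
  fin_cases b <;> fin_cases c
  all_goals first
    | exact z00
    | exact z01
    | exact z02
    | exact z10
    | exact z11
    | exact z12
    | exact z20
    | exact z21
    | exact z22

theorem d2_lo [CharZero κ] : D2 (wlo κ) := by
  intro z h
  have h00 : z 1 0 + z 1 2 + z 2 0 - z 2 1 = 0 := (L2_lo z 0 0).symm.trans (h 0 0)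
  have h01 : z 0 0 + z 0 2 = 0 := (L2_lo z 0 1).symm.trans (h 0 1)
  have h02 : z 0 0 - z 0 1 = 0 := (L2_lo z 0 2).symm.trans (h 0 2)
  have h10 : -z 1 0 - 2 * z 2 0 + 2 * z 2 1 = 0 := (L2_lo z 1 0).symm.trans (h 1 0)
  have h11 : -z 0 0 + z 2 1 + z 2 2 = 0 := (L2_lo z 1 1).symm.trans (h 1 1)
  have h12 : -2 * z 0 0 + 2 * z 0 1 + z 1 1 + z 1 2 = 0 := (L2_lo z 1 2).symm.trans (h 1 2)
  have h20 : z 2 0 - z 2 1 + z 2 2 = 0 := (L2_lo z 2 0).symm.trans (h 2 0)
  have h21 : -z 2 1 = 0 := (L2_lo z 2 1).symm.trans (h 2 1)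
  have h22 : z 0 0 - z 0 1 + z 0 2 - z 1 1 = 0 := (L2_lo z 2 2).symm.trans (h 2 2)
  have z00 : z 0 0 = 0 := by
    linear_combination (1 / 2) * h00 + (1 / 2) * h01 - (1 / 2) * h02 + (1 / 2) * h10 - (1 / 2) *
        h11 - (1 / 2) *
      h12 + (1 / 2) * h20 - (1 / 2) * h21 - (1 / 2) * h22
  have z01 : z 0 1 = 0 := by
    linear_combination (1 / 2) * h00 + (1 / 2) * h01 - (3 / 2) * h02 + (1 / 2) * h10 - (1 / 2) *
        h11 - (1 / 2) *
      h12 + (1 / 2) * h20 - (1 / 2) * h21 - (1 / 2) * h22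
  have z02 : z 0 2 = 0 := by
    linear_combination -(1 / 2) * h00 + (1 / 2) * h01 + (1 / 2) * h02 - (1 / 2) * h10 + (1 / 2) *
        h11 + (1 / 2) *
      h12 - (1 / 2) * h20 + (1 / 2) * h21 + (1 / 2) * h22
  have z10 : z 1 0 = 0 := by
    linear_combination h00 + h01 - h02 + h11 - h12 - h20 + h21 - h22
  have z11 : z 1 1 = 0 := by
    linear_combination -(1 / 2) * h00 + (1 / 2) * h01 + (3 / 2) * h02 - (1 / 2) * h10 + (1 / 2) *
        h11 + (1 / 2) *
      h12 - (1 / 2) * h20 + (1 / 2) * h21 - (1 / 2) * h22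
  have z12 : z 1 2 = 0 := by
    linear_combination (1 / 2) * h00 - (1 / 2) * h01 + (1 / 2) * h02 + (1 / 2) * h10 - (1 / 2) *
        h11 + (1 / 2) *
      h12 + (1 / 2) * h20 - (1 / 2) * h21 + (1 / 2) * h22
  have z20 : z 2 0 = 0 := by
    linear_combination -(1 / 2) * h00 - (1 / 2) * h01 + (1 / 2) * h02 - (1 / 2) * h10 - (1 / 2) *
        h11 + (1 / 2) *
      h12 + (1 / 2) * h20 - (3 / 2) * h21 + (1 / 2) * h22
  have z21 : z 2 1 = 0 := by
    linear_combination -h21
  have z22 : z 2 2 = 0 := by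
    linear_combination (1 / 2) * h00 + (1 / 2) * h01 - (1 / 2) * h02 + (1 / 2) * h10 + (1 / 2) *
        h11 - (1 / 2) *
      h12 + (1 / 2) * h20 + (1 / 2) * h21 - (1 / 2) * h22
  funext b c
  fin_cases b <;> fin_cases c
  all_goals first
    | exact z00
    | exact z01
    | exact z02
    | exact z10
    | exact z11
    | exact z12
    | exact z20
    | exact z21
    | exact z22

theorem d2_ol [CharZero κ] : D2 (tr (wlo κ)) := by
  intro z h
  have h00 : -z 1 1 + z 2 1 + z 2 2 = 0 := (L2_ol z 0 0).symm.trans (h 0 0)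
  have h01 : -z 0 1 = 0 := (L2_ol z 0 1).symm.trans (h 0 1)
  have h02 : z 0 1 + z 0 2 = 0 := (L2_ol z 0 2).symm.trans (h 0 2)
  have h10 : z 1 0 - z 1 1 + z 1 2 - 2 * z 2 0 + 2 * z 2 1 = 0 := (L2_ol z 1 0).symm.trans (h 1 0)
  have h11 : z 0 0 - z 0 1 + z 0 2 + z 2 0 - z 2 1 = 0 := (L2_ol z 1 1).symm.trans (h 1 1)
  have h12 : -2 * z 0 0 + 2 * z 0 1 + z 1 0 - z 1 1 = 0 := (L2_ol z 1 2).symm.trans (h 1 2)
  have h20 : -z 2 0 = 0 := (L2_ol z 2 0).symm.trans (h 2 0)
  have h21 : z 2 0 + z 2 2 = 0 := (L2_ol z 2 1).symm.trans (h 2 1)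
  have h22 : -z 0 0 + z 1 0 + z 1 2 = 0 := (L2_ol z 2 2).symm.trans (h 2 2)
  have z00 : z 0 0 = 0 := by
    linear_combination -(1 / 2) * h00 - h01 - (1 / 2) * h02 + (1 / 2) * h10 + (1 / 2) * h11 + (1
        / 2) * h21 - (1 /
      2) * h22
  have z01 : z 0 1 = 0 := by
    linear_combination -h01
  have z02 : z 0 2 = 0 := by
    linear_combination h01 + h02
  have z10 : z 1 0 = 0 := by
    linear_combination -(5 / 2) * h00 + h01 - (1 / 2) * h02 + (3 / 2) * h10 + (1 / 2) * h11 + h12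
        + (5 / 2) * h21 -
      (3 / 2) * h22
  have z11 : z 1 1 = 0 := by
    linear_combination -(3 / 2) * h00 + h01 + (1 / 2) * h02 + (1 / 2) * h10 - (1 / 2) * h11 + (3
        / 2) * h21 - (1 /
      2) * h22
  have z12 : z 1 2 = 0 := by
    linear_combination 2 * h00 - 2 * h01 - h10 - h12 - 2 * h21 + 2 * h22
  have z20 : z 2 0 = 0 := by
    linear_combination -h20
  have z21 : z 2 1 = 0 := by
    linear_combination -(1 / 2) * h00 + h01 + (1 / 2) * h02 + (1 / 2) * h10 - (1 / 2) * h11 - h20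
        + (1 / 2) * h21 -
      (1 / 2) * h22
  have z22 : z 2 2 = 0 := by
    linear_combination h20 + h21
  funext b c
  fin_cases b <;> fin_cases c
  all_goals first
    | exact z00
    | exact z01
    | exact z02
    | exact z10
    | exact z11
    | exact z12
    | exact z20
    | exact z21
    | exact z22

theorem d3 : D3 (w01 κ) (w02 κ) (w12 κ) := by
  intro A B C h
  have h000 : C 0 2 = 0 :=
    (L3_e A B C 0 0 0).symm.trans (h 0 0 0)
  have h001 : A 0 2 + B 0 2 + C 1 2 = 0 :=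
    (L3_e A B C 0 0 1).symm.trans (h 0 0 1)
  have h002 : A 0 0 + B 0 0 + B 0 2 + C 2 2 = 0 :=
    (L3_e A B C 0 0 2).symm.trans (h 0 0 2)
  have h010 : -A 0 2 + C 0 0 + C 0 1 = 0 :=
    (L3_e A B C 0 1 0).symm.trans (h 0 1 0)
  have h011 : A 0 1 + B 1 2 + C 1 0 + C 1 1 = 0 :=
    (L3_e A B C 0 1 1).symm.trans (h 0 1 1)
  have h012 : B 1 0 + B 1 2 + C 2 0 + C 2 1 = 0 :=
    (L3_e A B C 0 1 2).symm.trans (h 0 1 2)
  have h020 : -A 0 0 + A 0 2 = 0 :=
    (L3_e A B C 0 2 0).symm.trans (h 0 2 0)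
  have h021 : B 2 2 = 0 :=
    (L3_e A B C 0 2 1).symm.trans (h 0 2 1)
  have h022 : -A 0 1 + B 2 0 + B 2 2 = 0 :=
    (L3_e A B C 0 2 2).symm.trans (h 0 2 2)
  have h100 : -B 0 2 = 0 :=
    (L3_e A B C 1 0 0).symm.trans (h 1 0 0)
  have h101 : A 1 2 + B 0 1 = 0 :=
    (L3_e A B C 1 0 1).symm.trans (h 1 0 1)
  have h102 : A 1 0 = 0 :=
    (L3_e A B C 1 0 2).symm.trans (h 1 0 2)
  have h110 : -A 1 2 - B 1 2 - C 0 2 = 0 :=
    (L3_e A B C 1 1 0).symm.trans (h 1 1 0)
  have h111 : A 1 1 + B 1 1 - C 1 2 = 0 :=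
    (L3_e A B C 1 1 1).symm.trans (h 1 1 1)
  have h112 : -C 2 2 = 0 :=
    (L3_e A B C 1 1 2).symm.trans (h 1 1 2)
  have h120 : -A 1 0 + A 1 2 - B 2 2 - C 0 0 = 0 :=
    (L3_e A B C 1 2 0).symm.trans (h 1 2 0)
  have h121 : B 2 1 - C 1 0 = 0 :=
    (L3_e A B C 1 2 1).symm.trans (h 1 2 1)
  have h122 : -A 1 1 - C 2 0 = 0 :=
    (L3_e A B C 1 2 2).symm.trans (h 1 2 2)
  have h200 : B 0 0 - C 0 1 = 0 :=
    (L3_e A B C 2 0 0).symm.trans (h 2 0 0)
  have h201 : A 2 2 - C 1 1 = 0 :=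
    (L3_e A B C 2 0 1).symm.trans (h 2 0 1)
  have h202 : A 2 0 - B 0 1 - C 2 1 = 0 :=
    (L3_e A B C 2 0 2).symm.trans (h 2 0 2)
  have h210 : -A 2 2 + B 1 0 = 0 :=
    (L3_e A B C 2 1 0).symm.trans (h 2 1 0)
  have h211 : A 2 1 = 0 :=
    (L3_e A B C 2 1 1).symm.trans (h 2 1 1)
  have h212 : -B 1 1 = 0 :=
    (L3_e A B C 2 1 2).symm.trans (h 2 1 2)
  have h220 : -A 2 0 + A 2 2 + B 2 0 + C 0 2 = 0 :=
    (L3_e A B C 2 2 0).symm.trans (h 2 2 0)
  have h221 : C 1 2 = 0 :=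
    (L3_e A B C 2 2 1).symm.trans (h 2 2 1)
  have h222 : -A 2 1 - B 2 1 + C 2 2 = 0 :=
    (L3_e A B C 2 2 2).symm.trans (h 2 2 2)
  have a00 : A 0 0 = 0 := by
    linear_combination h001 - h020 + h100 - h221
  have a01 : A 0 1 = 0 := by
    linear_combination 2 * h000 + 4 * h001 - 2 * h002 + 2 * h010 + 2 * h011 - h012 - 2 * h020 +
        h021 + h022 + 2 *
      h100 - h101 + 2 * h102 + h110 - h111 + 2 * h120 + 2 * h121 - h122 + 2 * h200 + 2 * h201 -
      h202 + h210 + 2 * h211 - h212 - h220 - 5 * h221 + 2 * h222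
  have a02 : A 0 2 = 0 := by
    linear_combination h001 + h100 - h221
  have a10 : A 1 0 = 0 := by
    linear_combination h102
  have a11 : A 1 1 = 0 := by
    linear_combination h111 + h212 + h221
  have a12 : A 1 2 = 0 := by
    linear_combination 2 * h001 - h002 + h010 - h020 + h021 + h100 + h102 - h112 + h120 + h200 -
        2 * h221
  have a20 : A 2 0 = 0 := by
    linear_combination 2 * h000 + 2 * h001 - h002 + h010 + h011 - h020 + h022 + h100 + h102 +
        h110 + h120 + h121 +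
      h200 + h201 + h211 - h220 - 2 * h221 + h222
  have a21 : A 2 1 = 0 := by
    linear_combination h211
  have a22 : A 2 2 = 0 := by
    linear_combination -h000 - 2 * h001 + h002 - h010 - h011 + h012 + h020 - h022 - h100 + h101 -
        h102 + h111 -
      h120 - h121 + h122 - h200 - h201 + h202 - h210 - h211 + h212 + h220 + 3 * h221 - h222
  have b00 : B 0 0 = 0 := by
    linear_combination -h001 + h002 + h020 + h112 + h221
  have b01 : B 0 1 = 0 := by
    linear_combination -2 * h001 + h002 - h010 + h020 - h021 - h100 + h101 - h102 + h112 - h120 -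
        h200 + 2 * h221
  have b02 : B 0 2 = 0 := by
    linear_combination -h100
  have b10 : B 1 0 = 0 := by
    linear_combination -h000 - 2 * h001 + h002 - h010 - h011 + h012 + h020 - h022 - h100 + h101 -
        h102 + h111 -
      h120 - h121 + h122 - h200 - h201 + h202 - h211 + h212 + h220 + 3 * h221 - h222
  have b11 : B 1 1 = 0 := by
    linear_combination -h212
  have b12 : B 1 2 = 0 := by
    linear_combination -h000 - 2 * h001 + h002 - h010 + h020 - h021 - h100 - h102 - h110 + h112 -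
        h120 - h200 + 2 *
      h221
  have b20 : B 2 0 = 0 := by
    linear_combination 2 * h000 + 4 * h001 - 2 * h002 + 2 * h010 + 2 * h011 - h012 - 2 * h020 + 2
        * h022 + 2 * h100
      - h101 + 2 * h102 + h110 - h111 + 2 * h120 + 2 * h121 - h122 + 2 * h200 + 2 * h201 - h202 +
      h210 + 2 * h211 - h212 - h220 - 5 * h221 + 2 * h222
  have b21 : B 2 1 = 0 := by
    linear_combination -h112 - h211 - h222
  have b22 : B 2 2 = 0 := by
    linear_combination h021
  have c00 : C 0 0 = 0 := by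
    linear_combination 2 * h001 - h002 + h010 - h020 + h100 - h112 + h200 - 2 * h221
  have c01 : C 0 1 = 0 := by
    linear_combination -h001 + h002 + h020 + h112 - h200 + h221
  have c02 : C 0 2 = 0 := by
    linear_combination h000
  have c10 : C 1 0 = 0 := by
    linear_combination -h112 - h121 - h211 - h222
  have c11 : C 1 1 = 0 := by
    linear_combination -h000 - 2 * h001 + h002 - h010 - h011 + h012 + h020 - h022 - h100 + h101 -
        h102 + h111 -
      h120 - h121 + h122 - h200 - 2 * h201 + h202 - h210 - h211 + h212 + h220 + 3 * h221 - h222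
  have c12 : C 1 2 = 0 := by
    linear_combination h221
  have c20 : C 2 0 = 0 := by
    linear_combination -h111 - h122 - h212 - h221
  have c21 : C 2 1 = 0 := by
    linear_combination 2 * h000 + 4 * h001 - 2 * h002 + 2 * h010 + h011 - 2 * h020 + h021 + h022
        + 2 * h100 - h101
      + 2 * h102 + h110 - h112 + 2 * h120 + h121 + 2 * h200 + h201 - h202 + h211 - h220 - 4 * h221
      + h222
  have c22 : C 2 2 = 0 := by
    linear_combination -h112
  refine ⟨?_, ?_, ?_⟩ <;> funext b c <;> fin_cases b <;> fin_cases c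
  all_goals first
    | exact a00
    | exact a01
    | exact a02
    | exact a10
    | exact a11
    | exact a12
    | exact a20
    | exact a21
    | exact a22
    | exact b00
    | exact b01
    | exact b02
    | exact b10
    | exact b11
    | exact b12
    | exact b20
    | exact b21
    | exact b22
    | exact c00
    | exact c01
    | exact c02
    | exact c10
    | exact c11
    | exact c12
    | exact c20
    | exact c21
    | exact c22

end

end SP_

end Pool.Agent.VCT
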