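import Pool.Agent.VCT.SPA

/-!
# The special forms: uniqueness of the decompositions, the class e_l + e_p + e_q
-/

set_option autoImplicit false

namespace Pool.Agent.VCT

namespace SP_

section

variable {R : Type*} [CommRing R]

theorem L2_sub (w : Frm R) (z z' : Mat R) (a e : Fin 3) :
    L2 w (fun b c => z b c - z' b c) a e = L2 w z a e - L2 w z' a e := by
  simp only [L2, ← Finset.sum_sub_distrib]
  exact Finset.sum_congr rfl fun c _ => by ring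

theorem L3_sub (w1 w2 w3 : Frm R) (A B C A' B' C' : Mat R) (a b d : Fin 3) :
    L3 w1 w2 w3 (fun b c => A b c - A' b c) (fun b c => B b c - B' b c)
      (fun b c => C b c - C' b c) a b d =
      L3 w1 w2 w3 A B C a b d - L3 w1 w2 w3 A' B' C' a b d := by
  simp only [L3, ← Finset.sum_sub_distrib]
  exact Finset.sum_congr rfl fun c _ => by ring

theorem uniq2 {w : Frm R} (h : D2 w) {z z' : Mat R} (hz : ∀ a e, L2 w z a e = L2 w z' a e) :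
    z = z' := by
  have h1 := h (fun b c => z b c - z' b c) (fun a e => by rw [L2_sub, hz, sub_self])
  funext b c
  exact sub_eq_zero.1 (congrFun (congrFun h1 b) c)

theorem uniq3 {w1 w2 w3 : Frm R} (h : D3 w1 w2 w3) {A B C A' B' C' : Mat R}
    (hz : ∀ a b d, L3 w1 w2 w3 A B C a b d = L3 w1 w2 w3 A' B' C' a b d) :
    A = A' ∧ B = B' ∧ C = C' := by
  obtain ⟨h1, h2, h3⟩ := h (fun b c => A b c - A' b c) (fun b c => B b c - B' b c)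
    (fun b c => C b c - C' b c) (fun a b d => by rw [L3_sub, hz, sub_self])
  refine ⟨?_, ?_, ?_⟩ <;> funext b c
  · exact sub_eq_zero.1 (congrFun (congrFun h1 b) c)
  · exact sub_eq_zero.1 (congrFun (congrFun h2 b) c)
  · exact sub_eq_zero.1 (congrFun (congrFun h3 b) c)

theorem ez_01 (u : Fin 2) (a e : Fin 3) : L2 (w01 R) (Z01 R u) a e = uu u a := by
  rw [L2_01]
  fin_cases u <;> fin_cases a <;> fin_cases e <;> simp [Z01, uu] <;> ring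

theorem ez_10 (u : Fin 2) (a e : Fin 3) : L2 (tr (w01 R)) (Z10 R u) a e = uu u a := by
  rw [L2_10]
  fin_cases u <;> fin_cases a <;> fin_cases e <;> simp [Z10, uu] <;> ring

theorem ez_02 (u : Fin 2) (a e : Fin 3) : L2 (w02 R) (Z02 R u) a e = uu u a := by
  rw [L2_02]
  fin_cases u <;> fin_cases a <;> fin_cases e <;> simp [Z02, uu] <;> ring

theorem ez_20 (u : Fin 2) (a e : Fin 3) : L2 (tr (w02 R)) (Z20 R u) a e = uu u a := by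
  rw [L2_20]
  fin_cases u <;> fin_cases a <;> fin_cases e <;> simp [Z20, uu] <;> ring

theorem ez_12 (u : Fin 2) (a e : Fin 3) : L2 (w12 R) (Z12 R u) a e = uu u a := by
  rw [L2_12]
  fin_cases u <;> fin_cases a <;> fin_cases e <;> simp [Z12, uu] <;> ring

theorem ez_21 (u : Fin 2) (a e : Fin 3) : L2 (tr (w12 R)) (Z21 R u) a e = uu u a := by
  rw [L2_21]
  fin_cases u <;> fin_cases a <;> fin_cases e <;> simp [Z21, uu] <;> ring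

theorem ez_lo (u : Fin 2) (a e : Fin 3) : L2 (wlo R) (Zlo R u) a e = uu u a := by
  rw [L2_lo]
  fin_cases u <;> fin_cases a <;> fin_cases e <;> simp [Zlo, uu] <;> ring

theorem ez_ol (u : Fin 2) (a e : Fin 3) : L2 (tr (wlo R)) (Zol R u) a e = uu u a := by
  rw [L2_ol]
  fin_cases u <;> fin_cases a <;> fin_cases e <;> simp [Zol, uu] <;> ring

theorem ez_P (u : Fin 2) (b e : Fin 3) : L2 (tr (w12 R)) (ZP R u) b e = rc u b e := by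
  rw [L2_21]
  fin_cases u <;> fin_cases b <;> fin_cases e <;> simp [ZP, rc, uu] <;> ring

theorem ez_Q (u : Fin 2) (b e : Fin 3) : L2 (w12 R) (ZQ R u) b e = rc u b e := by
  rw [L2_12]
  fin_cases u <;> fin_cases b <;> fin_cases e <;> simp [ZQ, rc, uu] <;> ring

theorem ez_3 (u : Fin 2) (a b d : Fin 3) :
    L3 (w01 R) (w02 R) (w12 R) (ZA R u) (ZB R u) (ZC R u) a b d =
      if b = 0 ∧ d = 0 then uu u a else 0 := by
  rw [L3_e]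
  fin_cases u <;> fin_cases a <;> fin_cases b <;> fin_cases d <;>
    simp [ZA, ZB, ZC, uu] <;> ring

theorem insp_01 {M : Mat R} (h : InSp (w01 R) M) :
    M 0 2 = 0 ∧
    M 1 0 = 0 ∧
    M 1 1 + M 0 0 = 0 ∧
    M 2 0 + M 0 1 + M 1 2 = 0 ∧
    M 2 1 = 0 ∧
    M 2 2 - M 0 0 = 0 := by
  obtain ⟨y, hy⟩ := h
  simp only [hy]
  refine ⟨?_, ?_, ?_, ?_, ?_, ?_⟩ <;> simp [w01, Fin.sum_univ_three] <;> ring

theorem insp_10 {M : Mat R} (h : InSp (tr (w01 R)) M) :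
    M 0 1 = 0 ∧
    M 1 1 + M 0 0 = 0 ∧
    M 1 2 = 0 ∧
    M 2 0 = 0 ∧
    M 2 1 + M 0 2 + M 1 0 = 0 ∧
    M 2 2 - M 0 0 = 0 := by
  obtain ⟨y, hy⟩ := h
  simp only [hy]
  refine ⟨?_, ?_, ?_, ?_, ?_, ?_⟩ <;> simp [tr, w01, Fin.sum_univ_three] <;> ring

theorem insp_02 {M : Mat R} (h : InSp (w02 R) M) :
    M 0 0 = 0 ∧
    M 1 0 + M 0 1 = 0 ∧
    M 1 2 = 0 ∧
    M 2 0 + M 0 1 - M 0 2 = 0 ∧
    M 2 1 = 0 ∧
    M 2 2 + M 1 1 = 0 := by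
  obtain ⟨y, hy⟩ := h
  simp only [hy]
  refine ⟨?_, ?_, ?_, ?_, ?_, ?_⟩ <;> simp [w02, Fin.sum_univ_three] <;> ring

theorem insp_20 {M : Mat R} (h : InSp (tr (w02 R)) M) :
    M 0 0 = 0 ∧
    M 1 0 + M 0 1 = 0 ∧
    M 1 2 = 0 ∧
    M 2 0 + M 0 1 - M 0 2 = 0 ∧
    M 2 1 = 0 ∧
    M 2 2 + M 1 1 = 0 := by
  obtain ⟨y, hy⟩ := h
  simp only [hy]
  refine ⟨?_, ?_, ?_, ?_, ?_, ?_⟩ <;> simp [tr, w02, Fin.sum_univ_three] <;> ring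

theorem insp_12 {M : Mat R} (h : InSp (w12 R) M) :
    M 0 0 = 0 ∧
    M 1 0 + M 0 1 = 0 ∧
    M 1 2 = 0 ∧
    M 2 0 - M 0 1 + M 0 2 = 0 ∧
    M 2 1 = 0 ∧
    M 2 2 + M 1 1 = 0 := by
  obtain ⟨y, hy⟩ := h
  simp only [hy]
  refine ⟨?_, ?_, ?_, ?_, ?_, ?_⟩ <;> simp [w12, Fin.sum_univ_three] <;> ring

theorem insp_21 {M : Mat R} (h : InSp (tr (w12 R)) M) :
    M 0 0 = 0 ∧
    M 1 0 + M 0 1 = 0 ∧
    M 1 2 = 0 ∧
    M 2 0 + M 0 1 + M 0 2 = 0 ∧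
    M 2 1 = 0 ∧
    M 2 2 + M 1 1 = 0 := by
  obtain ⟨y, hy⟩ := h
  simp only [hy]
  refine ⟨?_, ?_, ?_, ?_, ?_, ?_⟩ <;> simp [tr, w12, Fin.sum_univ_three] <;> ring

theorem insp_lo {M : Mat R} (h : InSp (wlo R) M) :
    M 0 0 = 0 ∧
    M 1 0 + M 0 1 - M 0 2 = 0 ∧
    M 1 1 + (2) * M 0 1 = 0 ∧
    M 2 0 - M 0 1 - M 1 2 = 0 ∧
    M 2 1 - M 0 1 - M 0 2 - M 1 2 = 0 ∧
    M 2 2 = 0 := by
  obtain ⟨y, hy⟩ := h
  simp only [hy]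
  refine ⟨?_, ?_, ?_, ?_, ?_, ?_⟩ <;> simp [wlo, Fin.sum_univ_three] <;> ring

theorem insp_ol {M : Mat R} (h : InSp (tr (wlo R)) M) :
    M 0 0 = 0 ∧
    M 1 1 + (2) * M 1 0 = 0 ∧
    M 1 2 - M 0 1 - M 0 2 - M 1 0 = 0 ∧
    M 2 0 - M 0 1 - M 1 0 = 0 ∧
    M 2 1 - M 0 2 + M 1 0 = 0 ∧
    M 2 2 = 0 := by
  obtain ⟨y, hy⟩ := h
  simp only [hy]
  refine ⟨?_, ?_, ?_, ?_, ?_, ?_⟩ <;> simp [tr, wlo, Fin.sum_univ_three] <;> ring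

theorem q2_lo (u : Fin 2) (a b : Fin 3) : Q2 (wlo R) (Zlo R u) a b = 0 := by
  fin_cases u <;> fin_cases a <;> fin_cases b <;> simp [Q2, wlo, Zlo, Fin.sum_univ_three] <;> ring

/-- table -/
def TX (F1 F2 : Mat R) : Fin 2 → Mat R :=
  ![![![F1 0 0 + F1 2 0 - F2 1 0 + F2 2 0,
        F1 0 1 + F1 2 1,
        F1 0 2 + F1 2 2 - F2 0 0 - F2 1 0 + F2 2 0],
      ![-F2 1 1 + F2 2 1,
        0,
        -F2 0 1 - F2 1 1 + F2 2 1],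
      ![F1 1 0 + F1 2 0 - F2 1 2 + F2 2 2,
        F1 1 1 + F1 2 1,
        F1 1 2 + F1 2 2 - F2 0 2 - F2 1 2 + F2 2 2]],
    ![![-F1 0 0 + 2 * F1 1 0 - F1 2 0 + 3 * F2 1 0,
        -F1 0 1 + 2 * F1 1 1 - F1 2 1 - F2 0 0 + F2 1 0 + 2 * F2 2 0,
        -F1 0 2 + 2 * F1 1 2 - F1 2 2 + 2 * F2 0 0 + F2 1 0 - F2 2 0],
      ![-F1 0 0 + F1 1 0 - F1 2 0 + 3 * F2 1 1,
        -F1 0 1 + F1 1 1 - F1 2 1 - F2 0 1 + F2 1 1 + 2 * F2 2 1,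
        -F1 0 2 + F1 1 2 - F1 2 2 + 2 * F2 0 1 + F2 1 1 - F2 2 1],
      ![3 * F2 1 2,
        -F2 0 2 + F2 1 2 + 2 * F2 2 2,
        2 * F2 0 2 + F2 1 2 - F2 2 2]]]

theorem tab_X (F1 F2 : Mat R) (u : Fin 2) (e b : Fin 3) :
    ∑ x, (Z01 R u e x * F1 x b + Z02 R u b x * F2 x e) = TX F1 F2 u e b := by
  fin_cases u <;> fin_cases e <;> fin_cases b <;>
    simp [TX, Z01, Z02, Fin.sum_univ_three] <;> ring

/-- table -/
def TY (F1 F3 : Mat R) : Fin 2 → Mat R :=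
  ![![![F3 0 0 - F3 1 0 + F3 2 0,
        0,
        2 * F3 0 0 - F3 1 0 + F3 2 0],
      ![-F1 1 0 + F1 2 0 + F3 0 1 - F3 1 1 + F3 2 1,
        -F1 1 1 + F1 2 1,
        -F1 1 2 + F1 2 2 + 2 * F3 0 1 - F3 1 1 + F3 2 1],
      ![F1 0 0 - 2 * F1 1 0 + F1 2 0 + F3 0 2 - F3 1 2 + F3 2 2,
        F1 0 1 - 2 * F1 1 1 + F1 2 1,
        F1 0 2 - 2 * F1 1 2 + F1 2 2 + 2 * F3 0 2 - F3 1 2 + F3 2 2]],
    ![![F1 0 0 - F1 1 0 - F1 2 0 + F3 1 0,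
        F1 0 1 - F1 1 1 - F1 2 1 + F3 0 0 + F3 1 0,
        F1 0 2 - F1 1 2 - F1 2 2 - F3 0 0 + F3 1 0 - F3 2 0],
      ![F3 1 1,
        F3 0 1 + F3 1 1,
        -F3 0 1 + F3 1 1 - F3 2 1],
      ![F1 0 0 - F1 2 0 + F3 1 2,
        F1 0 1 - F1 2 1 + F3 0 2 + F3 1 2,
        F1 0 2 - F1 2 2 - F3 0 2 + F3 1 2 - F3 2 2]]]

theorem tab_Y (F1 F3 : Mat R) (u : Fin 2) (e b : Fin 3) :
    ∑ x, (Z10 R u e x * F1 x b + Z12 R u b x * F3 x e) = TY F1 F3 u e b := by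
  fin_cases u <;> fin_cases e <;> fin_cases b <;>
    simp [TY, Z10, Z12, Fin.sum_univ_three] <;> ring

/-- table -/
def TW (F2 F3 : Mat R) : Fin 2 → Mat R :=
  ![![![F2 0 0 - F2 1 0 - F2 2 0 - 2 * F3 0 0 - F3 1 0 - F3 2 0,
        F2 0 1 - F2 1 1 - F2 2 1,
        F2 0 2 - F2 1 2 - F2 2 2 - F3 0 0 - F3 1 0 - F3 2 0],
      ![-2 * F3 0 1 - F3 1 1 - F3 2 1,
        0,
        -F3 0 1 - F3 1 1 - F3 2 1],
      ![-F2 1 0 - F2 2 0 - 2 * F3 0 2 - F3 1 2 - F3 2 2,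
        -F2 1 1 - F2 2 1,
        -F2 1 2 - F2 2 2 - F3 0 2 - F3 1 2 - F3 2 2]],
    ![![3 * F2 1 0 + F3 1 0,
        3 * F2 1 1 - F3 0 0 + F3 1 0,
        3 * F2 1 2 + F3 1 0 + F3 2 0],
      ![F2 0 0 + F2 1 0 - 2 * F2 2 0 + F3 1 1,
        F2 0 1 + F2 1 1 - 2 * F2 2 1 - F3 0 1 + F3 1 1,
        F2 0 2 + F2 1 2 - 2 * F2 2 2 + F3 1 1 + F3 2 1],
      ![F2 0 0 + F2 1 0 + F2 2 0 + F3 1 2,
        F2 0 1 + F2 1 1 + F2 2 1 - F3 0 2 + F3 1 2,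
        F2 0 2 + F2 1 2 + F2 2 2 + F3 1 2 + F3 2 2]]]

theorem tab_W (F2 F3 : Mat R) (u : Fin 2) (e b : Fin 3) :
    ∑ x, (Z20 R u e x * F2 x b + Z21 R u b x * F3 x e) = TW F2 F3 u e b := by
  fin_cases u <;> fin_cases e <;> fin_cases b <;>
    simp [TW, Z20, Z21, Fin.sum_univ_three] <;> ring

end

section

variable {κ : Type*} [Field κ] [CharZero κ]

theorem pt_core (F1 F2 F3 : Mat κ)
    (hx : ∀ u, InSp (w12 κ) fun e b => ∑ x, (Z01 κ u e x * F1 x b + Z02 κ u b x * F2 x e))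
    (hy : ∀ u, InSp (w02 κ) fun e b => ∑ x, (Z10 κ u e x * F1 x b + Z12 κ u b x * F3 x e))
    (hz : ∀ u, InSp (w01 κ) fun e b => ∑ x, (Z20 κ u e x * F2 x b + Z21 κ u b x * F3 x e)) :
    F1 = 0 ∧ F2 = 0 ∧ F3 = 0 := by
  simp only [tab_X, tab_Y, tab_W] at hx hy hz
  obtain ⟨q0, q1, q2, -, q4, q5⟩ := insp_12 (hx 0)
  have e0 : (F1 0 0 + F1 2 0 - F2 1 0 + F2 2 0) = 0 := q0
  have e1 : (-F2 1 1 + F2 2 1) + (F1 0 1 + F1 2 1) = 0 := q1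
  have e2 : (-F2 0 1 - F2 1 1 + F2 2 1) = 0 := q2
  have e4 : (F1 1 1 + F1 2 1) = 0 := q4
  have e5 : (F1 1 2 + F1 2 2 - F2 0 2 - F2 1 2 + F2 2 2) + (0) = 0 := q5
  obtain ⟨q6, q7, q8, -, q10, q11⟩ := insp_02 (hy 0)
  have e6 : (F3 0 0 - F3 1 0 + F3 2 0) = 0 := q6
  have e7 : (-F1 1 0 + F1 2 0 + F3 0 1 - F3 1 1 + F3 2 1) + (0) = 0 := q7
  have e8 : (-F1 1 2 + F1 2 2 + 2 * F3 0 1 - F3 1 1 + F3 2 1) = 0 := q8
  have e10 : (F1 0 1 - 2 * F1 1 1 + F1 2 1) = 0 := q10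
  have e11 : (F1 0 2 - 2 * F1 1 2 + F1 2 2 + 2 * F3 0 2 - F3 1 2 + F3 2 2) + (-F1 1 1 + F1 2 1) =
      0 := q11
  obtain ⟨q12, q13, q14, -, q16, q17⟩ := insp_01 (hz 0)
  have e12 : (F2 0 2 - F2 1 2 - F2 2 2 - F3 0 0 - F3 1 0 - F3 2 0) = 0 := q12
  have e13 : (-2 * F3 0 1 - F3 1 1 - F3 2 1) = 0 := q13
  have e14 : (0) + (F2 0 0 - F2 1 0 - F2 2 0 - 2 * F3 0 0 - F3 1 0 - F3 2 0) = 0 := q14
  have e16 : (-F2 1 1 - F2 2 1) = 0 := q16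
  have e17 : (-F2 1 2 - F2 2 2 - F3 0 2 - F3 1 2 - F3 2 2) - (F2 0 0 - F2 1 0 - F2 2 0 - 2 * F3 0
      0 - F3
      1 0 - F3 2 0) = 0 := q17
  obtain ⟨q18, -, q20, -, q22, q23⟩ := insp_12 (hx 1)
  have e18 : (-F1 0 0 + 2 * F1 1 0 - F1 2 0 + 3 * F2 1 0) = 0 := q18
  have e20 : (-F1 0 2 + F1 1 2 - F1 2 2 + 2 * F2 0 1 + F2 1 1 - F2 2 1) = 0 := q20
  have e22 : (-F2 0 2 + F2 1 2 + 2 * F2 2 2) = 0 := q22
  have e23 : (2 * F2 0 2 + F2 1 2 - F2 2 2) + (-F1 0 1 + F1 1 1 - F1 2 1 - F2 0 1 + F2 1 1 + 2 *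
      F2 2 1) = 0 := q23
  obtain ⟨q24, q25, q26, -, q28, q29⟩ := insp_02 (hy 1)
  have e24 : (F1 0 0 - F1 1 0 - F1 2 0 + F3 1 0) = 0 := q24
  have e25 : (F3 1 1) + (F1 0 1 - F1 1 1 - F1 2 1 + F3 0 0 + F3 1 0) = 0 := q25
  have e26 : (-F3 0 1 + F3 1 1 - F3 2 1) = 0 := q26
  have e28 : (F1 0 1 - F1 2 1 + F3 0 2 + F3 1 2) = 0 := q28
  have e29 : (F1 0 2 - F1 2 2 - F3 0 2 + F3 1 2 - F3 2 2) + (F3 0 1 + F3 1 1) = 0 := q29
  obtain ⟨q30, q31, -, -, q34, -⟩ := insp_01 (hz 1)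
  have e30 : (3 * F2 1 2 + F3 1 0 + F3 2 0) = 0 := q30
  have e31 : (F2 0 0 + F2 1 0 - 2 * F2 2 0 + F3 1 1) = 0 := q31
  have e34 : (F2 0 1 + F2 1 1 + F2 2 1 - F3 0 2 + F3 1 2) = 0 := q34
  have f_F2_1_1 : F2 1 1 = 0 := by
    linear_combination -(5 / 168) * e1 - (241 / 336) * e2 - (1 / 28) * e4 - (15 / 112) * e5 - (5
        / 112) * e6 - (1 /
      112) * e8 + (5 / 48) * e10 - (11 / 56) * e11 - (15 / 112) * e12 - (9 / 112) * e13 - (1 / 8)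
      * e14 - (11 / 14) * e16 - (1 / 8) * e17 - (15 / 56) * e20 - (1 / 12) * e22 - (1 / 24) * e23
      - (5 / 56) * e25 + (1 / 14) * e26 - (3 / 112) * e28 - (1 / 14) * e29 - (5 / 56) * e30 - (25
      / 112) * e34
  have f_F3_1_0 : F3 1 0 = 0 := by
    linear_combination (11 / 21) * e1 - (41 / 42) * e2 - (4 / 7) * e4 - (1 / 7) * e5 - (5 / 7) *
        e6 - (1 / 7) * e8
      + (1 / 6) * e10 - (1 / 7) * e11 - (8 / 7) * e12 - (2 / 7) * e13 + (3 / 7) * e16 - (2 / 7) *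
      e20 - (1 / 3) * e22 + (1 / 3) * e23 - (3 / 7) * e25 + (1 / 7) * e26 + (1 / 14) * e28 - (1 /
      7) * e29 - (3 / 7) * e30 - (1 / 14) * e34
  have f_F3_1_1 : F3 1 1 = 0 := by
    linear_combination -2 * e1 + e2 + 2 * e4 + 2 * e6 + 3 * e12 - 3 * e16 + e22 - e23 + e25 + e30
        + 3 * f_F3_1_0 -
      3 * f_F2_1_1
  have f_F1_2_2 : F1 2 2 = 0 := by
    linear_combination (1 / 6) * e1 - (1 / 3) * e2 + (1 / 2) * e5 - (1 / 2) * e6 + (1 / 2) * e8 +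
        (1 / 6) * e10 -
      (1 / 2) * e12 + (1 / 2) * e13 + (1 / 2) * e16 - (1 / 3) * e22 + (1 / 3) * e23 + f_F3_1_1 -
      f_F3_1_0
  have f_F2_1_0 : F2 1 0 = 0 := by
    linear_combination (1 / 10) * e0 - (1 / 20) * e1 + (1 / 10) * e2 + (1 / 10) * e6 + (2 / 5) *
        e7 - (1 / 20) *
      e10 + (3 / 10) * e12 - (1 / 10) * e14 - (3 / 20) * e16 + (3 / 10) * e18 + (1 / 10) * e22 -
      (1 / 10) * e23 + (1 / 5) * e24 + (2 / 5) * e26 + (1 / 10) * e30 + (1 / 10) * e31 - (1 / 10)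
      * f_F3_1_1
  have f_F2_0_0 : F2 0 0 = 0 := by
    linear_combination e0 + (1 / 2) * e1 - e2 - e6 + 4 * e7 + (1 / 2) * e10 - 3 * e12 + e14 + (3
        / 2) * e16 + 3 *
      e18 - e22 + e23 + 2 * e24 + 4 * e26 - e30 - 7 * f_F2_1_0 - 4 * f_F3_1_0
  have f_F2_2_0 : F2 2 0 = 0 := by
    linear_combination e0 + 4 * e7 + 3 * e18 + 2 * e24 + 4 * e26 - 8 * f_F2_1_0 - 2 * f_F3_1_0
  have f_F3_2_2 : F3 2 2 = 0 := by
    linear_combination -e2 - e8 - 2 * e13 + e16 - e20 + e26 - e29 + e34 - f_F1_2_2 - 3 * f_F3_1_1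
  have f_F3_1_2 : F3 1 2 = 0 := by
    linear_combination -e1 + (1 / 2) * e2 + e4 + (1 / 2) * e10 + (1 / 2) * e28 + (1 / 2) * e34 -
        f_F2_1_1
  have f_F3_0_2 : F3 0 2 = 0 := by
    linear_combination -e2 - 2 * e16 - e34 + f_F3_1_2 - 2 * f_F2_1_1
  have f_F2_1_2 : F2 1 2 = 0 := by
    linear_combination (1 / 6) * e1 - (1 / 3) * e2 - e6 + (1 / 6) * e10 - e12 + (1 / 2) * e16 -
        (1 / 3) * e22 + (1
      / 3) * e23 - 2 * f_F3_1_0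
  have f_F3_0_0 : F3 0 0 = 0 := by
    linear_combination (1 / 6) * e1 - (1 / 3) * e2 + (1 / 6) * e10 - e12 + (1 / 2) * e16 - (1 /
        3) * e22 + (1 / 3)
      * e23 - e30 + 2 * f_F2_1_2
  have f_F3_2_0 : F3 2 0 = 0 := by
    linear_combination e30 - 3 * f_F2_1_2 - f_F3_1_0
  have f_F1_0_2 : F1 0 2 = 0 := by
    linear_combination -2 * e2 - e8 - e13 - e16 - e20 - 2 * f_F2_1_1 - 2 * f_F3_1_1
  have f_F1_0_0 : F1 0 0 = 0 := by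
    linear_combination -3 * e7 - 2 * e18 - e24 - 3 * e26 + f_F3_1_0 + 6 * f_F2_1_0
  have f_F1_2_0 : F1 2 0 = 0 := by
    linear_combination 2 * e7 + e18 + 2 * e26 + f_F1_0_0 - 3 * f_F2_1_0
  have f_F1_1_2 : F1 1 2 = 0 := by
    linear_combination -e8 - e13 + f_F1_2_2 - 2 * f_F3_1_1
  have f_F1_1_0 : F1 1 0 = 0 := by
    linear_combination -e7 - e26 + f_F1_2_0
  have f_F3_0_1 : F3 0 1 = 0 := by
    linear_combination -e13 + e26 - 2 * f_F3_1_1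
  have f_F3_2_1 : F3 2 1 = 0 := by
    linear_combination -e26 - f_F3_0_1 + f_F3_1_1
  have f_F2_2_2 : F2 2 2 = 0 := by
    linear_combination (1 / 6) * e1 - (1 / 3) * e2 + (1 / 6) * e10 + (1 / 2) * e16 + (2 / 3) *
        e22 + (1 / 3) * e23
      - f_F2_1_2
  have f_F2_0_2 : F2 0 2 = 0 := by
    linear_combination -e22 + f_F2_1_2 + 2 * f_F2_2_2
  have f_F1_0_1 : F1 0 1 = 0 := by
    linear_combination (3 / 2) * e1 - e4 - (1 / 2) * e10 + (3 / 2) * e16 + 3 * f_F2_1_1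
  have f_F1_2_1 : F1 2 1 = 0 := by
    linear_combination (2 / 3) * e4 + (1 / 3) * e10 - (1 / 3) * f_F1_0_1
  have f_F1_1_1 : F1 1 1 = 0 := by
    linear_combination e4 - f_F1_2_1
  have f_F2_0_1 : F2 0 1 = 0 := by
    linear_combination -e2 - e16 - 2 * f_F2_1_1
  have f_F2_2_1 : F2 2 1 = 0 := by
    linear_combination -e16 - f_F2_1_1
  refine ⟨?_, ?_, ?_⟩ <;> funext b c <;> fin_cases b <;> fin_cases c
  all_goals first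
    | exact f_F1_0_0
    | exact f_F1_0_1
    | exact f_F1_0_2
    | exact f_F1_1_0
    | exact f_F1_1_1
    | exact f_F1_1_2
    | exact f_F1_2_0
    | exact f_F1_2_1
    | exact f_F1_2_2
    | exact f_F2_0_0
    | exact f_F2_0_1
    | exact f_F2_0_2
    | exact f_F2_1_0
    | exact f_F2_1_1
    | exact f_F2_1_2
    | exact f_F2_2_0
    | exact f_F2_2_1
    | exact f_F2_2_2
    | exact f_F3_0_0
    | exact f_F3_0_1
    | exact f_F3_0_2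
    | exact f_F3_1_0
    | exact f_F3_1_1
    | exact f_F3_1_2
    | exact f_F3_2_0
    | exact f_F3_2_1
    | exact f_F3_2_2

end

end SP_

end Pool.Agent.VCT
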