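import Pool.Agent.VCT.SPB

/-!
# The special forms: the class e_l, three blocks
-/

set_option autoImplicit false

namespace Pool.Agent.VCT

namespace SP_

section

variable {R : Type*} [CommRing R]

/-- `TA` for three blocks -/
def TG (wa wb : Frm R) (za zb : Mat R) (Si Sa Sb : Mat R) (g : Fin 3 → R) (u : Fin 2)
    (e b : Fin 3) : R :=
  uu u e * g b - ∑ a, (if a = e then 0 else uu u a * Si a b) +
    (∑ c, Q2 wa za e c * Sa c b + ∑ c, Q2 wb zb e c * Sb c b)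

/-- table -/
def TTl (Sl Sp Sq : Mat R) (g : Fin 3 → R) : Fin 2 → Mat R :=
  ![![![Sl 1 0 + Sp 0 0 + g 0,
        Sl 1 1 + Sp 0 1 + g 1,
        Sl 1 2 + Sp 0 2 + g 2],
      ![-Sl 0 0 - Sq 0 0 - g 0,
        -Sl 0 1 - Sq 0 1 - g 1,
        -Sl 0 2 - Sq 0 2 - g 2],
      ![-Sl 0 0 + Sl 1 0 + Sp 2 0 + Sq 2 0,
        -Sl 0 1 + Sl 1 1 + Sp 2 1 + Sq 2 1,
        -Sl 0 2 + Sl 1 2 + Sp 2 2 + Sq 2 2]],
    ![![-Sl 1 0 + Sl 2 0 - Sp 0 0 + 2 * Sq 1 0 + Sq 2 0,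
        -Sl 1 1 + Sl 2 1 - Sp 0 1 + 2 * Sq 1 1 + Sq 2 1,
        -Sl 1 2 + Sl 2 2 - Sp 0 2 + 2 * Sq 1 2 + Sq 2 2],
      ![Sl 2 0 + Sp 1 0 + Sq 1 0 + g 0,
        Sl 2 1 + Sp 1 1 + Sq 1 1 + g 1,
        Sl 2 2 + Sp 1 2 + Sq 1 2 + g 2],
      ![-Sl 1 0 - 2 * Sp 0 0 - Sq 2 0 - g 0,
        -Sl 1 1 - 2 * Sp 0 1 - Sq 2 1 - g 1,
        -Sl 1 2 - 2 * Sp 0 2 - Sq 2 2 - g 2]]]

theorem tab_Tl (Sl Sp Sq : Mat R) (g : Fin 3 → R) (u : Fin 2) (e b : Fin 3) :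
    TG (w01 R) (w02 R) (Z01 R u) (Z02 R u) Sl Sp Sq g u e b =
      TTl Sl Sp Sq g u e b := by
  fin_cases u <;> fin_cases e <;> fin_cases b <;>
    simp [TG, TTl, Q2, w01, w02, tr, Z01, Z02, uu, Fin.sum_univ_three] <;> ring

/-- table -/
def TTp (Sl Sp Sq : Mat R) (g : Fin 3 → R) : Fin 2 → Mat R :=
  ![![![2 * Sl 2 0 + Sp 1 0 + 2 * Sq 2 0 + g 0,
        2 * Sl 2 1 + Sp 1 1 + 2 * Sq 2 1 + g 1,
        2 * Sl 2 2 + Sp 1 2 + 2 * Sq 2 2 + g 2],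
      ![-Sl 1 0 - Sp 0 0 - Sq 0 0 - g 0,
        -Sl 1 1 - Sp 0 1 - Sq 0 1 - g 1,
        -Sl 1 2 - Sp 0 2 - Sq 0 2 - g 2],
      ![Sl 2 0 - Sp 0 0 + Sp 1 0 + Sq 2 0,
        Sl 2 1 - Sp 0 1 + Sp 1 1 + Sq 2 1,
        Sl 2 2 - Sp 0 2 + Sp 1 2 + Sq 2 2]],
    ![![-Sl 0 0 - Sp 1 0 + Sp 2 0 - Sq 2 0,
        -Sl 0 1 - Sp 1 1 + Sp 2 1 - Sq 2 1,
        -Sl 0 2 - Sp 1 2 + Sp 2 2 - Sq 2 2],
      ![Sp 2 0 + Sq 1 0 + g 0,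
        Sp 2 1 + Sq 1 1 + g 1,
        Sp 2 2 + Sq 1 2 + g 2],
      ![-Sl 2 0 - Sp 1 0 - Sq 2 0 - g 0,
        -Sl 2 1 - Sp 1 1 - Sq 2 1 - g 1,
        -Sl 2 2 - Sp 1 2 - Sq 2 2 - g 2]]]

theorem tab_Tp (Sl Sp Sq : Mat R) (g : Fin 3 → R) (u : Fin 2) (e b : Fin 3) :
    TG (tr (w01 R)) (w12 R) (Z10 R u) (Z12 R u) Sp Sl Sq g u e b =
      TTp Sl Sp Sq g u e b := by
  fin_cases u <;> fin_cases e <;> fin_cases b <;>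
    simp [TG, TTp, Q2, w01, w12, tr, Z10, Z12, uu, Fin.sum_univ_three] <;> ring

/-- table -/
def TTq (Sl Sp Sq : Mat R) (g : Fin 3 → R) : Fin 2 → Mat R :=
  ![![![Sq 1 0 + g 0,
        Sq 1 1 + g 1,
        Sq 1 2 + g 2],
      ![-Sl 0 0 - Sp 0 0 - Sq 0 0 - g 0,
        -Sl 0 1 - Sp 0 1 - Sq 0 1 - g 1,
        -Sl 0 2 - Sp 0 2 - Sq 0 2 - g 2],
      ![Sl 2 0 - 2 * Sp 0 0 + Sp 2 0 - Sq 0 0 + Sq 1 0,
        Sl 2 1 - 2 * Sp 0 1 + Sp 2 1 - Sq 0 1 + Sq 1 1,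
        Sl 2 2 - 2 * Sp 0 2 + Sp 2 2 - Sq 0 2 + Sq 1 2]],
    ![![2 * Sl 1 0 + Sl 2 0 + Sp 2 0 - Sq 1 0 + Sq 2 0,
        2 * Sl 1 1 + Sl 2 1 + Sp 2 1 - Sq 1 1 + Sq 2 1,
        2 * Sl 1 2 + Sl 2 2 + Sp 2 2 - Sq 1 2 + Sq 2 2],
      ![Sl 1 0 + Sp 1 0 + Sq 2 0 + g 0,
        Sl 1 1 + Sp 1 1 + Sq 2 1 + g 1,
        Sl 1 2 + Sp 1 2 + Sq 2 2 + g 2],
      ![-Sl 2 0 - Sp 2 0 - Sq 1 0 - g 0,
        -Sl 2 1 - Sp 2 1 - Sq 1 1 - g 1,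
        -Sl 2 2 - Sp 2 2 - Sq 1 2 - g 2]]]

theorem tab_Tq (Sl Sp Sq : Mat R) (g : Fin 3 → R) (u : Fin 2) (e b : Fin 3) :
    TG (tr (w02 R)) (tr (w12 R)) (Z20 R u) (Z21 R u) Sq Sl Sp g u e b =
      TTq Sl Sp Sq g u e b := by
  fin_cases u <;> fin_cases e <;> fin_cases b <;>
    simp [TG, TTq, Q2, w02, w12, tr, Z20, Z21, uu, Fin.sum_univ_three] <;> ring

/-- table -/
def TAp (Sl Sp Sq Pp : Mat R) (g : Fin 3 → R) : Fin 2 → Mat R :=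
  ![![![2 * Sl 2 0 + Sp 1 0 + 2 * Sq 2 0 + g 0,
        Pp 1 0 - Pp 2 0 + 2 * Sl 2 1 + Sp 1 1 + 2 * Sq 2 1 + g 1,
        -Pp 0 0 + 2 * Pp 1 0 - Pp 2 0 + 2 * Sl 2 2 + Sp 1 2 + 2 * Sq 2 2 + g 2],
      ![-Sl 1 0 - Sp 0 0 - Sq 0 0 - g 0,
        Pp 1 1 - Pp 2 1 - Sl 1 1 - Sp 0 1 - Sq 0 1 - g 1,
        -Pp 0 1 + 2 * Pp 1 1 - Pp 2 1 - Sl 1 2 - Sp 0 2 - Sq 0 2 - g 2],
      ![Sl 2 0 - Sp 0 0 + Sp 1 0 + Sq 2 0,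
        Pp 1 2 - Pp 2 2 + Sl 2 1 - Sp 0 1 + Sp 1 1 + Sq 2 1,
        -Pp 0 2 + 2 * Pp 1 2 - Pp 2 2 + Sl 2 2 - Sp 0 2 + Sp 1 2 + Sq 2 2]],
    ![![-Pp 0 0 + Pp 1 0 + Pp 2 0 - Sl 0 0 - Sp 1 0 + Sp 2 0 - Sq 2 0,
        -Sl 0 1 - Sp 1 1 + Sp 2 1 - Sq 2 1,
        -Pp 0 0 + Pp 2 0 - Sl 0 2 - Sp 1 2 + Sp 2 2 - Sq 2 2],
      ![-Pp 0 1 + Pp 1 1 + Pp 2 1 + Sp 2 0 + Sq 1 0 + g 0,
        Sp 2 1 + Sq 1 1 + g 1,
        -Pp 0 1 + Pp 2 1 + Sp 2 2 + Sq 1 2 + g 2],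
      ![-Pp 0 2 + Pp 1 2 + Pp 2 2 - Sl 2 0 - Sp 1 0 - Sq 2 0 - g 0,
        -Sl 2 1 - Sp 1 1 - Sq 2 1 - g 1,
        -Pp 0 2 + Pp 2 2 - Sl 2 2 - Sp 1 2 - Sq 2 2 - g 2]]]

theorem tab_Ap (Sl Sp Sq Pp : Mat R) (g : Fin 3 → R) (u : Fin 2) (e b : Fin 3) :
    TTp Sl Sp Sq g u e b - ∑ c, Z10 R u b c * Pp c e =
      TAp Sl Sp Sq Pp g u e b := by
  fin_cases u <;> fin_cases e <;> fin_cases b <;>
    simp [TAp, TTp, Z10, Fin.sum_univ_three] <;> ring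

/-- table -/
def TAq (Sl Sp Sq Pq : Mat R) (g : Fin 3 → R) : Fin 2 → Mat R :=
  ![![![-Pq 0 0 + Pq 1 0 + Pq 2 0 + Sq 1 0 + g 0,
        Sq 1 1 + g 1,
        Pq 1 0 + Pq 2 0 + Sq 1 2 + g 2],
      ![-Pq 0 1 + Pq 1 1 + Pq 2 1 - Sl 0 0 - Sp 0 0 - Sq 0 0 - g 0,
        -Sl 0 1 - Sp 0 1 - Sq 0 1 - g 1,
        Pq 1 1 + Pq 2 1 - Sl 0 2 - Sp 0 2 - Sq 0 2 - g 2],
      ![-Pq 0 2 + Pq 1 2 + Pq 2 2 + Sl 2 0 - 2 * Sp 0 0 + Sp 2 0 - Sq 0 0 + Sq 1 0,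
        Sl 2 1 - 2 * Sp 0 1 + Sp 2 1 - Sq 0 1 + Sq 1 1,
        Pq 1 2 + Pq 2 2 + Sl 2 2 - 2 * Sp 0 2 + Sp 2 2 - Sq 0 2 + Sq 1 2]],
    ![![-3 * Pq 1 0 + 2 * Sl 1 0 + Sl 2 0 + Sp 2 0 - Sq 1 0 + Sq 2 0,
        -Pq 0 0 - Pq 1 0 + 2 * Pq 2 0 + 2 * Sl 1 1 + Sl 2 1 + Sp 2 1 - Sq 1 1 + Sq 2 1,
        -Pq 0 0 - Pq 1 0 - Pq 2 0 + 2 * Sl 1 2 + Sl 2 2 + Sp 2 2 - Sq 1 2 + Sq 2 2],
      ![-3 * Pq 1 1 + Sl 1 0 + Sp 1 0 + Sq 2 0 + g 0,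
        -Pq 0 1 - Pq 1 1 + 2 * Pq 2 1 + Sl 1 1 + Sp 1 1 + Sq 2 1 + g 1,
        -Pq 0 1 - Pq 1 1 - Pq 2 1 + Sl 1 2 + Sp 1 2 + Sq 2 2 + g 2],
      ![-3 * Pq 1 2 - Sl 2 0 - Sp 2 0 - Sq 1 0 - g 0,
        -Pq 0 2 - Pq 1 2 + 2 * Pq 2 2 - Sl 2 1 - Sp 2 1 - Sq 1 1 - g 1,
        -Pq 0 2 - Pq 1 2 - Pq 2 2 - Sl 2 2 - Sp 2 2 - Sq 1 2 - g 2]]]

theorem tab_Aq (Sl Sp Sq Pq : Mat R) (g : Fin 3 → R) (u : Fin 2) (e b : Fin 3) :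
    TTq Sl Sp Sq g u e b - ∑ c, Z20 R u b c * Pq c e =
      TAq Sl Sp Sq Pq g u e b := by
  fin_cases u <;> fin_cases e <;> fin_cases b <;>
    simp [TAq, TTq, Z20, Fin.sum_univ_three] <;> ring

/-- table -/
def TBp (Pp : Mat R) : Fin 2 → Mat R :=
  ![![![2 * Pp 0 0 + 2 * Pp 2 0,
        Pp 0 1 + Pp 2 1,
        Pp 0 2 + Pp 1 0 + Pp 2 0 + Pp 2 2],
      ![Pp 0 1 + Pp 2 1,
        0,
        Pp 1 1 + Pp 2 1],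
      ![Pp 0 2 + Pp 1 0 + Pp 2 0 + Pp 2 2,
        Pp 1 1 + Pp 2 1,
        2 * Pp 1 2 + 2 * Pp 2 2]],
    ![![-2 * Pp 0 0 + 4 * Pp 1 0 - 2 * Pp 2 0,
        -Pp 0 0 - Pp 0 1 + Pp 1 0 + 2 * Pp 1 1 - Pp 2 0 - Pp 2 1,
        -Pp 0 2 + 2 * Pp 1 2 - Pp 2 2],
      ![-Pp 0 0 - Pp 0 1 + Pp 1 0 + 2 * Pp 1 1 - Pp 2 0 - Pp 2 1,
        -2 * Pp 0 1 + 2 * Pp 1 1 - 2 * Pp 2 1,
        -Pp 0 2 + Pp 1 2 - Pp 2 2],
      ![-Pp 0 2 + 2 * Pp 1 2 - Pp 2 2,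
        -Pp 0 2 + Pp 1 2 - Pp 2 2,
        0]]]

theorem tab_Bp (Pp : Mat R) (u : Fin 2) (e b : Fin 3) :
    ∑ c, (Z01 R u e c * Pp c b + Z01 R u b c * Pp c e) = TBp Pp u e b := by
  fin_cases u <;> fin_cases e <;> fin_cases b <;>
    simp [TBp, Z01, Fin.sum_univ_three] <;> ring

/-- table -/
def TBq (Pq : Mat R) : Fin 2 → Mat R :=
  ![![![-2 * Pq 1 0 + 2 * Pq 2 0,
        -Pq 1 1 + Pq 2 1,
        -Pq 0 0 - Pq 1 0 - Pq 1 2 + Pq 2 0 + Pq 2 2],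
      ![-Pq 1 1 + Pq 2 1,
        0,
        -Pq 0 1 - Pq 1 1 + Pq 2 1],
      ![-Pq 0 0 - Pq 1 0 - Pq 1 2 + Pq 2 0 + Pq 2 2,
        -Pq 0 1 - Pq 1 1 + Pq 2 1,
        -2 * Pq 0 2 - 2 * Pq 1 2 + 2 * Pq 2 2]],
    ![![6 * Pq 1 0,
        -Pq 0 0 + Pq 1 0 + 3 * Pq 1 1 + 2 * Pq 2 0,
        2 * Pq 0 0 + Pq 1 0 + 3 * Pq 1 2 - Pq 2 0],
      ![-Pq 0 0 + Pq 1 0 + 3 * Pq 1 1 + 2 * Pq 2 0,
        -2 * Pq 0 1 + 2 * Pq 1 1 + 4 * Pq 2 1,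
        2 * Pq 0 1 - Pq 0 2 + Pq 1 1 + Pq 1 2 - Pq 2 1 + 2 * Pq 2 2],
      ![2 * Pq 0 0 + Pq 1 0 + 3 * Pq 1 2 - Pq 2 0,
        2 * Pq 0 1 - Pq 0 2 + Pq 1 1 + Pq 1 2 - Pq 2 1 + 2 * Pq 2 2,
        4 * Pq 0 2 + 2 * Pq 1 2 - 2 * Pq 2 2]]]

theorem tab_Bq (Pq : Mat R) (u : Fin 2) (e b : Fin 3) :
    ∑ c, (Z02 R u e c * Pq c b + Z02 R u b c * Pq c e) = TBq Pq u e b := by
  fin_cases u <;> fin_cases e <;> fin_cases b <;>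
    simp [TBq, Z02, Fin.sum_univ_three] <;> ring

/-- table -/
def TCD (F1 F2 Pp Pq : Mat R) (mu : Fin 2 → R) : Fin 2 → Mat R :=
  ![![![F1 0 0 + F1 2 0 - F2 1 0 + F2 2 0 - Pp 0 0 + Pp 2 0 + Pq 1 0 + Pq 2 0 + mu 0,
        F1 0 1 + F1 2 1 + Pq 1 1 + Pq 2 1,
        F1 0 2 + F1 2 2 - F2 0 0 - F2 1 0 + F2 2 0 + Pq 1 2 + Pq 2 2],
      ![-F2 1 1 + F2 2 1 - Pp 0 1 + Pp 2 1,
        0,
        -F2 0 1 - F2 1 1 + F2 2 1],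
      ![F1 1 0 + F1 2 0 - F2 1 2 + F2 2 2 - Pp 0 2 + Pp 2 2,
        F1 1 1 + F1 2 1,
        F1 1 2 + F1 2 2 - F2 0 2 - F2 1 2 + F2 2 2]],
    ![![-F1 0 0 + 2 * F1 1 0 - F1 2 0 + 3 * F2 1 0 + Pp 1 0 - Pq 2 0 + mu 1,
        -F1 0 1 + 2 * F1 1 1 - F1 2 1 - F2 0 0 + F2 1 0 + 2 * F2 2 0 - Pq 2 1,
        -F1 0 2 + 2 * F1 1 2 - F1 2 2 + 2 * F2 0 0 + F2 1 0 - F2 2 0 - Pq 2 2],
      ![-F1 0 0 + F1 1 0 - F1 2 0 + 3 * F2 1 1 + Pp 1 1,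
        -F1 0 1 + F1 1 1 - F1 2 1 - F2 0 1 + F2 1 1 + 2 * F2 2 1,
        -F1 0 2 + F1 1 2 - F1 2 2 + 2 * F2 0 1 + F2 1 1 - F2 2 1],
      ![3 * F2 1 2 + Pp 1 2,
        -F2 0 2 + F2 1 2 + 2 * F2 2 2,
        2 * F2 0 2 + F2 1 2 - F2 2 2]]]

theorem tab_CD (F1 F2 Pp Pq : Mat R) (mu : Fin 2 → R) (u : Fin 2) (e b : Fin 3) :
    ∑ c, (Z01 R u e c * F1 c b + Z02 R u b c * F2 c e) +
      ∑ c, (ZB R u e c * Pq c b + ZC R u b c * Pp c e) +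
      (if e = 0 ∧ b = 0 then mu u else 0) =
      TCD F1 F2 Pp Pq mu u e b := by
  fin_cases u <;> fin_cases e <;> fin_cases b <;>
    simp [TCD, Z01, Z02, ZB, ZC, Fin.sum_univ_three] <;> ring

/-- table -/
def TCE (F1 F3 Sp : Mat R) : Fin 2 → Mat R :=
  ![![![F3 0 0 - F3 1 0 + F3 2 0 + Sp 0 0,
        -Sp 0 0,
        2 * F3 0 0 - F3 1 0 + F3 2 0 - Sp 0 0],
      ![-F1 1 0 + F1 2 0 + F3 0 1 - F3 1 1 + F3 2 1 + Sp 0 1,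
        -F1 1 1 + F1 2 1 - Sp 0 1,
        -F1 1 2 + F1 2 2 + 2 * F3 0 1 - F3 1 1 + F3 2 1 - Sp 0 1],
      ![F1 0 0 - 2 * F1 1 0 + F1 2 0 + F3 0 2 - F3 1 2 + F3 2 2 + Sp 0 2,
        F1 0 1 - 2 * F1 1 1 + F1 2 1 - Sp 0 2,
        F1 0 2 - 2 * F1 1 2 + F1 2 2 + 2 * F3 0 2 - F3 1 2 + F3 2 2 - Sp 0 2]],
    ![![F1 0 0 - F1 1 0 - F1 2 0 + F3 1 0,
        F1 0 1 - F1 1 1 - F1 2 1 + F3 0 0 + F3 1 0 + Sp 0 0,
        F1 0 2 - F1 1 2 - F1 2 2 - F3 0 0 + F3 1 0 - F3 2 0],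
      ![F3 1 1,
        F3 0 1 + F3 1 1 + Sp 0 1,
        -F3 0 1 + F3 1 1 - F3 2 1],
      ![F1 0 0 - F1 2 0 + F3 1 2,
        F1 0 1 - F1 2 1 + F3 0 2 + F3 1 2 + Sp 0 2,
        F1 0 2 - F1 2 2 - F3 0 2 + F3 1 2 - F3 2 2]]]

theorem tab_CE (F1 F3 Sp : Mat R) (u : Fin 2) (e b : Fin 3) :
    ∑ c, (Z10 R u e c * F1 c b + Z12 R u b c * F3 c e) +
      ∑ a, sq (tr (w12 R)) (ZP R u) u b a * Sp a e =
      TCE F1 F3 Sp u e b := by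
  fin_cases u <;> fin_cases e <;> fin_cases b <;>
    simp [TCE, Z10, Z12, sq, Q2, tr, w12, ZP, uu, Fin.sum_univ_three] <;> ring

/-- table -/
def TCF (F2 F3 Sq : Mat R) : Fin 2 → Mat R :=
  ![![![F2 0 0 - F2 1 0 - F2 2 0 - 2 * F3 0 0 - F3 1 0 - F3 2 0 + Sq 0 0,
        F2 0 1 - F2 1 1 - F2 2 1 - Sq 0 0,
        F2 0 2 - F2 1 2 - F2 2 2 - F3 0 0 - F3 1 0 - F3 2 0 + Sq 0 0],
      ![-2 * F3 0 1 - F3 1 1 - F3 2 1 + Sq 0 1,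
        -Sq 0 1,
        -F3 0 1 - F3 1 1 - F3 2 1 + Sq 0 1],
      ![-F2 1 0 - F2 2 0 - 2 * F3 0 2 - F3 1 2 - F3 2 2 + Sq 0 2,
        -F2 1 1 - F2 2 1 - Sq 0 2,
        -F2 1 2 - F2 2 2 - F3 0 2 - F3 1 2 - F3 2 2 + Sq 0 2]],
    ![![3 * F2 1 0 + F3 1 0,
        3 * F2 1 1 - F3 0 0 + F3 1 0 + Sq 0 0,
        3 * F2 1 2 + F3 1 0 + F3 2 0 - 2 * Sq 0 0],
      ![F2 0 0 + F2 1 0 - 2 * F2 2 0 + F3 1 1,
        F2 0 1 + F2 1 1 - 2 * F2 2 1 - F3 0 1 + F3 1 1 + Sq 0 1,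
        F2 0 2 + F2 1 2 - 2 * F2 2 2 + F3 1 1 + F3 2 1 - 2 * Sq 0 1],
      ![F2 0 0 + F2 1 0 + F2 2 0 + F3 1 2,
        F2 0 1 + F2 1 1 + F2 2 1 - F3 0 2 + F3 1 2 + Sq 0 2,
        F2 0 2 + F2 1 2 + F2 2 2 + F3 1 2 + F3 2 2 - 2 * Sq 0 2]]]

theorem tab_CF (F2 F3 Sq : Mat R) (u : Fin 2) (e b : Fin 3) :
    ∑ c, (Z20 R u e c * F2 c b + Z21 R u b c * F3 c e) +
      ∑ a, sq (w12 R) (ZQ R u) u b a * Sq a e =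
      TCF F2 F3 Sq u e b := by
  fin_cases u <;> fin_cases e <;> fin_cases b <;>
    simp [TCF, Z20, Z21, sq, Q2, w12, ZQ, uu, Fin.sum_univ_three] <;> ring

end

section

variable {κ : Type*} [Field κ] [CharZero κ]

set_option maxHeartbeats 16000000 in
theorem pl_core (Sl Sp Sq Pp Pq : Mat κ) (g : Fin 3 → κ) (mu : Fin 2 → κ) (F1 F2 F3 : Mat κ)
    (hap : ∀ u, InSp (tr (w01 κ)) fun e b =>
      TG (tr (w01 κ)) (w12 κ) (Z10 κ u) (Z12 κ u) Sp Sl Sq g u e b - ∑ c, Z10 κ u b c * Pp c e)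
    (haq : ∀ u, InSp (tr (w02 κ)) fun e b =>
      TG (tr (w02 κ)) (tr (w12 κ)) (Z20 κ u) (Z21 κ u) Sq Sl Sp g u e b -
        ∑ c, Z20 κ u b c * Pq c e)
    (hbp : ∀ u e b, e ≠ b → ∑ c, (Z01 κ u e c * Pp c b + Z01 κ u b c * Pp c e) = - mu u)
    (hbq : ∀ u e b, e ≠ b → ∑ c, (Z02 κ u e c * Pq c b + Z02 κ u b c * Pq c e) = - mu u)
    (hc : ∀ u e b, e ≠ b →
      TG (w01 κ) (w02 κ) (Z01 κ u) (Z02 κ u) Sl Sp Sq g u e b +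
      TG (w01 κ) (w02 κ) (Z01 κ u) (Z02 κ u) Sl Sp Sq g u b e = mu u)
    (hd : ∀ u, InSp (w12 κ) fun e b =>
      ∑ c, (Z01 κ u e c * F1 c b + Z02 κ u b c * F2 c e) +
      ∑ c, (ZB κ u e c * Pq c b + ZC κ u b c * Pp c e) +
      (if e = 0 ∧ b = 0 then mu u else 0))
    (he : ∀ u, InSp (w02 κ) fun e b =>
      ∑ c, (Z10 κ u e c * F1 c b + Z12 κ u b c * F3 c e) +
      ∑ a, sq (tr (w12 κ)) (ZP κ u) u b a * Sp a e)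
    (hf : ∀ u, InSp (w01 κ) fun e b =>
      ∑ c, (Z20 κ u e c * F2 c b + Z21 κ u b c * F3 c e) +
      ∑ a, sq (w12 κ) (ZQ κ u) u b a * Sq a e)
    (hg : ∀ b, Sl b b = 0) :
    Sl = 0 ∧ Sp = 0 ∧ Sq = 0 ∧ Pp = 0 ∧ Pq = 0 ∧ g = 0 ∧ mu = 0 := by
  simp only [tab_Tl, tab_Tp, tab_Tq, tab_Ap, tab_Aq, tab_Bp, tab_Bq, tab_CD, tab_CE,
    tab_CF] at hap haq hbp hbq hc hd he hf
  obtain ⟨q0, q1, q2, q3, -, q5⟩ := insp_10 (hap 0)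
  have e0 : (Pp 1 0 - Pp 2 0 + 2 * Sl 2 1 + Sp 1 1 + 2 * Sq 2 1 + g 1) = 0 := q0
  have e1 : (Pp 1 1 - Pp 2 1 - Sl 1 1 - Sp 0 1 - Sq 0 1 - g 1) + (2 * Sl 2 0 + Sp 1 0 + 2 * Sq 2
      0 + g
      0) = 0 := q1
  have e2 : (-Pp 0 1 + 2 * Pp 1 1 - Pp 2 1 - Sl 1 2 - Sp 0 2 - Sq 0 2 - g 2) = 0 := q2
  have e3 : (Sl 2 0 - Sp 0 0 + Sp 1 0 + Sq 2 0) = 0 := q3
  have e5 : (-Pp 0 2 + 2 * Pp 1 2 - Pp 2 2 + Sl 2 2 - Sp 0 2 + Sp 1 2 + Sq 2 2) - (2 * Sl 2 0 +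
      Sp 1 0 +
      2 * Sq 2 0 + g 0) = 0 := q5
  obtain ⟨q6, q7, q8, q9, q10, -⟩ := insp_20 (haq 0)
  have e6 : (-Pq 0 0 + Pq 1 0 + Pq 2 0 + Sq 1 0 + g 0) = 0 := q6
  have e7 : (-Pq 0 1 + Pq 1 1 + Pq 2 1 - Sl 0 0 - Sp 0 0 - Sq 0 0 - g 0) + (Sq 1 1 + g 1) = 0 := q7
  have e8 : (Pq 1 1 + Pq 2 1 - Sl 0 2 - Sp 0 2 - Sq 0 2 - g 2) = 0 := q8
  have e9 : (-Pq 0 2 + Pq 1 2 + Pq 2 2 + Sl 2 0 - 2 * Sp 0 0 + Sp 2 0 - Sq 0 0 + Sq 1 0) + (Sq 1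
      1 + g
      1) - (Pq 1 0 + Pq 2 0 + Sq 1 2 + g 2) = 0 := q9
  have e10 : (Sl 2 1 - 2 * Sp 0 1 + Sp 2 1 - Sq 0 1 + Sq 1 1) = 0 := q10
  obtain ⟨q21, q22, q23, -, q25, q26⟩ := insp_12 (hd 0)
  have e21 : (F1 0 0 + F1 2 0 - F2 1 0 + F2 2 0 - Pp 0 0 + Pp 2 0 + Pq 1 0 + Pq 2 0 + mu 0) = 0
      := q21
  have e22 : (-F2 1 1 + F2 2 1 - Pp 0 1 + Pp 2 1) + (F1 0 1 + F1 2 1 + Pq 1 1 + Pq 2 1) = 0 := q22
  have e23 : (-F2 0 1 - F2 1 1 + F2 2 1) = 0 := q23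
  have e25 : (F1 1 1 + F1 2 1) = 0 := q25
  have e26 : (F1 1 2 + F1 2 2 - F2 0 2 - F2 1 2 + F2 2 2) + (0) = 0 := q26
  obtain ⟨q27, q28, q29, q30, q31, q32⟩ := insp_02 (he 0)
  have e27 : (F3 0 0 - F3 1 0 + F3 2 0 + Sp 0 0) = 0 := q27
  have e28 : (-F1 1 0 + F1 2 0 + F3 0 1 - F3 1 1 + F3 2 1 + Sp 0 1) + (-Sp 0 0) = 0 := q28
  have e29 : (-F1 1 2 + F1 2 2 + 2 * F3 0 1 - F3 1 1 + F3 2 1 - Sp 0 1) = 0 := q29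
  have e30 : (F1 0 0 - 2 * F1 1 0 + F1 2 0 + F3 0 2 - F3 1 2 + F3 2 2 + Sp 0 2) + (-Sp 0 0) - (2
      * F3 0 0
      - F3 1 0 + F3 2 0 - Sp 0 0) = 0 := q30
  have e31 : (F1 0 1 - 2 * F1 1 1 + F1 2 1 - Sp 0 2) = 0 := q31
  have e32 : (F1 0 2 - 2 * F1 1 2 + F1 2 2 + 2 * F3 0 2 - F3 1 2 + F3 2 2 - Sp 0 2) + (-F1 1 1 +
      F1 2 1 -
      Sp 0 1) = 0 := q32
  obtain ⟨q33, q34, q35, q36, q37, q38⟩ := insp_01 (hf 0)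
  have e33 : (F2 0 2 - F2 1 2 - F2 2 2 - F3 0 0 - F3 1 0 - F3 2 0 + Sq 0 0) = 0 := q33
  have e34 : (-2 * F3 0 1 - F3 1 1 - F3 2 1 + Sq 0 1) = 0 := q34
  have e35 : (-Sq 0 1) + (F2 0 0 - F2 1 0 - F2 2 0 - 2 * F3 0 0 - F3 1 0 - F3 2 0 + Sq 0 0) = 0
      := q35
  have e36 : (-F2 1 0 - F2 2 0 - 2 * F3 0 2 - F3 1 2 - F3 2 2 + Sq 0 2) + (F2 0 1 - F2 1 1 - F2 2
      1 - Sq
      0 0) + (-F3 0 1 - F3 1 1 - F3 2 1 + Sq 0 1) = 0 := q36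
  have e37 : (-F2 1 1 - F2 2 1 - Sq 0 2) = 0 := q37
  have e38 : (-F2 1 2 - F2 2 2 - F3 0 2 - F3 1 2 - F3 2 2 + Sq 0 2) - (F2 0 0 - F2 1 0 - F2 2 0 -
      2 * F3
      0 0 - F3 1 0 - F3 2 0 + Sq 0 0) = 0 := q38
  have q12 : Pp 0 1 + Pp 2 1 = - mu 0 := hbp 0 0 1 (by decide)
  have e12 : Pp 0 1 + Pp 2 1 + mu 0 = 0 := by
    rw [q12]; ring
  have q13 : Pp 0 2 + Pp 1 0 + Pp 2 0 + Pp 2 2 = - mu 0 := hbp 0 0 2 (by decide)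
  have e13 : Pp 0 2 + Pp 1 0 + Pp 2 0 + Pp 2 2 + mu 0 = 0 := by
    rw [q13]; ring
  have q14 : Pp 1 1 + Pp 2 1 = - mu 0 := hbp 0 1 2 (by decide)
  have e14 : Pp 1 1 + Pp 2 1 + mu 0 = 0 := by
    rw [q14]; ring
  have q15 : -Pq 1 1 + Pq 2 1 = - mu 0 := hbq 0 0 1 (by decide)
  have e15 : -Pq 1 1 + Pq 2 1 + mu 0 = 0 := by
    rw [q15]; ring
  have q16 : -Pq 0 0 - Pq 1 0 - Pq 1 2 + Pq 2 0 + Pq 2 2 = - mu 0 := hbq 0 0 2 (by decide)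
  have e16 : -Pq 0 0 - Pq 1 0 - Pq 1 2 + Pq 2 0 + Pq 2 2 + mu 0 = 0 := by
    rw [q16]; ring
  have q17 : -Pq 0 1 - Pq 1 1 + Pq 2 1 = - mu 0 := hbq 0 1 2 (by decide)
  have e17 : -Pq 0 1 - Pq 1 1 + Pq 2 1 + mu 0 = 0 := by
    rw [q17]; ring
  have q18 : (Sl 1 1 + Sp 0 1 + g 1) +
      (-Sl 0 0 - Sq 0 0 - g 0) = mu 0 := hc 0 0 1 (by decide)
  have e18 : (Sl 1 1 + Sp 0 1 + g 1) +
      (-Sl 0 0 - Sq 0 0 - g 0) - mu 0 = 0 := by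
    rw [q18]; ring
  have q19 : (Sl 1 2 + Sp 0 2 + g 2) +
      (-Sl 0 0 + Sl 1 0 + Sp 2 0 + Sq 2 0) = mu 0 := hc 0 0 2 (by decide)
  have e19 : (Sl 1 2 + Sp 0 2 + g 2) +
      (-Sl 0 0 + Sl 1 0 + Sp 2 0 + Sq 2 0) - mu 0 = 0 := by
    rw [q19]; ring
  have q20 : (-Sl 0 2 - Sq 0 2 - g 2) +
      (-Sl 0 1 + Sl 1 1 + Sp 2 1 + Sq 2 1) = mu 0 := hc 0 1 2 (by decide)
  have e20 : (-Sl 0 2 - Sq 0 2 - g 2) +
      (-Sl 0 1 + Sl 1 1 + Sp 2 1 + Sq 2 1) - mu 0 = 0 := by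
    rw [q20]; ring
  obtain ⟨q39, q40, q41, q42, q43, -⟩ := insp_10 (hap 1)
  have e39 : (-Sl 0 1 - Sp 1 1 + Sp 2 1 - Sq 2 1) = 0 := q39
  have e40 : (Sp 2 1 + Sq 1 1 + g 1) + (-Pp 0 0 + Pp 1 0 + Pp 2 0 - Sl 0 0 - Sp 1 0 + Sp 2 0 - Sq
      2 0) = 0 := q40
  have e41 : (-Pp 0 1 + Pp 2 1 + Sp 2 2 + Sq 1 2 + g 2) = 0 := q41
  have e42 : (-Pp 0 2 + Pp 1 2 + Pp 2 2 - Sl 2 0 - Sp 1 0 - Sq 2 0 - g 0) = 0 := q42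
  have e43 : (-Sl 2 1 - Sp 1 1 - Sq 2 1 - g 1) + (-Pp 0 0 + Pp 2 0 - Sl 0 2 - Sp 1 2 + Sp 2 2 -
      Sq 2 2) +
      (-Pp 0 1 + Pp 1 1 + Pp 2 1 + Sp 2 0 + Sq 1 0 + g 0) = 0 := q43
  obtain ⟨q45, q46, q47, q48, q49, q50⟩ := insp_20 (haq 1)
  have e45 : (-3 * Pq 1 0 + 2 * Sl 1 0 + Sl 2 0 + Sp 2 0 - Sq 1 0 + Sq 2 0) = 0 := q45
  have e46 : (-3 * Pq 1 1 + Sl 1 0 + Sp 1 0 + Sq 2 0 + g 0) + (-Pq 0 0 - Pq 1 0 + 2 * Pq 2 0 + 2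
      * Sl 1 1
      + Sl 2 1 + Sp 2 1 - Sq 1 1 + Sq 2 1) = 0 := q46
  have e47 : (-Pq 0 1 - Pq 1 1 - Pq 2 1 + Sl 1 2 + Sp 1 2 + Sq 2 2 + g 2) = 0 := q47
  have e48 : (-3 * Pq 1 2 - Sl 2 0 - Sp 2 0 - Sq 1 0 - g 0) + (-Pq 0 0 - Pq 1 0 + 2 * Pq 2 0 + 2
      * Sl 1 1
      + Sl 2 1 + Sp 2 1 - Sq 1 1 + Sq 2 1) - (-Pq 0 0 - Pq 1 0 - Pq 2 0 + 2 * Sl 1 2 + Sl 2 2 + Sp
      2 2 - Sq 1 2 + Sq 2 2) = 0 := q48
  have e49 : (-Pq 0 2 - Pq 1 2 + 2 * Pq 2 2 - Sl 2 1 - Sp 2 1 - Sq 1 1 - g 1) = 0 := q49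
  have e50 : (-Pq 0 2 - Pq 1 2 - Pq 2 2 - Sl 2 2 - Sp 2 2 - Sq 1 2 - g 2) + (-Pq 0 1 - Pq 1 1 + 2
      * Pq 2
      1 + Sl 1 1 + Sp 1 1 + Sq 2 1 + g 1) = 0 := q50
  obtain ⟨q60, q61, q62, q63, q64, q65⟩ := insp_12 (hd 1)
  have e60 : (-F1 0 0 + 2 * F1 1 0 - F1 2 0 + 3 * F2 1 0 + Pp 1 0 - Pq 2 0 + mu 1) = 0 := q60
  have e61 : (-F1 0 0 + F1 1 0 - F1 2 0 + 3 * F2 1 1 + Pp 1 1) + (-F1 0 1 + 2 * F1 1 1 - F1 2 1 -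
      F2 0 0
      + F2 1 0 + 2 * F2 2 0 - Pq 2 1) = 0 := q61
  have e62 : (-F1 0 2 + F1 1 2 - F1 2 2 + 2 * F2 0 1 + F2 1 1 - F2 2 1) = 0 := q62
  have e63 : (3 * F2 1 2 + Pp 1 2) - (-F1 0 1 + 2 * F1 1 1 - F1 2 1 - F2 0 0 + F2 1 0 + 2 * F2 2
      0 - Pq 2
      1) + (-F1 0 2 + 2 * F1 1 2 - F1 2 2 + 2 * F2 0 0 + F2 1 0 - F2 2 0 - Pq 2 2) = 0 := q63
  have e64 : (-F2 0 2 + F2 1 2 + 2 * F2 2 2) = 0 := q64
  have e65 : (2 * F2 0 2 + F2 1 2 - F2 2 2) + (-F1 0 1 + F1 1 1 - F1 2 1 - F2 0 1 + F2 1 1 + 2 *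
      F2 2 1) = 0 := q65
  obtain ⟨q66, q67, q68, q69, q70, q71⟩ := insp_02 (he 1)
  have e66 : (F1 0 0 - F1 1 0 - F1 2 0 + F3 1 0) = 0 := q66
  have e67 : (F3 1 1) + (F1 0 1 - F1 1 1 - F1 2 1 + F3 0 0 + F3 1 0 + Sp 0 0) = 0 := q67
  have e68 : (-F3 0 1 + F3 1 1 - F3 2 1) = 0 := q68
  have e69 : (F1 0 0 - F1 2 0 + F3 1 2) + (F1 0 1 - F1 1 1 - F1 2 1 + F3 0 0 + F3 1 0 + Sp 0 0) -
      (F1 0 2
      - F1 1 2 - F1 2 2 - F3 0 0 + F3 1 0 - F3 2 0) = 0 := q69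
  have e70 : (F1 0 1 - F1 2 1 + F3 0 2 + F3 1 2 + Sp 0 2) = 0 := q70
  have e71 : (F1 0 2 - F1 2 2 - F3 0 2 + F3 1 2 - F3 2 2) + (F3 0 1 + F3 1 1 + Sp 0 1) = 0 := q71
  obtain ⟨q72, q73, q74, q75, q76, q77⟩ := insp_01 (hf 1)
  have e72 : (3 * F2 1 2 + F3 1 0 + F3 2 0 - 2 * Sq 0 0) = 0 := q72
  have e73 : (F2 0 0 + F2 1 0 - 2 * F2 2 0 + F3 1 1) = 0 := q73
  have e74 : (F2 0 1 + F2 1 1 - 2 * F2 2 1 - F3 0 1 + F3 1 1 + Sq 0 1) + (3 * F2 1 0 + F3 1 0) =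
      0 := q74
  have e75 : (F2 0 0 + F2 1 0 + F2 2 0 + F3 1 2) + (3 * F2 1 1 - F3 0 0 + F3 1 0 + Sq 0 0) + (F2
      0 2 + F2
      1 2 - 2 * F2 2 2 + F3 1 1 + F3 2 1 - 2 * Sq 0 1) = 0 := q75
  have e76 : (F2 0 1 + F2 1 1 + F2 2 1 - F3 0 2 + F3 1 2 + Sq 0 2) = 0 := q76
  have e77 : (F2 0 2 + F2 1 2 + F2 2 2 + F3 1 2 + F3 2 2 - 2 * Sq 0 2) - (3 * F2 1 0 + F3 1 0) =
      0 := q77
  have q51 : -Pp 0 0 - Pp 0 1 + Pp 1 0 + 2 * Pp 1 1 - Pp 2 0 - Pp 2 1 = - mu 1 := hbp 1 0 1 (by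
      decide)
  have e51 : -Pp 0 0 - Pp 0 1 + Pp 1 0 + 2 * Pp 1 1 - Pp 2 0 - Pp 2 1 + mu 1 = 0 := by
    rw [q51]; ring
  have q52 : -Pp 0 2 + 2 * Pp 1 2 - Pp 2 2 = - mu 1 := hbp 1 0 2 (by decide)
  have e52 : -Pp 0 2 + 2 * Pp 1 2 - Pp 2 2 + mu 1 = 0 := by
    rw [q52]; ring
  have q53 : -Pp 0 2 + Pp 1 2 - Pp 2 2 = - mu 1 := hbp 1 1 2 (by decide)
  have e53 : -Pp 0 2 + Pp 1 2 - Pp 2 2 + mu 1 = 0 := by
    rw [q53]; ring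
  have q54 : -Pq 0 0 + Pq 1 0 + 3 * Pq 1 1 + 2 * Pq 2 0 = - mu 1 := hbq 1 0 1 (by decide)
  have e54 : -Pq 0 0 + Pq 1 0 + 3 * Pq 1 1 + 2 * Pq 2 0 + mu 1 = 0 := by
    rw [q54]; ring
  have q55 : 2 * Pq 0 0 + Pq 1 0 + 3 * Pq 1 2 - Pq 2 0 = - mu 1 := hbq 1 0 2 (by decide)
  have e55 : 2 * Pq 0 0 + Pq 1 0 + 3 * Pq 1 2 - Pq 2 0 + mu 1 = 0 := by
    rw [q55]; ring
  have q56 : 2 * Pq 0 1 - Pq 0 2 + Pq 1 1 + Pq 1 2 - Pq 2 1 + 2 * Pq 2 2 = - mu 1 := hbq 1 1 2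
      (by decide)
  have e56 : 2 * Pq 0 1 - Pq 0 2 + Pq 1 1 + Pq 1 2 - Pq 2 1 + 2 * Pq 2 2 + mu 1 = 0 := by
    rw [q56]; ring
  have q57 : (-Sl 1 1 + Sl 2 1 - Sp 0 1 + 2 * Sq 1 1 + Sq 2 1) +
      (Sl 2 0 + Sp 1 0 + Sq 1 0 + g 0) = mu 1 := hc 1 0 1 (by decide)
  have e57 : (-Sl 1 1 + Sl 2 1 - Sp 0 1 + 2 * Sq 1 1 + Sq 2 1) +
      (Sl 2 0 + Sp 1 0 + Sq 1 0 + g 0) - mu 1 = 0 := by
    rw [q57]; ring
  have q58 : (-Sl 1 2 + Sl 2 2 - Sp 0 2 + 2 * Sq 1 2 + Sq 2 2) +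
      (-Sl 1 0 - 2 * Sp 0 0 - Sq 2 0 - g 0) = mu 1 := hc 1 0 2 (by decide)
  have e58 : (-Sl 1 2 + Sl 2 2 - Sp 0 2 + 2 * Sq 1 2 + Sq 2 2) +
      (-Sl 1 0 - 2 * Sp 0 0 - Sq 2 0 - g 0) - mu 1 = 0 := by
    rw [q58]; ring
  have q59 : (Sl 2 2 + Sp 1 2 + Sq 1 2 + g 2) +
      (-Sl 1 1 - 2 * Sp 0 1 - Sq 2 1 - g 1) = mu 1 := hc 1 1 2 (by decide)
  have e59 : (Sl 2 2 + Sp 1 2 + Sq 1 2 + g 2) +
      (-Sl 1 1 - 2 * Sp 0 1 - Sq 2 1 - g 1) - mu 1 = 0 := by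
    rw [q59]; ring
  have e78 : Sl 0 0 = 0 := hg 0
  have e79 : Sl 1 1 = 0 := hg 1
  have e80 : Sl 2 2 = 0 := hg 2
  have f_Sq_0_0 : Sq 0 0 = 0 := by
    linear_combination -(391705 / 7375211) * e0 - (8760319 / 22125633) * e1 + (10170457 /
        22125633) * e2 +
      (14838304 / 22125633) * e3 - (2577005 / 22125633) * e5 + (6223796 / 22125633) * e6 -
      (16256690 / 22125633) * e7 - (197480 / 1164507) * e8 - (5202740 / 22125633) * e9 + (2171806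
      / 22125633) * e10 + (2748130 / 1164507) * e12 + (25187185 / 22125633) * e13 - (22162015 /
      7375211) * e14 - (16207562 / 22125633) * e15 - (16933270 / 22125633) * e16 + (55415182 /
      22125633) * e17 + (9708659 / 22125633) * e18 + (1607302 / 7375211) * e19 + (6013138 /
      22125633) * e20 - (4215419 / 7375211) * e21 + (36132080 / 22125633) * e22 - (17390188 /
      66376899) * e23 - (29965420 / 22125633) * e25 - (10552434 / 7375211) * e26 - (87190504 /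
      66376899) * e27 - (12974258 / 7375211) * e28 - (7303598 / 3493521) * e29 + (7997489 /
      7375211) * e30 + (28045054 / 22125633) * e31 + (65531986 / 66376899) * e32 - (85322420 /
      22125633) * e33 - (206228273 / 66376899) * e34 - (61794281 / 66376899) * e35 + (133373218 /
      66376899) * e36 + (284606270 / 66376899) * e37 - (25935502 / 22125633) * e38 - (6013138 /
      22125633) * e39 + (575375 / 7375211) * e40 - (5008199 / 22125633) * e41 - (2261018 /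
      22125633) * e43 + (248517 / 7375211) * e45 - (2914734 / 7375211) * e46 + (2577005 /
      22125633) * e47 - (170176 / 22125633) * e48 - (1672149 / 7375211) * e49 - (2366347 /
      7375211) * e50 + (13181150 / 22125633) * e51 - (10725591 / 7375211) * e52 + (19980321 /
      7375211) * e53 - (24988520 / 66376899) * e54 - (41674774 / 66376899) * e55 + (17318228 /
      22125633) * e56 + (1815337 / 22125633) * e57 - (810398 / 7375211) * e58 - (2261018 /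
      22125633) * e59 - (12973115 / 7375211) * e60 + (540424 / 388169) * e61 - (8893103 / 7375211)
      * e62 + (9566593 / 22125633) * e63 + (6437611 / 66376899) * e64 + (116636540 / 66376899) *
      e65 - (18698894 / 7375211) * e66 - (189542465 / 66376899) * e67 - (933420 / 388169) * e68 +
      (12211765 / 7375211) * e69 + (67454443 / 66376899) * e70 - (6964249 / 66376899) * e71 -
      (190693015 / 66376899) * e72 - (32765867 / 66376899) * e73 + (37428853 / 66376899) * e74 +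
      (23066809 / 66376899) * e75 + (88520135 / 66376899) * e76 - (88906924 / 66376899) * e77
  have f_Sq_0_1 : Sq 0 1 = 0 := by
    linear_combination (375 / 85088) * e0 + (1275 / 85088) * e1 - (1725 / 85088) * e2 - (75 /
        2659) * e3 + (225 /
      85088) * e5 - (225 / 21272) * e6 + (1725 / 42544) * e7 + (75 / 10636) * e8 + (225 / 21272) *
      e9 - (75 / 42544) * e10 - (2391 / 42544) * e12 - (4725 / 85088) * e13 + (2289 / 85088) * e14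
      + (4209 / 42544) * e15 + (1575 / 42544) * e16 - (5475 / 42544) * e17 - (2175 / 85088) * e18
      - (525 / 42544) * e19 - (525 / 42544) * e20 + (2325 / 85088) * e21 - (51 / 2659) * e22 +
      (40181 / 21272) * e23 - (2337 / 21272) * e25 + (12855 / 42544) * e26 - (1091 / 10636) * e27
      + (14055 / 42544) * e28 + (30227 / 42544) * e29 - (4719 / 85088) * e30 - (30579 / 42544) *
      e31 + (10577 / 42544) * e32 + (17437 / 21272) * e33 + (80375 / 85088) * e34 + (23871 /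
      85088) * e35 - (6431 / 42544) * e36 - (77481 / 42544) * e37 + (15107 / 42544) * e38 + (525 /
      42544) * e39 - (225 / 85088) * e40 + (675 / 85088) * e41 + (225 / 42544) * e43 - (75 /
      85088) * e45 + (825 / 42544) * e46 - (225 / 85088) * e47 + (1275 / 85088) * e49 + (1125 /
      85088) * e50 - (1275 / 42544) * e51 + (5625 / 85088) * e52 - (10575 / 85088) * e53 + (175 /
      10636) * e54 + (1325 / 42544) * e55 - (825 / 21272) * e56 - (525 / 85088) * e57 + (225 /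
      42544) * e58 + (225 / 42544) * e59 + (7125 / 85088) * e60 + (567 / 10636) * e61 + (65361 /
      85088) * e62 - (1125 / 85088) * e63 - (24941 / 85088) * e64 - (15637 / 21272) * e65 + (57 /
      42544) * e66 + (26647 / 85088) * e67 + (4807 / 21272) * e68 + (13941 / 85088) * e69 - (34685
      / 85088) * e70 + (57023 / 85088) * e71 + (53473 / 85088) * e72 + (16077 / 85088) * e73 +
      (38925 / 85088) * e74 - (1823 / 85088) * e75 - (58609 / 85088) * e76 + (14485 / 21272) * e77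
      + (34677 / 85088) * f_Sq_0_0
  have f_Pq_1_1 : Pq 1 1 = 0 := by
    linear_combination (3 / 2) * e0 + 2 * e1 - 4 * e2 - 4 * e3 - e6 + 10 * e7 + (3 / 2) * e8 + 2
        * e9 + (1 / 2) *
      e10 + (119 / 25) * e12 - (25 / 2) * e13 - (738 / 25) * e14 + (969 / 25) * e15 + 9 * e16 - 29
      * e17 - 7 * e18 - 3 * e19 - (5 / 2) * e20 + 6 * e21 + (344 / 25) * e22 + (24892 / 25) * e23
      - (3843 / 50) * e25 + (691 / 5) * e26 - (3723 / 50) * e27 + (746 / 5) * e28 + (8682 / 25) *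
      e29 - (352 / 25) * e30 - (9064 / 25) * e31 + (7289 / 50) * e32 + (55729 / 150) * e33 + (1367
      / 3) * e34 + (22133 / 150) * e35 - (4213 / 75) * e36 - (135401 / 150) * e37 + (13286 / 75) *
      e38 + (5 / 2) * e39 + e41 + e43 + 4 * e46 + (9 / 2) * e49 + 2 * e50 - 7 * e51 + (23 / 2) *
      e52 - 24 * e53 + (8 / 3) * e54 + (22 / 3) * e55 - (17 / 2) * e56 - 2 * e57 + e58 + e59 + 18
      * e60 + (1213 / 25) * e61 + (9688 / 25) * e62 + e63 - (3978 / 25) * e64 - (18093 / 50) * e65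
      - (913 / 25) * e66 + (6227 / 50) * e67 + (12769 / 150) * e68 + (2778 / 25) * e69 - (1006 /
      5) * e70 + (17693 / 50) * e71 + (43679 / 150) * e72 + (6523 / 75) * e73 + (772 / 3) * e74 -
      (593 / 50) * e75 - (17119 / 50) * e76 + (5147 / 15) * e77 + (1 / 2) * e79 + (10057 / 50) *
      f_Sq_0_0 - (39787 / 75) * f_Sq_0_1
  have f_Sq_0_2 : Sq 0 2 = 0 := by
    linear_combination -(24 / 25) * e12 + (48 / 25) * e14 - (24 / 25) * e15 - (24 / 25) * e22 -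
        (3817 / 150) * e23
      + (64 / 25) * e25 - (16 / 5) * e26 + (187 / 75) * e27 - (16 / 5) * e28 - (616 / 75) * e29 -
      (8 / 25) * e30 + (219 / 25) * e31 - (316 / 75) * e32 - (453 / 50) * e33 - (34 / 3) * e34 -
      (443 / 150) * e35 + (121 / 150) * e36 + (3071 / 150) * e37 - (229 / 50) * e38 - (48 / 25) *
      e61 - (248 / 25) * e62 + (239 / 75) * e64 + (667 / 75) * e65 + (48 / 25) * e66 - (163 / 75)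
      * e67 - (29 / 25) * e68 - (88 / 25) * e69 + (73 / 15) * e70 - (692 / 75) * e71 - (1009 /
      150) * e72 - (491 / 150) * e73 - (35 / 6) * e74 - (41 / 150) * e75 + (1247 / 150) * e76 -
      (127 / 15) * e77 - (247 / 50) * f_Sq_0_0 + (643 / 50) * f_Sq_0_1
  have f_Pp_2_1 : Pp 2 1 = 0 := by
    linear_combination (1 / 2) * e12 - (1 / 2) * e15 + (1 / 2) * e22 + (229 / 144) * e23 - (2 /
        3) * e25 + (1 / 3)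
      * e26 - (19 / 72) * e27 + (1 / 3) * e28 + (11 / 9) * e29 - (1 / 6) * e30 - (9 / 8) * e31 +
      (1 / 18) * e32 + (41 / 48) * e33 + (59 / 36) * e34 + (119 / 144) * e35 - (109 / 144) * e36 -
      (371 / 144) * e37 + (11 / 16) * e38 + (5 / 6) * e62 - (47 / 72) * e64 - (67 / 72) * e65 +
      (31 / 72) * e67 + (3 / 8) * e68 + (1 / 6) * e69 - (65 / 72) * e70 + (17 / 18) * e71 + (133 /
      144) * e72 + (23 / 144) * e73 + (119 / 144) * e74 - (43 / 144) * e75 - (155 / 144) * e76 +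
      (71 / 72) * e77 + (13 / 24) * f_Sq_0_2 + (19 / 48) * f_Sq_0_0 - f_Pq_1_1 - (71 / 48) *
      f_Sq_0_1
  have f_Sp_0_0 : Sp 0 0 = 0 := by
    linear_combination -3 * e12 + 3 * e15 - 3 * e22 + (155 / 32) * e23 + 3 * e25 + (23 / 16) *
        e27 - (5 / 2) * e29
      + (21 / 16) * e31 + (5 / 4) * e32 - (3 / 32) * e33 - (41 / 8) * e34 - (159 / 32) * e35 +
      (165 / 32) * e36 - (29 / 32) * e37 - (147 / 32) * e38 + (11 / 16) * e64 + (7 / 16) * e65 -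
      (7 / 16) * e67 - (11 / 16) * e68 + (41 / 16) * e70 - (5 / 4) * e71 - (61 / 32) * e72 - (47 /
      32) * e73 - (15 / 32) * e74 + (59 / 32) * e75 + (19 / 32) * e76 - (31 / 16) * e77 - (27 /
      32) * f_Sq_0_1 - (95 / 16) * f_Sq_0_2 - (1 / 32) * f_Sq_0_0 + 6 * f_Pp_2_1 + 6 * f_Pq_1_1
  have f_Sp_0_1 : Sp 0 1 = 0 := by
    linear_combination (22 / 5) * e12 - (22 / 5) * e15 + (22 / 5) * e22 - (43 / 4) * e23 - (22 /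
        5) * e25 - e26 -
      (67 / 30) * e27 + e29 - (3 / 10) * e31 - 2 * e32 - (41 / 20) * e33 + (18 / 5) * e34 + (301 /
      60) * e35 - (67 / 12) * e36 + (271 / 60) * e37 + (91 / 20) * e38 - 2 * e62 - (3 / 10) * e64
      + (9 / 10) * e65 - (9 / 10) * e67 + (29 / 30) * e68 - (23 / 10) * e70 + (13 / 20) * e72 +
      (31 / 20) * e73 - (7 / 12) * e74 - (121 / 60) * e75 + (19 / 60) * e76 + (29 / 30) * e77 +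
      (71 / 20) * f_Sq_0_1 + (47 / 15) * f_Sp_0_0 + (43 / 6) * f_Sq_0_2 - (44 / 5) * f_Pp_2_1 -
      (44 / 5) * f_Pq_1_1 - (41 / 60) * f_Sq_0_0
  have f_Pq_2_0 : Pq 2 0 = 0 := by
    linear_combination (13 / 5) * e12 + e13 - e14 - (8 / 5) * e15 - (1 / 2) * e16 - (1 / 2) * e21
        + (21 / 10) * e22
      - (7 / 16) * e23 - (13 / 5) * e25 + (21 / 40) * e27 - 2 * e28 - (13 / 40) * e31 - (1 / 2) *
      e32 + (257 / 240) * e33 - (61 / 60) * e34 - (1619 / 240) * e35 + (133 / 48) * e36 - (409 /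
      240) * e37 - (1207 / 240) * e38 + (1 / 2) * e51 - (1 / 2) * e52 + (3 / 2) * e53 + (1 / 6) *
      e54 - (1 / 6) * e55 - (3 / 2) * e60 - (1 / 2) * e63 + (37 / 40) * e64 - (11 / 40) * e65 -
      e66 - (29 / 40) * e67 - (191 / 120) * e68 - (33 / 40) * e70 - (281 / 240) * e72 + (253 /
      240) * e73 - (55 / 48) * e74 + (173 / 80) * e75 - (187 / 80) * e76 - (211 / 120) * e77 - (21
      / 5) * f_Pq_1_1 - (5 / 8) * f_Sq_0_2 - (727 / 240) * f_Sq_0_1 + (3 / 2) * f_Sp_0_1 - (87 /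
      80) * f_Sq_0_0 - (9 / 5) * f_Sp_0_0 - (16 / 5) * f_Pp_2_1
  have f_mu_1 : mu 1 = 0 := by
    linear_combination -(1 / 2) * e1 + (1 / 2) * e2 - (1 / 2) * e5 + (1 / 2) * e10 + (5 / 2) *
        e12 + 2 * e13 - (5 /
      2) * e14 + (1 / 2) * e15 - (3 / 2) * e17 - e21 + e22 + (15 / 4) * e23 - e25 + (11 / 6) * e27
      - 4 * e28 - (7 / 12) * e33 - (10 / 3) * e34 - (91 / 12) * e35 + (19 / 4) * e36 - (15 / 4) *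
      e37 - (91 / 12) * e38 + (1 / 2) * e47 + (1 / 2) * e49 + e51 - (3 / 2) * e52 + 4 * e53 + (2 /
      3) * e54 + (1 / 3) * e55 - (1 / 2) * e56 - 3 * e60 - (1 / 2) * e64 + (1 / 2) * e65 - 2 * e66
      - (1 / 2) * e67 - (7 / 2) * e68 - (29 / 12) * e72 - (23 / 12) * e73 + (17 / 12) * e74 + (23
      / 12) * e75 - (23 / 12) * e76 - (17 / 6) * e77 - (1 / 2) * e79 + (1 / 2) * e80 + (9 / 2) *
      f_Sp_0_1 - (16 / 3) * f_Sp_0_0 - 3 * f_Pq_1_1 - (79 / 12) * f_Sq_0_1 - 3 * f_Pq_2_0 - (17 /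
      12) * f_Sq_0_0 - (25 / 6) * f_Sq_0_2
  have f_Sp_0_2 : Sp 0 2 = 0 := by
    linear_combination (4 / 5) * e12 - (4 / 5) * e15 + (4 / 5) * e22 + (1 / 8) * e23 - (9 / 5) *
        e25 - (11 / 20) *
      e27 - (17 / 20) * e31 + (51 / 40) * e33 - (3 / 10) * e34 - (97 / 40) * e35 + (7 / 8) * e36 -
      (67 / 40) * e37 - (21 / 40) * e38 + (13 / 20) * e64 - (19 / 20) * e65 - (21 / 20) * e67 + (7
      / 20) * e68 + (3 / 20) * e70 - (3 / 40) * e72 + (39 / 40) * e73 - (5 / 8) * e74 + (37 / 40)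
      * e75 - (43 / 40) * e76 + (7 / 20) * e77 - (1 / 4) * f_Sq_0_2 + (17 / 40) * f_Sq_0_0 + (8 /
      5) * f_Sp_0_0 - (8 / 5) * f_Pp_2_1 - (8 / 5) * f_Pq_1_1 - (21 / 40) * f_Sq_0_1
  have f_mu_0 : mu 0 = 0 := by
    linear_combination (1 / 6) * e0 - (1 / 2) * e1 + (5 / 6) * e3 - (1 / 6) * e5 + (1 / 2) * e6 +
        (1 / 3) * e7 - (1
      / 3) * e8 + (1 / 2) * e12 + (1 / 6) * e13 + (1 / 2) * e14 - (1 / 2) * e15 - (3 / 2) * e16 +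
      (4 / 3) * e17 - (2 / 3) * e18 - (1 / 6) * e19 + (1 / 3) * e20 + e22 + e23 - 2 * e25 - (1 /
      3) * e27 - (1 / 3) * e30 - e31 + e33 - e34 - (10 / 3) * e35 + (5 / 3) * e36 - (10 / 3) * e37
      - 2 * e38 - (1 / 3) * e39 - (1 / 2) * e41 + (1 / 6) * e45 - (1 / 6) * e46 + (1 / 6) * e47 -
      (1 / 6) * e49 - (1 / 2) * e50 + (1 / 3) * e53 - (13 / 18) * e54 - (17 / 18) * e55 + (2 / 3)
      * e56 - (1 / 3) * e57 - (1 / 3) * e60 - e65 - e67 + (1 / 3) * e68 - (1 / 3) * e72 + (1 / 3)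
      * e73 + e75 - (5 / 3) * e76 - (1 / 2) * e78 + (1 / 3) * e79 - (1 / 3) * e80 - (1 / 6) *
      f_Sp_0_1 + (3 / 2) * f_Pq_2_0 + (1 / 2) * f_Pq_1_1 + (5 / 2) * f_Sp_0_0 - f_Sp_0_2 + (2 / 3)
      * f_mu_1 - (5 / 2) * f_Sq_0_1 - (4 / 3) * f_Sq_0_2 - 2 * f_Pp_2_1
  have f_Pp_2_0 : Pp 2 0 = 0 := by
    linear_combination 3 * e12 + e13 - 3 * e15 + 3 * e22 + 3 * e23 - 6 * e25 - e27 - e30 - 3 *
        e31 + 3 * e33 - 3 *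
      e34 - 10 * e35 + 5 * e36 - 10 * e37 - 6 * e38 - e52 + 2 * e53 - e60 - 3 * e65 - 3 * e67 +
      e68 - e72 + e73 + 3 * e75 - 5 * e76 - 2 * f_Sp_0_2 + 4 * f_Sp_0_0 - 4 * f_Sq_0_2 - f_Pq_2_0
      - f_mu_0 - 6 * f_Pp_2_1 - 6 * f_Pq_1_1 - 6 * f_Sq_0_1 + f_Sq_0_0
  have f_Sq_2_1 : Sq 2 1 = 0 := by
    linear_combination -(1 / 2) * e1 + (1 / 2) * e2 - (1 / 2) * e5 - e8 - (1 / 2) * e10 - (1 / 2)
        * e12 - (1 / 2) *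
      e14 + (3 / 2) * e15 - 3 * e16 + (7 / 2) * e17 + e20 - e39 - e41 + (1 / 2) * e47 - (1 / 2) *
      e49 - e50 + (1 / 2) * e52 - e54 - 2 * e55 + (3 / 2) * e56 - (1 / 2) * e79 - (1 / 2) * e80 +
      2 * f_Pp_2_1 + 7 * f_Pq_1_1 + f_mu_1 - f_Sp_0_2 + 3 * f_Pq_2_0 - f_Sq_0_1 - (3 / 2) *
      f_Sp_0_1 + (1 / 2) * f_Sq_0_2
  have f_Sl_2_0 : Sl 2 0 = 0 := by
    linear_combination -(1 / 4) * e1 - (1 / 4) * e2 + (1 / 2) * e3 - (1 / 4) * e5 + (1 / 2) * e6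
        - e7 + (3 / 4) *
      e10 - (1 / 4) * e12 + (3 / 4) * e14 + (3 / 4) * e15 + (1 / 4) * e17 + e18 - (1 / 2) * e19 +
      (1 / 2) * e45 - (1 / 2) * e46 + (1 / 4) * e47 + (1 / 4) * e49 + (1 / 4) * e52 + (1 / 3) *
      e54 + (1 / 6) * e55 - (1 / 4) * e56 - (1 / 2) * e78 - (1 / 4) * e79 + (1 / 4) * e80 - (1 /
      2) * f_mu_1 - f_mu_0 - (1 / 4) * f_Sq_0_2 - f_Pp_2_1 - (1 / 2) * f_Sp_0_0 + (1 / 4) *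
      f_Sp_0_1 + (1 / 2) * f_Sq_0_1 + (1 / 2) * f_Sq_2_1
  have f_g_1 : g 1 = 0 := by
    linear_combination -e1 + e2 - e5 + e12 - e14 + 2 * e15 - e17 + e47 + e52 - e79 + e80 -
        f_Sp_0_1 - f_Sq_0_1 -
      f_mu_0 - f_mu_1 + 2 * f_Pq_1_1 + f_Sq_0_2
  have f_Sp_1_2 : Sp 1 2 = 0 := by
    linear_combination -2 * e3 - e5 - e6 + e7 + e9 + e10 + 5 * e15 + e16 - 8 * e17 - e19 + e46 +
        e47 + 2 * e49 +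
      e52 + (7 / 3) * e54 + (5 / 3) * e55 - 3 * e56 + e59 - e79 - f_Sl_2_0 + f_Sp_0_0 - 4 *
      f_Pq_1_1 - 4 * f_Pq_2_0 + 4 * f_Sp_0_1 + f_g_1 + f_Sq_0_1 - f_mu_1 + 2 * f_Sq_0_0 + f_mu_0
  have f_Sp_2_0 : Sp 2 0 = 0 := by
    linear_combination 2 * e3 + e5 - 2 * e7 - 3 * e15 + 5 * e17 + e19 - e46 - e47 - e49 - e52 -
        (1 / 3) * e54 - (2
      / 3) * e55 + e56 - e78 + 2 * e79 - e80 + f_Sq_2_1 + f_mu_1 + 2 * f_Pq_2_0 - 2 * f_Sq_0_0 +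
      f_g_1 - f_mu_0
  have f_Sq_2_2 : Sq 2 2 = 0 := by
    linear_combination e2 + e12 - 2 * e14 + 2 * e15 - e17 + e47 - f_Sp_1_2 + 2 * f_Pq_1_1 +
        f_Sp_0_2 + f_Sq_0_2 + 2
      * f_Pp_2_1
  have f_g_2 : g 2 = 0 := by
    linear_combination e18 - e19 - e58 + 2 * e59 + e79 - e80 + f_Sq_2_2 - 2 * f_Sp_0_0 + f_mu_1 +
        f_Sp_2_0 - 2 *
      f_Sp_1_2 + f_g_1 + 3 * f_Sp_0_1 + 2 * f_Sq_2_1 + f_Sq_0_0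
  have f_Pq_1_2 : Pq 1 2 = 0 := by
    linear_combination -(1 / 2) * e10 - (1 / 2) * e15 + e17 - (1 / 2) * e49 + (1 / 2) * e56 - (1
        / 2) * f_g_1 - (1
      / 2) * f_mu_1 - (1 / 2) * f_mu_0 - (1 / 2) * f_Sq_0_1 - f_Sp_0_1
  have f_Sl_2_1 : Sl 2 1 = 0 := by
    linear_combination (1 / 2) * e0 + (1 / 2) * e8 - (1 / 2) * e13 - (1 / 2) * e15 - (1 / 2) *
        e20 + (1 / 2) * e39
      + (1 / 2) * e52 - e53 + (1 / 2) * e79 - (1 / 2) * f_g_1 + f_Pp_2_0 + (1 / 2) * f_Sp_0_2 -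
      f_Pq_1_1 + (1 / 2) * f_mu_0 + (1 / 2) * f_mu_1
  have f_g_0 : g 0 = 0 := by
    linear_combination -e18 - e78 + e79 + f_g_1 + f_Sp_0_1 - f_Sq_0_0 - f_mu_0
  have f_Sp_1_0 : Sp 1 0 = 0 := by
    linear_combination 2 * e3 + e5 - e52 - e80 + f_Sp_0_2 - f_Sp_1_2 - f_Sq_2_2 + f_g_0 + f_mu_1
        + 2 * f_Sp_0_0
  have f_Sq_1_1 : Sq 1 1 = 0 := by
    linear_combination e7 - e17 + e78 + f_g_0 + f_Sq_0_0 + f_Sp_0_0 - 2 * f_Pq_1_1 - f_g_1 + f_mu_0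
  have f_Pq_2_2 : Pq 2 2 = 0 := by
    linear_combination e16 + (1 / 3) * e54 + (2 / 3) * e55 - f_Pq_1_2 - f_Pq_2_0 - f_mu_0 -
        f_Pq_1_1 - f_mu_1
  have f_Sq_1_2 : Sq 1 2 = 0 := by
    linear_combination e59 + e79 - e80 - f_g_2 - f_Sp_1_2 + f_g_1 + 2 * f_Sp_0_1 + f_Sq_2_1 + f_mu_1
  have f_Sq_2_0 : Sq 2 0 = 0 := by
    linear_combination e3 + f_Sp_0_0 - f_Sp_1_0 - f_Sl_2_0
  have f_Sl_1_0 : Sl 1 0 = 0 := by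
    linear_combination e2 + e12 - 2 * e14 + e19 + e78 - f_Sp_2_0 - f_Sq_2_0 + 2 * f_mu_0 +
        f_Sq_0_2 + 2 * f_Pp_2_1
  have f_Pq_1_0 : Pq 1 0 = 0 := by
    linear_combination (2 / 3) * e54 + (1 / 3) * e55 - f_Pq_1_2 - f_Pq_2_0 - f_mu_1 - 2 * f_Pq_1_1
  have f_Sl_1_2 : Sl 1 2 = 0 := by
    linear_combination -e2 - e12 + 2 * e14 - f_g_2 - f_Sp_0_2 - f_Sq_0_2 - 2 * f_Pp_2_1 - f_mu_0
  have f_Sq_1_0 : Sq 1 0 = 0 := by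
    linear_combination e6 - e54 - f_g_0 + f_Pq_2_0 + 3 * f_Pq_1_1 + f_mu_1
  have f_Sp_2_1 : Sp 2 1 = 0 := by
    linear_combination e10 + f_Sq_0_1 - f_Sq_1_1 - f_Sl_2_1 + 2 * f_Sp_0_1
  have f_Pp_0_0 : Pp 0 0 = 0 := by
    linear_combination -e12 + e13 + 2 * e14 - e51 - e52 + 2 * e53 - 2 * f_Pp_2_1 - 2 * f_Pp_2_0 -
        2 * f_mu_0
  have f_Pp_1_0 : Pp 1 0 = 0 := by
    linear_combination e13 - e52 + 2 * e53 - f_Pp_2_0 - f_mu_0 - f_mu_1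
  have f_Sp_1_1 : Sp 1 1 = 0 := by
    linear_combination -e8 + e15 + e20 - e39 - e79 - 2 * f_Sq_2_1 - f_Sp_0_2 + 2 * f_Pq_1_1
  have f_Pq_0_2 : Pq 0 2 = 0 := by
    linear_combination e15 - 2 * e17 - e56 + f_Pq_1_2 + 2 * f_Pq_2_2 + f_mu_1 + f_mu_0
  have f_Pq_2_1 : Pq 2 1 = 0 := by
    linear_combination e15 + f_Pq_1_1 - f_mu_0
  have f_Sp_2_2 : Sp 2 2 = 0 := by
    linear_combination e12 + e41 - f_g_2 - f_Sq_1_2 - 2 * f_Pp_2_1 - f_mu_0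
  have f_Pq_0_0 : Pq 0 0 = 0 := by
    linear_combination -e54 + 3 * f_Pq_1_1 + f_Pq_1_0 + 2 * f_Pq_2_0 + f_mu_1
  have f_Pp_2_2 : Pp 2 2 = 0 := by
    linear_combination (1 / 2) * e42 - (1 / 2) * e53 + (1 / 2) * f_g_0 + (1 / 2) * f_Sp_1_0 + (1
        / 2) * f_Sl_2_0 +
      (1 / 2) * f_Sq_2_0 + (1 / 2) * f_mu_1
  have f_Pp_0_2 : Pp 0 2 = 0 := by
    linear_combination e52 - 2 * e53 - f_Pp_2_2 + f_mu_1
  have f_Pp_1_2 : Pp 1 2 = 0 := by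
    linear_combination e53 + f_Pp_0_2 + f_Pp_2_2 - f_mu_1
  have f_Pq_0_1 : Pq 0 1 = 0 := by
    linear_combination -e17 - f_Pq_1_1 + f_Pq_2_1 + f_mu_0
  have f_Sl_0_2 : Sl 0 2 = 0 := by
    linear_combination -e8 - f_g_2 - f_Sq_0_2 - f_Sp_0_2 + f_Pq_1_1 + f_Pq_2_1
  have f_Pp_0_1 : Pp 0 1 = 0 := by
    linear_combination e12 - f_Pp_2_1 - f_mu_0
  have f_Pp_1_1 : Pp 1 1 = 0 := by
    linear_combination e14 - f_Pp_2_1 - f_mu_0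
  have f_Sl_0_1 : Sl 0 1 = 0 := by
    linear_combination -e39 - f_Sp_1_1 + f_Sp_2_1 - f_Sq_2_1
  have f_Sl_0_0 : Sl 0 0 = 0 := by
    linear_combination e78
  have f_Sl_1_1 : Sl 1 1 = 0 := by
    linear_combination e79
  have f_Sl_2_2 : Sl 2 2 = 0 := by
    linear_combination e80
  refine ⟨?_, ?_, ?_, ?_, ?_, ?_, ?_⟩
  · funext b c
    fin_cases b <;> fin_cases c
    all_goals first
      | exact f_Sl_0_0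
      | exact f_Sl_0_1
      | exact f_Sl_0_2
      | exact f_Sl_1_0
      | exact f_Sl_1_1
      | exact f_Sl_1_2
      | exact f_Sl_2_0
      | exact f_Sl_2_1
      | exact f_Sl_2_2
  · funext b c
    fin_cases b <;> fin_cases c
    all_goals first
      | exact f_Sp_0_0
      | exact f_Sp_0_1
      | exact f_Sp_0_2
      | exact f_Sp_1_0
      | exact f_Sp_1_1
      | exact f_Sp_1_2
      | exact f_Sp_2_0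
      | exact f_Sp_2_1
      | exact f_Sp_2_2
  · funext b c
    fin_cases b <;> fin_cases c
    all_goals first
      | exact f_Sq_0_0
      | exact f_Sq_0_1
      | exact f_Sq_0_2
      | exact f_Sq_1_0
      | exact f_Sq_1_1
      | exact f_Sq_1_2
      | exact f_Sq_2_0
      | exact f_Sq_2_1
      | exact f_Sq_2_2
  · funext b c
    fin_cases b <;> fin_cases c
    all_goals first
      | exact f_Pp_0_0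
      | exact f_Pp_0_1
      | exact f_Pp_0_2
      | exact f_Pp_1_0
      | exact f_Pp_1_1
      | exact f_Pp_1_2
      | exact f_Pp_2_0
      | exact f_Pp_2_1
      | exact f_Pp_2_2
  · funext b c
    fin_cases b <;> fin_cases c
    all_goals first
      | exact f_Pq_0_0
      | exact f_Pq_0_1
      | exact f_Pq_0_2
      | exact f_Pq_1_0
      | exact f_Pq_1_1
      | exact f_Pq_1_2
      | exact f_Pq_2_0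
      | exact f_Pq_2_1
      | exact f_Pq_2_2
  · funext b
    fin_cases b
    all_goals first
      | exact f_g_0
      | exact f_g_1
      | exact f_g_2
  · funext u
    fin_cases u
    all_goals first
      | exact f_mu_0
      | exact f_mu_1

end

end SP_

end Pool.Agent.VCT
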