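import Pool.Agent.VCT.Defs

/-!
# Targets

Every target `T_X` is proved in its own file `Pool/Agent/VCT/X.lean` as `theorem p_X : T_X`.
See `Blueprint.lean.txt`.
-/

set_option autoImplicit false

namespace Pool.Agent.VCT

open Pool.Agent.VCC HilbPts

universe u

/-! ## Places -/

/-- Existence of places. -/
def T_PLACE : Prop := ∀ (R K F : Type u) [CommRing R] [Field K] [Field F] (ρ : R →+* K)
  (e : R →+* F), Function.Injective ρ → Function.Surjective e →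
  ∃ (κ : Type u) (_ : Field κ) (P : Place K κ) (ι : F →+* κ),
    ∀ x, ∃ h : ρ x ∈ P.B, P.r ⟨ρ x, h⟩ = ι (e x)

/-- Generic forms exist, over every field which contains the polynomial ring. -/
def T_GENX : Prop := ∀ (m : ℕ) (k κ : Type u) [Field k] [Field κ]
  (ρ : MvPolynomial (Fin m × Fin m × Fin 3 × Fin 3 × Fin 3) k →+* κ), Function.Injective ρ →
  Generic k κ fun i j c a b =>
    if i < j then ρ (MvPolynomial.X (i, j, c, a, b))
    else if j < i then ρ (MvPolynomial.X (j, i, c, b, a)) else 0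

/-- Primitive multiples. -/
def T_PRIM : Prop := ∀ (K κ : Type u) [Field K] [Field κ] (P : Place K κ) (J : Type)
  [Fintype J] (x : J → K),
  ((∃ j, x j ≠ 0) → ∃ c : K, c ≠ 0 ∧ ∃ y : J → P.B, (∀ j, c * x j = y j) ∧ ∃ j, y j = 1) ∧
  ((∀ j, x j ∈ P.B) ∨ ∃ c : P.B, P.r c = 0 ∧ ∃ y : J → P.B, (∀ j, c * x j = y j) ∧ ∃ j, y j = 1)

/-- Solutions of linear systems which are injective at the place are integral. -/
def T_LIFT : Prop := ∀ (K κ : Type u) [Field K] [Field κ] (P : Place K κ),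
  (∀ (w : Frm P.B) (ρ : Mat P.B) (z : Mat K), D2 (fun c a b => P.r (w c a b)) →
    (∀ a e, L2 (fun c a b => (w c a b : K)) z a e = ρ a e) →
    ∃ z' : Mat P.B, (∀ b c, z b c = z' b c) ∧ ∀ a e, L2 w z' a e = ρ a e) ∧
  (∀ (w1 w2 w3 : Frm P.B) (ρ : Fin 3 → Fin 3 → Fin 3 → P.B) (A B C : Mat K),
    D3 (fun c a b => P.r (w1 c a b)) (fun c a b => P.r (w2 c a b))
      (fun c a b => P.r (w3 c a b)) →
    (∀ a b d, L3 (fun c a b => (w1 c a b : K)) (fun c a b => (w2 c a b : K))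
      (fun c a b => (w3 c a b : K)) A B C a b d = ρ a b d) →
    ∃ A' B' C' : Mat P.B, (∀ b c, A b c = A' b c) ∧ (∀ b c, B b c = B' b c) ∧
      (∀ b c, C b c = C' b c) ∧ ∀ a b d, L3 w1 w2 w3 A' B' C' a b d = ρ a b d) ∧
  (∀ (w : Frm P.B) (M : Mat P.B), D2 (fun c a b => P.r (w c a b)) →
    InSp (fun c a b => (w c a b : K)) (fun a b => (M a b : K)) →
    InSp (fun c a b => P.r (w c a b)) (fun a b => P.r (M a b)))

/-- Solvability. -/
def T_SOLVE : Prop := ∀ (κ : Type u) [Field κ],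
  (∀ (w : Frm κ) (ρ : Mat κ), D2 w → ∃ z, ∀ a e, L2 w z a e = ρ a e) ∧
  (∀ (w1 w2 w3 : Frm κ) (ρ : Fin 3 → Fin 3 → Fin 3 → κ), D3 w1 w2 w3 →
    ∃ A B C, ∀ a b d, L3 w1 w2 w3 A B C a b d = ρ a b d)

/-! ## Special forms and generic forms -/

/-- special forms of the pair `(l, p)` -/
def w01 (R : Type*) [CommRing R] : Frm R :=
  ![![![0, 1, 0], ![0, 0, -1], ![0, 0, 0]], ![![0, 1, 0], ![0, 0, 0], ![-1, 0, 0]],
    ![![1, 0, 0], ![0, -1, 0], ![0, 0, 1]]]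
/-- special forms of the pair `(l, q)` -/
def w02 (R : Type*) [CommRing R] : Frm R :=
  ![![![0, 0, 1], ![0, 0, 0], ![1, 0, 0]], ![![0, 0, 0], ![0, 1, 0], ![0, 0, -1]],
    ![![0, 1, 1], ![-1, 0, 0], ![0, 0, 0]]]
/-- special forms of the pair `(p, q)` -/
def w12 (R : Type*) [CommRing R] : Frm R :=
  ![![![0, 0, 1], ![0, 0, 0], ![-1, 0, 0]], ![![0, 0, 0], ![0, 1, 0], ![0, 0, -1]],
    ![![0, 1, 0], ![-1, 0, 0], ![1, 0, 0]]]
/-- special forms of the other pairs -/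
def wlo (R : Type*) [CommRing R] : Frm R :=
  ![![![0, 1, 1], ![0, -2, -1], ![0, 1, 0]], ![![0, -1, 0], ![1, 2, 0], ![-1, -1, 0]],
    ![![0, 0, 1], ![1, 0, 0], ![0, 1, 0]]]

/-- position of a block -/
def ord {m : ℕ} (l p q i : Fin m) : ℕ :=
  if i = l then 0 else if i = p then 1 else if i = q then 2 else 3 + i

/-- special forms, by position -/
def wpos (R : Type*) [CommRing R] : ℕ → ℕ → Frm R
  | 0, 1 => w01 R
  | 0, 2 => w02 R
  | 1, 2 => w12 R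
  | _, _ => wlo R

/-- the special family of forms -/
def wsp {m : ℕ} (R : Type*) [CommRing R] (l p q : Fin m) : Arr m R := fun i j =>
  if ord l p q i < ord l p q j then wpos R (ord l p q i) (ord l p q j)
  else if ord l p q j < ord l p q i then tr (wpos R (ord l p q j) (ord l p q i)) else 0

/-- injectivity for pairs, special forms -/
def T_SP2 : Prop := ∀ (κ : Type u) [Field κ] [CharZero κ],
  D2 (w01 κ) ∧ D2 (tr (w01 κ)) ∧ D2 (w02 κ) ∧ D2 (tr (w02 κ)) ∧ D2 (w12 κ) ∧ D2 (tr (w12 κ)) ∧ D2 (wlo κ) ∧ D2 (tr (wlo κ))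

/-- injectivity for triples, special forms -/
def T_SP3 : Prop := ∀ (κ : Type u) [Field κ], D3 (w01 κ) (w02 κ) (w12 κ)

/-- the class `e_l + e_p + e_q`, special forms -/
def T_SPT : Prop := ∀ (m : ℕ) (κ : Type u) [Field κ] [CharZero κ] (l p q : Fin m), l ≠ p → l ≠ q →
  p ≠ q → ∀ z, ZOK (wsp κ l p q) z → ∀ F1 F2 F3, PT (wsp κ l p q) z l p q F1 F2 F3 →
  F1 = 0 ∧ F2 = 0 ∧ F3 = 0

/-- the class `e_l`, special forms -/
def T_SPL : Prop := ∀ (m : ℕ) (κ : Type u) [Field κ] [CharZero κ] (l p q : Fin m), l ≠ p → l ≠ q →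
  p ≠ q → ∀ z, ZOK (wsp κ l p q) z → ∀ X, CrsL (wsp κ l p q) l p q X →
  ∀ D, PL (wsp κ l p q) z X l p q D →
  D.S = 0 ∧ (∀ i, i ≠ l → D.P i = 0) ∧ D.g = 0 ∧ D.μ = 0 ∧ D.F1 = 0 ∧ D.F2 = 0 ∧ D.F3 = 0

/-- generic forms are good -/
def T_GEN : Prop := ∀ (m : ℕ) (k κ : Type u) [Field k] [Field κ] [CharZero k] (w : Arr m κ),
  Generic k κ w →
  (∀ i j, i ≠ j → D2 (w i j)) ∧
  (∀ i j l, i ≠ j → i ≠ l → j ≠ l → D3 (w i j) (w i l) (w j l)) ∧ GoodT w ∧ GoodL w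

/-! ## The spaces of functionals -/

/-- `V W = S³V` -/
def T_NOC : Prop := ∀ (m : ℕ) (K : Type u) [Field K] (w : Arr m K) (ε : K) (p q p' q' : Fin m),
  p ≠ q → p' ≠ q' → WSym w → (∀ i j, i ≠ j → D2 (w i j)) →
  (∀ i j l, i ≠ j → i ≠ l → j ≠ l → D3 (w i j) (w i l) (w j l)) →
  NoCubic (Fsp w ε p q p' q')

/-- dimension -/
def T_DIM : Prop := ∀ (m : ℕ) (K : Type u) [Field K] (w : Arr m K) (ε : K) (p q p' q' : Fin m),
  0 < m → p ≠ q → p' ≠ q' → WSym w → (∀ i j, i ≠ j → D2 (w i j)) →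
  Module.finrank K (Fsp w ε p q p' q') = 3 * m ^ 2 - 1

/-- from the linear condition to the linear system -/
def T_SYS : Prop := ∀ (m : ℕ) (K : Type u) [Field K] [CharZero K] (w : Arr m K) (z : Zar m K)
  (ε : K) (p q : Fin m) (X : Crs m K) (p' q' : Fin m) (X' : Crs m K),
  p ≠ q → p' ≠ q' → p ≠ p' → p ≠ q' → q ≠ p' → q ≠ q' →
  WSym w → ZOK w z → CrsOK w p q X → CrsOK w p' q' X' →
  (∀ i j, i ≠ j → D2 (w i j)) →
  ∀ lam : Fin m × Fin 3 → Fin m × Fin 3 → Fin m × Fin 3 → K, (∀ t y z, lam t y z = lam t z y) →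
  (∀ F ∈ Fsp w ε p q p' q', ∃ G : Fin m × Fin 3 → Fin m × Fin 3 → Fin m × Fin 3 → K,
    (∀ x, G x ∈ Fsp w ε p q p' q') ∧ TSym (fun x y z => (∑ t, F x t * lam t y z) + G x y z)) →
  EQ w z ε p q X p' q' X' (sOf lam) (fOf w lam) (gOf ε p q p' q' lam)

/-- normalisation: it suffices to show that the normalised solutions vanish -/
def T_RED : Prop := ∀ (m : ℕ) (K : Type u) [Field K] [CharZero K] (w : Arr m K) (z : Zar m K)
  (ε : K) (p q : Fin m) (X : Crs m K) (p' q' : Fin m) (X' : Crs m K),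
  p ≠ q → p' ≠ q' → p ≠ p' → p ≠ q' → q ≠ p' → q ≠ q' →
  WSym w → ZOK w z → CrsOK w p q X → CrsOK w p' q' X' →
  (∀ i j, i ≠ j → D2 (w i j)) →
  (∀ s f g, (∀ i j, f i j = f j i) → (∀ l b, s l b l b = 0) →
    EQ w z ε p q X p' q' X' s f g → s = 0 ∧ (∀ i j, i ≠ j → f i j = 0) ∧ g = 0) →
  T1 (Fsp w ε p q p' q') (Fsp w ε p q p' q')

/-! ## The perturbation -/

/-- the linear system has no normalised solution -/
def T_ASM : Prop := ∀ (m : ℕ) (K κ : Type u) [Field K] [Field κ] [CharZero κ] (P : Place K κ)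
  (w : Arr m P.B) (z : Zar m P.B) (ε : P.B) (p q : Fin m) (X : Crs m P.B) (p' q' : Fin m)
  (X' : Crs m P.B), p ≠ q → p' ≠ q' → p ≠ p' → p ≠ q' → q ≠ p' → q ≠ q' →
  WSym w → ZOK w z → CrsOK w p q X → CrsOK w p' q' X' → ε ≠ 0 → P.r ε = 0 →
  (∀ i j, i ≠ j → D2 (w.map P.r i j)) → GoodT (w.map P.r) → GoodL (w.map P.r) →
  ∀ s f g, (∀ i j, f i j = f j i) → (∀ l b, s l b l b = 0) →
    EQ (w.map P.B.subtype) (z.map P.B.subtype) (ε : K) p q (X.map P.B.subtype) p' q'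
      (X'.map P.B.subtype) s f g → s = 0 ∧ (∀ i j, i ≠ j → f i j = 0) ∧ g = 0

/-- spaces over an extension field suffice -/
def T_TRF : Prop := ∀ (n r : ℕ) (k K : Type u) [Field k] [CharZero k] [Field K] [Algebra k K]
  (b : Fin r → Fin n × Fin n) (μ : Fin n → Fin n → Fin r → K), Sym2' μ → Nrm b μ → Good μ →
  ∃ ν : Fin n → Fin n → Fin r → k, Sym2' ν ∧ Nrm b ν ∧ Good ν

/-- the existence over an extension field -/
def T_EXT : Prop := ∀ (m : ℕ) (k : Type u) [Field k] [CharZero k], 4 ≤ m →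
  ∃ (K : Type u) (_ : Field K) (_ : Algebra k K)
    (𝓕 : Submodule K (Fin m × Fin 3 → Fin m × Fin 3 → K)),
    (∀ F ∈ 𝓕, ∀ x y, F x y = F y x) ∧ Module.finrank K 𝓕 = 3 * m ^ 2 - 1 ∧ NoCubic 𝓕 ∧ T1 𝓕 𝓕

/-- The result. -/
def T_TOP : Prop := ∀ (n r : ℕ), 12 ≤ n → n % 3 = 0 → 3 * r + 3 = n ^ 2 →
  ∀ (k : Type u) [Field k] [IsAlgClosed k] [CharZero k],
  closure (VC n (1 + n + r) k) ∈ irreducibleComponents (Hilb n (1 + n + r) k)

end Pool.Agent.VCT
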